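import Pool.Agent.Lib.MP_ff61db_al.Coalg

/-! The filtration attached to a finite-dimensional subcoalgebra. -/

namespace Pool.Agent.Lib.MP_ff61db_al

open Submodule TensorProduct WithConv

variable {k H : Type} [Field k] [Ring H] [Bialgebra k H]

theorem exists_pow {V : Submodule k H} (hV : Growth V) (hgen : Algebra.adjoin k (V : Set H) = ⊤)
    (a : H) : ∃ n, a ∈ V ^ n := by
  have ha : a ∈ Algebra.adjoin k (V : Set H) := hgen ▸ Algebra.mem_top
  induction ha using Algebra.adjoin_induction with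
  | mem x hx => exact ⟨1, by rwa [pow_one]⟩
  | algebraMap r => exact ⟨0, by rw [pow_zero]; exact algebraMap_mem r⟩
  | add x y _ _ hx hy =>
    obtain ⟨a, ha⟩ := hx
    obtain ⟨b, hb⟩ := hy
    exact ⟨a + b, add_mem (hV.mono (by omega) ha) (hV.mono (by omega) hb)⟩
  | mul x y _ _ hx hy =>
    obtain ⟨a, ha⟩ := hx
    obtain ⟨b, hb⟩ := hy
    exact ⟨a + b, mul_mem_pow ha hb⟩

theorem exists_pow_fin {V : Submodule k H} (hV : Growth V)
    (hgen : Algebra.adjoin k (V : Set H) = ⊤) {ι : Type} [Finite ι] (v : ι → H) :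
    ∃ n, ∀ i, v i ∈ V ^ n := by
  choose c hc using exists_pow hV hgen
  obtain ⟨n, hn⟩ := (Set.finite_range fun i => c (v i)).bddAbove
  exact ⟨n, fun i => hV.mono (hn ⟨i, rfl⟩) (hc _)⟩

/-- The projection onto the augmentation ideal. -/
noncomputable def red (k H : Type) [Field k] [Ring H] [Bialgebra k H] : H →ₗ[k] H :=
  LinearMap.id - (Algebra.linearMap k H).comp Coalgebra.counit

theorem red_apply (x : H) : red k H x = x - (Coalgebra.counit x : k) • (1 : H) := by
  simp [red, Algebra.algebraMap_eq_smul_one]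

theorem red_comul {v : H} (hv : (Coalgebra.counit v : k) = 0) :
    Coalgebra.comul v - (v ⊗ₜ 1 + 1 ⊗ₜ v) =
      TensorProduct.map (red k H) (red k H) (Coalgebra.comul v) := by
  rw [← sub_eq_zero]
  refine tensor_zero fun φ ψ => ?_
  have e : ∀ φ : H →ₗ[k] k, toConv (φ.comp (red k H)) = toConv φ - φ 1 • (1 : Du k H) := by
    intro φ
    ext x
    change φ (red k H x) = φ x - φ 1 • (1 : Du k H).ofConv x
    rw [red_apply, du_one, map_sub, map_smul, smul_eq_mul, smul_eq_mul, mul_comm]
  have h := du_mul (toConv (φ.comp (red k H))) (toConv (ψ.comp (red k H))) v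
  rw [map_sub, pair_map, ← h, e, e, sub_mul, mul_sub, mul_sub, mul_smul_comm, smul_mul_assoc,
    mul_smul_comm, mul_one, mul_one, one_mul]
  change _ - ((toConv φ * toConv ψ).ofConv v - ψ 1 • φ v -
    (φ 1 • ψ v - ψ 1 • φ 1 • (1 : Du k H).ofConv v)) = 0
  rw [du_mul, du_one, hv]
  simp only [map_sub, map_add, pair_tmul, smul_eq_mul]
  ring

theorem map_sum_sum (s : Finset ℕ) (f : ℕ → H →ₗ[k] H) (t : H ⊗[k] H) :
    TensorProduct.map (∑ a ∈ s, f a) (∑ a ∈ s, f a) t =
      ∑ a ∈ s, ∑ b ∈ s, TensorProduct.map (f a) (f b) t := by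
  induction t with
  | zero => simp
  | tmul x y => simp only [map_tmul, LinearMap.sum_apply, sum_tmul]; simp only [tmul_sum]
  | add s t hs ht => simp only [map_add, hs, ht, Finset.sum_add_distrib]

theorem Wd_shift {ι : Type} {z : ι → H} {e : ι → ℤ} {b d : ℤ} {v : H} (hv : v ∈ Wd k z e b 0)
    (l : List ι) (h : (l.map e).sum + b ≤ d) : (l.map z).prod * v ∈ Wd k z e d 0 := by
  induction hv using span_induction with
  | zero => simp
  | add u v _ _ hu hv => rw [mul_add]; exact add_mem hu hv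
  | smul c u _ hu => rw [mul_smul_comm]; exact smul_mem _ _ hu
  | mem u hu =>
    obtain ⟨l', rfl, hl⟩ := hu
    refine subset_span ⟨l ++ l', by simp, ?_⟩
    rw [List.map_append, List.sum_append]
    omega

theorem noeth_of_conil {V : Submodule k H} (hV : Growth V)
    (hgen : Algebra.adjoin k (V : Set H) = ⊤) {K : Submodule k H} (hK : Cl K) (h1 : (1 : H) ∈ K)
    {N : ℕ} (hN : (K ⊓ LinearMap.ker (Coalgebra.counit (R := k) (A := H))) ^ N = ⊥)
    {S : Type} [Finite S] (g : S → Hˣ)
    (hg : ∀ s, Coalgebra.comul (g s : H) = (g s : H) ⊗ₜ[k] (g s : H))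
    (hinv : ∀ s, ∃ s', g s' = (g s)⁻¹) (hKg : ∀ s, ∀ x ∈ K, g s * x * ↑(g s)⁻¹ ∈ K)
    (Y : Submodule k H) (hY : Y.FG) {n : ℕ} (hYU : Y ≤ Uw K n) :
    ∃ B : Subalgebra k H, (∀ y ∈ Y, y ∈ B) ∧ (∀ s, ∀ b ∈ B, g s * b * ↑(g s)⁻¹ ∈ B) ∧
      IsNoetherianRing B ∧ IsNoetherianRing Bᵐᵒᵖ := by
  classical
  let Δ := Bialgebra.comulAlgHom k H
  let ε := Bialgebra.counitAlgHom k H
  have hU1 : ∀ a, (1 : H) ∈ Uw K (a + 1) := fun a => Uw_mono hK (by omega) (le_Uw_one hK h1)
  obtain ⟨C, c1, c2, c3, c4⟩ := exists_fd (Y ⊔ span k {1}) (hY.sup (fg_span_singleton _))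
  have hC1 : (1 : H) ∈ C := c3 (mem_sup_right (mem_span_singleton_self _))
  have hCU : C ≤ Uw K (n + 1) := c4 _ (Uw_cl hK _)
    (sup_le (hYU.trans (Uw_mono hK (by omega))) ((span_singleton_le_iff_mem _ _).2 (hU1 n)))
  have : Module.Finite k C := Module.Finite.iff_fg.2 c1
  let Cp : ℕ → Submodule k H := fun a =>
    Uw K (a + 1) ⊓ C ⊓ LinearMap.ker (Coalgebra.counit (R := k) (A := H))
  have hfg : ∀ a, (Cp a).FG := fun a => Module.Finite.iff_fg.1
    (Submodule.finiteDimensional_of_le (S₂ := C) (inf_le_left.trans inf_le_right))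
  choose s hs using hfg
  have hred : ∀ a, ∀ y ∈ Uw K (a + 1) ⊓ C, red k H y ∈ Cp a := by
    intro a y hy
    rw [red_apply]
    exact ⟨sub_mem hy (smul_mem _ _ ⟨hU1 a, hC1⟩), by simp⟩
  let X : Type := (a : Fin (n + 1)) × {v // v ∈ s a}
  let x : X → H := fun p => p.2.1
  let dx : X → ℤ := fun p => N * (p.1 : ℕ) - 1
  have hx : ∀ p : X, x p ∈ Cp p.1 := fun p => hs p.1 ▸ subset_span p.2.2
  let z : List S × X → H := fun p => ev x g (p.1.map Sum.inr, p.2)
  let e : List S × X → ℤ := fun p => dx p.2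
  let F : ℤ → Submodule k H := fun d => Wd k z e (d + 1) 0
  have zc : ∀ t l i, z (t :: l, i) = g t * z (l, i) * ↑(g t)⁻¹ := fun _ _ _ => rfl
  have Fmono : Monotone F := fun a b h => Wd_mono' (by omega) 0
  have Fone : (1 : H) ∈ F 0 := subset_span ⟨[], by simp, by simp⟩
  have Fmul : ∀ {a b u v}, u ∈ F a → v ∈ F b → u * v ∈ F (a + b) := by
    intro a b u v hu hv
    induction hu using span_induction with
    | zero => simp
    | add u v _ _ hu hv => rw [add_mul]; exact add_mem hu hv
    | smul c u _ hu => rw [smul_mul_assoc]; exact smul_mem _ _ hu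
    | mem u hu =>
      obtain ⟨l, rfl, hl⟩ := hu
      exact Wd_shift hv l (by omega)
  have zF : ∀ p, z p ∈ F (e p) := fun p => subset_span ⟨[p], by simp, by simp⟩
  have CpF : ∀ a < n + 1, Cp a ≤ F (N * a - 1) := by
    intro a ha
    rw [← hs a, span_le]
    exact fun v hv => zF ([], ⟨⟨a, ha⟩, v, hv⟩)
  have Fconj : ∀ t d, ∀ a ∈ F d, g t * a * ↑(g t)⁻¹ ∈ F d := by
    intro t d a ha
    induction ha using span_induction with
    | zero => simp
    | add u v _ _ hu hv => rw [mul_add, add_mul]; exact add_mem hu hv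
    | smul c u _ hu => rw [mul_smul_comm, smul_mul_assoc]; exact smul_mem _ _ hu
    | mem u hu =>
      obtain ⟨l, rfl, hl⟩ := hu
      refine subset_span ⟨l.map fun p => (t :: p.1, p.2), ?_, by
        simpa [Function.comp_def, e] using hl⟩
      clear hl
      induction l with
      | nil => simp
      | cons p l ih =>
        simp only [List.map_cons, List.prod_cons, zc, ← ih, mul_assoc, Units.inv_mul_cancel_left]
  have px : ∀ p, Prim Δ ε F (dx p) (x p) := by
    intro p
    refine ⟨zF ([], p), (hx p).2, ?_⟩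
    choose P p1 p2 using fun a => exists_proj (Uw K a ⊓ C)
    have h0 : P 0 = 0 := LinearMap.ext fun y => by
      have : P 0 y ∈ Uw K 0 := (p1 0 y).1
      rwa [Uw_zero, mem_bot] at this
    have hsum : (red k H).comp (P (n + 1)) =
        ∑ a ∈ Finset.range (n + 1), (red k H).comp (P (a + 1) - P a) := by
      have := Finset.sum_range_sub P (n + 1)
      rw [h0, sub_zero] at this
      ext y
      rw [← this]
      simp only [LinearMap.comp_apply, LinearMap.sum_apply, map_sum]
    change Coalgebra.comul (x p) - _ ∈ _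
    rw [red_comul (hx p).2, ← c2.map_comul (p := P (n + 1)) (fun y hy => p2 _ y ⟨hCU hy, hy⟩)
      (hx p).1.2, ← LinearMap.comp_apply, ← TensorProduct.map_comp, hsum, map_sum_sum]
    refine sum_mem fun a ha => sum_mem fun b hb => ?_
    have hq : ∀ a y, (red k H).comp (P (a + 1) - P a) y ∈ Cp a := fun a y =>
      hred a _ (sub_mem (p1 _ y) (inf_le_inf_right C (Uw_mono hK (by omega)) (p1 a y)))
    by_cases hab : a + b ≤ p.1
    · generalize (Coalgebra.comul (x p) : H ⊗[k] H) = t
      induction t with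
      | zero => simp
      | add s t hs ht => rw [map_add]; exact add_mem hs ht
      | tmul u v =>
        rw [map_tmul]
        refine tmul_mem_FF (CpF a (Finset.mem_range.1 ha) (hq a u))
          (CpF b (Finset.mem_range.1 hb) (hq b v)) ?_
        have : (N : ℤ) * (a + b : ℕ) ≤ N * (p.1 : ℕ) := by exact_mod_cast Nat.mul_le_mul_left N hab
        simp only [dx]
        push_cast at this
        linarith
    · have hk : ∀ (φ : H →ₗ[k] k) a, ∀ y ∈ Uw K a ⊓ C,
          φ.comp ((red k H).comp (P (a + 1) - P a)) y = 0 := by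
        intro φ a y hy
        simp [p2 a y hy, p2 (a + 1) y (inf_le_inf_right C (Uw_mono hK (by omega)) hy)]
      rw [tensor_zero (t := TensorProduct.map _ _ _) fun φ ψ => ?_]
      · exact zero_mem _
      rw [pair_map]
      exact Uw_pair hK c2 (φ := toConv _) (ψ := toConv _) (hk φ a) (hk ψ b)
        ⟨Uw_mono hK (by omega) (hx p).1.1, (hx p).1.2⟩
  have pz : ∀ l i, Prim Δ ε F (dx i) (z (l, i)) := by
    intro l i
    induction l with
    | nil => exact px i
    | cons t l ih => exact ih.conj (hg t) (Fconj t)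
  have hF : Fil Δ ε F := by
    refine ⟨Fmono, Fmul, Fone, fun u hu => ?_, fun {d u} hu => ?_⟩
    · refine (span_le.2 ?_ : F (-1) ≤ LinearMap.ker ε.toLinearMap) hu
      rintro _ ⟨l, rfl, hl⟩
      rcases l with _ | ⟨p, l⟩
      · simp at hl
      · change ε _ = 0
        rw [List.map_cons, List.prod_cons, map_mul, (pz p.1 p.2).eps, zero_mul]
    · refine (span_le.2 ?_ : F d ≤ (FF F d).comap Δ.toLinearMap) hu
      rintro _ ⟨l, rfl, hl⟩
      refine FF_mono (d := (l.map e).sum) (by omega) ?_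
      change Δ _ ∈ _
      clear hl
      induction l with
      | nil => simpa [Algebra.TensorProduct.one_def] using tmul_mem_FF Fone Fone le_rfl
      | cons p l ih =>
        rw [List.map_cons, List.map_cons, List.prod_cons, map_mul, List.sum_cons]
        refine FF_mul (F := F) (fun hu hv => Fmul hu hv) ?_ ih
        have := add_mem (FF_mono (d' := e p) (sub_le_self _ zero_le_one) (pz p.1 p.2).cop)
          (Prim.sym Fone (zF p))
        rwa [sub_add_cancel] at this
  have low : F (-N) = ⊥ := by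
    set Kp := K ⊓ LinearMap.ker (Coalgebra.counit (R := k) (A := H))
    have big : ∀ j, N ≤ j → ∀ w ∈ Kp ^ j, w = 0 := by
      intro j hj w hw
      obtain ⟨j, rfl⟩ := Nat.exists_eq_add_of_le hj
      rwa [pow_add, hN, bot_mul, mem_bot] at hw
    have zK : ∀ l (i : X), (i.1 : ℕ) = 0 → z (l, i) ∈ Kp := by
      intro l i hi
      refine ⟨?_, (pz l i).eps⟩
      induction l with
      | nil =>
        have := (hx i).1.1
        rw [hi] at this
        exact Uw_one_le this
      | cons t l ih => exact hKg t _ ih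
    have key : ∀ (l : List (List S × X)) (j : ℕ), ∀ w ∈ Kp ^ j, (l.map e).sum - j ≤ -N →
        w * (l.map z).prod = 0 := by
      intro l
      induction l with
      | nil => intro j w hw h; rw [big j (by simpa using h) w hw, zero_mul]
      | cons p l ih =>
        intro j w hw h
        rw [List.map_cons, List.sum_cons] at h
        rw [List.map_cons, List.prod_cons, ← mul_assoc]
        by_cases h0 : (p.2.1 : ℕ) = 0
        · refine ih (j + 1) _ (by rw [pow_succ]; exact mul_mem_mul hw (zK p.1 p.2 h0)) ?_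
          simp only [e, dx, h0] at h
          push_cast at h ⊢
          linarith
        by_cases hj : N ≤ j
        · rw [big j hj w hw, zero_mul, zero_mul]
        have h2 := ih 0 1 (by rw [pow_zero]; exact Submodule.one_le.1 le_rfl) (by
          have : (N : ℤ) * 1 ≤ N * (p.2.1 : ℕ) := by
            exact_mod_cast Nat.mul_le_mul_left N (Nat.one_le_iff_ne_zero.2 h0)
          simp only [e, dx] at h ⊢
          push_cast
          omega)
        rw [one_mul] at h2
        rw [h2, mul_zero]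
    refine eq_bot_iff.2 (span_le.2 ?_)
    rintro _ ⟨l, rfl, hl⟩
    simpa using key l 0 1 (by rw [pow_zero]; exact Submodule.one_le.1 le_rfl) (by omega)
  let B : Subalgebra k H :=
    { carrier := {a | ∃ d, a ∈ F d}
      mul_mem' := fun ⟨a, ha⟩ ⟨b, hb⟩ => ⟨a + b, Fmul ha hb⟩
      add_mem' := fun ⟨a, ha⟩ ⟨b, hb⟩ =>
        ⟨max a b, add_mem (Fmono (le_max_left _ _) ha) (Fmono (le_max_right _ _) hb)⟩
      algebraMap_mem' := fun r =>
        ⟨0, by rw [Algebra.algebraMap_eq_smul_one]; exact smul_mem _ _ Fone⟩ }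
  obtain ⟨c, hc⟩ := exists_pow_fin hV hgen (Sum.elim x fun t => (g t : H))
  refine ⟨B, fun y hy => ?_, fun t b ⟨d, hd⟩ => ⟨d, Fconj t d b hd⟩,
    core hV hF px hg hinv Fconj low (fun d => span_mono ?_) (fun i => hc (.inl i))
      (fun t => hc (.inr t)) B fun _ => Iff.rfl⟩
  · have h2 := c3 (mem_sup_left hy)
    have h3 : red k H y ∈ B := ⟨_, CpF n (by omega) (hred n y ⟨hCU h2, h2⟩)⟩
    rw [red_apply] at h3
    simpa using B.add_mem h3 (B.smul_mem B.one_mem (Coalgebra.counit y))
  · rintro _ ⟨l, rfl, hl⟩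
    have : ∀ p : List S × X, dg dx (p.1.map Sum.inr, p.2) = e p := fun p => by
      simp [dg, Function.comp_def, dop, e]
    exact ⟨l.map fun p => (p.1.map Sum.inr, p.2), by simp [Function.comp_def, z],
      by simpa [Function.comp_def, this] using hl⟩

end Pool.Agent.Lib.MP_ff61db_al
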