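import Pool.Agent.Lib.MP_ff61db_al.PDefs

set_option autoImplicit false

namespace Pool.Agent.Lib.MP_ff61db_al

open Polynomial TensorProduct

section
variable {A : Type} [Monoid A] {g : ℕ} (x : Fin g → A)

@[simp] theorem wd_nil : wd x [] = 1 := by simp [wd]

@[simp] theorem wd_cons (i : Fin g) (w : List (Fin g)) : wd x (i :: w) = x i * wd x w := by
  simp [wd]

@[simp] theorem wd_append (u w : List (Fin g)) : wd x (u ++ w) = wd x u * wd x w := by
  simp [wd]

theorem wd_flatten (L : List (List (Fin g))) : wd x L.flatten = (L.map (wd x)).prod := by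
  induction L with
  | nil => simp
  | cons u L ih => simp [ih]

theorem map_wd {B F : Type} [Monoid B] [FunLike F A B] [MonoidHomClass F A B] (f : F)
    (w : List (Fin g)) : f (wd x w) = wd (fun i => f (x i)) w := by
  induction w with
  | nil => simp
  | cons i w ih => simp [ih]

end

section
variable {k H : Type} [Field k] [Ring H] [Algebra k H]

theorem exists_gen [Algebra.FiniteType k H] : ∃ (g : ℕ) (x : Fin g → H), Gen k x := by
  obtain ⟨s, hs⟩ := (Algebra.FiniteType.out : (⊤ : Subalgebra k H).FG)
  refine ⟨s.card, fun i => (s.equivFin.symm i : H), ?_⟩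
  unfold Gen
  rw [← hs]
  congr 1
  ext u
  constructor
  · rintro ⟨i, rfl⟩
    exact (s.equivFin.symm i).2
  · intro hu
    exact ⟨s.equivFin ⟨u, hu⟩, by simp⟩

theorem Gen.finiteType {g : ℕ} {x : Fin g → H} (hx : Gen k x) : Algebra.FiniteType k H := by
  exact ⟨Subalgebra.fg_def.2 ⟨_, Set.finite_range x, hx⟩⟩

theorem Gen.span_wd {g : ℕ} {x : Fin g → H} (hx : Gen k x) :
    Submodule.span k (Set.range (wd x)) = ⊤ := by
  have h1 : Submodule.span k (Submonoid.closure (Set.range x) : Set H) = ⊤ := by
    rw [← Algebra.adjoin_eq_span, show Algebra.adjoin k (Set.range x) = ⊤ from hx]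
    rfl
  rw [eq_top_iff, ← h1]
  refine Submodule.span_mono fun u hu => ?_
  induction hu using Submonoid.closure_induction with
  | mem u hu =>
    obtain ⟨i, rfl⟩ := hu
    exact ⟨[i], by simp⟩
  | one => exact ⟨[], by simp⟩
  | mul u v _ _ hu hv =>
    obtain ⟨a, rfl⟩ := hu
    obtain ⟨b, rfl⟩ := hv
    exact ⟨a ++ b, by simp⟩

theorem Gen.op {g : ℕ} {x : Fin g → H} (hx : Gen k x) : Gen k (fun i => MulOpposite.op (x i)) := by
  unfold Gen at *
  have h1 : (Set.range fun i => MulOpposite.op (x i)) = MulOpposite.unop ⁻¹' Set.range x := by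
    ext u
    constructor
    · rintro ⟨i, rfl⟩
      exact ⟨i, rfl⟩
    · rintro ⟨i, hi⟩
      exact ⟨i, by simp [hi]⟩
  rw [h1, ← Subalgebra.op_adjoin, hx, Subalgebra.op_top]

theorem Gen.map {g : ℕ} {x : Fin g → H} (hx : Gen k x) {H' : Type} [Ring H'] [Algebra k H']
    (f : H →ₐ[k] H') (hf : Function.Surjective f) : Gen k (fun i => f (x i)) := by
  unfold Gen at *
  have h1 : (Set.range fun i => f (x i)) = f '' Set.range x := by
    rw [← Set.range_comp]
    rfl
  rw [h1, ← AlgHom.map_adjoin, hx, Algebra.map_top, (AlgHom.range_eq_top f).2 hf]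

/-- conjugate the permutations by `Fin.revPerm` -/
theorem MPI.op {d : ℕ} (h : MPI k H d) : MPI k Hᵐᵒᵖ d := by
  obtain ⟨c, hc, h⟩ := h
  let r : Equiv.Perm (Fin d) := Fin.revPerm
  refine ⟨fun σ => c (r * σ * r⁻¹), by simpa using hc, fun a => ?_⟩
  apply MulOpposite.unop_injective
  have h1 := h fun i => (a (r⁻¹ i)).unop
  rw [← Equiv.sum_comp (MulAut.conj r).toEquiv] at h1
  rw [MulOpposite.unop_zero, ← h1, Finset.unop_sum]
  refine Finset.sum_congr rfl fun σ _ => ?_
  rw [MulOpposite.unop_smul, MulOpposite.unop_list_prod]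
  have h2 : ((List.ofFn fun i => a (σ i)).map MulOpposite.unop).reverse =
      List.ofFn fun i => (a (r⁻¹ ((r * σ * r⁻¹) i))).unop := by
    refine List.ext_getElem (by simp) fun i h1 h2 => ?_
    have hi : i < d := by simpa using h2
    simp only [List.getElem_reverse, List.getElem_map, List.getElem_ofFn, List.length_map,
      List.length_ofFn, Equiv.Perm.mul_apply, Equiv.Perm.coe_inv, Equiv.symm_apply_apply]
    congr 3
    apply Fin.ext
    simp [r, Fin.val_rev]
    omega
  rw [h2]
  rfl

theorem MPI.map {d : ℕ} (h : MPI k H d) {H' : Type} [Ring H'] [Algebra k H']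
    (f : H →ₐ[k] H') (hf : Function.Surjective f) : MPI k H' d := by
  obtain ⟨c, hc, h⟩ := h
  refine ⟨c, hc, fun a => ?_⟩
  choose b hb using fun i => hf (a i)
  have h1 := congrArg f (h b)
  rw [map_sum, map_zero] at h1
  rw [← h1]
  refine Finset.sum_congr rfl fun σ _ => ?_
  rw [map_smul, map_list_prod, List.map_ofFn]
  simp [Function.comp_def, hb]

end

section
variable {A : Type} [Ring A]

theorem Kills.mono {Ps : List (Ideal A)} {J J' : Ideal A} (h : Kills Ps J) (hJ : J ≤ J') :
    Kills Ps J' := fun l hl => hJ (h l hl)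

theorem pbase0_pow_le {I J : Ideal A} (s : ℕ)
    (h : ∀ l : List A, l.length = s → (∀ u ∈ l, u ∈ I) → l.prod ∈ J) : I ^ s ≤ J := by
  induction s generalizing J with
  | zero =>
    have h1 : (1 : A) ∈ J := by simpa using h [] rfl (by simp)
    rw [(Ideal.eq_top_iff_one J).2 h1]
    exact le_top
  | succ s ih =>
    rw [Submodule.pow_succ]
    refine Ideal.mul_le.2 fun m hm u hu => ?_
    have := ih (J := Submodule.comap (LinearMap.toSpanSingleton A A u) J) (fun l hl hI => by
      have h2 := h (l ++ [u]) (by simp [hl]) (fun v hv => by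
        rcases List.mem_append.1 hv with hv | hv
        · exact hI v hv
        · rw [List.mem_singleton.1 hv]
          exact hu)
      simpa using h2) hm
    simpa using this

/-- induction from the right end of the list, replacing `J` by the left ideal `{h | h * u ∈ J}` -/
theorem Kills.pow_le {Ps : List (Ideal A)} {J N : Ideal A} (h : Kills Ps J)
    (hN : ∀ P ∈ Ps, N ≤ P) : N ^ Ps.length ≤ J := by
  refine pbase0_pow_le _ fun l hl hm => h l ?_
  refine List.forall₂_iff_get.2 ⟨hl, fun i h1 h2 => ?_⟩
  exact hN _ (List.get_mem _ _) (hm _ (List.get_mem _ _))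

theorem Kills.comap {B F : Type} [Ring B] [FunLike F B A] [RingHomClass F B A] (f : F)
    {Ps : List (Ideal A)} {J : Ideal A} (h : Kills Ps J) :
    Kills (Ps.map (Ideal.comap f)) (J.comap f) := by
  intro l hl
  rw [Ideal.mem_comap, map_list_prod]
  refine h _ ?_
  rw [List.forall₂_map_right_iff] at hl
  rw [List.forall₂_map_left_iff]
  exact hl

/-- splitting a list of elements along `Ps ++ Qs` -/
theorem Kills.append {Ps Qs : List (Ideal A)} {I J K : Ideal A} (hP : Kills Ps I) (hQ : Kills Qs J)
    (h : ∀ u ∈ I, ∀ v ∈ J, u * v ∈ K) : Kills (Ps ++ Qs) K := by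
  intro l hl
  have h1 := List.forall₂_take_append l Ps Qs hl
  have h2 := List.forall₂_drop_append l Ps Qs hl
  rw [← List.take_append_drop Ps.length l, List.prod_append]
  exact h _ (hP _ h1) _ (hQ _ h2)

/-- a product of `s` elements of `I` lies in `I ^ s` -/
theorem list_prod_mem_pow {I : Ideal A} (l : List A) (hl : ∀ u ∈ l, u ∈ I) :
    l.prod ∈ I ^ l.length := by
  induction l using List.reverseRecOn with
  | nil => simp [Submodule.pow_zero]
  | append_singleton l u ih =>
    rw [List.prod_append, List.length_append, List.length_singleton, List.prod_singleton,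
      Submodule.pow_succ]
    exact Ideal.mul_mem_mul (ih fun v hv => hl v (by simp [hv])) (hl u (by simp))

/-- to bound `I ^ s` it suffices to bound the products of `s` elements of `I` -/
theorem pow_le_of_list {I J : Ideal A} (s : ℕ)
    (h : ∀ l : List A, l.length = s → (∀ u ∈ l, u ∈ I) → l.prod ∈ J) : I ^ s ≤ J := by
  exact pbase0_pow_le s h

/-- two nilpotently acting two-sided ideals: their sum acts nilpotently -/
theorem sup_pow_le {I J : Ideal A} [I.IsTwoSided] [J.IsTwoSided] (s t : ℕ) :
    (I ⊔ J) ^ (s + t) ≤ I ^ s ⊔ J ^ t := by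
  induction hn : s + t generalizing s t with
  | zero =>
    have : s = 0 := by omega
    subst this
    rw [Submodule.pow_zero, Submodule.pow_zero]
    exact le_sup_left
  | succ n ih =>
    rcases s with _ | s
    · rw [Submodule.pow_zero, Ideal.one_eq_top, top_sup_eq]
      exact le_top
    rcases t with _ | t
    · rw [Submodule.pow_zero, Ideal.one_eq_top, sup_top_eq]
      exact le_top
    rw [Submodule.pow_succ]
    refine Ideal.mul_le.2 fun m hm u hu => ?_
    obtain ⟨i, hi, j, hj, rfl⟩ := Submodule.mem_sup.1 hu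
    rw [mul_add]
    refine Submodule.add_mem _ ?_ ?_
    · obtain ⟨a, ha, b, hb, rfl⟩ := Submodule.mem_sup.1 (ih s (t + 1) (by omega) hm)
      rw [add_mul]
      refine Submodule.add_mem _ (Submodule.mem_sup_left ?_) (Submodule.mem_sup_right ?_)
      · rw [Submodule.pow_succ]
        exact Ideal.mul_mem_mul ha hi
      · exact Ideal.mul_mem_right _ _ hb
    · obtain ⟨a, ha, b, hb, rfl⟩ := Submodule.mem_sup.1 (ih (s + 1) t (by omega) hm)
      rw [add_mul]
      refine Submodule.add_mem _ (Submodule.mem_sup_left ?_) (Submodule.mem_sup_right ?_)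
      · exact Ideal.mul_mem_right _ _ ha
      · rw [Submodule.pow_succ]
        exact Ideal.mul_mem_mul hb hj

end

end Pool.Agent.Lib.MP_ff61db_al
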