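import Pool.Agent.Lib.MP_ff61db_al.PMain

set_option autoImplicit false

namespace Pool.Agent.Lib.MP_ff61db_al

open Polynomial TensorProduct

section
variable {k H : Type} [Field k] [Ring H] [Algebra k H] (K : Type) [Field K] [Algebra k K]

theorem pfield_span : Submodule.span K (Set.range fun h : H => (1 : K) ⊗ₜ[k] h) = ⊤ := by
  refine eq_top_iff.2 fun t _ => ?_
  induction t using TensorProduct.induction_on with
  | zero => simp
  | add a b ha hb => exact Submodule.add_mem _ (ha trivial) (hb trivial)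
  | tmul a h =>
    have : a ⊗ₜ[k] h = a • ((1 : K) ⊗ₜ[k] h) := by rw [TensorProduct.smul_tmul', smul_eq_mul, mul_one]
    rw [this]
    exact Submodule.smul_mem _ a (Submodule.subset_span ⟨h, rfl⟩)

theorem Gen.baseChange {g : ℕ} {x : Fin g → H} (hx : Gen k x) :
    Gen K (fun i => (1 : K) ⊗ₜ[k] x i) := by
  have h1 : ∀ h : H, (1 : K) ⊗ₜ[k] h ∈ Algebra.adjoin K (Set.range fun i => (1 : K) ⊗ₜ[k] x i) := by
    intro h
    have hh : h ∈ Algebra.adjoin k (Set.range x) := by rw [hx]; trivial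
    have hle : Algebra.adjoin k (Set.range x) ≤
        ((Algebra.adjoin K (Set.range fun i => (1 : K) ⊗ₜ[k] x i)).restrictScalars k).comap
          (Algebra.TensorProduct.includeRight : H →ₐ[k] K ⊗[k] H) := by
      refine Algebra.adjoin_le ?_
      rintro _ ⟨i, rfl⟩
      exact Algebra.subset_adjoin ⟨i, rfl⟩
    exact hle hh
  refine eq_top_iff.2 fun t _ => ?_
  have ht : t ∈ Submodule.span K (Set.range fun h : H => (1 : K) ⊗ₜ[k] h) := by
    rw [pfield_span]; trivial
  have hle : Submodule.span K (Set.range fun h : H => (1 : K) ⊗ₜ[k] h) ≤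
      (Algebra.adjoin K (Set.range fun i => (1 : K) ⊗ₜ[k] x i)).toSubmodule := by
    refine Submodule.span_le.2 ?_
    rintro _ ⟨h, rfl⟩
    exact h1 h
  exact hle ht

theorem MPI.baseChange {d : ℕ} (hd : MPI k H d) : MPI K (K ⊗[k] H) d := by
  obtain ⟨c, hc, h⟩ := hd
  refine ⟨fun σ => algebraMap k K (c σ), by simp [hc], fun a => ?_⟩
  let F : MultilinearMap K (fun _ : Fin d => K ⊗[k] H) (K ⊗[k] H) :=
    ∑ σ : Equiv.Perm (Fin d), algebraMap k K (c σ) •
      (MultilinearMap.mkPiAlgebraFin K d (K ⊗[k] H)).domDomCongr σ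
  have hF : ∀ a, F a = ∑ σ : Equiv.Perm (Fin d),
      algebraMap k K (c σ) • (List.ofFn fun i => a (σ i)).prod := by
    intro a
    simp [F]
  rw [← hF, ← Submodule.mem_bot K]
  refine pe2_ml_mem K F (fun _ => Set.range fun h : H => (1 : K) ⊗ₜ[k] h) ⊥ (fun a ha => ?_) a
    (fun i => by rw [pfield_span]; trivial)
  choose u hu using ha
  have h1 := congrArg (Algebra.TensorProduct.includeRight : H →ₐ[k] K ⊗[k] H) (h u)
  rw [map_sum, map_zero] at h1
  rw [Submodule.mem_bot, hF, ← h1]
  refine Finset.sum_congr rfl fun σ _ => ?_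
  rw [map_smul, algebraMap_smul, map_list_prod, List.map_ofFn]
  congr 3
  funext i
  exact (hu _).symm

theorem noeth_of_baseChange (h : IsNoetherianRing (K ⊗[k] H)) : IsNoetherianRing H := by
  obtain ⟨l, hl⟩ := Module.Projective.exists_dual_eq_one k (one_ne_zero : (1 : K) ≠ 0)
  let r : K ⊗[k] H →ₗ[k] H := (TensorProduct.lid k H).toLinearMap ∘ₗ l.rTensor H
  have hr : ∀ (a : K) (u : H), r (a ⊗ₜ u) = l a • u := fun a u => by simp [r]
  let f : H →+* K ⊗[k] H := (Algebra.TensorProduct.includeRight : H →ₐ[k] K ⊗[k] H)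
  have key : ∀ (I : Ideal H) (u : H), f u ∈ I.map f → u ∈ I := by
    intro I u hu
    let J : Ideal (K ⊗[k] H) :=
      { carrier := {s | ∀ c, r (c * s) ∈ I}
        add_mem' := fun ha hb c => by rw [mul_add, map_add]; exact I.add_mem (ha c) (hb c)
        zero_mem' := fun c => by simp
        smul_mem' := fun a s hs c => by rw [smul_eq_mul, ← mul_assoc]; exact hs _ }
    have hle : I.map f ≤ J := by
      refine Ideal.map_le_iff_le_comap.2 fun v hv c => ?_
      induction c using TensorProduct.induction_on with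
      | zero => simp
      | add a b ha hb => rw [add_mul, map_add]; exact I.add_mem ha hb
      | tmul a w =>
        have : a ⊗ₜ[k] w * f v = a ⊗ₜ[k] (w * v) := by simp [f]
        rw [this, hr, Algebra.smul_def]
        exact I.mul_mem_left _ (I.mul_mem_left _ hv)
    have := hle hu 1
    rwa [one_mul, show f u = (1 : K) ⊗ₜ[k] u from rfl, hr, hl, one_smul] at this
  have hmono : StrictMono (fun I : Ideal H => I.map f) := by
    intro I J hIJ
    refine lt_of_le_of_ne (Ideal.map_mono hIJ.le) fun e => hIJ.ne (le_antisymm hIJ.le ?_)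
    intro u hu
    refine key I u ?_
    have e' : I.map f = J.map f := e
    rw [e']
    exact Ideal.mem_map_of_mem f hu
  have : WellFoundedGT (Ideal (K ⊗[k] H)) := isNoetherian_iff'.1 h
  exact isNoetherian_iff'.2 (hmono.wellFoundedGT)

end

theorem noeth_left' {k H : Type} [Field k] [Ring H] [HopfAlgebra k H] {g d : ℕ}
    {x : Fin g → H} (hx : Gen k x) (hd : MPI k H d) : IsNoetherianRing H :=
  noeth_of_baseChange (k := k) (AlgebraicClosure k)
    (noeth_left (hx.baseChange (AlgebraicClosure k)) (hd.baseChange (AlgebraicClosure k)))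

theorem noeth_of_pi' (k : Type) [Field k] (H : Type) [Ring H] [HopfAlgebra k H]
    (hft : Algebra.FiniteType k H)
    (hPI : ∃ (m : ℕ) (f : FreeAlgebra k (Fin m)), f ≠ 0 ∧
      ∀ a : Fin m → H, FreeAlgebra.lift k a f = 0) :
    IsNoetherianRing H ∧ IsNoetherianRing Hᵐᵒᵖ := by
  obtain ⟨m, f, hf, h⟩ := hPI
  obtain ⟨d, hd⟩ := mpi_of_pi f hf h
  obtain ⟨g, x, hx⟩ := exists_gen (k := k) (H := H)
  refine ⟨noeth_left' hx hd, ?_⟩
  obtain ⟨inst, hinst⟩ := exists_hopf_op k H
  have h0 : @MPI k Hᵐᵒᵖ _ _ inst.toAlgebra d := by rw [hinst]; exact hd.op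
  have h1 : @Gen k _ Hᵐᵒᵖ _ inst.toAlgebra g (fun i => MulOpposite.op (x i)) := by
    rw [hinst]; exact hx.op
  exact @noeth_left' k Hᵐᵒᵖ _ _ inst g d _ h1 h0

end Pool.Agent.Lib.MP_ff61db_al
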