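import Mathlib

/-! Subcoalgebras and the coradical. -/

namespace Pool.Agent.Lib.MP_ff61db_al

variable (k : Type) {H : Type} [Field k] [AddCommGroup H] [Module k H] [Coalgebra k H]

/-- A subspace `C` is a subcoalgebra if `Δ(C) ⊆ C ⊗ C`. -/
def IsSubcoalgebra (C : Submodule k H) : Prop :=
  ∀ x ∈ C, Coalgebra.comul x ∈ LinearMap.range (TensorProduct.map C.subtype C.subtype)

/-- A simple subcoalgebra: nonzero, with no subcoalgebras except `0` and itself. -/
def IsSimpleSubcoalgebra (C : Submodule k H) : Prop :=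
  IsSubcoalgebra k C ∧ C ≠ ⊥ ∧ ∀ D : Submodule k H, IsSubcoalgebra k D → D ≤ C → D = ⊥ ∨ D = C

variable (H) in
/-- The coradical: the sum of all simple subcoalgebras. -/
def coradical : Submodule k H := sSup {C | IsSimpleSubcoalgebra k C}

end Pool.Agent.Lib.MP_ff61db_al
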