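import Pool.Agent.Lib.MP_ff61db_al.Core
import Pool.Agent.Lib.MP_ff61db_al.Defs

/-! The dual algebra acting on a bialgebra; the coradical filtration. -/

namespace Pool.Agent.Lib.MP_ff61db_al

open Submodule TensorProduct WithConv

variable {k H : Type} [Field k] [Ring H] [Bialgebra k H]

/-- The dual algebra. -/
abbrev Du (k H : Type) [Field k] [Ring H] [Bialgebra k H] : Type := WithConv (H →ₗ[k] k)

theorem du_mul (φ ψ : Du k H) (x : H) :
    (φ * ψ).ofConv x = pair φ.ofConv ψ.ofConv (Coalgebra.comul x) := rfl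

theorem du_one (x : H) : (1 : Du k H).ofConv x = Coalgebra.counit x := rfl

theorem eq_of_du {x y : H} (h : ∀ φ : Du k H, φ.ofConv x = φ.ofConv y) : x = y := by
  rw [← sub_eq_zero, ← Module.forall_dual_apply_eq_zero_iff k]
  intro φ
  rw [map_sub, sub_eq_zero]
  exact h (toConv φ)

theorem mem_of_du {K : Submodule k H} {x : H}
    (h : ∀ φ : Du k H, (∀ y ∈ K, φ.ofConv y = 0) → φ.ofConv x = 0) : x ∈ K := by
  by_contra e
  obtain ⟨f, h1, h2⟩ := Submodule.exists_dual_map_eq_bot_of_notMem e inferInstance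
  exact h1 (h (toConv f) fun y hy => (mem_bot k).1 (h2 ▸ mem_map_of_mem hy))

theorem tensor_zero {t : H ⊗[k] H} (h : ∀ φ ψ : H →ₗ[k] k, pair φ ψ t = 0) : t = 0 := by
  let b := Module.Basis.ofVectorSpace k H
  have key : ∀ (i j) (t : H ⊗[k] H),
      (b.tensorProduct b).repr t (i, j) = pair (b.coord i) (b.coord j) t := by
    intro i j t
    induction t with
    | zero => simp
    | tmul x y => simp [mul_comm]
    | add s t hs ht => simp [hs, ht]
  refine (b.tensorProduct b).repr.injective (Finsupp.ext fun p => ?_)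
  rw [key p.1 p.2, h]
  simp

theorem pair_map (φ ψ : H →ₗ[k] k) (p q : H →ₗ[k] H) (t : H ⊗[k] H) :
    pair φ ψ (TensorProduct.map p q t) = pair (φ.comp p) (ψ.comp q) t := by
  induction t with
  | zero => simp
  | tmul x y => simp
  | add s t hs ht => simp [hs, ht]

noncomputable def lact (φ : Du k H) : H →ₗ[k] H :=
  (TensorProduct.rid k H).toLinearMap ∘ₗ LinearMap.lTensor H φ.ofConv ∘ₗ Coalgebra.comul

noncomputable def ract (φ : Du k H) : H →ₗ[k] H :=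
  (TensorProduct.lid k H).toLinearMap ∘ₗ LinearMap.rTensor H φ.ofConv ∘ₗ Coalgebra.comul

theorem du_lact (θ φ : Du k H) (x : H) : θ.ofConv (lact φ x) = (θ * φ).ofConv x := by
  rw [du_mul, lact, LinearMap.comp_apply, LinearMap.comp_apply]
  generalize (Coalgebra.comul x : H ⊗[k] H) = t
  induction t with
  | zero => simp
  | tmul x y => simp [mul_comm]
  | add s t hs ht => simp only [map_add, hs, ht]

theorem du_ract (θ φ : Du k H) (x : H) : θ.ofConv (ract φ x) = (φ * θ).ofConv x := by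
  rw [du_mul, ract, LinearMap.comp_apply, LinearMap.comp_apply]
  generalize (Coalgebra.comul x : H ⊗[k] H) = t
  induction t with
  | zero => simp
  | tmul x y => simp
  | add s t hs ht => simp only [map_add, hs, ht]

theorem lact_mul (φ ψ : Du k H) (x : H) : lact (φ * ψ) x = lact φ (lact ψ x) :=
  eq_of_du (k := k) fun θ => by simp only [du_lact, mul_assoc]

theorem ract_mul (φ ψ : Du k H) (x : H) : ract (φ * ψ) x = ract ψ (ract φ x) :=
  eq_of_du (k := k) fun θ => by simp only [du_ract, mul_assoc]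

theorem lact_ract (φ ψ : Du k H) (x : H) : lact φ (ract ψ x) = ract ψ (lact φ x) :=
  eq_of_du (k := k) fun θ => by simp only [du_ract, du_lact, mul_assoc]

theorem lact_one (x : H) : lact (1 : Du k H) x = x :=
  eq_of_du (k := k) fun θ => by rw [du_lact, mul_one]

theorem ract_one (x : H) : ract (1 : Du k H) x = x :=
  eq_of_du (k := k) fun θ => by rw [du_ract, one_mul]

theorem lact_add (φ ψ : Du k H) (x : H) : lact (φ + ψ) x = lact φ x + lact ψ x :=
  eq_of_du (k := k) fun θ => by rw [map_add, du_lact, du_lact, du_lact, mul_add]; rfl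

theorem lact_sub (φ ψ : Du k H) (x : H) : lact (φ - ψ) x = lact φ x - lact ψ x :=
  eq_of_du (k := k) fun θ => by rw [map_sub, du_lact, du_lact, du_lact, mul_sub]; rfl

theorem lact_smul (c : k) (φ : Du k H) (x : H) : lact (c • φ) x = c • lact φ x :=
  eq_of_du (k := k) fun θ => by rw [map_smul, du_lact, du_lact, mul_smul_comm]; rfl

theorem lact_zero (x : H) : lact (0 : Du k H) x = 0 :=
  eq_of_du (k := k) fun θ => by rw [map_zero, du_lact, mul_zero]; rfl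

/-- Closed under both actions of the dual algebra. -/
structure Cl (C : Submodule k H) : Prop where
  l : ∀ φ : Du k H, ∀ x ∈ C, lact φ x ∈ C
  r : ∀ φ : Du k H, ∀ x ∈ C, ract φ x ∈ C

theorem Cl.inf {C D : Submodule k H} (h : Cl C) (h' : Cl D) : Cl (C ⊓ D) :=
  ⟨fun φ x hx => ⟨h.l φ x hx.1, h'.l φ x hx.2⟩, fun φ x hx => ⟨h.r φ x hx.1, h'.r φ x hx.2⟩⟩

theorem exists_proj (C : Submodule k H) :
    ∃ p : H →ₗ[k] H, (∀ x, p x ∈ C) ∧ ∀ x ∈ C, p x = x := by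
  obtain ⟨q, hq⟩ := C.subtype.exists_leftInverse_of_injective C.ker_subtype
  exact ⟨C.subtype ∘ₗ q, fun x => (q x).2, fun x hx =>
    congrArg Subtype.val (LinearMap.congr_fun hq ⟨x, hx⟩)⟩

theorem Cl.map_comul {C : Submodule k H} (h : Cl C) {p : H →ₗ[k] H} (hp : ∀ x ∈ C, p x = x)
    {x : H} (hx : x ∈ C) : TensorProduct.map p p (Coalgebra.comul x) = Coalgebra.comul x := by
  rw [← sub_eq_zero]
  refine tensor_zero fun φ ψ => ?_
  rw [map_sub, pair_map, sub_eq_zero]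
  have h1 := du_ract (toConv (ψ.comp p)) (toConv (φ.comp p)) x
  have h2 := du_ract (toConv ψ) (toConv (φ.comp p)) x
  have h3 := du_lact (toConv (φ.comp p)) (toConv ψ) x
  have h4 := du_lact (toConv φ) (toConv ψ) x
  simp only [du_mul, LinearMap.comp_apply] at h1 h2 h3 h4
  rw [← h1, ← h4, hp _ (h.r _ x hx), h2, ← h3, hp _ (h.l _ x hx)]

theorem Cl.isSub {C : Submodule k H} (h : Cl C) : IsSubcoalgebra k C := by
  intro x hx
  obtain ⟨p, h1, h2⟩ := exists_proj C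
  refine ⟨TensorProduct.map (p.codRestrict C h1) (p.codRestrict C h1) (Coalgebra.comul x), ?_⟩
  rw [← LinearMap.comp_apply, ← TensorProduct.map_comp, LinearMap.subtype_comp_codRestrict,
    h.map_comul h2 hx]

theorem IsSubcoalgebra.cl {C : Submodule k H} (h : IsSubcoalgebra k C) : Cl C := by
  have key : ∀ φ ψ : Du k H, ((∀ y ∈ C, φ.ofConv y = 0) ∨ ∀ y ∈ C, ψ.ofConv y = 0) →
      ∀ x ∈ C, (φ * ψ).ofConv x = 0 := by
    intro φ ψ e x hx
    obtain ⟨t, ht⟩ := h x hx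
    rw [du_mul, ← ht]
    clear ht
    induction t with
    | zero => simp
    | tmul u v => rcases e with e | e <;> simp [e]
    | add s t hs ht => simp only [map_add, hs, ht, add_zero]
  exact ⟨fun φ x hx => mem_of_du fun θ e => by rw [du_lact]; exact key _ _ (Or.inl e) x hx,
    fun φ x hx => mem_of_du fun θ e => by rw [du_ract]; exact key _ _ (Or.inr e) x hx⟩

theorem Cl.sSup {S : Set (Submodule k H)} (h : ∀ C ∈ S, Cl C) : Cl (sSup S) :=
  ⟨fun φ => (sSup_le fun C hC x hx => le_sSup hC ((h C hC).l φ x hx) :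
      SupSet.sSup S ≤ (SupSet.sSup S).comap (lact φ)),
    fun φ => (sSup_le fun C hC x hx => le_sSup hC ((h C hC).r φ x hx) :
      SupSet.sSup S ≤ (SupSet.sSup S).comap (ract φ))⟩

theorem exists_fd_aux (L : Du k H → H ⊗[k] H →ₗ[k] H) (s : H → H → H)
    (hL : ∀ φ x y, L φ (x ⊗ₜ y) ∈ span k {s x y}) (Y : Submodule k H) (hY : Y.FG) :
    (⨆ φ, Y.map (L φ ∘ₗ Coalgebra.comul)).FG := by
  have h1 : ∀ t, ∃ Z : Submodule k H, Z.FG ∧ ∀ φ, L φ t ∈ Z := by
    intro t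
    induction t with
    | zero => exact ⟨⊥, fg_bot, by simp⟩
    | tmul x y => exact ⟨_, fg_span_singleton _, fun φ => hL φ x y⟩
    | add s t hs ht =>
      obtain ⟨Z, m1, m2⟩ := hs
      obtain ⟨Z', m3, m4⟩ := ht
      exact ⟨Z ⊔ Z', m1.sup m3, fun φ => by rw [map_add]; exact add_mem_sup (m2 φ) (m4 φ)⟩
  choose Z h2 h3 using h1
  obtain ⟨s, rfl⟩ := hY
  have h4 : (s.sup fun y => Z (Coalgebra.comul y)).FG := fg_finset_sup _ _ fun y _ => h2 _
  have : Module.Finite k (s.sup fun y => Z (Coalgebra.comul y) : Submodule k H) :=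
    Module.Finite.iff_fg.2 h4
  refine Module.Finite.iff_fg.1 (Submodule.finiteDimensional_of_le
    (S₂ := s.sup fun y => Z (Coalgebra.comul y)) (iSup_le fun φ => ?_))
  rw [map_span_le]
  exact fun y hy => Finset.le_sup (f := fun y => Z (Coalgebra.comul y)) hy (h3 _ φ)

/-- Finite-dimensional subspaces generate finite-dimensional subcoalgebras. -/
theorem exists_fd (Y : Submodule k H) (hY : Y.FG) :
    ∃ C : Submodule k H, C.FG ∧ Cl C ∧ Y ≤ C ∧ ∀ D, Cl D → Y ≤ D → C ≤ D := by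
  let C₁ : Submodule k H := ⨆ φ, Y.map (lact φ)
  have h1 : C₁.FG := exists_fd_aux
    (fun φ => (TensorProduct.rid k H).toLinearMap ∘ₗ LinearMap.lTensor H φ.ofConv) (fun x _ => x)
    (fun φ x y => by simpa using smul_mem _ _ (mem_span_singleton_self x)) Y hY
  have h2 : (⨆ φ, C₁.map (ract φ)).FG := exists_fd_aux
    (fun φ => (TensorProduct.lid k H).toLinearMap ∘ₗ LinearMap.rTensor H φ.ofConv) (fun _ y => y)
    (fun φ x y => by simpa using smul_mem _ _ (mem_span_singleton_self y)) C₁ h1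
  have h3 : ∀ ψ, C₁ ≤ C₁.comap (lact ψ) := fun ψ => iSup_le fun φ => by
    rintro _ ⟨y, hy, rfl⟩
    rw [mem_comap, ← lact_mul]
    exact mem_iSup_of_mem _ (mem_map_of_mem hy)
  refine ⟨_, h2, ⟨fun ψ => ?_, fun ψ => ?_⟩, fun y hy => ?_, fun D hD hY => ?_⟩
  · refine (iSup_le fun φ => ?_ :
      (⨆ φ, C₁.map (ract φ)) ≤ comap (lact ψ) (⨆ φ, C₁.map (ract φ)))
    rintro _ ⟨y, hy, rfl⟩
    rw [mem_comap, lact_ract]
    exact mem_iSup_of_mem _ (mem_map_of_mem (h3 ψ hy))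
  · refine (iSup_le fun φ => ?_ :
      (⨆ φ, C₁.map (ract φ)) ≤ comap (ract ψ) (⨆ φ, C₁.map (ract φ)))
    rintro _ ⟨y, hy, rfl⟩
    rw [mem_comap, ← ract_mul]
    exact mem_iSup_of_mem _ (mem_map_of_mem hy)
  · rw [← ract_one (k := k) y]
    refine mem_iSup_of_mem _ (mem_map_of_mem ?_)
    rw [← lact_one (k := k) y]
    exact mem_iSup_of_mem _ (mem_map_of_mem hy)
  · refine iSup_le fun φ => ?_
    rintro _ ⟨y, hy, rfl⟩
    refine hD.r φ y ((iSup_le fun ψ => ?_ : C₁ ≤ D) hy)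
    rintro _ ⟨z, hz, rfl⟩
    exact hD.l ψ z (hY hz)

/-- Products of `a` functionals vanishing on `K`. -/
def Jp (K : Submodule k H) : ℕ → Set (Du k H)
  | 0 => Set.univ
  | a + 1 => {θ | ∃ θ' ∈ Jp K a, ∃ φ : Du k H, (∀ y ∈ K, φ.ofConv y = 0) ∧ θ = θ' * φ}

/-- The wedge filtration starting from `K`. -/
def Uw (K : Submodule k H) (a : ℕ) : Submodule k H := ⨅ θ ∈ Jp K a, LinearMap.ker θ.ofConv

theorem mem_Uw {K : Submodule k H} {a : ℕ} {x : H} :
    x ∈ Uw K a ↔ ∀ θ ∈ Jp K a, θ.ofConv x = 0 := by simp [Uw]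

section

variable {K : Submodule k H}

theorem Jp_left (ψ : Du k H) : ∀ a, ∀ θ ∈ Jp K a, ψ * θ ∈ Jp K a
  | 0, _, _ => trivial
  | a + 1, _, ⟨θ, h1, φ, h2, rfl⟩ => ⟨_, Jp_left ψ a θ h1, φ, h2, (mul_assoc _ _ _).symm⟩

theorem Jp_right (hK : Cl K) (ψ : Du k H) : ∀ a, ∀ θ ∈ Jp K a, θ * ψ ∈ Jp K a
  | 0, _, _ => trivial
  | _ + 1, _, ⟨θ, h1, φ, h2, rfl⟩ => ⟨θ, h1, φ * ψ,
      fun y hy => by rw [← du_lact]; exact h2 _ (hK.l ψ y hy), mul_assoc _ _ _⟩

theorem Jp_mul (hK : Cl K) {a : ℕ} {θ : Du k H} (h : θ ∈ Jp K a) :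
    ∀ b, ∀ θ' ∈ Jp K b, θ * θ' ∈ Jp K (a + b)
  | 0, _, _ => Jp_right hK _ a θ h
  | b + 1, _, ⟨θ', h1, φ, h2, rfl⟩ => ⟨_, Jp_mul hK h b θ' h1, φ, h2, (mul_assoc _ _ _).symm⟩

theorem Uw_zero : Uw K 0 = ⊥ :=
  eq_bot_iff.2 fun _ hx => eq_of_du (k := k) fun θ => by rw [mem_Uw.1 hx θ trivial, map_zero]

theorem Uw_one_le : Uw K 1 ≤ K :=
  fun _ hx => mem_of_du fun φ h => mem_Uw.1 hx φ ⟨1, trivial, φ, h, (one_mul _).symm⟩

theorem le_Uw_one (hK : Cl K) : K ≤ Uw K 1 := by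
  intro x hx
  rw [mem_Uw]
  rintro _ ⟨θ, -, φ, h, rfl⟩
  rw [← du_ract]
  exact h _ (hK.r θ x hx)

theorem Uw_mono (hK : Cl K) : Monotone (Uw K) := by
  refine monotone_nat_of_le_succ fun a x hx => mem_Uw.2 ?_
  rintro _ ⟨θ, h1, φ, -, rfl⟩
  exact mem_Uw.1 hx _ (Jp_right hK φ a θ h1)

theorem Uw_cl (hK : Cl K) (a : ℕ) : Cl (Uw K a) :=
  ⟨fun φ x hx => mem_Uw.2 fun θ h => by
      rw [du_lact]; exact mem_Uw.1 hx _ (Jp_right hK φ a θ h),
    fun φ x hx => mem_Uw.2 fun θ h => by rw [du_ract]; exact mem_Uw.1 hx _ (Jp_left φ a θ h)⟩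

theorem Uw_pair (hK : Cl K) {C : Submodule k H} (hC : Cl C) {a b : ℕ} {φ ψ : Du k H}
    (h1 : ∀ y ∈ Uw K a ⊓ C, φ.ofConv y = 0) (h2 : ∀ y ∈ Uw K b ⊓ C, ψ.ofConv y = 0) {x : H}
    (hx : x ∈ Uw K (a + b) ⊓ C) : (φ * ψ).ofConv x = 0 := by
  rw [← du_lact]
  refine h1 _ ⟨mem_Uw.2 fun θ h3 => ?_, hC.l ψ x hx.2⟩
  rw [du_lact, ← du_ract]
  refine h2 _ ⟨mem_Uw.2 fun θ' h4 => ?_, hC.r θ x hx.2⟩
  rw [du_ract]
  exact mem_Uw.1 hx.1 _ (Jp_mul hK h3 b θ' h4)

theorem Uw_top (hK : Cl K) {C : Submodule k H} (hC : Cl C) (hfg : C.FG)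
    (hm : ∀ D, Cl D → D ≤ C → D ≠ ⊥ → D ⊓ K ≠ ⊥) : ∃ a, C ≤ Uw K a := by
  classical
  have : Module.Finite k C := Module.Finite.iff_fg.2 hfg
  obtain ⟨a, ha⟩ : ∃ a, Uw K (a + 1) ⊓ C ≤ Uw K a ⊓ C := by
    obtain ⟨a, ha⟩ := monotone_stabilizes_iff_noetherian.2 (inferInstance : IsNoetherian k C)
      ⟨fun a => (Uw K a).comap C.subtype, fun a b h => comap_mono (Uw_mono hK h)⟩
    refine ⟨a, fun x hx => ⟨?_, hx.2⟩⟩
    exact ((ha (a + 1) (by omega)).ge : (Uw K (a + 1)).comap C.subtype ≤ _)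
      (show (⟨x, hx.2⟩ : C) ∈ _ from hx.1)
  refine ⟨a, ?_⟩
  by_contra hne
  set W := Uw K a ⊓ C with hW
  have hWc : Cl W := (Uw_cl hK a).inf hC
  obtain ⟨N, ⟨n1, n2, n3⟩, hmin⟩ :=
    (measure fun N : Submodule k H => Module.finrank k N).wf.has_min
      {N | W < N ∧ N ≤ C ∧ ∀ φ : Du k H, ∀ x ∈ N, lact φ x ∈ N}
      ⟨C, lt_of_le_of_ne inf_le_right fun e => hne (e ▸ inf_le_left), le_rfl, hC.l⟩
  have : Module.Finite k N := Submodule.finiteDimensional_of_le n2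
  have hmin' : ∀ M, W ≤ M → M ≤ N → (∀ φ : Du k H, ∀ x ∈ M, lact φ x ∈ M) → M = W ∨ M = N := by
    intro M m1 m2 m3
    by_cases e : M = W
    · exact Or.inl e
    · exact Or.inr (Submodule.eq_of_le_of_finrank_le m2
        (not_lt.1 (hmin M ⟨lt_of_le_of_ne m1 (Ne.symm e), m2.trans n2, m3⟩)))
  let J : Submodule k (Du k H) :=
    { carrier := {φ | ∀ y ∈ K, φ.ofConv y = 0}
      add_mem' := fun {φ ψ} h1 h2 y hy => by
        change φ.ofConv y + ψ.ofConv y = 0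
        rw [h1 y hy, h2 y hy, add_zero]
      zero_mem' := fun _ _ => rfl
      smul_mem' := fun c φ h y hy => by
        change c • φ.ofConv y = 0
        rw [h y hy, smul_zero] }
  have Jl : ∀ ψ, ∀ φ ∈ J, ψ * φ ∈ J := fun ψ φ h y hy => by
    rw [← du_ract]; exact h _ (hK.r ψ y hy)
  have Jr : ∀ ψ, ∀ φ ∈ J, φ * ψ ∈ J := fun ψ φ h y hy => by
    rw [← du_lact]; exact h _ (hK.l ψ y hy)
  let Z : Submodule k H := N ⊓ ⨅ j ∈ J, W.comap (lact j)
  have hZ : ∀ x, x ∈ Z ↔ x ∈ N ∧ ∀ j ∈ J, lact j x ∈ W := fun x => by simp [Z]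
  have hZW : Z = W := by
    refine (hmin' Z (fun x hx => (hZ x).2 ⟨n1.le hx, fun j _ => hWc.l j x hx⟩) inf_le_left
      fun φ x hx => (hZ _).2 ⟨n3 φ x ((hZ x).1 hx).1, fun j hj => ?_⟩).resolve_right fun e => ?_
    · rw [← lact_mul]
      exact ((hZ x).1 hx).2 _ (Jr φ j hj)
    · refine n1.not_ge fun x hx => ha ⟨mem_Uw.2 ?_, n2 hx⟩
      rintro _ ⟨θ, h1, φ, h2, rfl⟩
      rw [← du_lact]
      exact mem_Uw.1 (((hZ x).1 (e ▸ hx)).2 φ h2).1 θ h1
  have one : ∀ n ∈ N, ∃ j ∈ J, n - lact j n ∈ W := by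
    intro n hn
    by_cases e : n ∈ W
    · exact ⟨0, J.zero_mem, by rwa [lact_zero, sub_zero]⟩
    let L : Du k H →ₗ[k] H :=
      { toFun := fun φ => lact φ n
        map_add' := fun φ ψ => lact_add φ ψ n
        map_smul' := fun c φ => lact_smul c φ n }
    rcases hmin' (W ⊔ J.map L) le_sup_left
      (sup_le n1.le (by rintro _ ⟨j, -, rfl⟩; exact n3 j n hn)) (fun φ x hx => by
        obtain ⟨w, hw, _, ⟨j, hj, rfl⟩, rfl⟩ := mem_sup.1 hx
        rw [map_add]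
        exact add_mem_sup (hWc.l φ w hw) ⟨φ * j, Jl φ j hj, lact_mul φ j n⟩) with e' | e'
    · exact (e (hZW ▸ (hZ n).2 ⟨hn, fun j hj => e' ▸ mem_sup_right ⟨j, hj, rfl⟩⟩)).elim
    · obtain ⟨w, hw, _, ⟨j, hj, rfl⟩, e2⟩ := mem_sup.1 (e' ▸ hn : n ∈ W ⊔ J.map L)
      exact ⟨j, hj, by rwa [← sub_eq_iff_eq_add.2 e2.symm] at hw⟩
  have fin : ∀ s : Finset H, (∀ n ∈ s, n ∈ N) → ∃ j ∈ J, ∀ n ∈ s, n - lact j n ∈ W := by
    intro s
    induction s using Finset.induction_on with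
    | empty => exact fun _ => ⟨0, J.zero_mem, by simp⟩
    | insert n s _ ih =>
      intro hs
      obtain ⟨j, hj, h1⟩ := ih fun m hm => hs m (Finset.mem_insert_of_mem hm)
      have hn := hs n (Finset.mem_insert_self _ _)
      obtain ⟨j', hj', h2⟩ := one _ (sub_mem hn (n3 j n hn))
      refine ⟨j + j' - j' * j, sub_mem (add_mem hj hj') (Jl _ _ hj), fun m hm => ?_⟩
      have e : m - lact (j + j' - j' * j) m = (m - lact j m) - lact j' (m - lact j m) := by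
        rw [lact_sub, lact_add, lact_mul, map_sub]
        abel
      rw [e]
      rcases Finset.mem_insert.1 hm with rfl | hm
      · exact h2
      · exact sub_mem (h1 m hm) (hWc.l _ _ (h1 m hm))
  obtain ⟨s, hs⟩ : N.FG := Module.Finite.iff_fg.1 this
  obtain ⟨j, hj, h1⟩ := fin s fun n hn => hs ▸ subset_span hn
  have h2 : ∀ n ∈ N, n - lact j n ∈ W := by
    rw [← hs]
    exact (span_le.2 h1 : span k (s : Set H) ≤ W.comap (LinearMap.id - lact j))
  let D : Submodule k H := ⨅ φ ∈ {φ : Du k H | ∀ n ∈ N, lact φ n ∈ W}, LinearMap.ker φ.ofConv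
  have hD : ∀ x, x ∈ D ↔ ∀ φ : Du k H, (∀ n ∈ N, lact φ n ∈ W) → φ.ofConv x = 0 :=
    fun x => by simp [D]
  have hDc : Cl D :=
    ⟨fun ψ x hx => (hD _).2 fun φ h => by
        rw [du_lact]
        exact (hD x).1 hx _ fun n hn => by rw [lact_mul]; exact h _ (n3 ψ n hn),
      fun ψ x hx => (hD _).2 fun φ h => by
        rw [du_ract]
        exact (hD x).1 hx _ fun n hn => by rw [lact_mul]; exact hWc.l _ _ (h n hn)⟩
  refine hm (D ⊓ C) (hDc.inf hC) inf_le_right (fun e => ?_) (eq_bot_iff.2 fun x hx => ?_)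
  · obtain ⟨n, hn, hn'⟩ := SetLike.exists_of_lt n1
    refine hn' (mem_of_du fun φ h => ?_)
    have h3 : ract φ n ∈ D ⊓ C := ⟨(hD _).2 fun θ h' => by
      rw [du_ract, ← du_lact]; exact h _ (h' n hn), hC.r φ n (n2 hn)⟩
    rw [e, mem_bot] at h3
    have := du_ract 1 φ n
    rwa [h3, map_zero, mul_one, eq_comm] at this
  · refine eq_of_du (k := k) fun φ => ?_
    have h3 := (hD x).1 hx.1.1 (φ * (1 - j)) fun n hn => by
      rw [lact_mul, lact_sub, lact_one]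
      exact hWc.l _ _ (h2 n hn)
    have h4 := Jl φ j hj x hx.2
    rw [mul_sub, mul_one] at h3
    change φ.ofConv x - (φ * j).ofConv x = 0 at h3
    rwa [h4, sub_zero, ← map_zero φ.ofConv] at h3

end

theorem coradical_cl : Cl (coradical k H) := Cl.sSup fun _ h => h.1.cl

theorem coradical_meets {D : Submodule k H} (hD : Cl D) (hfg : D.FG) (h : D ≠ ⊥) :
    D ⊓ coradical k H ≠ ⊥ := by
  have : Module.Finite k D := Module.Finite.iff_fg.2 hfg
  obtain ⟨E, ⟨e1, e2, e3⟩, hmin⟩ :=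
    (measure fun N : Submodule k H => Module.finrank k N).wf.has_min
      {E | IsSubcoalgebra k E ∧ E ≠ ⊥ ∧ E ≤ D} ⟨D, hD.isSub, h, le_rfl⟩
  have : Module.Finite k E := Submodule.finiteDimensional_of_le e3
  have hE : E ≤ coradical k H := le_sSup ⟨e1, e2, fun D' m1 m2 => by
    by_cases e : D' = ⊥
    · exact Or.inl e
    · exact Or.inr (Submodule.eq_of_le_of_finrank_le m2
        (not_lt.1 (hmin D' ⟨m1, e, m2.trans e3⟩)))⟩
  exact fun e => e2 (eq_bot_iff.2 (e ▸ le_inf e3 hE))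

end Pool.Agent.Lib.MP_ff61db_al
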