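import Pool.Agent.Lib.MP_ff61db_al.Prim

/-! Polynomial growth forces the Lie closure of the generators to be finite. -/

namespace Pool.Agent.Lib.MP_ff61db_al

open Submodule TensorProduct

variable {k A : Type} [Field k] [Ring A] [Algebra k A]
variable {Δ : A →ₐ[k] A ⊗[k] A} {ε : A →ₐ[k] k} {F : ℤ → Submodule k A}

structure Growth (V : Submodule k A) : Prop where
  fg : V.FG
  one : (1 : A) ∈ V
  poly : ∃ C d : ℕ, ∀ n : ℕ, Module.finrank k (V ^ n : Submodule k A) ≤ C * (n + 1) ^ d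

theorem Growth.mono {V : Submodule k A} (h : Growth V) {a b : ℕ} (hab : a ≤ b) :
    V ^ a ≤ V ^ b := pow_le_pow_right' (Submodule.one_le.2 h.one) hab

theorem mul_mem_pow {V : Submodule k A} {a b : ℕ} {x y : A} (hx : x ∈ V ^ a) (hy : y ∈ V ^ b) :
    x * y ∈ V ^ (a + b) := by
  rw [pow_add]
  exact mul_mem_mul hx hy

theorem Growth.card_le {V : Submodule k A} (h : Growth V) {ι : Type} {v : ι → A}
    (hv : LinearIndependent k v) (s : Finset ι) {n : ℕ} (hs : ∀ i ∈ s, v i ∈ V ^ n) :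
    s.card ≤ Module.finrank k (V ^ n : Submodule k A) := by
  have : Module.Finite k (V ^ n : Submodule k A) := Module.Finite.iff_fg.2 (h.fg.pow n)
  have h1 : LinearIndependent k fun i : s => (⟨v i, hs i i.2⟩ : (V ^ n : Submodule k A)) :=
    LinearIndependent.of_comp (V ^ n).subtype (hv.comp _ Subtype.val_injective)
  simpa using h1.fintype_card_le_finrank

theorem exists_pow_lt (K m : ℕ) : ∃ r : ℕ, 1 ≤ r ∧ K * r ^ m < 2 ^ r := by
  have h := (tendsto_pow_const_div_const_pow_of_one_lt m (r := 2) (by norm_num)).const_mul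
    (K : ℝ)
  rw [mul_zero] at h
  obtain ⟨r, h1, h2⟩ := ((h.eventually (gt_mem_nhds one_pos)).and
    (Filter.eventually_ge_atTop 1)).exists
  refine ⟨r, h2, ?_⟩
  rw [← mul_div_assoc, div_lt_one (by positivity)] at h1
  exact_mod_cast h1

theorem no_seq {V : Submodule k A} (hV : Growth V) (h : Fil Δ ε F) {u : ℕ → A} {d : ℕ → ℤ}
    (hu : ∀ i, Prim Δ ε F (d i) (u i))
    (hi : ∀ i, u i ∉ span k {a | ∃ j < i, d j = d i ∧ a = u j} ⊔ F (d i - 1)) {c : ℕ}
    (hc : ∀ i, u i ∈ V ^ (c * (i + 1))) : False := by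
  obtain ⟨C, D, hp⟩ := hV.poly
  obtain ⟨r, h1, h2⟩ := exists_pow_lt (C * (c + 1) ^ D) (2 * D)
  have hm : ∀ T : Finset ℕ, ordP u T ∈ V ^ (∑ i ∈ T, c * (i + 1)) := by
    intro T
    induction T using Finset.induction_on_max with
    | empty => simpa using Submodule.one_le.1 (le_refl (1 : Submodule k A))
    | insert i T hT ih =>
      rw [ordP_insert u hT, Finset.sum_insert fun e => (hT i e).false]
      exact mul_mem_pow (hc i) ih
  have h3 := hV.card_le (ordP_indep h hu hi) (Finset.range r).powerset (n := c * r ^ 2)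
    fun T hT => hV.mono (by
      have hT' := Finset.mem_powerset.1 hT
      calc ∑ i ∈ T, c * (i + 1) ≤ ∑ i ∈ Finset.range r, c * (i + 1) :=
            Finset.sum_le_sum_of_subset hT'
        _ ≤ ∑ _i ∈ Finset.range r, c * r := Finset.sum_le_sum fun i hi =>
            Nat.mul_le_mul_left c (Finset.mem_range.1 hi)
        _ = c * r ^ 2 := by simp; ring) (hm T)
  rw [Finset.card_powerset, Finset.card_range] at h3
  have h4 : c * r ^ 2 + 1 ≤ (c + 1) * r ^ 2 := by nlinarith [Nat.one_le_pow 2 r h1]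
  have h5 := Nat.mul_le_mul_left C (Nat.pow_le_pow_left h4 D)
  rw [mul_pow, ← pow_mul, ← mul_assoc] at h5
  have := hp (c * r ^ 2)
  omega

theorem Wd_mono' {ι : Type} {y : ι → A} {e : ι → ℤ} {d d' : ℤ} (h : d ≤ d') (m : ℕ) :
    Wd k y e d 0 ≤ Wd k y e d' m :=
  span_mono fun _ ⟨l, h1, h2⟩ => ⟨l, h1, by omega⟩

theorem mem_Wd_of_val {ι : Type} (B : Subalgebra k A) (y : ι → B) (e : ι → ℤ) {d : ℤ} {m : ℕ}
    {a : B} (h : (a : A) ∈ Wd k (fun i => (y i : A)) e d m) : a ∈ Wd k y e d m := by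
  have : Wd k (fun i => (y i : A)) e d m ≤ (Wd k y e d m).map B.val.toLinearMap := by
    refine span_le.2 ?_
    rintro _ ⟨l, rfl, hl⟩
    refine ⟨(l.map y).prod, subset_span ⟨l, rfl, hl⟩, ?_⟩
    change B.val _ = _
    rw [map_list_prod, List.map_map]
    rfl
  obtain ⟨b, hb, e'⟩ := this h
  rwa [← Subtype.ext e']

section Core

variable {X S : Type} (x : X → A) (dx : X → ℤ) (g : S → Aˣ)

def opr : X ⊕ S → A → A
  | .inl i, a => x i * a - a * x i
  | .inr s, a => g s * a * ↑(g s)⁻¹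

def dop : X ⊕ S → ℤ
  | .inl i => dx i
  | .inr _ => 0

/-- Iterated commutators and conjugates of the generators. -/
def ev (p : List (X ⊕ S) × X) : A := p.1.foldr (opr x g) (x p.2)

def dg (p : List (X ⊕ S) × X) : ℤ := (p.1.map (dop dx)).sum + dx p.2

theorem ev_cons (t : X ⊕ S) (l : List (X ⊕ S)) (i : X) :
    ev x g (t :: l, i) = opr x g t (ev x g (l, i)) := rfl

theorem dg_cons (t : X ⊕ S) (l : List (X ⊕ S)) (i : X) :
    dg dx (t :: l, i) = dop dx t + dg dx (l, i) := by simp [dg, add_assoc]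

variable {x dx g}

theorem FF_conj {s t : Aˣ} (hc : ∀ d, ∀ a ∈ F d, s * a * t ∈ F d) {d : ℤ} {w : A ⊗[k] A}
    (hw : w ∈ FF F d) : ((s : A) ⊗ₜ[k] (s : A)) * w * ((t : A) ⊗ₜ[k] (t : A)) ∈ FF F d := by
  induction hw using span_induction with
  | zero => simp
  | add u v _ _ hu hv => rw [mul_add, add_mul]; exact add_mem hu hv
  | smul c u _ hu => rw [mul_smul_comm, smul_mul_assoc]; exact smul_mem _ _ hu
  | mem u hu =>
    obtain ⟨a, b, x, y, h1, h2, h3, rfl⟩ := hu
    rw [Algebra.TensorProduct.tmul_mul_tmul, Algebra.TensorProduct.tmul_mul_tmul]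
    exact tmul_mem_FF (hc _ _ h2) (hc _ _ h3) h1

theorem cop_inv {s : Aˣ} (h : Δ s = (s : A) ⊗ₜ (s : A)) :
    Δ (↑s⁻¹ : A) = (↑s⁻¹ : A) ⊗ₜ (↑s⁻¹ : A) := by
  have h1 : Δ (↑s⁻¹ : A) * Δ s = 1 := by rw [← map_mul, Units.inv_mul, map_one]
  have h2 : Δ s * ((↑s⁻¹ : A) ⊗ₜ (↑s⁻¹ : A)) = 1 := by
    rw [h, Algebra.TensorProduct.tmul_mul_tmul, Units.mul_inv, Algebra.TensorProduct.one_def]
  rw [← mul_one (Δ _), ← h2, ← mul_assoc, h1, one_mul]

theorem Prim.conj {s : Aˣ} (h : Δ s = (s : A) ⊗ₜ (s : A))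
    (hc : ∀ d, ∀ a ∈ F d, s * a * ↑s⁻¹ ∈ F d) {d : ℤ} {u : A} (hu : Prim Δ ε F d u) :
    Prim Δ ε F d (s * u * ↑s⁻¹) := by
  refine ⟨hc _ _ hu.mem, by simp [hu.eps], ?_⟩
  have := FF_conj hc hu.cop
  rw [mul_sub, sub_mul, mul_add, add_mul] at this
  rw [map_mul, map_mul, h, cop_inv h]
  simpa using this

theorem core [Finite X] [Finite S] {V : Submodule k A} (hV : Growth V) (h : Fil Δ ε F)
    (hx : ∀ i, Prim Δ ε F (dx i) (x i)) (hg : ∀ s, Δ (g s) = (g s : A) ⊗ₜ (g s : A))
    (hinv : ∀ s, ∃ s', g s' = (g s)⁻¹)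
    (hc : ∀ s d, ∀ a ∈ F d, g s * a * ↑(g s)⁻¹ ∈ F d) {N : ℤ} (hN : F N = ⊥)
    (hgen : ∀ d, F d ≤ Wd k (ev x g) (dg dx) (d + 1) 0) {c : ℕ} (hxV : ∀ i, x i ∈ V ^ c)
    (hgV : ∀ s, (g s : A) ∈ V ^ c) (B : Subalgebra k A) (hB : ∀ a, a ∈ B ↔ ∃ d, a ∈ F d) :
    IsNoetherianRing B ∧ IsNoetherianRing Bᵐᵒᵖ := by
  have prim : ∀ l i, Prim Δ ε F (dg dx (l, i)) (ev x g (l, i)) := by
    intro l i
    induction l with
    | nil => simpa [dg, ev] using hx i
    | cons t l ih =>
      rw [dg_cons, ev_cons]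
      rcases t with j | s
      · exact (hx j).lie h ih
      · simpa [dop, opr] using ih.conj (hg s) (hc s)
  have cost : ∀ l i, ev x g (l, i) ∈ V ^ (2 * c * (l.length + 1)) := by
    intro l i
    induction l with
    | nil => exact hV.mono (by simp; omega) (hxV i)
    | cons t l ih =>
      rw [ev_cons, List.length_cons]
      rcases t with j | s
      · exact sub_mem (hV.mono (by nlinarith) (mul_mem_pow (hxV j) ih))
          (hV.mono (by nlinarith) (mul_mem_pow ih (hxV j)))
      · obtain ⟨s', e⟩ := hinv s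
        exact hV.mono (by nlinarith) (mul_mem_pow (mul_mem_pow (hgV s) ih) (e ▸ hgV s'))
  let Sp : ℕ → ℤ → Submodule k A := fun m d =>
    span k {a | ∃ l i, l.length ≤ m ∧ dg dx (l, i) = d ∧ a = ev x g (l, i)} ⊔ F (d - 1)
  obtain ⟨m, hm⟩ : ∃ m, ∀ l i, l.length = m + 1 → ev x g (l, i) ∈ Sp m (dg dx (l, i)) := by
    by_contra hne
    push Not at hne
    choose l i h1 h2 using hne
    refine no_seq hV h (u := fun m => ev x g (l m, i m)) (d := fun m => dg dx (l m, i m))
      (fun m => prim _ _) (fun m e => h2 m ((sup_le_sup_right (span_mono ?_) _ : _ ≤ Sp m _) e)) (c := 4 * c)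
      fun m => hV.mono (by rw [h1 m]; nlinarith) (cost _ _)
    rintro _ ⟨j, hj, e1, rfl⟩
    exact ⟨l j, i j, by rw [h1 j]; exact hj, e1, rfl⟩
  have SpF : ∀ d, Sp m d ≤ F d := fun d => sup_le (span_le.2 (by
    rintro _ ⟨l, i, -, rfl, rfl⟩
    exact (prim l i).mem)) (h.mono (by omega))
  have stepop : ∀ t d, ∀ v ∈ Sp m d, opr x g t v ∈ Sp m (dop dx t + d) := by
    intro t d v hv
    have lin : ∃ L : A →ₗ[k] A, ∀ a, opr x g t a = L a := by
      rcases t with j | s
      · exact ⟨LinearMap.mulLeft k (x j) - LinearMap.mulRight k (x j), fun a => rfl⟩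
      · exact ⟨(LinearMap.mulRight k (↑(g s)⁻¹ : A)).comp (LinearMap.mulLeft k (g s : A)),
          fun a => rfl⟩
    obtain ⟨L, hL⟩ := lin
    rw [hL]
    refine (sup_le (span_le.2 ?_) fun a ha => ?_ : Sp m d ≤ (Sp m (dop dx t + d)).comap L) hv
    · rintro _ ⟨l, i, h1, rfl, rfl⟩
      rw [SetLike.mem_coe, mem_comap, ← hL, ← ev_cons, ← dg_cons]
      by_cases e : l.length = m
      · exact hm _ _ (by simp [e])
      · exact mem_sup_left (subset_span ⟨t :: l, i, by simp; omega, rfl, rfl⟩)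
    · rw [mem_comap, ← hL]
      refine mem_sup_right ?_
      rcases t with j | s
      · exact sub_mem (h.mono (by simp only [dop]; omega) (h.mul (hx j).mem ha))
          (h.mono (by simp only [dop]; omega) (h.mul ha (hx j).mem))
      · simpa [dop, opr] using hc s _ a ha
  have all : ∀ l i, ev x g (l, i) ∈ Sp m (dg dx (l, i)) := by
    intro l i
    induction l with
    | nil => exact mem_sup_left (subset_span ⟨[], i, by simp, rfl, rfl⟩)
    | cons t l ih =>
      rw [dg_cons, ev_cons]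
      exact stepop t _ _ ih
  have lie : ∀ l i d, ∀ v ∈ Sp m d,
      ev x g (l, i) * v - v * ev x g (l, i) ∈ Sp m (dg dx (l, i) + d) := by
    intro l i
    induction l with
    | nil =>
      intro d v hv
      simpa [dg, ev, dop, opr] using stepop (.inl i) d v hv
    | cons t l ih =>
      intro d v hv
      rw [dg_cons, ev_cons]
      rcases t with j | s
      · have h1 := stepop (.inl j) _ _ (ih d v hv)
        have h2 := ih _ _ (stepop (.inl j) d v hv)
        rw [← add_assoc, add_comm (dg dx _)] at h2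
        rw [← add_assoc] at h1
        refine (congrArg (· ∈ Sp m _) ?_).mp (sub_mem h1 h2)
        simp only [opr]
        noncomm_ring
      · obtain ⟨s', e⟩ := hinv s
        have h1 := stepop (.inr s) _ _ (ih _ _ (stepop (.inr s') d v hv))
        simp only [dop, zero_add] at h1 ⊢
        refine (congrArg (· ∈ Sp m _) ?_).mp h1
        simp only [opr, e, inv_inv, mul_sub, sub_mul, mul_assoc, Units.mul_inv, mul_one,
          Units.mul_inv_cancel_left]
  let ι := {p : List (X ⊕ S) × X // p.1.length ≤ m}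
  have : Finite ι := by
    have := (List.finite_length_le (X ⊕ S) m).prod (Set.finite_univ (α := X))
    exact (this.subset fun p hp => ⟨hp, trivial⟩ : {p : List (X ⊕ S) × X | p.1.length ≤ m}.Finite)
  let y : ι → B := fun p => ⟨ev x g p.1, (hB _).2 ⟨_, (prim p.1.1 p.1.2).mem⟩⟩
  let y' : ι → A := fun p => y p
  let e : ι → ℤ := fun p => dg dx p.1
  have single : ∀ d, span k {a | ∃ l i, l.length ≤ m ∧ dg dx (l, i) = d ∧ a = ev x g (l, i)} ≤
      Wd k y' e d 2 := fun d => span_mono (by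
    rintro _ ⟨l, i, h1, rfl, rfl⟩
    exact ⟨[⟨(l, i), h1⟩], by simp [y', y], by simp [e]⟩)
  have prodF : ∀ L : List (List (X ⊕ S) × X), (L.map (ev x g)).prod ∈ F (L.map (dg dx)).sum := by
    intro L
    induction L with
    | nil => simpa using h.one
    | cons p L ih => simpa using h.mul (prim p.1 p.2).mem ih
  have prodW : ∀ L : List (List (X ⊕ S) × X), (L.map (ev x g)).prod ∈
      Wd k y' e ((L.map (dg dx)).sum + 1) 0 ⊔ F ((L.map (dg dx)).sum - 1) := by
    intro L
    induction L with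
    | nil => exact mem_sup_left (subset_span ⟨[], by simp, by simp⟩)
    | cons p L ih =>
      obtain ⟨p, i₀⟩ := p
      obtain ⟨s, hs, f, hf, e1⟩ := mem_sup.1 (all p i₀)
      obtain ⟨w, hw, f', hf', e2⟩ := mem_sup.1 ih
      rw [List.map_cons, List.map_cons, List.prod_cons, List.sum_cons, ← e1, add_mul]
      refine add_mem ?_ (mem_sup_right (h.mono (by omega) (h.mul hf (prodF L))))
      rw [← e2, mul_add]
      refine add_mem (mem_sup_left ?_)
        (mem_sup_right (h.mono (by omega) (h.mul (SpF _ (mem_sup_left hs)) hf')))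
      clear e1
      induction hs using span_induction with
      | zero => simp
      | add u v _ _ hu hv => rw [add_mul]; exact add_mem hu hv
      | smul c u _ hu => rw [smul_mul_assoc]; exact smul_mem _ _ hu
      | mem u hu =>
        obtain ⟨l, i, h1, h2, rfl⟩ := hu
        clear e2
        induction hw using span_induction with
        | zero => simp
        | add u v _ _ hu hv => rw [mul_add]; exact add_mem hu hv
        | smul c u _ hu => rw [mul_smul_comm]; exact smul_mem _ _ hu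
        | mem u hu =>
          obtain ⟨l', rfl, h3⟩ := hu
          refine subset_span ⟨⟨(l, i), h1⟩ :: l', by simp [y', y], ?_⟩
          simp only [List.map_cons, List.sum_cons, e, h2] at h3 ⊢
          omega
  have FW : ∀ d, F d ≤ Wd k y' e (d + 1) 0 := by
    intro d
    rcases le_total d N with hd | hd
    · exact (h.mono hd).trans (hN ▸ bot_le)
    · induction d, hd using Int.leInduction with
      | base => exact hN ▸ bot_le
      | succ d _ ih =>
        refine (hgen _).trans (span_le.2 ?_)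
        rintro _ ⟨L, rfl, hL⟩
        exact sup_le (Wd_mono' (by omega) 0)
          ((h.mono (by omega)).trans (ih.trans (Wd_mono' (by omega) 0))) (prodW L)
  refine noeth_both (k := k) (y := y) (e := e) (fun p q => mem_Wd_of_val B y e ?_) (N := N)
    (fun l hl => Subtype.ext ?_) fun a => ?_
  · exact sup_le (single _) ((FW _).trans (Wd_mono' (by simp [e]) 2))
      (lie p.1.1 p.1.2 _ _ (all q.1.1 q.1.2))
  · have h1 := prodF (l.map Subtype.val)
    rw [List.map_map, List.map_map] at h1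
    have h2 := h.mono hl.le h1
    rw [hN, mem_bot] at h2
    change B.val _ = _
    rw [map_list_prod, List.map_map]
    exact h2
  · obtain ⟨d, hd⟩ := (hB a).1 a.2
    exact ⟨d + 1, mem_Wd_of_val B y e (FW d hd)⟩

end Core

end Pool.Agent.Lib.MP_ff61db_al
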