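import Mathlib

/-! An algebra spanned by products of finitely many elements that commute up to lower terms is
noetherian (a Gröbner basis argument). -/

namespace Pool.Agent.Lib.MP_ff61db_al

open Submodule

variable {k A : Type} [Field k] [Ring A] [Algebra k A]

section Grob

variable {ι : Type} (y : ι → A) (e : ι → ℤ)

/-- Span of the products of `y`'s with (degree, length) lexicographically below `(d, m)`. -/
def Wd (k : Type) [Field k] [Algebra k A] (y : ι → A) (e : ι → ℤ) (d : ℤ) (m : ℕ) :
    Submodule k A :=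
  span k {a | ∃ l : List ι, a = (l.map y).prod ∧
    ((l.map e).sum < d ∨ ((l.map e).sum = d ∧ l.length < m))}

variable {y e}

theorem Wd_mono {d : ℤ} {m m' : ℕ} (h : m ≤ m') : Wd k y e d m ≤ Wd k y e d m' :=
  span_mono fun _ ⟨l, h1, h2⟩ => ⟨l, h1, h2.imp id fun h3 => ⟨h3.1, h3.2.trans_le h⟩⟩

theorem Wd_mul {d : ℤ} {m : ℕ} {a : A} (ha : a ∈ Wd k y e d m) (l l' : List ι) :
    (l.map y).prod * a * (l'.map y).prod ∈
      Wd k y e ((l.map e).sum + d + (l'.map e).sum) (l.length + m + l'.length) := by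
  induction ha using span_induction with
  | mem a ha =>
    obtain ⟨u, rfl, hu⟩ := ha
    refine subset_span ⟨l ++ u ++ l', by simp [mul_assoc], ?_⟩
    simp only [List.map_append, List.sum_append, List.length_append]
    omega
  | zero => simp
  | add a b _ _ ha hb => rw [mul_add, add_mul]; exact add_mem ha hb
  | smul c a _ ha => rw [mul_smul_comm, smul_mul_assoc]; exact smul_mem _ _ ha

theorem perm_sub (hc : ∀ i j, y i * y j - y j * y i ∈ Wd k y e (e i + e j) 2) {l l' : List ι}
    (h : l.Perm l') : (l.map y).prod - (l'.map y).prod ∈ Wd k y e (l.map e).sum l.length := by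
  induction h with
  | nil => simp
  | @cons i l l' _ ih =>
    have := Wd_mul ih [i] []
    simp only [List.map_cons, List.map_nil, List.prod_cons, List.prod_nil, mul_one, List.sum_cons,
      List.sum_nil, add_zero, List.length_cons, List.length_nil, zero_add] at this ⊢
    rwa [mul_sub, add_comm 1] at this
  | swap i j l =>
    have := Wd_mul (hc j i) [] l
    simp only [List.map_cons, List.map_nil, List.prod_cons, List.prod_nil, one_mul, List.sum_cons,
      List.sum_nil, List.length_cons, List.length_nil, zero_add] at this ⊢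
    rwa [sub_mul, mul_assoc, mul_assoc, add_assoc, add_comm 2] at this
  | @trans l₁ l₂ l₃ h1 _ ih1 ih2 =>
    rw [← (h1.map e).sum_eq, ← h1.length_eq] at ih2
    simpa using add_mem ih1 ih2

/-- A fixed product of the `y`'s with given multiplicities. -/
noncomputable def mon (y : ι → A) (b : Multiset ι) : A := (b.toList.map y).prod

theorem sum_toList (b : Multiset ι) : (b.toList.map e).sum = (b.map e).sum := by
  rw [← Multiset.sum_coe, ← Multiset.map_coe, Multiset.coe_toList]

theorem Wd_le (hc : ∀ i j, y i * y j - y j * y i ∈ Wd k y e (e i + e j) 2) {N : ℤ}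
    (hN : ∀ l : List ι, (l.map e).sum < N → (l.map y).prod = 0) (d : ℤ) (m : ℕ) :
    Wd k y e d m ≤ span k {a | ∃ b : Multiset ι, a = mon y b ∧ N ≤ (b.map e).sum ∧
      ((b.map e).sum < d ∨ ((b.map e).sum = d ∧ b.card < m))} := by
  let S : ℤ → ℕ → Submodule k A := fun d m => span k {a | ∃ b : Multiset ι, a = mon y b ∧
    N ≤ (b.map e).sum ∧ ((b.map e).sum < d ∨ ((b.map e).sum = d ∧ b.card < m))}
  have step : ∀ d, Wd k y e d 0 ≤ S d 0 → ∀ m, Wd k y e d m ≤ S d m := by
    intro d h0 m
    induction m with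
    | zero => exact h0
    | succ m ih =>
      have mono : S d m ≤ S d (m + 1) :=
        span_mono fun _ ⟨b, h1, h2, h3⟩ => ⟨b, h1, h2, by omega⟩
      refine span_le.2 ?_
      rintro _ ⟨l, rfl, hl | hl⟩
      · exact mono (ih (subset_span ⟨l, rfl, Or.inl hl⟩))
      · by_cases hl' : (l.map e).sum < N
        · rw [hN l hl']
          exact zero_mem _
        have h1 := perm_sub hc (Multiset.coe_eq_coe.1 (Multiset.coe_toList (l : Multiset ι))).symm
        rw [hl.1] at h1
        have h2 : mon y (l : Multiset ι) ∈ S d (m + 1) :=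
          subset_span ⟨l, rfl, by simpa using hl', Or.inr (by simpa using hl)⟩
        simpa [mon] using add_mem (mono (ih (Wd_mono (by omega) h1))) h2
  refine step d ?_ m
  have low : ∀ d ≤ N, Wd k y e d 0 ≤ S d 0 := by
    intro d hd
    refine span_le.2 ?_
    rintro _ ⟨l, rfl, hl⟩
    rw [hN l (by omega)]
    exact zero_mem _
  rcases le_total d N with h | h
  · exact low d h
  · induction d, h using Int.leInduction with
    | base => exact low N le_rfl
    | succ d _ ih =>
      refine span_le.2 ?_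
      rintro _ ⟨l, rfl, hl⟩
      have h1 : (l.map y).prod ∈ Wd k y e d (l.length + 1) := subset_span ⟨l, rfl, by omega⟩
      refine span_mono ?_ (step d ih _ h1)
      rintro _ ⟨b, h1, h2, h3⟩
      exact ⟨b, h1, h2, by omega⟩

theorem noeth_leftG [Finite ι] (hc : ∀ i j, y i * y j - y j * y i ∈ Wd k y e (e i + e j) 2) {N : ℤ}
    (hN : ∀ l : List ι, (l.map e).sum < N → (l.map y).prod = 0)
    (hs : ∀ a : A, ∃ d, a ∈ Wd k y e d 0) : IsNoetherianRing A := by
  classical
  let _ : LinearOrder ι := @linearOrderOfSTO ι WellOrderingRel _ (Classical.decRel _)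
  let κ : Multiset ι → ℤ ×ₗ ℕ ×ₗ Lex (ι →₀ ℕ) := fun b =>
    toLex ((b.map e).sum, toLex (b.card, toLex (Multiset.toFinsupp b)))
  have κ_lt : ∀ a b, κ a < κ b ↔ (a.map e).sum < (b.map e).sum ∨ ((a.map e).sum = (b.map e).sum ∧
      (a.card < b.card ∨ (a.card = b.card ∧
        toLex (Multiset.toFinsupp a) < toLex (Multiset.toFinsupp b)))) := by
    intro a b
    simp only [κ, Prod.Lex.toLex_lt_toLex]
  have κ_inj : ∀ a b, κ a = κ b → a = b := by
    intro a b h
    simp only [κ, toLex_inj, Prod.mk.injEq] at h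
    exact Multiset.toFinsupp.injective h.2.2
  have κ_add : ∀ c a b, κ a < κ b → κ (c + a) < κ (c + b) := by
    intro c a b h
    rw [κ_lt] at h ⊢
    simp only [Multiset.map_add, Multiset.sum_add, Multiset.card_add, map_add, toLex_add]
    rcases h with h | ⟨h1, h | ⟨h2, h⟩⟩
    · exact Or.inl (by omega)
    · exact Or.inr ⟨by omega, Or.inl (by omega)⟩
    · exact Or.inr ⟨by omega, Or.inr ⟨by omega, add_lt_add_right h _⟩⟩
  let S : Multiset ι → Submodule k A := fun a =>
    span k {u | ∃ b, u = mon y b ∧ N ≤ (b.map e).sum ∧ κ b < κ a}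
  have S_mono : ∀ a b, κ a ≤ κ b → S a ≤ S b := fun a b h =>
    span_mono fun _ ⟨c, h1, h2, h3⟩ => ⟨c, h1, h2, h3.trans_le h⟩
  have mon_mem : ∀ a b, κ b < κ a → mon y b ∈ S a := by
    intro a b h
    by_cases h' : (b.map e).sum < N
    · rw [mon, hN _ (by rwa [sum_toList])]
      exact zero_mem _
    · exact subset_span ⟨b, rfl, not_lt.1 h', h⟩
  have hmul : ∀ c a, mon y c * mon y a - mon y (c + a) ∈ S (c + a) := by
    intro c a
    have h1 : (c.toList ++ a.toList).Perm (c + a).toList := by
      rw [← Multiset.coe_eq_coe, ← Multiset.coe_add]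
      simp
    have h2 := Wd_le hc hN _ _ (perm_sub hc h1)
    rw [(h1.map e).sum_eq, h1.length_eq, sum_toList, Multiset.length_toList, List.map_append,
      List.prod_append] at h2
    refine span_mono ?_ h2
    rintro _ ⟨b, h3, h4, h5⟩
    exact ⟨b, h3, h4, (κ_lt _ _).2 (h5.imp id fun h6 => ⟨h6.1, Or.inl h6.2⟩)⟩
  have hmulS : ∀ c a, ∀ u ∈ S a, mon y c * u ∈ S (c + a) := by
    intro c a u hu
    induction hu using span_induction with
    | mem u hu =>
      obtain ⟨b, rfl, -, hb⟩ := hu
      have h1 := κ_add c _ _ hb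
      simpa using add_mem (S_mono _ _ h1.le (hmul c b)) (mon_mem _ _ h1)
    | zero => simp
    | add u v _ _ hu hv => rw [mul_add]; exact add_mem hu hv
    | smul t u _ hu => rw [mul_smul_comm]; exact smul_mem _ _ hu
  have top : ∀ (T : Set (Multiset ι)) (u : A), (∀ b ∈ T, N ≤ (b.map e).sum) →
      u ∈ span k {u | ∃ b ∈ T, u = mon y b} →
      u = 0 ∨ ∃ b ∈ T, ∃ t : k, u - t • mon y b ∈ S b := by
    intro T u hT hu
    induction hu using span_induction with
    | mem u hu =>
      obtain ⟨b, hb, rfl⟩ := hu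
      exact Or.inr ⟨b, hb, 1, by simp⟩
    | zero => exact Or.inl rfl
    | smul t u _ hu =>
      rcases hu with rfl | ⟨b, hb, t', hu⟩
      · exact Or.inl (smul_zero _)
      · exact Or.inr ⟨b, hb, t * t', by rw [mul_smul, ← smul_sub]; exact smul_mem _ _ hu⟩
    | add u v _ _ hu hv =>
      rcases hu with rfl | ⟨b, hb, t, hu⟩
      · rwa [zero_add]
      rcases hv with rfl | ⟨b', hb', t', hv⟩
      · exact Or.inr ⟨b, hb, t, by rwa [add_zero]⟩
      have key : ∀ (u v : A) (b b' : Multiset ι) (t t' : k), κ b < κ b' → u - t • mon y b ∈ S b →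
          v - t' • mon y b' ∈ S b' → u + v - t' • mon y b' ∈ S b' := by
        intro u v b b' t t' h hu hv
        have := add_mem (add_mem (S_mono _ _ h.le hu) (smul_mem _ t (mon_mem _ _ h))) hv
        rwa [sub_add_cancel, ← add_sub_assoc] at this
      rcases lt_trichotomy (κ b) (κ b') with h | h | h
      · exact Or.inr ⟨b', hb', t', key _ _ _ _ _ _ h hu hv⟩
      · obtain rfl := κ_inj _ _ h
        refine Or.inr ⟨b, hb, t + t', ?_⟩
        have := add_mem hu hv
        rwa [sub_add_sub_comm, ← add_smul] at this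
      · exact Or.inr ⟨b, hb, t, by rw [add_comm]; exact key _ _ _ _ _ _ h hv hu⟩
  have wf : WellFounded fun b a : Multiset ι => N ≤ (b.map e).sum ∧ κ b < κ a := by
    have := Finsupp.Lex.wellFoundedLT_of_finite (α := ι) (N := ℕ)
    refine Subrelation.wf (r := InvImage (· < ·) fun b : Multiset ι =>
      (toLex (((b.map e).sum + 1 - N).toNat, toLex (b.card, toLex (Multiset.toFinsupp b))) :
        ℕ ×ₗ ℕ ×ₗ Lex (ι →₀ ℕ))) ?_ (InvImage.wf _ wellFounded_lt)
    rintro b a ⟨h1, h2⟩
    rw [κ_lt] at h2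
    simp only [InvImage, Prod.Lex.toLex_lt_toLex]
    rcases h2 with h | ⟨h3, h⟩
    · exact Or.inl (by omega)
    · exact Or.inr ⟨by rw [h3], h⟩
  refine (isNoetherianRing_iff_ideal_fg A).2 fun J => ?_
  let E : Set (Multiset ι) := {a | ∃ u ∈ J, u - mon y a ∈ S a}
  have : WellQuasiOrderedLE (Multiset ι) :=
    (OrderIso.wellQuasiOrderedLE_iff (Finsupp.orderIsoMultiset (ι := ι))).1 inferInstance
  have hfin : {a | Minimal (· ∈ E) a}.Finite :=
    WellQuasiOrderedLE.finite_of_isAntichain (setOfPred_minimal_antichain _)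
  have hex : ∀ a, ∃ u, a ∈ E → u ∈ J ∧ u - mon y a ∈ S a := by
    intro a
    by_cases h : a ∈ E
    · obtain ⟨u, hu⟩ := h
      exact ⟨u, fun _ => hu⟩
    · exact ⟨0, fun h' => (h h').elim⟩
  choose g hg using hex
  let J₀ : Ideal A := Ideal.span (g '' {a | Minimal (· ∈ E) a})
  have hJ : J₀ ≤ J := Ideal.span_le.2 (by rintro _ ⟨a, ha, rfl⟩; exact (hg a ha.1).1)
  refine Submodule.fg_def.2 ⟨_, hfin.image g, le_antisymm hJ ?_⟩
  have main : ∀ a, ∀ u ∈ J, ∀ t : k, u - t • mon y a ∈ S a → u ∈ J₀ := by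
    intro a
    induction a using wf.induction with
    | _ a ih =>
      have low : ∀ u ∈ J, u ∈ S a → u ∈ J₀ := by
        intro u hu h
        rcases top {b | N ≤ (b.map e).sum ∧ κ b < κ a} u (fun b hb => hb.1)
          (span_mono (by rintro _ ⟨b, h1, h2⟩; exact ⟨b, h2, h1⟩) h) with rfl | ⟨b, hb, t, h'⟩
        · exact zero_mem _
        · exact ih b hb u hu t h'
      intro u hu t h
      by_cases ht : t = 0
      · exact low u hu (by simpa [ht] using h)
      have ha : a ∈ E := by
        refine ⟨t⁻¹ • u, ?_, ?_⟩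
        · rw [Algebra.smul_def]
          exact J.mul_mem_left _ hu
        · have := smul_mem _ t⁻¹ h
          rwa [smul_sub, inv_smul_smul₀ ht] at this
      obtain ⟨a₀, h1, h2⟩ := exists_minimal_le_of_wellFoundedLT (· ∈ E) a ha
      obtain ⟨c, rfl⟩ := Multiset.le_iff_exists_add.1 h1
      rw [add_comm] at h low
      have h3 : t • (mon y c * g a₀) ∈ J₀ := by
        rw [Algebra.smul_def]
        exact J₀.mul_mem_left _ (J₀.mul_mem_left _ (Ideal.subset_span ⟨a₀, h2, rfl⟩))
      have h4 := low (u - t • (mon y c * g a₀)) (sub_mem hu (hJ h3)) (by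
        have := sub_mem h (smul_mem _ t (add_mem (hmulS c a₀ _ (hg a₀ h2.1).2) (hmul c a₀)))
        rwa [mul_sub, sub_add_sub_cancel, smul_sub, sub_sub_sub_cancel_right] at this)
      simpa using add_mem h4 h3
  intro u hu
  obtain ⟨d, hd⟩ := hs u
  rcases top {b | N ≤ (b.map e).sum} u (fun b hb => hb)
    (span_mono (by rintro _ ⟨b, h1, h2, _⟩; exact ⟨b, h2, h1⟩) (Wd_le hc hN _ _ hd)) with
    rfl | ⟨b, -, t, h⟩
  · exact zero_mem _
  · exact main b u hu t h

theorem op_mem_Wd {d : ℤ} {m : ℕ} {a : A} (ha : a ∈ Wd k y e d m) :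
    MulOpposite.op a ∈ Wd k (fun i => MulOpposite.op (y i)) e d m := by
  induction ha using span_induction with
  | mem a ha =>
    obtain ⟨l, rfl, hl⟩ := ha
    refine subset_span ⟨l.reverse, ?_, by simpa [List.sum_reverse] using hl⟩
    rw [MulOpposite.op_list_prod]
    simp [Function.comp_def]
  | zero => simp
  | add a b _ _ ha hb => rw [MulOpposite.op_add]; exact add_mem ha hb
  | smul c a _ ha => rw [MulOpposite.op_smul]; exact smul_mem _ _ ha

theorem noeth_both [Finite ι] (hc : ∀ i j, y i * y j - y j * y i ∈ Wd k y e (e i + e j) 2)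
    {N : ℤ} (hN : ∀ l : List ι, (l.map e).sum < N → (l.map y).prod = 0)
    (hs : ∀ a : A, ∃ d, a ∈ Wd k y e d 0) : IsNoetherianRing A ∧ IsNoetherianRing Aᵐᵒᵖ := by
  refine ⟨noeth_leftG hc hN hs, noeth_leftG (k := k) (y := fun i => MulOpposite.op (y i)) (e := e)
    (fun i j => ?_) (N := N) (fun l hl => ?_) fun a => ?_⟩
  · have := op_mem_Wd (hc j i)
    rwa [MulOpposite.op_sub, MulOpposite.op_mul, MulOpposite.op_mul, add_comm] at this
  · have := congrArg MulOpposite.op (hN l.reverse (by simpa [List.sum_reverse] using hl))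
    rw [MulOpposite.op_list_prod] at this
    simpa [Function.comp_def] using this
  · obtain ⟨d, hd⟩ := hs a.unop
    exact ⟨d, op_mem_Wd hd⟩

end Grob

end Pool.Agent.Lib.MP_ff61db_al
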