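import Pool.Agent.Lib.MP_ff61db_al.PBase

set_option autoImplicit false

namespace Pool.Agent.Lib.MP_ff61db_al

open Polynomial TensorProduct

section
variable (k : Type) [Field k] {H : Type} [Ring H] [Algebra k H]
variable (M : Type) [AddCommGroup M] [Module k M] [Module H M] [IsScalarTower k H M]

/-- `e` acts on `M` as the projection onto the generalized eigenspace of `c` for `μ` -/
def IsProj (c : H) (μ : k) (e : H) : Prop :=
  (∀ x ∈ Module.End.maxGenEigenspace (Algebra.lsmul k k M c) μ, e • x = x) ∧
  (∀ ν : k, ν ≠ μ → ∀ x ∈ Module.End.maxGenEigenspace (Algebra.lsmul k k M c) ν, e • x = 0)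

/-- the word `e 0 * h 0 * e 1 * h 1 * ...` -/
def pathWord (L : List (k × H × H)) : H := (L.map fun p => p.2.1 * p.2.2).prod

/-- a nonzero staircase word with `m` different spectral projections of one element `c` -/
def HasPath (H : Type) [Ring H] [Algebra k H] (M : Type) [AddCommGroup M] [Module k M]
    [Module H M] [IsScalarTower k H M] (m : ℕ) : Prop :=
  ∃ (c : H) (L : List (k × H × H)), L.length = m ∧ (L.map Prod.fst).Nodup ∧
    (∀ p ∈ L, IsProj k M c p.1 p.2.1) ∧ ∃ x : M, pathWord k L • x ≠ 0

variable {k M}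

theorem pa1_mem (c : H) (μ : k) (x : M) :
    x ∈ Module.End.maxGenEigenspace (Algebra.lsmul k k M c) μ ↔
      ∃ n : ℕ, aeval c ((X - C μ) ^ n) • x = 0 := by
  rw [Module.End.mem_maxGenEigenspace]
  refine exists_congr fun n => ?_
  have h : (Algebra.lsmul k k M c - μ • (1 : Module.End k M)) ^ n =
      Algebra.lsmul k k M (aeval c ((X - C μ) ^ n)) := by
    rw [map_pow, map_pow, map_sub, map_sub, aeval_X, aeval_C, AlgHom.commutes,
      Algebra.algebraMap_eq_smul_one]
  rw [h]
  rfl

omit [Module k M] [IsScalarTower k H M] in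
theorem pa1_cop (c : H) {p q : k[X]} (h : IsCoprime p q) {y : M} (hp : aeval c p • y = 0)
    (hq : aeval c q • y = 0) : y = 0 := by
  obtain ⟨a, b, hab⟩ := h
  have h1 : aeval c (a * p + b * q) • y = y := by rw [hab, map_one, one_smul]
  rw [← h1, map_add, map_mul, map_mul, add_smul, mul_smul, mul_smul, hp, hq, smul_zero, smul_zero,
    add_zero]

omit [Module k M] [IsScalarTower k H M] in
theorem pa1_swap (c : H) (p q : k[X]) (y : M) :
    aeval c p • aeval c q • y = aeval c q • aeval c p • y := by
  rw [← mul_smul, ← mul_smul, ← map_mul, ← map_mul, mul_comm]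

theorem pa1_ind [IsAlgClosed k] [FiniteDimensional k M] (c : H) {P : M → Prop} (h0 : P 0)
    (hadd : ∀ x y, P x → P y → P (x + y))
    (h : ∀ ν, ∀ x ∈ Module.End.maxGenEigenspace (Algebra.lsmul k k M c) ν, P x) (x : M) :
    P x := by
  have hx : x ∈ ⨆ ν, Module.End.maxGenEigenspace (Algebra.lsmul k k M c) ν := by
    rw [Module.End.iSup_maxGenEigenspace_eq_top]
    trivial
  exact Submodule.iSup_induction _ (motive := P) hx h h0 hadd

omit [Module k M] [IsScalarTower k H M] in
theorem pa1_chain {ι : Type} (a : ι → H) (R : ι → ι → Prop)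
    (hR : ∀ i j, ¬ R i j → ∀ x : M, a i • a j • x = 0) (l : List ι) (h : ¬ l.IsChain R)
    (x : M) : (l.map a).prod • x = 0 := by
  induction l with
  | nil => exact absurd List.IsChain.nil h
  | cons i t ih =>
    cases t with
    | nil => exact absurd (List.IsChain.singleton i) h
    | cons j t =>
      by_cases hij : R i j
      · rw [List.map_cons, List.prod_cons, mul_smul,
          ih fun h' => h (List.isChain_cons_cons.2 ⟨hij, h'⟩), smul_zero]
      · rw [List.map_cons, List.map_cons, List.prod_cons, List.prod_cons, mul_smul, mul_smul,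
          hR i j hij]

/-- `e = p (c)` where `p ≡ 1` modulo `(X - μ) ^ N` and `p ≡ 0` modulo `(X - ν) ^ N` for the finitely
many other eigenvalues `ν`, `N = finrank k M` (Bezout). -/
theorem exists_isProj [FiniteDimensional k M] (c : H) (μ : k) : ∃ e : H, IsProj k M c μ e := by
  have hint : IsIntegral k (Algebra.lsmul k k M c) := Algebra.IsIntegral.isIntegral _
  obtain ⟨r, hr, hnd⟩ := exists_eq_pow_rootMultiplicity_mul_and_not_dvd _ (minpoly.ne_zero hint) μ
  generalize rootMultiplicity μ (minpoly k (Algebra.lsmul k k M c)) = n at hr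
  have h0 : ∀ y : M, aeval c ((X - C μ) ^ n) • aeval c r • y = 0 := by
    intro y
    have h1 := minpoly.aeval k (Algebra.lsmul k k M c)
    rw [hr, aeval_algHom_apply] at h1
    rw [← mul_smul, ← map_mul]
    exact LinearMap.congr_fun h1 y
  have hcop : IsCoprime (X - C μ) r := (irreducible_X_sub_C μ).coprime_iff_not_dvd.2 hnd
  obtain ⟨a, b, hab⟩ := hcop.pow_left (m := n)
  refine ⟨aeval c (b * r), fun x hx => ?_, fun ν hν x hx => ?_⟩
  · obtain ⟨N, hN⟩ := (pa1_mem c μ x).1 hx
    have h1 : aeval c ((X - C μ) ^ n) • x = 0 :=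
      pa1_cop c (hcop.pow_left (m := N)) (by rw [pa1_swap, hN, smul_zero])
        (by rw [pa1_swap, h0])
    have h2 : aeval c (a * (X - C μ) ^ n + b * r) • x = x := by rw [hab, map_one, one_smul]
    rwa [map_add, add_smul, map_mul, mul_smul, h1, smul_zero, zero_add] at h2
  · obtain ⟨N, hN⟩ := (pa1_mem c ν x).1 hx
    have h1 : IsCoprime ((X - C μ) ^ n) ((X - C ν) ^ N) :=
      (isCoprime_X_sub_C_of_isUnit_sub (sub_ne_zero.2 hν.symm).isUnit).pow
    have h2 : aeval c r • x = 0 := pa1_cop c h1 (h0 x) (by rw [pa1_swap, hN, smul_zero])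
    rw [map_mul, mul_smul, h2, smul_zero]

/-- use `Module.End.iSup_maxGenEigenspace_eq_top` -/
theorem IsProj.unique [IsAlgClosed k] [FiniteDimensional k M] {c : H} {μ : k} {e e' : H}
    (h : IsProj k M c μ e) (h' : IsProj k M c μ e') (x : M) : e • x = e' • x := by
  refine pa1_ind (k := k) c (P := fun x => e • x = e' • x) (by rw [smul_zero, smul_zero])
    (fun x y hx hy => by rw [smul_add, smul_add, hx, hy]) (fun ν x hx => ?_) x
  by_cases hν : ν = μ
  · subst hν
    rw [h.1 x hx, h'.1 x hx]
  · rw [h.2 ν hν x hx, h'.2 ν hν x hx]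

theorem IsProj.smul_mem [IsAlgClosed k] [FiniteDimensional k M] {c : H} {μ : k} {e : H}
    (h : IsProj k M c μ e) (x : M) :
    e • x ∈ Module.End.maxGenEigenspace (Algebra.lsmul k k M c) μ := by
  refine pa1_ind (k := k) c
    (P := fun x => e • x ∈ Module.End.maxGenEigenspace (Algebra.lsmul k k M c) μ)
    (by rw [smul_zero]; exact Submodule.zero_mem _)
    (fun x y hx hy => by rw [smul_add]; exact Submodule.add_mem _ hx hy) (fun ν x hx => ?_) x
  by_cases hν : ν = μ
  · subst hν
    rw [h.1 x hx]
    exact hx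
  · rw [h.2 ν hν x hx]
    exact Submodule.zero_mem _

/-- a surjection maps each generalized eigenspace onto the corresponding one: write a preimage as
a sum of generalized eigenvectors and use independence (`Module.End.independent_maxGenEigenspace`),
or use the projections of `exists_isProj` -/
theorem IsProj.of_surj [IsAlgClosed k] {Y : Type} [AddCommGroup Y] [Module k Y] [Module H Y]
    [IsScalarTower k H Y] [FiniteDimensional k Y] (π : Y →ₗ[H] M) (hπ : Function.Surjective π)
    {c : H} {μ : k} {e : H} (h : IsProj k Y c μ e) : IsProj k M c μ e := by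
  have : FiniteDimensional k M := Module.Finite.of_surjective (π.restrictScalars k) hπ
  obtain ⟨e', he'⟩ := exists_isProj (k := k) (M := M) c μ
  have h1 : ∀ y : Y, e • π y = e' • π y := by
    refine pa1_ind (k := k) c (by rw [map_zero, smul_zero, smul_zero])
      (fun x y hx hy => by rw [map_add, smul_add, smul_add, hx, hy]) fun ν y hy => ?_
    have hy' : π y ∈ Module.End.maxGenEigenspace (Algebra.lsmul k k M c) ν := by
      obtain ⟨n, hn⟩ := (pa1_mem c ν y).1 hy
      exact (pa1_mem c ν _).2 ⟨n, by rw [← map_smul, hn, map_zero]⟩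
    by_cases hν : ν = μ
    · subst hν
      rw [← map_smul, h.1 y hy, he'.1 _ hy']
    · rw [← map_smul, h.2 ν hν y hy, he'.2 ν hν _ hy', map_zero]
  have h2 : ∀ x : M, e • x = e' • x := fun x => by
    obtain ⟨y, rfl⟩ := hπ x
    exact h1 y
  exact ⟨fun x hx => by rw [h2, he'.1 x hx], fun ν hν x hx => by rw [h2, he'.2 ν hν x hx]⟩

/-- Staircase argument.  If `m ≥ d + 1`, substitute `a i = e i * h i * e (i + 1)`, `i < d`, in the
identity and let it act on `M`.  For `σ ≠ 1` some `σ (i + 1) ≠ σ i + 1`, and the product contains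
`e (σ i + 1) * e (σ (i+1))`, which kills `M`.  So the product for `σ = 1` kills `M`; it acts as
`e 0 * h 0 * .. * h (d - 1) * e d`, a left factor of the path word. -/
theorem HasPath.le [IsAlgClosed k] [FiniteDimensional k M] {d m : ℕ} (hd : MPI k H d)
    (h : HasPath k H M m) : m ≤ d := by
  by_contra hlt
  rw [not_le] at hlt
  obtain ⟨c, L, hm, hnd, hpr, x, hx⟩ := h
  obtain ⟨w, hw1, hw⟩ := hd
  obtain ⟨T, rfl⟩ : ∃ T : ℕ → k × H × H, L = (List.range m).map T :=
    ⟨fun i => L.getD i (0, 0, 0), List.ext_getElem (by simp [hm]) fun i h1 h2 => by simp [h1]⟩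
  have hP : ∀ i < m, IsProj k M c (T i).1 (T i).2.1 := fun i hi =>
    hpr _ (List.mem_map_of_mem (List.mem_range.2 hi))
  have hEE : ∀ i < m, ∀ y : M, (T i).2.1 • (T i).2.1 • y = (T i).2.1 • y := fun i hi y =>
    (hP i hi).1 _ ((hP i hi).smul_mem y)
  have hE0 : ∀ i < m, ∀ j < m, i ≠ j → ∀ y : M, (T i).2.1 • (T j).2.1 • y = 0 := by
    intro i hi j hj hij y
    refine (hP i hi).2 _ (fun e => hij ?_) _ ((hP j hj).smul_mem y)
    rw [List.map_map] at hnd
    exact List.inj_on_of_nodup_map hnd (List.mem_range.2 hi) (List.mem_range.2 hj) e.symm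
  let a : ℕ → H := fun i => (T i).2.1 * (T i).2.2 * (T (i + 1)).2.1
  let g : ℕ → H := fun i => (T i).2.1 * (T i).2.2
  have h1 : ∀ y : M, ((List.range d).map a).prod • y = 0 := by
    intro y
    have h2 := congrArg (fun t : H => t • y) (hw fun i => a i)
    simp only [Finset.sum_smul, zero_smul] at h2
    rw [Finset.sum_eq_single 1, hw1, one_smul] at h2
    · rw [← h2]
      congr 2
      exact List.ext_getElem (by simp) fun i h1 h2 => by simp
    · intro σ _ hσ
      have h3 : (List.ofFn fun i => a (σ i)) = (List.ofFn σ).map fun i : Fin d => a i := by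
        rw [List.map_ofFn]
        rfl
      rw [smul_assoc, h3, pa1_chain (fun i : Fin d => a i) (· < ·) ?_ _ ?_, smul_zero]
      · intro i j hij z
        have hi := i.2
        have hj := j.2
        have hij' : ¬ (i : ℕ) < j := hij
        simp only [a, mul_smul]
        rw [hE0 _ (by omega) _ (by omega) (by omega), smul_zero, smul_zero]
      · intro hc
        rw [List.isChain_iff_pairwise, List.pairwise_ofFn] at hc
        exact hσ (Equiv.ext fun i => StrictMono.apply_eq (f := σ) hc)
    · intro h
      exact absurd (Finset.mem_univ _) h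
  have h2 : ∀ n < m, ∀ y : M, ((List.range n).map a).prod • (T n).2.1 • y =
      ((List.range n).map g).prod • (T n).2.1 • y := by
    intro n
    induction n with
    | zero => intro _ y; rfl
    | succ n ih =>
      intro hn y
      rw [List.prod_range_succ, List.prod_range_succ]
      simp only [a, g, mul_smul]
      rw [hEE _ hn]
      exact ih (by omega) _
  have h3 : ∀ n, d + 1 ≤ n → ∀ y : M, ((List.range n).map g).prod • y = 0 := by
    intro n hn
    induction n, hn using Nat.le_induction with
    | base =>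
      intro y
      rw [List.prod_range_succ]
      simp only [g, mul_smul]
      exact (h2 d hlt _).symm.trans (h1 _)
    | succ n _ ih =>
      intro y
      rw [List.prod_range_succ, mul_smul, ih]
  apply hx
  rw [pathWord, List.map_map]
  exact h3 m hlt x

end

end Pool.Agent.Lib.MP_ff61db_al
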