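import Pool.Agent.Lib.MP_ff61db_al.PA1

set_option autoImplicit false

namespace Pool.Agent.Lib.MP_ff61db_al

open Polynomial TensorProduct

section
variable {k : Type} [Field k] {H : Type} [Ring H] [Algebra k H]

/-- in a semisimple module a left ideal without nonzero annihilated vector fixes a given vector -/
theorem pa2_fix {V : Type} [AddCommGroup V] [Module H V] [IsSemisimpleModule H V] (n : Ideal H)
    (hn : ∀ z : V, (∀ h ∈ n, h • z = 0) → z = 0) (v : V) : ∃ φ ∈ n, φ • v = v := by
  obtain ⟨C, hC⟩ := exists_isCompl (Submodule.map (LinearMap.toSpanSingleton H V v) n)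
  have hv : v ∈ Submodule.map (LinearMap.toSpanSingleton H V v) n ⊔ C := by
    rw [hC.sup_eq_top]; exact Submodule.mem_top
  obtain ⟨a, ha, c, hc, hac⟩ := Submodule.mem_sup.1 hv
  obtain ⟨φ, hφ, rfl⟩ := Submodule.mem_map.1 ha
  rw [LinearMap.toSpanSingleton_apply] at hac
  refine ⟨φ, hφ, ?_⟩
  have hc0 : c = 0 := by
    refine hn c fun h hh => ?_
    have h1 : h • c ∈ Submodule.map (LinearMap.toSpanSingleton H V v) n := by
      refine Submodule.mem_map.2 ⟨h - h * φ, n.sub_mem hh (n.mul_mem_left h hφ), ?_⟩
      rw [LinearMap.toSpanSingleton_apply, sub_smul, mul_smul, ← smul_sub]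
      congr 1
      exact (eq_sub_of_add_eq' hac).symm
    exact (Submodule.disjoint_def.1 hC.disjoint) _ h1 (C.smul_mem h hc)
  simpa [hc0] using hac

omit [Field k] [Algebra k H] in
theorem pa2_word {M : Type} [AddCommGroup M] [Module H M] (L : List (k × H × H)) (e : k → H)
    (he : ∀ p ∈ L, ∀ x : M, e p.1 • x = p.2.1 • x) (x : M) :
    pathWord k (L.map fun p => (p.1, e p.1, p.2.2)) • x = pathWord k L • x := by
  induction L with
  | nil => rfl
  | cons p L ih =>
    have ih' := ih fun q hq => he q (List.mem_cons_of_mem _ hq)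
    simp only [pathWord, List.map_cons, List.prod_cons, mul_smul] at ih' ⊢
    rw [ih', he p List.mem_cons_self]

/-- Let `n` be a two-sided ideal that kills no nonzero vector of the finite-dimensional module `Y`.
Then one element of `n` acts as the identity on all simple submodules.  For one simple submodule `S`
the annihilator of `S` is a maximal two-sided ideal (density theorem, `jacobson_density`,
or: `H ⧸ ann S` is a finite-dimensional algebra with a faithful simple module), so there is
`ψ ∈ 1 + n` killing `S`.  The sum of all simple submodules is a finite sum; multiply the `ψ`. -/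
theorem exists_socle_unit {Y : Type} [AddCommGroup Y] [Module k Y] [Module H Y]
    [IsScalarTower k H Y] [FiniteDimensional k Y] (n : Ideal H) [n.IsTwoSided]
    (hn : ∀ z : Y, z ≠ 0 → ∃ h ∈ n, h • z ≠ 0) :
    ∃ φ ∈ n, ∀ S : Submodule H Y, IsSimpleModule H S → ∀ s ∈ S, φ • s = s := by
  let T : Submodule H Y := ⨆ S ∈ {S : Submodule H Y | IsSimpleModule H S}, id S
  have : IsSemisimpleModule H T :=
    isSemisimpleModule_biSup_of_isSemisimpleModule_submodule fun S hS => by
      have : IsSimpleModule H (id S : Submodule H Y) := hS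
      infer_instance
  have : FiniteDimensional k T :=
    FiniteDimensional.of_injective (T.subtype.restrictScalars k) T.injective_subtype
  let b := Module.finBasis k T
  obtain ⟨φ, hφ, hv⟩ := pa2_fix (V := Fin (Module.finrank k T) →₀ T) n (fun z hz => by
    ext i
    by_contra h0
    obtain ⟨h, hh, h1⟩ := hn (z i) h0
    have := congrArg (fun w : Fin (Module.finrank k T) →₀ T => (w i : Y)) (hz h hh)
    exact h1 (by simpa using this)) (Finsupp.equivFunOnFinite.symm b)
  have hb : ∀ i, φ • b i = b i := fun i => by
    simpa using congrArg (fun w : Fin (Module.finrank k T) →₀ T => w i) hv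
  have hT : ∀ t : T, φ • t = t := fun t => by
    have : Algebra.lsmul k k T φ = LinearMap.id := b.ext fun i => by simpa using hb i
    simpa using LinearMap.congr_fun this t
  refine ⟨φ, hφ, fun S hS s hs => ?_⟩
  have hle : S ≤ T := le_biSup (f := id) (s := {S : Submodule H Y | IsSimpleModule H S}) hS
  simpa using congrArg Subtype.val (hT ⟨s, hle hs⟩)

/-- Extension of paths.  Let `(c, L, x)` be a path in `M`, `φ` as in `exists_socle_unit` for
`n = ann M`, `μ` a scalar different from those of `L` (`k` is infinite), and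
`c' = c * (1 - φ) + μ • φ`.  It acts on `M` as `c` and on every simple submodule of `Y` as `μ`.
Replace the projections of `L` by projections for `(Y, c')` (`exists_isProj`); by `IsProj.of_surj` and
`IsProj.unique` they act on `M` as the old ones, so the new word `w'` does not kill a preimage `x'` of
`x`.  The submodule generated by `u = w' • x'` contains a simple submodule; pick `h` with
`h • u ≠ 0` in it, and put `(μ, e, h)` in front of the list. -/
theorem HasPath.extend [IsAlgClosed k] {M Y : Type} [AddCommGroup M] [Module k M] [Module H M]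
    [IsScalarTower k H M] [AddCommGroup Y] [Module k Y] [Module H Y] [IsScalarTower k H Y]
    [FiniteDimensional k Y] (π : Y →ₗ[H] M) (hπ : Function.Surjective π) {m : ℕ}
    (h : HasPath k H M m)
    (hY : ∀ z : Y, z ≠ 0 → ∃ h : H, (∀ x : M, h • x = 0) ∧ h • z ≠ 0) :
    HasPath k H Y (m + 1) := by
  classical
  have : FiniteDimensional k M := Module.Finite.of_surjective (π.restrictScalars k) hπ
  obtain ⟨c, L, hlen, hnd, hL, x, hx⟩ := h
  obtain ⟨φ, hφ, hφS⟩ := exists_socle_unit (k := k) (Y := Y) (Module.annihilator H M)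
    fun z hz => by
      obtain ⟨h, h1, h2⟩ := hY z hz
      exact ⟨h, Module.mem_annihilator.2 h1, h2⟩
  have hφ0 : ∀ x : M, φ • x = 0 := Module.mem_annihilator.1 hφ
  obtain ⟨μ, hμ⟩ := Infinite.exists_notMem_finset (L.map Prod.fst).toFinset
  rw [List.mem_toFinset] at hμ
  obtain ⟨c', hc'⟩ : ∃ c' : H, c' = c * (1 - φ) + μ • φ := ⟨_, rfl⟩
  have hcM : Algebra.lsmul k k M c' = Algebra.lsmul k k M c := by
    ext y
    simp [hc', hφ0]
  choose e he using fun ν : k => exists_isProj (M := Y) c' ν
  have heM : ∀ ν, IsProj k M c ν (e ν) := fun ν => by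
    have := IsProj.of_surj π hπ (he ν)
    unfold IsProj at this ⊢
    rwa [hcM] at this
  obtain ⟨x', rfl⟩ := hπ x
  have hw := pa2_word (M := M) L e (fun p hp y => (heM p.1).unique (hL p hp) y) (π x')
  obtain ⟨L', hL'⟩ : ∃ L' : List (k × H × H), L' = L.map fun p => (p.1, e p.1, p.2.2) := ⟨_, rfl⟩
  rw [← hL'] at hw
  have hu : pathWord k L' • x' ≠ 0 := fun h0 => hx (by rw [← hw, ← map_smul, h0, map_zero])
  have : IsArtinian H Y := isArtinian_of_tower k inferInstance
  have hne : Submodule.span H {pathWord k L' • x'} ≠ ⊥ := by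
    rwa [Ne, Submodule.span_singleton_eq_bot]
  obtain ⟨S, hS, hSle⟩ := (eq_bot_or_exists_atom_le _).resolve_left hne
  obtain ⟨s, hs, hs0⟩ := Submodule.exists_mem_ne_zero_of_ne_bot hS.1
  obtain ⟨h, hh⟩ := Submodule.mem_span_singleton.1 (hSle hs)
  have hφs : φ • s = s := hφS S (isSimpleModule_iff_isAtom.2 hS) s hs
  have hes : e μ • s = s := by
    refine (he μ).1 s ?_
    rw [Module.End.mem_maxGenEigenspace]
    refine ⟨1, ?_⟩
    simp [hc', hφs]
  have hfst : L'.map Prod.fst = L.map Prod.fst := by
    rw [hL', List.map_map]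
    rfl
  refine ⟨c', (μ, e μ, h) :: L', ?_, ?_, ?_, x', ?_⟩
  · simp [hL', hlen]
  · rw [List.map_cons, hfst]
    exact List.nodup_cons.2 ⟨hμ, hnd⟩
  · intro p hp
    rcases List.mem_cons.1 hp with rfl | hp
    · exact he μ
    · rw [hL'] at hp
      obtain ⟨q, _, rfl⟩ := List.mem_map.1 hp
      exact he q.1
  · have : pathWord k ((μ, e μ, h) :: L') • x' = s := by
      rw [← hes, ← hh]
      simp only [pathWord, List.map_cons, List.prod_cons, mul_smul]
    rw [this]
    exact hs0

/-- A module with a path of maximal size (the field `k`, made a module by `ε`, has a path of size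
`0`; sizes are bounded by `HasPath.le`). -/
theorem exists_top_module [IsAlgClosed k] {d : ℕ} (hd : MPI k H d) (ε : H →ₐ[k] k) :
    ∃ (M : Type) (_ : AddCommGroup M) (_ : Module k M) (_ : Module H M) (_ : IsScalarTower k H M)
      (_ : FiniteDimensional k M),
      ∀ (Y : Type) [AddCommGroup Y] [Module k Y] [Module H Y] [IsScalarTower k H Y]
        [FiniteDimensional k Y] (π : Y →ₗ[H] M), Function.Surjective π →
        ∃ z : Y, z ≠ 0 ∧ ∀ h : H, (∀ x : M, h • x = 0) → h • z = 0 := by
  by_contra hcon
  have key : ∀ m : ℕ, ∃ (M : Type) (_ : AddCommGroup M) (_ : Module k M) (_ : Module H M)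
      (_ : IsScalarTower k H M) (_ : FiniteDimensional k M), HasPath k H M m := by
    intro m
    induction m with
    | zero =>
      letI : Module H k := Module.compHom k (ε : H →+* k)
      have : IsScalarTower k H k := ⟨fun a h x => by
        change ε (a • h) * x = a * (ε h * x)
        rw [map_smul, smul_eq_mul, mul_assoc]⟩
      exact ⟨k, inferInstance, inferInstance, inferInstance, inferInstance, inferInstance,
        0, [], rfl, List.nodup_nil, by simp, 1, by simp [pathWord]⟩
    | succ m ih =>
      obtain ⟨M, i1, i2, i3, i4, i5, hM⟩ := ih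
      by_contra hno
      refine hcon ⟨M, i1, i2, i3, i4, i5, fun Y _ _ _ _ _ π hπ => ?_⟩
      by_contra hz
      refine hno ⟨Y, inferInstance, inferInstance, inferInstance, inferInstance, inferInstance,
        hM.extend π hπ fun z hz0 => ?_⟩
      by_contra h1
      refine hz ⟨z, hz0, fun h hh => ?_⟩
      by_contra h2
      exact h1 ⟨h, hh, h2⟩
  obtain ⟨M, i1, i2, i3, i4, i5, hM⟩ := key (d + 1)
  exact absurd (hM.le hd) (by omega)

end

end Pool.Agent.Lib.MP_ff61db_al
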