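import Pool.Agent.Lib.MP_ff61db_al.PBase

set_option autoImplicit false

namespace Pool.Agent.Lib.MP_ff61db_al

open Polynomial TensorProduct

section pa3

open Coalgebra HopfAlgebra

variable {k H : Type} [Field k] [Ring H] [HopfAlgebra k H]

section sw

variable {X V : Type} [AddCommMonoid X] [Module k X] [AddCommMonoid V] [Module k V]

/-- A fixed expression of the coproduct as a sum of pure tensors. -/
noncomputable def pa3_sw (k : Type) {H X : Type} [Field k] [Ring H] [HopfAlgebra k H]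
    [AddCommMonoid X] (h : H) (F : H → H → X) : X :=
  ∑ i ∈ (Repr.arbitrary k h).index, F ((Repr.arbitrary k h).left i) ((Repr.arbitrary k h).right i)

lemma pa3_sw_comul (φ : H ⊗[k] H →ₗ[k] X) (h : H) :
    φ (comul h) = pa3_sw k h (fun a b => φ (a ⊗ₜ b)) := by
  rw [← (Repr.arbitrary k h).eq, map_sum]
  rfl

lemma pa3_sw_map (φ : X →ₗ[k] V) (h : H) (F : H → H → X) :
    φ (pa3_sw k h F) = pa3_sw k h (fun a b => φ (F a b)) := map_sum φ _ _

lemma pa3_sw_apply (h : H) (F : H → H → (X →ₗ[k] V)) (x : X) :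
    pa3_sw k h F x = pa3_sw k h (fun a b => F a b x) := LinearMap.sum_apply _ _ _

lemma pa3_co (t : H →ₗ[k] H →ₗ[k] H →ₗ[k] X) (h : H) :
    pa3_sw k h (fun a c => pa3_sw k a (fun a₁ a₂ => t a₁ a₂ c)) =
      pa3_sw k h (fun a c => pa3_sw k c (fun c₁ c₂ => t a c₁ c₂)) := by
  have h1 := congrArg (TensorProduct.lift ((TensorProduct.uncurry (RingHom.id k) H H X) ∘ₗ t))
    (sum_tmul_tmul_eq (Repr.arbitrary k h) (fun _ => Repr.arbitrary k _)
      (fun _ => Repr.arbitrary k _))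
  simp only [map_sum, TensorProduct.lift.tmul, LinearMap.comp_apply,
    TensorProduct.uncurry_apply] at h1
  exact h1

lemma pa3_co1 (B₁ : H →ₗ[k] V →ₗ[k] X) (B₂ : H →ₗ[k] H →ₗ[k] V) (h : H) :
    pa3_sw k h (fun a c => pa3_sw k a (fun a₁ a₂ => B₁ a₁ (B₂ a₂ c))) =
      pa3_sw k h (fun a c => B₁ a (pa3_sw k c (fun c₁ c₂ => B₂ c₁ c₂))) := by
  simp only [pa3_sw_map]
  exact pa3_co ((LinearMap.llcomp k H V X).compl₁₂ B₁ B₂) h

lemma pa3_co2 (B₁ : V →ₗ[k] H →ₗ[k] X) (B₂ : H →ₗ[k] H →ₗ[k] V) (h : H) :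
    pa3_sw k h (fun a c => pa3_sw k c (fun c₁ c₂ => B₁ (B₂ a c₁) c₂)) =
      pa3_sw k h (fun a c => B₁ (pa3_sw k a (fun a₁ a₂ => B₂ a₁ a₂)) c) := by
  simp only [pa3_sw_map, pa3_sw_apply]
  exact (pa3_co (B₂.compr₂ B₁) h).symm

lemma pa3_eps_right (φ : H →ₗ[k] X) (h : H) :
    pa3_sw k h (fun a c => counit (R := k) c • φ a) = φ h := by
  have h1 := congrArg (TensorProduct.lift ((LinearMap.lsmul k X).flip ∘ₗ φ))
    (sum_tmul_counit_eq (Repr.arbitrary k h))
  simp only [map_sum, TensorProduct.lift.tmul, LinearMap.comp_apply, LinearMap.flip_apply,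
    LinearMap.lsmul_apply, one_smul] at h1
  exact h1

lemma pa3_eps_left (φ : H →ₗ[k] X) (h : H) :
    pa3_sw k h (fun a c => counit (R := k) a • φ c) = φ h := by
  have h1 := congrArg φ (sum_counit_smul (Repr.arbitrary k h))
  simp only [map_sum, map_smul] at h1
  exact h1

lemma pa3_A (B : H →ₗ[k] H →ₗ[k] X) (h : H) :
    pa3_sw k h (fun a c => pa3_sw k a (fun a₁ a₂ => B a₁ (a₂ * antipode k c))) = B h 1 := by
  have h1 : ∀ c : H, pa3_sw k c (fun c₁ c₂ => ((LinearMap.mul k H).compl₂ (antipode k)) c₁ c₂) =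
      counit (R := k) c • 1 := fun c => sum_mul_antipode_eq_smul (Repr.arbitrary k c)
  refine (pa3_co1 B ((LinearMap.mul k H).compl₂ (antipode k)) h).trans ?_
  simp only [h1, map_smul]
  exact pa3_eps_right (B.flip 1) h

lemma pa3_B (B : H →ₗ[k] H →ₗ[k] X) (h : H) :
    pa3_sw k h (fun a c => pa3_sw k a (fun a₁ a₂ => B a₁ (antipode k a₂ * c))) = B h 1 := by
  have h1 : ∀ c : H, pa3_sw k c (fun c₁ c₂ => ((LinearMap.mul k H) ∘ₗ (antipode k)) c₁ c₂) =
      counit (R := k) c • 1 := fun c => sum_antipode_mul_eq_smul (Repr.arbitrary k c)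
  refine (pa3_co1 B ((LinearMap.mul k H) ∘ₗ (antipode k)) h).trans ?_
  simp only [h1, map_smul]
  exact pa3_eps_right (B.flip 1) h

lemma pa3_C (B : H →ₗ[k] H →ₗ[k] X) (h : H) :
    pa3_sw k h (fun a c => pa3_sw k c (fun c₁ c₂ => B (antipode k a * c₁) c₂)) = B 1 h := by
  have h1 : ∀ c : H, pa3_sw k c (fun c₁ c₂ => ((LinearMap.mul k H) ∘ₗ (antipode k)) c₁ c₂) =
      counit (R := k) c • 1 := fun c => sum_antipode_mul_eq_smul (Repr.arbitrary k c)
  refine (pa3_co2 B ((LinearMap.mul k H) ∘ₗ (antipode k)) h).trans ?_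
  simp only [h1, map_smul, LinearMap.smul_apply]
  exact pa3_eps_left (B 1) h

end sw

section rep

variable {M E U V : Type} [AddCommGroup M] [Module k M] [AddCommGroup E] [Module k E]
  [AddCommGroup U] [Module k U] [AddCommGroup V] [Module k V]

/-- Tensor product of representations. -/
noncomputable def pa3_ten (ρ : H →ₐ[k] Module.End k M) (τ : H →ₐ[k] Module.End k E) :
    H →ₐ[k] Module.End k (M ⊗[k] E) :=
  (Module.endTensorEndAlgHom (R := k) (S := k) (A := k) (M := M) (N := E)).comp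
    ((Algebra.TensorProduct.map ρ τ).comp (Bialgebra.comulAlgHom k H))

lemma pa3_ten_apply (ρ : H →ₐ[k] Module.End k M) (τ : H →ₐ[k] Module.End k E) (h : H)
    (w : M ⊗[k] E) :
    pa3_ten ρ τ h w = pa3_sw k h (fun a b => TensorProduct.map (ρ a) (τ b) w) := by
  have h1 := pa3_sw_comul ((Module.endTensorEndAlgHom (R := k) (S := k) (A := k) (M := M)
    (N := E)).comp (Algebra.TensorProduct.map ρ τ)).toLinearMap h
  have h2 : pa3_ten ρ τ h = _ := h1
  rw [h2, pa3_sw_apply]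
  rfl

/-- Postcomposition. -/
noncomputable def pa3_L (U : Type) [AddCommGroup U] [Module k U] (ρ : H →ₐ[k] Module.End k V) :
    H →ₐ[k] Module.End k (U →ₗ[k] V) :=
  AlgHom.ofLinearMap (LinearMap.llcomp k U V V ∘ₗ ρ.toLinearMap)
    (LinearMap.ext fun f => LinearMap.ext fun u => by simp)
    (fun a b => LinearMap.ext fun f => LinearMap.ext fun u => by simp)

/-- Precomposition with the antipode. -/
noncomputable def pa3_R (V : Type) [AddCommGroup V] [Module k V] (υ : H →ₐ[k] Module.End k U) :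
    H →ₐ[k] Module.End k (U →ₗ[k] V) :=
  AlgHom.ofLinearMap ((LinearMap.llcomp k U U V).flip ∘ₗ υ.toLinearMap ∘ₗ antipode k)
    (LinearMap.ext fun f => LinearMap.ext fun u => by simp)
    (fun a b => LinearMap.ext fun f => LinearMap.ext fun u => by
      simp [antipode_mul_antidistrib])

/-- The internal hom. -/
noncomputable def pa3_hom (ρ : H →ₐ[k] Module.End k V) (υ : H →ₐ[k] Module.End k U) :
    H →ₐ[k] Module.End k (U →ₗ[k] V) :=
  (Algebra.TensorProduct.lift (pa3_L U ρ) (pa3_R V υ) (fun _ _ => rfl)).comp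
    (Bialgebra.comulAlgHom k H)

lemma pa3_hom_apply (ρ : H →ₐ[k] Module.End k V) (υ : H →ₐ[k] Module.End k U) (h : H)
    (f : U →ₗ[k] V) (u : U) :
    pa3_hom ρ υ h f u = pa3_sw k h (fun a b => ρ a (f (υ (antipode k b) u))) := by
  have h1 := pa3_sw_comul
    (Algebra.TensorProduct.lift (pa3_L U ρ) (pa3_R V υ) (fun _ _ => rfl)).toLinearMap h
  have h2 : pa3_hom ρ υ h = _ := h1
  rw [h2, pa3_sw_apply, pa3_sw_apply]
  rfl

/-- Evaluation is a map of representations. -/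
lemma pa3_ev (ρ : H →ₐ[k] Module.End k V) (υ : H →ₐ[k] Module.End k U) (h : H)
    (f : U →ₗ[k] V) (u : U) :
    pa3_sw k h (fun a c => pa3_hom ρ υ a f (υ c u)) = ρ h (f u) := by
  have h1 := pa3_B (ρ.toLinearMap.compl₂ (f ∘ₗ LinearMap.applyₗ u ∘ₗ υ.toLinearMap)) h
  simp only [LinearMap.compl₂_apply, LinearMap.comp_apply, AlgHom.toLinearMap_apply,
    LinearMap.applyₗ_apply_apply, map_mul, map_one, Module.End.mul_apply,
    Module.End.one_apply] at h1
  simp only [pa3_hom_apply]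
  exact h1

/-- Contraction with a functional twisted by an endomorphism. -/
noncomputable def pa3_con (E : Type) [AddCommGroup E] [Module k E] (ξ : M →ₗ[k] k) :
    Module.End k M →ₗ[k] (M ⊗[k] E →ₗ[k] E) :=
  LinearMap.llcomp k _ _ _ (TensorProduct.lid k E).toLinearMap ∘ₗ LinearMap.rTensorHom E ∘ₗ
    LinearMap.llcomp k M M k ξ

lemma pa3_con_tmul (ξ : M →ₗ[k] k) (A : Module.End k M) (m : M) (e : E) :
    pa3_con E ξ A (m ⊗ₜ e) = ξ (A m) • e := by
  simp [pa3_con]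

/-- Contraction is a map of representations. -/
lemma pa3_con_ten (ρ : H →ₐ[k] Module.End k M) (τ : H →ₐ[k] Module.End k E) (ξ : M →ₗ[k] k)
    (h : H) (w : M ⊗[k] E) :
    pa3_sw k h (fun a c => pa3_con E ξ (ρ (antipode k a)) (pa3_ten ρ τ c w)) =
      τ h (pa3_con E ξ 1 w) := by
  induction w with
  | zero => simp [pa3_sw]
  | add w w' hw hw' =>
    simp only [map_add]
    rw [← hw, ← hw']
    exact Finset.sum_add_distrib
  | tmul m e =>
    have h1 := pa3_C ((LinearMap.lsmul k E).compl₁₂ (ξ ∘ₗ LinearMap.applyₗ m ∘ₗ ρ.toLinearMap)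
      (LinearMap.applyₗ e ∘ₗ τ.toLinearMap)) h
    simp only [LinearMap.compl₁₂_apply, LinearMap.comp_apply, AlgHom.toLinearMap_apply,
      LinearMap.applyₗ_apply_apply, map_mul, map_one, Module.End.mul_apply,
      Module.End.one_apply, LinearMap.lsmul_apply] at h1
    simp only [pa3_ten_apply, pa3_sw_map, TensorProduct.map_tmul, pa3_con_tmul, map_smul,
      Module.End.one_apply]
    exact h1

/-- Lifts of the insertion maps form a subrepresentation. -/
lemma pa3_stable (ρ : H →ₐ[k] Module.End k M) (τ : H →ₐ[k] Module.End k E)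
    (υ : H →ₐ[k] Module.End k U) (p : E →ₗ[k] U) (hp : ∀ h e, p (τ h e) = υ h (p e))
    {f : U →ₗ[k] M ⊗[k] E} {m : M} (hf : ∀ u, p.lTensor M (f u) = m ⊗ₜ u) (h : H) (u : U) :
    p.lTensor M (pa3_hom (pa3_ten ρ τ) υ h f u) = ρ h m ⊗ₜ u := by
  have h0 : ∀ a b (w : M ⊗[k] E), p.lTensor M (TensorProduct.map (ρ a) (τ b) w) =
      TensorProduct.map (ρ a) (υ b) (p.lTensor M w) := by
    intro a b w
    induction w with
    | zero => simp
    | add w w' hw hw' => simp only [map_add, hw, hw']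
    | tmul m e => simp [hp]
  have h1 := pa3_A ((TensorProduct.mk k M U).compl₁₂ (LinearMap.applyₗ m ∘ₗ ρ.toLinearMap)
    (LinearMap.applyₗ u ∘ₗ υ.toLinearMap)) h
  simp only [LinearMap.compl₁₂_apply, LinearMap.comp_apply, AlgHom.toLinearMap_apply,
    LinearMap.applyₗ_apply_apply, map_mul, map_one, Module.End.mul_apply,
    Module.End.one_apply, TensorProduct.mk_apply] at h1
  simp only [pa3_hom_apply, pa3_ten_apply, pa3_sw_map, h0, hf, TensorProduct.map_tmul]
  exact h1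

lemma pa3_factor (α : M →ₗ[k] E) (β : M →ₗ[k] V) (h : ∀ a, α a = 0 → β a = 0) :
    ∃ l : E →ₗ[k] V, ∀ a, l (α a) = β a := by
  obtain ⟨s, hs⟩ := α.rangeRestrict.exists_rightInverse_of_surjective α.range_rangeRestrict
  obtain ⟨l, hl⟩ := LinearMap.exists_extend (β ∘ₗ s)
  refine ⟨l, fun a => ?_⟩
  have h1 : l (α a) = β (s (α.rangeRestrict a)) := LinearMap.congr_fun hl (α.rangeRestrict a)
  have h2 : α (s (α.rangeRestrict a)) = α a :=
    congrArg Subtype.val (LinearMap.congr_fun hs (α.rangeRestrict a))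
  rw [h1, ← sub_eq_zero, ← map_sub]
  exact h _ (by rw [map_sub, h2, sub_self])

lemma pa3_exists_con {w : M ⊗[k] E} (hw : w ≠ 0) : ∃ ξ : M →ₗ[k] k, pa3_con E ξ 1 w ≠ 0 := by
  classical
  by_contra hcon
  push Not at hcon
  let ℬ := Module.Basis.ofVectorSpace k M
  refine hw ((TensorProduct.equivFinsuppOfBasisLeft ℬ).map_eq_zero_iff.1 ?_)
  ext i
  rw [TensorProduct.equivFinsuppOfBasisLeft_apply]
  exact hcon (ℬ.coord i)

/-- The algebra map controlling the twisted action. -/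
noncomputable def pa3_gam (ρ : H →ₐ[k] Module.End k M) :
    H →ₐ[k] (Module.End k M)ᵐᵒᵖ ⊗[k] Module.End k M :=
  (Algebra.TensorProduct.map ((AlgHom.op ρ).comp (antipodeAlgHomOp k H)) ρ).comp
    (Bialgebra.comulAlgHom k H)

lemma pa3_gam_apply (ρ : H →ₐ[k] Module.End k M) (h : H) :
    pa3_gam ρ h = pa3_sw k h (fun a b => MulOpposite.op (ρ (antipode k a)) ⊗ₜ ρ b) :=
  pa3_sw_comul
    (Algebra.TensorProduct.map ((AlgHom.op ρ).comp (antipodeAlgHomOp k H)) ρ).toLinearMap h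

lemma pa3_final (ρ : H →ₐ[k] Module.End k M) (τ : H →ₐ[k] Module.End k E)
    (υ : H →ₐ[k] Module.End k U) (π : H →ₗ[k] V) (hπ : ∀ a, π a = 0 → υ a = 0)
    {f : U →ₗ[k] M ⊗[k] E} (hf : ∀ a, ρ a = 0 → pa3_hom (pa3_ten ρ τ) υ a f = 0)
    (ξ : M →ₗ[k] k) (u : U) (h : H)
    (h0 : TensorProduct.map (pa3_gam ρ).toLinearMap π (comul h) = 0) :
    τ h (pa3_con E ξ 1 (f u)) = 0 := by
  obtain ⟨l, hl⟩ := pa3_factor ρ.toLinearMap
    (LinearMap.applyₗ f ∘ₗ (pa3_hom (pa3_ten ρ τ) υ).toLinearMap) hf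
  obtain ⟨μ, hμ⟩ := pa3_factor π (LinearMap.applyₗ u ∘ₗ υ.toLinearMap) (fun a ha => by
    change υ a u = 0
    rw [hπ a ha]
    rfl)
  have hl' : ∀ a, l (ρ a) = pa3_hom (pa3_ten ρ τ) υ a f := hl
  have hμ' : ∀ a, μ (π a) = υ a u := hμ
  let χ : (Module.End k M)ᵐᵒᵖ ⊗[k] Module.End k M →ₗ[k] (U →ₗ[k] E) :=
    TensorProduct.lift ((LinearMap.llcomp k U (M ⊗[k] E) E).compl₁₂
      (pa3_con E ξ ∘ₗ (MulOpposite.opLinearEquiv k).symm.toLinearMap) l)
  have hχ : ∀ A B, χ (MulOpposite.op A ⊗ₜ B) = pa3_con E ξ A ∘ₗ l B := fun _ _ => rfl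
  have h1 := congrArg (TensorProduct.lift (χ.compl₂ μ)) h0
  rw [map_zero, pa3_sw_comul (TensorProduct.map (pa3_gam ρ).toLinearMap π) h] at h1
  simp only [TensorProduct.map_tmul, TensorProduct.lift.tmul, LinearMap.compl₂_apply,
    AlgHom.toLinearMap_apply, pa3_gam_apply, pa3_sw_map, pa3_sw_apply, hχ, hl', hμ',
    LinearMap.comp_apply] at h1
  have h2 := pa3_co1 (pa3_con E ξ ∘ₗ ρ.toLinearMap ∘ₗ antipode k)
    ((LinearMap.applyₗ f ∘ₗ (pa3_hom (pa3_ten ρ τ) υ).toLinearMap).compl₂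
      (LinearMap.applyₗ u ∘ₗ υ.toLinearMap)) h
  simp only [LinearMap.compl₂_apply, LinearMap.comp_apply, AlgHom.toLinearMap_apply,
    LinearMap.applyₗ_apply_apply, pa3_ev, pa3_con_ten] at h2
  exact h2.symm.trans h1

end rep

lemma pa3_step (M : Type) [AddCommGroup M] [Module k M] [Module H M] [IsScalarTower k H M]
    [FiniteDimensional k M]
    (hM : ∀ (Y : Type) [AddCommGroup Y] [Module k Y] [Module H Y] [IsScalarTower k H Y]
        [FiniteDimensional k Y] (π : Y →ₗ[H] M), Function.Surjective π →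
        ∃ z : Y, z ≠ 0 ∧ ∀ h : H, (∀ x : M, h • x = 0) → h • z = 0)
    {W W' : Type} [AddCommGroup W] [Module k W] [FiniteDimensional k W] [AddCommGroup W']
    [Module k W'] (σ : H →ₐ[k] Module.End k W) (q : W →ₗ[k] W') (ι : M →ₗ[k] W')
    (hι : ∀ m, ι m = 0 → m = 0) (hY : ∀ (h : H) m w, q w = ι m → q (σ h w) = ι (h • m))
    (hs : ∀ m, ∃ w, q w = ι m) :
    ∃ w : W, w ≠ 0 ∧ ∀ h : H, (∀ x : M, h • x = 0) → σ h w = 0 := by
  let _ : Module H W := Module.compHom W σ.toRingHom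
  have hsm : ∀ (h : H) (w : W), h • w = σ h w := fun _ _ => rfl
  have _ : IsScalarTower k H W := ⟨fun c h w => by rw [hsm, hsm, map_smul]; rfl⟩
  let Y : Submodule H (M × W) :=
    { carrier := {z | q z.2 = ι z.1}
      add_mem' := fun {z z'} hz hz' => by
        change q (z.2 + z'.2) = ι (z.1 + z'.1)
        rw [map_add, map_add, hz, hz']
      zero_mem' := by
        change q 0 = ι 0
        rw [map_zero, map_zero]
      smul_mem' := fun h z hz => hY h z.1 z.2 hz }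
  have _ : FiniteDimensional k Y :=
    Module.Finite.of_injective (Y.subtype.restrictScalars k) Subtype.val_injective
  obtain ⟨z, hz, hz'⟩ := hM Y (LinearMap.fst H M W ∘ₗ Y.subtype) (fun m => by
    obtain ⟨w, hw⟩ := hs m
    exact ⟨⟨(m, w), hw⟩, rfl⟩)
  refine ⟨z.1.2, fun e => hz (Subtype.ext (Prod.ext (hι _ ?_) e)),
    fun h hh => congrArg (fun y : Y => y.1.2) (hz' h hh)⟩
  have h1 : q z.1.2 = ι z.1.1 := z.2
  rw [← h1, e, map_zero]

end pa3

/-- The Hopf step.  Representations are algebra maps `ρ : H →ₐ[k] End k M`; tensor product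
`(Module.endTensorEndAlgHom ..).comp ((Algebra.TensorProduct.map ρ σ).comp (Bialgebra.comulAlgHom k H))`;
internal hom `(h • f) = ∑ h₁ f (S h₂ -)` on `U →ₗ[k] V` (use `HopfAlgebra.antipodeAlgHomOp`); the dual
`M*` is the internal hom to the trivial module.
Take `G = End (M*) ⊗ End M`, `γ = (ρ* ⊗ ρ) Δ`.  Let `U = E / b E ≠ 0`, `p : E → U`, and let `Y` be the
submodule of `M × Hom (U, M ⊗ E)` of pairs `(m, f)` with `(1 ⊗ p) ∘ f = (m ⊗ -)`; it is a submodule because
`h • (m ⊗ -) = (h m ⊗ -)` in `Hom (U, M ⊗ U)`.  It maps onto `M` (use a linear section of `p`).  By `hM`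
there is `(m, f) ≠ 0` killed by `ann M`; `f ≠ 0` as `U ≠ 0`.  Choose `u`, `ξ ∈ M*` with
`y = (ξ ⊗ 1) (f u) ≠ 0`.  The map `Ψ : ξ ⊗ f ⊗ u ↦ (ξ ⊗ 1) (f u)` is `H`-linear from
`M* ⊗ Hom (U, M ⊗ E) ⊗ U` to `E`, so `h y = ∑ Ψ (h₁ ξ ⊗ h₂ f ⊗ h₃ u)`.  The map `a ↦ a • f` factors
linearly through `ρ a`, and `a ↦ a • u` factors through `H / b`, so `h y` is a linear function of
`(γ ⊗ mk) (Δ h)` (coassociativity). -/
theorem p0_core {k H : Type} [Field k] [Ring H] [HopfAlgebra k H]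
    (M : Type) [AddCommGroup M] [Module k M] [Module H M] [IsScalarTower k H M]
    [FiniteDimensional k M]
    (hM : ∀ (Y : Type) [AddCommGroup Y] [Module k Y] [Module H Y] [IsScalarTower k H Y]
        [FiniteDimensional k Y] (π : Y →ₗ[H] M), Function.Surjective π →
        ∃ z : Y, z ≠ 0 ∧ ∀ h : H, (∀ x : M, h • x = 0) → h • z = 0) :
    ∃ (G : Type) (_ : Ring G) (_ : Algebra k G) (_ : FiniteDimensional k G) (γ : H →ₐ[k] G),
      ∀ (E : Type) [AddCommGroup E] [Module k E] [Module H E] [IsScalarTower k H E]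
        [FiniteDimensional k E] (b : Ideal H), b • (⊤ : Submodule H E) ≠ ⊤ →
        ∃ y : E, y ≠ 0 ∧ ∀ h : H,
          TensorProduct.map γ.toLinearMap (b.restrictScalars k).mkQ (Coalgebra.comul h) = 0 →
          h • y = 0 := by
  let ρ : H →ₐ[k] Module.End k M := Algebra.lsmul k k M
  refine ⟨(Module.End k M)ᵐᵒᵖ ⊗[k] Module.End k M, inferInstance, inferInstance, inferInstance,
    pa3_gam ρ, fun E _ _ _ _ _ b hb => ?_⟩
  let N : Submodule H E := b • ⊤
  let τ : H →ₐ[k] Module.End k E := Algebra.lsmul k k E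
  let υ : H →ₐ[k] Module.End k (E ⧸ N) := Algebra.lsmul k k (E ⧸ N)
  let p : E →ₗ[k] E ⧸ N := N.mkQ.restrictScalars k
  have hp : Function.Surjective p := N.mkQ_surjective
  obtain ⟨s, hs⟩ := p.exists_rightInverse_of_surjective (LinearMap.range_eq_top.2 hp)
  have _ : Nontrivial (E ⧸ N) := Submodule.Quotient.nontrivial_iff.2 hb
  obtain ⟨f, hf0, hf⟩ := pa3_step M hM (pa3_hom (pa3_ten ρ τ) υ)
    (LinearMap.llcomp k _ _ _ (p.lTensor M)) (TensorProduct.mk k M (E ⧸ N))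
    (fun m hm => by
      obtain ⟨u, hu⟩ := exists_ne (0 : E ⧸ N)
      obtain ⟨η, hη⟩ := Module.Projective.exists_dual_eq_one k hu
      have h1 : m ⊗ₜ[k] u = 0 := LinearMap.congr_fun hm u
      have h2 := congrArg (fun w => TensorProduct.rid k M (η.lTensor M w)) h1
      simpa [hη] using h2)
    (fun h m w hw => LinearMap.ext fun u =>
      pa3_stable ρ τ υ p (fun h e => N.mkQ.map_smul h e) (LinearMap.congr_fun hw) h u)
    (fun m => ⟨TensorProduct.mk k M E m ∘ₗ s, LinearMap.ext fun u =>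
      congrArg (m ⊗ₜ[k] ·) (LinearMap.congr_fun hs u)⟩)
  obtain ⟨u, hu⟩ := DFunLike.ne_iff.1 hf0
  obtain ⟨ξ, hξ⟩ := pa3_exists_con hu
  refine ⟨_, hξ, fun h h0 => pa3_final ρ τ υ _ (fun a ha => ?_)
    (fun a ha => hf a fun x => LinearMap.congr_fun ha x) ξ u h h0⟩
  have ha' : a ∈ b := (Submodule.Quotient.mk_eq_zero _).1 ha
  refine LinearMap.ext fun v => ?_
  obtain ⟨e, rfl⟩ := N.mkQ_surjective v
  change a • N.mkQ e = 0
  rw [← map_smul]
  exact (Submodule.Quotient.mk_eq_zero _).2 (Submodule.smul_mem_smul ha' trivial)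

end Pool.Agent.Lib.MP_ff61db_al
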