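import Pool.Agent.Lib.MP_ff61db_al.PA2
import Pool.Agent.Lib.MP_ff61db_al.PA3

set_option autoImplicit false

namespace Pool.Agent.Lib.MP_ff61db_al

open Polynomial TensorProduct

section
variable {k H G : Type} [Field k] [Ring H] [Algebra k H] [Ring G] [Algebra k G]

/-- the map `γ ⊗ mkQ b` -/
noncomputable def pa4_F (γ : H →ₐ[k] G) (b : Ideal H) :
    H ⊗[k] H →ₗ[k] G ⊗[k] (H ⧸ b.restrictScalars k) :=
  TensorProduct.map γ.toLinearMap (b.restrictScalars k).mkQ

theorem pa4_left (γ : H →ₐ[k] G) (b : Ideal H) (u x : H ⊗[k] H) (hx : pa4_F γ b x = 0) :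
    pa4_F γ b (u * x) = 0 := by
  induction u using TensorProduct.induction_on with
  | zero => simp
  | add u v hu hv => rw [add_mul, map_add, hu, hv, add_zero]
  | tmul a c =>
    have hc : b.restrictScalars k ≤ (b.restrictScalars k).comap (LinearMap.mulLeft k c) := by
      intro t ht
      exact b.mul_mem_left c ht
    have key : ∀ x : H ⊗[k] H, pa4_F γ b ((a ⊗ₜ[k] c) * x) =
        TensorProduct.map (LinearMap.mulLeft k (γ a))
          ((b.restrictScalars k).mapQ (b.restrictScalars k) (LinearMap.mulLeft k c) hc)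
          (pa4_F γ b x) := by
      intro x
      induction x using TensorProduct.induction_on with
      | zero => simp
      | add u v hu hv => rw [mul_add, map_add, hu, hv, map_add, map_add]
      | tmul s t => simp [pa4_F, Algebra.TensorProduct.tmul_mul_tmul]
    rw [key, hx, map_zero]

theorem pa4_right (γ : H →ₐ[k] G) (b : Ideal H) [b.IsTwoSided] (u x : H ⊗[k] H)
    (hx : pa4_F γ b x = 0) : pa4_F γ b (x * u) = 0 := by
  induction u using TensorProduct.induction_on with
  | zero => simp
  | add u v hu hv => rw [mul_add, map_add, hu, hv, add_zero]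
  | tmul a c =>
    have hc : b.restrictScalars k ≤ (b.restrictScalars k).comap (LinearMap.mulRight k c) := by
      intro t ht
      exact b.mul_mem_right c ht
    have key : ∀ x : H ⊗[k] H, pa4_F γ b (x * (a ⊗ₜ[k] c)) =
        TensorProduct.map (LinearMap.mulRight k (γ a))
          ((b.restrictScalars k).mapQ (b.restrictScalars k) (LinearMap.mulRight k c) hc)
          (pa4_F γ b x) := by
      intro x
      induction x using TensorProduct.induction_on with
      | zero => simp
      | add u v hu hv => rw [add_mul, map_add, hu, hv, map_add, map_add]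
      | tmul s t => simp [pa4_F, Algebra.TensorProduct.tmul_mul_tmul]
    rw [key, hx, map_zero]

end

theorem pa4_factor {k U V W : Type} [Field k] [AddCommGroup U] [Module k U] [AddCommGroup V]
    [Module k V] [AddCommGroup W] [Module k W] (f : U →ₗ[k] V) (g : U →ₗ[k] W)
    (h : LinearMap.ker f ≤ LinearMap.ker g) : ∃ q : V →ₗ[k] W, ∀ u, q (f u) = g u := by
  obtain ⟨q, hq⟩ := LinearMap.exists_extend
    (((LinearMap.ker f).liftQ g h).comp f.quotKerEquivRange.symm.toLinearMap)
  refine ⟨q, fun u => ?_⟩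
  have h1 := LinearMap.congr_fun hq ⟨f u, LinearMap.mem_range_self f u⟩
  simp only [LinearMap.comp_apply, Submodule.subtype_apply, LinearEquiv.coe_coe] at h1
  rw [h1, LinearMap.quotKerEquivRange_symm_apply_image]
  simp

/-- the left ideal `Φ b` -/
noncomputable def pa4_Phi {k H G : Type} [Field k] [Ring H] [Bialgebra k H] [Ring G] [Algebra k G]
    (γ : H →ₐ[k] G) (b : Ideal H) : Ideal H where
  carrier := {h | pa4_F γ b (Coalgebra.comul h) = 0}
  add_mem' := by
    intro x y hx hy
    simp only [Set.mem_ofPred_eq, map_add] at *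
    rw [hx, hy, add_zero]
  zero_mem' := by simp
  smul_mem' := by
    intro r x hx
    simp only [Set.mem_ofPred_eq, smul_eq_mul, Bialgebra.comul_mul] at *
    exact pa4_left γ b _ _ hx

theorem pa4_mem {k H G : Type} [Field k] [Ring H] [Bialgebra k H] [Ring G] [Algebra k G]
    (γ : H →ₐ[k] G) (b : Ideal H) (h : H) :
    h ∈ pa4_Phi γ b ↔ pa4_F γ b (Coalgebra.comul h) = 0 := Iff.rfl

theorem pa4_two {k H G : Type} [Field k] [Ring H] [Bialgebra k H] [Ring G] [Algebra k G]
    (γ : H →ₐ[k] G) (b : Ideal H) (hb : b.IsTwoSided) : (pa4_Phi γ b).IsTwoSided where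
  mul_mem_of_left := by
    intro a r ha
    rw [pa4_mem] at *
    rw [Bialgebra.comul_mul]
    exact pa4_right γ b _ _ ha

/-- the cover `T ⊗ G` -/
noncomputable def pa4_cov {k H G Z : Type} [Field k] [Ring H] [Bialgebra k H] [Ring G]
    [Algebra k G] [FiniteDimensional k G] [CommRing Z] [Algebra k Z] (γ : H →ₐ[k] G)
    (c : Cov k H Z) : Cov k H Z where
  T := c.T ⊗[k] G
  fin := Module.Finite.trans c.T (c.T ⊗[k] G)
  φ := ((Algebra.TensorProduct.map c.φ γ).comp
    (Algebra.TensorProduct.comm k H H).toAlgHom).comp (Bialgebra.comulAlgHom k H)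

theorem pa4_lat {k H G Z : Type} [Field k] [Ring H] [Bialgebra k H] [Ring G]
    [Algebra k G] [FiniteDimensional k G] [CommRing Z] [Algebra k Z] (γ : H →ₐ[k] G)
    (c : Cov k H Z) (m : Ideal Z) (b : Ideal H) (hb : c.fib m ≤ b) :
    (pa4_cov γ c).fib m ≤ pa4_Phi γ b := by
  obtain ⟨q, hq⟩ := pa4_factor
    (((m • (⊤ : Submodule Z c.T)).restrictScalars k).mkQ.comp c.φ.toLinearMap)
    (b.restrictScalars k).mkQ (by
      intro h hh
      rw [Submodule.ker_mkQ]
      apply hb
      rw [Cov.mem_fib]
      simpa using hh)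
  set P : c.T ⊗[k] G →ₗ[k] G ⊗[k] (H ⧸ b.restrictScalars k) :=
    (TensorProduct.map LinearMap.id
      (q.comp ((m • (⊤ : Submodule Z c.T)).restrictScalars k).mkQ)).comp
      (TensorProduct.comm k c.T G).toLinearMap with hP
  have h1 : ∀ x : H ⊗[k] H, P (Algebra.TensorProduct.map c.φ γ
      (Algebra.TensorProduct.comm k H H x)) = pa4_F γ b x := by
    intro x
    induction x using TensorProduct.induction_on with
    | zero => simp
    | add u v hu hv => rw [map_add, map_add, map_add, hu, hv, map_add]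
    | tmul s t =>
      have := hq t
      simp only [LinearMap.comp_apply, AlgHom.toLinearMap_apply] at this
      simp only [hP, pa4_F, Algebra.TensorProduct.comm_tmul, Algebra.TensorProduct.map_tmul,
        LinearMap.comp_apply, LinearEquiv.coe_coe, TensorProduct.comm_tmul,
        TensorProduct.map_tmul, LinearMap.id_apply, AlgHom.toLinearMap_apply, this]
  have h2 : ∀ y : c.T ⊗[k] G, y ∈ m • (⊤ : Submodule Z (c.T ⊗[k] G)) → P y = 0 := by
    intro y hy
    refine Submodule.smul_induction_on hy (fun z hz t _ => ?_) (fun s t hs ht => ?_)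
    · induction t using TensorProduct.induction_on with
      | zero => simp
      | add u v hu hv => rw [smul_add, map_add, hu trivial, hv trivial, add_zero]
      | tmul s g =>
        have h3 : ((m • (⊤ : Submodule Z c.T)).restrictScalars k).mkQ (z • s) = 0 := by
          rw [Submodule.mkQ_apply, Submodule.Quotient.mk_eq_zero, Submodule.restrictScalars_mem]
          exact Submodule.smul_mem_smul hz Submodule.mem_top
        rw [TensorProduct.smul_tmul']
        simp only [hP, LinearMap.comp_apply, LinearEquiv.coe_coe, TensorProduct.comm_tmul,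
          TensorProduct.map_tmul, h3, map_zero, TensorProduct.tmul_zero]
    · rw [map_add, hs, ht, add_zero]
  intro h hh
  rw [pa4_mem, ← h1]
  exact h2 _ hh

/-- Assembly of the link structure.  `Φ b = {h | (γ ⊗ mkQ b) (Δ h) = 0}`, a left ideal, two-sided when
`b` is (the kernel of `γ ⊗ mkQ b` in `H ⊗ H` is a left, respectively two-sided, ideal: it is the
preimage under `γ ⊗ 1` of the range of `1 ⊗ b.subtype`).  `p0`: write `s = a • y`, and use `h * a ∈ Φ b`.
`lat`: `T' = T ⊗[k] G` (a `Z`-algebra through the left factor, finite over `Z`),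
`φ' = comm ∘ (γ ⊗ φ) ∘ Δ`.  If `φ' h ∈ m T'` then `(γ ⊗ (mkQ ∘ φ)) (Δ h) = 0` in `G ⊗ (T / m T)`, and since
`fib m ≤ b` the map `mkQ b` factors linearly through `mkQ ∘ φ` (`LinearMap.exists_extend` or
`LinearMap.range_le_ker..`; `k` is a field). -/
theorem link_of_core {k H : Type} [Field k] [Ring H] [Bialgebra k H]
    (G : Type) [Ring G] [Algebra k G] [FiniteDimensional k G] (γ : H →ₐ[k] G)
    (hG : ∀ (E : Type) [AddCommGroup E] [Module k E] [Module H E] [IsScalarTower k H E]
        [FiniteDimensional k E] (b : Ideal H), b • (⊤ : Submodule H E) ≠ ⊤ →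
        ∃ y : E, y ≠ 0 ∧ ∀ h : H,
          TensorProduct.map γ.toLinearMap (b.restrictScalars k).mkQ (Coalgebra.comul h) = 0 →
          h • y = 0) :
    Nonempty (Link k H) := by
  refine ⟨⟨pa4_Phi γ, pa4_two γ, ?_, ?_⟩⟩
  · intro E _ _ _ _ _ s hs b hb hbE h hh
    obtain ⟨y, hy0, hy⟩ := hG E b hbE
    obtain ⟨a, rfl⟩ := hs y hy0
    have := pa4_two γ b hb
    rw [← mul_smul]
    exact hy _ ((pa4_Phi γ b).mul_mem_right a hh)
  · intro Z _ _ c
    exact ⟨pa4_cov γ c, fun m b _ hb => pa4_lat γ c m b hb⟩

theorem link_of_hopf {k H : Type} [Field k] [IsAlgClosed k] [Ring H] [HopfAlgebra k H] {d : ℕ}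
    (hd : MPI k H d) : Nonempty (Link k H) := by
  obtain ⟨M, _, _, _, _, _, hM⟩ := exists_top_module hd (Bialgebra.counitAlgHom k H)
  obtain ⟨G, _, _, _, γ, hG⟩ := p0_core M hM
  exact link_of_core G γ hG

end Pool.Agent.Lib.MP_ff61db_al
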