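import Pool.Agent.Lib.MP_ff61db_al.PBase

set_option autoImplicit false

namespace Pool.Agent.Lib.MP_ff61db_al

open Polynomial TensorProduct

section

variable (k H : Type) [Field k] [Ring H] [HopfAlgebra k H]

/-- `op` as a linear map. -/
noncomputable def pa5_op : H →ₗ[k] Hᵐᵒᵖ := (MulOpposite.opLinearEquiv k).toLinearMap

/-- `unop` as a linear map. -/
noncomputable def pa5_un : Hᵐᵒᵖ →ₗ[k] H := (MulOpposite.opLinearEquiv k).symm.toLinearMap

/-- Swap and pass to the opposite algebra. -/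
noncomputable def pa5_phi : H ⊗[k] H →ₗ[k] Hᵐᵒᵖ ⊗[k] Hᵐᵒᵖ :=
  TensorProduct.map (pa5_op k H) (pa5_op k H) ∘ₗ (TensorProduct.comm k H H).toLinearMap

/-- The opposite comultiplication. -/
noncomputable def pa5_co : Hᵐᵒᵖ →ₗ[k] Hᵐᵒᵖ ⊗[k] Hᵐᵒᵖ :=
  pa5_phi k H ∘ₗ Coalgebra.comul ∘ₗ pa5_un k H

/-- The counit. -/
noncomputable def pa5_ep : Hᵐᵒᵖ →ₗ[k] k := Coalgebra.counit ∘ₗ pa5_un k H

/-- The antipode. -/
noncomputable def pa5_S : Hᵐᵒᵖ →ₗ[k] Hᵐᵒᵖ := pa5_op k H ∘ₗ HopfAlgebra.antipode k ∘ₗ pa5_un k H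

variable {k H}

theorem pa5_phi_tmul (a b : H) :
    pa5_phi k H (a ⊗ₜ b) = MulOpposite.op b ⊗ₜ MulOpposite.op a := rfl

theorem pa5_co_op (a : H) : pa5_co k H (MulOpposite.op a) = pa5_phi k H (Coalgebra.comul a) := rfl

theorem pa5_ep_op (a : H) : pa5_ep k H (MulOpposite.op a) = Coalgebra.counit a := rfl

theorem pa5_S_op (a : H) :
    pa5_S k H (MulOpposite.op a) = MulOpposite.op (HopfAlgebra.antipode k a) := rfl

theorem pa5_op_apply (a : H) : pa5_op k H a = MulOpposite.op a := rfl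

theorem pa5_phi_mul (x y : H ⊗[k] H) : pa5_phi k H (x * y) = pa5_phi k H y * pa5_phi k H x := by
  induction x using TensorProduct.induction_on with
  | zero => simp
  | add x x' h h' => rw [add_mul, map_add, map_add, mul_add, h, h']
  | tmul a b =>
    induction y using TensorProduct.induction_on with
    | zero => simp
    | add y y' h h' => rw [mul_add, map_add, map_add, add_mul, h, h']
    | tmul c d =>
      rw [Algebra.TensorProduct.tmul_mul_tmul, pa5_phi_tmul, pa5_phi_tmul, pa5_phi_tmul,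
        Algebra.TensorProduct.tmul_mul_tmul, MulOpposite.op_mul, MulOpposite.op_mul]

theorem pa5_coassoc (a : Hᵐᵒᵖ) :
    TensorProduct.assoc k Hᵐᵒᵖ Hᵐᵒᵖ Hᵐᵒᵖ ((pa5_co k H).rTensor Hᵐᵒᵖ (pa5_co k H a)) =
      (pa5_co k H).lTensor Hᵐᵒᵖ (pa5_co k H a) := by
  let ψ1 : H ⊗[k] (H ⊗[k] H) →ₗ[k] (Hᵐᵒᵖ ⊗[k] Hᵐᵒᵖ) ⊗[k] Hᵐᵒᵖ :=
    TensorProduct.map (pa5_phi k H) (pa5_op k H) ∘ₗ (TensorProduct.comm k H (H ⊗[k] H)).toLinearMap
  let ψ2 : (H ⊗[k] H) ⊗[k] H →ₗ[k] Hᵐᵒᵖ ⊗[k] (Hᵐᵒᵖ ⊗[k] Hᵐᵒᵖ) :=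
    TensorProduct.map (pa5_op k H) (pa5_phi k H) ∘ₗ (TensorProduct.comm k (H ⊗[k] H) H).toLinearMap
  have h1 : ∀ y : H ⊗[k] H, (pa5_co k H).rTensor Hᵐᵒᵖ (pa5_phi k H y) =
      ψ1 (Coalgebra.comul.lTensor H y) := by
    intro y
    induction y using TensorProduct.induction_on with
    | zero => simp
    | add y y' h h' => rw [map_add, map_add, map_add, map_add, h, h']
    | tmul c d => rfl
  have h2 : ∀ y : H ⊗[k] H, (pa5_co k H).lTensor Hᵐᵒᵖ (pa5_phi k H y) =
      ψ2 (Coalgebra.comul.rTensor H y) := by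
    intro y
    induction y using TensorProduct.induction_on with
    | zero => simp
    | add y y' h h' => rw [map_add, map_add, map_add, map_add, h, h']
    | tmul c d => rfl
  have h3 : ∀ z : (H ⊗[k] H) ⊗[k] H,
      TensorProduct.assoc k Hᵐᵒᵖ Hᵐᵒᵖ Hᵐᵒᵖ (ψ1 (TensorProduct.assoc k H H H z)) = ψ2 z := by
    intro z
    induction z using TensorProduct.induction_on with
    | zero => simp
    | add y y' h h' => rw [map_add, map_add, map_add, map_add, h, h']
    | tmul y c =>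
      induction y using TensorProduct.induction_on with
      | zero => simp
      | add y y' h h' => rw [add_tmul, map_add, map_add, map_add, map_add, h, h']
      | tmul a b => rfl
  induction a using MulOpposite.rec' with
  | h a => rw [pa5_co_op, h1, h2, ← h3, Coalgebra.coassoc_apply]

theorem pa5_rcounit (a : Hᵐᵒᵖ) :
    (pa5_ep k H).rTensor Hᵐᵒᵖ (pa5_co k H a) = (1 : k) ⊗ₜ a := by
  let ψ : H ⊗[k] k →ₗ[k] k ⊗[k] Hᵐᵒᵖ :=
    (pa5_op k H).lTensor k ∘ₗ (TensorProduct.comm k H k).toLinearMap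
  have h1 : ∀ y : H ⊗[k] H, (pa5_ep k H).rTensor Hᵐᵒᵖ (pa5_phi k H y) =
      ψ (Coalgebra.counit.lTensor H y) := by
    intro y
    induction y using TensorProduct.induction_on with
    | zero => simp
    | add y y' h h' => rw [map_add, map_add, map_add, map_add, h, h']
    | tmul c d => rfl
  induction a using MulOpposite.rec' with
  | h a =>
    rw [pa5_co_op, h1, Coalgebra.lTensor_counit_comul]
    rfl

theorem pa5_lcounit (a : Hᵐᵒᵖ) :
    (pa5_ep k H).lTensor Hᵐᵒᵖ (pa5_co k H a) = a ⊗ₜ (1 : k) := by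
  let ψ : k ⊗[k] H →ₗ[k] Hᵐᵒᵖ ⊗[k] k :=
    (pa5_op k H).rTensor k ∘ₗ (TensorProduct.comm k k H).toLinearMap
  have h1 : ∀ y : H ⊗[k] H, (pa5_ep k H).lTensor Hᵐᵒᵖ (pa5_phi k H y) =
      ψ (Coalgebra.counit.rTensor H y) := by
    intro y
    induction y using TensorProduct.induction_on with
    | zero => simp
    | add y y' h h' => rw [map_add, map_add, map_add, map_add, h, h']
    | tmul c d => rfl
  induction a using MulOpposite.rec' with
  | h a =>
    rw [pa5_co_op, h1, Coalgebra.rTensor_counit_comul]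
    rfl

theorem pa5_rS (a : Hᵐᵒᵖ) :
    LinearMap.mul' k Hᵐᵒᵖ ((pa5_S k H).rTensor Hᵐᵒᵖ (pa5_co k H a)) =
      algebraMap k Hᵐᵒᵖ (pa5_ep k H a) := by
  have h1 : ∀ y : H ⊗[k] H, LinearMap.mul' k Hᵐᵒᵖ ((pa5_S k H).rTensor Hᵐᵒᵖ (pa5_phi k H y)) =
      pa5_op k H (LinearMap.mul' k H ((HopfAlgebra.antipode k).lTensor H y)) := by
    intro y
    induction y using TensorProduct.induction_on with
    | zero => simp
    | add y y' h h' => rw [map_add, map_add, map_add, map_add, map_add, map_add, h, h']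
    | tmul c d => rfl
  induction a using MulOpposite.rec' with
  | h a =>
    rw [pa5_co_op, h1, HopfAlgebra.mul_antipode_lTensor_comul_apply]
    rfl

theorem pa5_lS (a : Hᵐᵒᵖ) :
    LinearMap.mul' k Hᵐᵒᵖ ((pa5_S k H).lTensor Hᵐᵒᵖ (pa5_co k H a)) =
      algebraMap k Hᵐᵒᵖ (pa5_ep k H a) := by
  have h1 : ∀ y : H ⊗[k] H, LinearMap.mul' k Hᵐᵒᵖ ((pa5_S k H).lTensor Hᵐᵒᵖ (pa5_phi k H y)) =
      pa5_op k H (LinearMap.mul' k H ((HopfAlgebra.antipode k).rTensor H y)) := by
    intro y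
    induction y using TensorProduct.induction_on with
    | zero => simp
    | add y y' h h' => rw [map_add, map_add, map_add, map_add, map_add, map_add, h, h']
    | tmul c d => rfl
  induction a using MulOpposite.rec' with
  | h a =>
    rw [pa5_co_op, h1, HopfAlgebra.mul_antipode_rTensor_comul_apply]
    rfl

theorem pa5_co_mul (a b : Hᵐᵒᵖ) : pa5_co k H (a * b) = pa5_co k H a * pa5_co k H b := by
  induction a using MulOpposite.rec' with
  | h a =>
    induction b using MulOpposite.rec' with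
    | h b => rw [← MulOpposite.op_mul, pa5_co_op, pa5_co_op, pa5_co_op, Bialgebra.comul_mul,
        pa5_phi_mul]

theorem pa5_ep_mul (a b : Hᵐᵒᵖ) : pa5_ep k H (a * b) = pa5_ep k H a * pa5_ep k H b := by
  induction a using MulOpposite.rec' with
  | h a =>
    induction b using MulOpposite.rec' with
    | h b => rw [← MulOpposite.op_mul, pa5_ep_op, pa5_ep_op, pa5_ep_op, Bialgebra.counit_mul,
        mul_comm]

theorem pa5_co_one : pa5_co k H 1 = 1 := by
  rw [← MulOpposite.op_one, pa5_co_op, Bialgebra.comul_one]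
  rfl

theorem pa5_ep_one : pa5_ep k H 1 = 1 := by
  rw [← MulOpposite.op_one, pa5_ep_op, Bialgebra.counit_one]

end

/-- The opposite algebra with the opposite comultiplication and the same antipode is a Hopf
algebra.  Build it on a type synonym `OC H := Hᵐᵒᵖ` (Mathlib has a `Coalgebra` instance on `Hᵐᵒᵖ` with
the unswapped comultiplication, do not use it) or directly as a term, with `Bialgebra.ofAlgHom` and
`HopfAlgebra` fields.  Comultiplication: `op h ↦ ∑ op h₂ ⊗ op h₁`. -/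
theorem exists_hopf_op (k H : Type) [Field k] [Ring H] [HopfAlgebra k H] :
    ∃ inst : HopfAlgebra k Hᵐᵒᵖ, inst.toAlgebra = (inferInstance : Algebra k Hᵐᵒᵖ) :=
  ⟨{ (inferInstance : Algebra k Hᵐᵒᵖ) with
      comul := pa5_co k H
      counit := pa5_ep k H
      coassoc := LinearMap.ext pa5_coassoc
      rTensor_counit_comp_comul := LinearMap.ext pa5_rcounit
      lTensor_counit_comp_comul := LinearMap.ext pa5_lcounit
      counit_one := pa5_ep_one
      mul_compr₂_counit := LinearMap.ext fun a => LinearMap.ext fun b => pa5_ep_mul a b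
      comul_one := pa5_co_one
      mul_compr₂_comul := LinearMap.ext fun a => LinearMap.ext fun b => pa5_co_mul a b
      antipode := pa5_S k H
      mul_antipode_rTensor_comul := LinearMap.ext pa5_rS
      mul_antipode_lTensor_comul := LinearMap.ext pa5_lS }, rfl⟩

end Pool.Agent.Lib.MP_ff61db_al
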