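import Pool.Agent.Lib.MP_ff61db_al.PBase

set_option autoImplicit false

namespace Pool.Agent.Lib.MP_ff61db_al

open Polynomial TensorProduct

section
variable {k H : Type} [Field k] [Ring H] [Algebra k H]

theorem pb_core (Λ : Link k H) (E : Type) [AddCommGroup E] [Module k E] [Module H E]
    [IsScalarTower k H E] [FiniteDimensional k E] (b : Ideal H) (h2 : b.IsTwoSided)
    (Y : Submodule H E)
    (hb : ∀ L : Submodule H E, L ⊔ b • (⊤ : Submodule H E) = ⊤ → Y ≤ L) :
    ∃ s : ℕ, (Λ.Φ b) ^ s • Y = ⊥ := by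
  haveI : IsNoetherian H E := isNoetherian_of_tower k inferInstance
  haveI : IsArtinian H E := isArtinian_of_tower k inferInstance
  induction Y using WellFoundedLT.induction with
  | ind Y ih =>
    by_cases hY : Y = ⊥
    · exact ⟨0, by rw [hY, Submodule.smul_bot]⟩
    obtain ⟨L, hL, hmax⟩ := (set_has_maximal_iff_noetherian.2 (inferInstance : IsNoetherian H E))
      {L : Submodule H E | ¬ Y ≤ L} ⟨⊥, fun h => hY (le_bot_iff.1 h)⟩
    have hL' : ¬ Y ≤ L := hL
    have hle : Λ.Φ b • Y ≤ L := by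
      refine Submodule.smul_le.2 fun h hh j hj => ?_
      have hne : b • (⊤ : Submodule H (E ⧸ L)) ≠ ⊤ := by
        intro e
        refine hL' (hb L ?_)
        rw [← Submodule.map_mkQ_eq_top, Submodule.map_smul'', Submodule.map_top,
          Submodule.range_mkQ, e]
      have hs : ∀ x : E ⧸ L, x ≠ 0 → ∃ r : H, r • x = L.mkQ j := by
        intro x hx
        obtain ⟨x, rfl⟩ := L.mkQ_surjective x
        have hxL : x ∉ L := fun h0 => hx ((Submodule.Quotient.mk_eq_zero L).2 h0)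
        have hlt : L < L ⊔ Submodule.span H {x} := by
          refine lt_of_le_of_ne le_sup_left fun e => hxL ?_
          rw [e]
          exact Submodule.mem_sup_right (Submodule.mem_span_singleton_self x)
        have hYle : Y ≤ L ⊔ Submodule.span H {x} := by
          by_contra h0
          exact hmax _ h0 hlt
        obtain ⟨l, hl, y, hy, e⟩ := Submodule.mem_sup.1 (hYle hj)
        obtain ⟨r, rfl⟩ := Submodule.mem_span_singleton.1 hy
        refine ⟨r, ?_⟩
        rw [← e, map_add, map_smul, Submodule.mkQ_apply L l,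
          (Submodule.Quotient.mk_eq_zero L).2 hl, zero_add]
      have h0 := Λ.p0 (E ⧸ L) (L.mkQ j) hs b h2 hne h hh
      rw [← map_smul] at h0
      exact (Submodule.Quotient.mk_eq_zero L).1 h0
    have hle2 : Λ.Φ b • Y ≤ Y := Submodule.smul_le_right
    have hlt : Λ.Φ b • Y < Y := lt_of_le_of_ne hle2 fun e => hL' (by rw [← e]; exact hle)
    obtain ⟨s, hs⟩ := ih _ hlt fun L0 h0 => hle2.trans (hb L0 h0)
    exact ⟨s + 1, by rw [Submodule.pow_succ, Submodule.mul_smul, hs]⟩

/-- the annihilator of a submodule -/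
def pb_ann {E : Type} [AddCommGroup E] [Module H E] (Y : Submodule H E) : Ideal H where
  carrier := {h | ∀ e ∈ Y, h • e = 0}
  add_mem' := by
    intro a b ha hb e he
    rw [add_smul, ha e he, hb e he, add_zero]
  zero_mem' := fun e _ => zero_smul H e
  smul_mem' := by
    intro r a ha e he
    rw [smul_eq_mul, mul_smul, ha e he, smul_zero]

theorem pb_ann_two {E : Type} [AddCommGroup E] [Module H E] (Y : Submodule H E) :
    (pb_ann Y).IsTwoSided where
  mul_mem_of_left := by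
    intro a r ha e he
    rw [mul_smul]
    exact ha _ (Y.smul_mem r he)

theorem pb_ann_fd (k : Type) [Field k] [Algebra k H] {E : Type} [AddCommGroup E] [Module k E]
    [Module H E] [IsScalarTower k H E] [FiniteDimensional k E] (Y : Submodule H E) :
    FiniteDimensional k (H ⧸ pb_ann Y) := by
  let f : H →ₗ[k] (Y.restrictScalars k →ₗ[k] E) :=
    LinearMap.mk₂ k (fun h e => h • (e : E)) (fun a b e => add_smul a b (e : E))
      (fun c a e => smul_assoc c a (e : E)) (fun a e e' => smul_add a (e : E) (e' : E))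
      (fun c a e => smul_comm a c (e : E))
  have hker : LinearMap.ker f = (pb_ann Y).restrictScalars k := by
    ext h
    rw [LinearMap.mem_ker, Submodule.restrictScalars_mem]
    constructor
    · intro h0 e he
      exact LinearMap.congr_fun h0 ⟨e, he⟩
    · intro h0
      ext e
      exact h0 e e.2
  haveI : FiniteDimensional k (H ⧸ LinearMap.ker f) :=
    LinearEquiv.finiteDimensional f.quotKerEquivRange.symm
  haveI : FiniteDimensional k (H ⧸ (pb_ann Y).restrictScalars k) :=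
    LinearEquiv.finiteDimensional (Submodule.quotEquivOfEq _ _ hker)
  exact LinearEquiv.finiteDimensional (Submodule.Quotient.restrictScalarsEquiv k (pb_ann Y))

/-- the ideal of the `h` with `b h ⊆ J` -/
def pb_col (b J : Ideal H) [b.IsTwoSided] : Ideal H where
  carrier := {h | ∀ u ∈ b, u * h ∈ J}
  add_mem' := by
    intro x y hx hy u hu
    rw [mul_add]
    exact J.add_mem (hx u hu) (hy u hu)
  zero_mem' := by
    intro u _
    rw [mul_zero]
    exact J.zero_mem
  smul_mem' := by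
    intro r x hx u hu
    rw [smul_eq_mul, ← mul_assoc]
    exact hx _ (b.mul_mem_right r hu)

/-- Every composition factor is killed by `Φ b`.  It suffices to show: if `X < Y` are submodules
with `Y / X` simple then `Φ b • Y ≤ X` (then `Φ b ^ s • ⊤` decreases strictly until it is `⊥`; or induct on
the dimension of `Y`).  Pick `j ∈ Y`, `j ∉ X`, and `L ≥ X` maximal with `j ∉ L`.  In `E / L` the class of
`j` lies in every nonzero cyclic submodule, and `b (E / L) ≠ E / L` by `hb`.  So `Φ b • j ⊆ L ⊓ Y = X`. -/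
theorem Link.modL (Λ : Link k H) (E : Type) [AddCommGroup E] [Module k E] [Module H E]
    [IsScalarTower k H E] [FiniteDimensional k E] (b : Ideal H) (h2 : b.IsTwoSided)
    (hb : ∀ L : Submodule H E, L ⊔ b • (⊤ : Submodule H E) = ⊤ → L = ⊤) :
    ∃ s : ℕ, (Λ.Φ b) ^ s • (⊤ : Submodule H E) = ⊥ := by
  exact pb_core Λ E b h2 ⊤ fun L hL => (hb L hL).ge

/-- The same argument for left ideals `J₂ ≤ X < Y ≤ J₁`, `j ∈ Y \ X`, `L ≥ X` maximal with `j ∉ L`,
`E = H ⧸ L`.  If `b E = E` then `1 = u + l` with `u ∈ b`, `l ∈ L`, so `j = j u + j l ∈ L`, absurd. -/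
theorem Link.ringL (Λ : Link k H) (b J₁ J₂ : Ideal H) (h2 : b.IsTwoSided) (hJ : J₂ ≤ J₁)
    (hfd : FiniteDimensional k (H ⧸ J₂)) (hb : J₁ * b ≤ J₂) :
    ∃ s : ℕ, (Λ.Φ b) ^ s * J₁ ≤ J₂ := by
  obtain ⟨s, hs⟩ := pb_core Λ (H ⧸ J₂) b h2 (Submodule.map J₂.mkQ J₁) (by
    intro L hL y hy
    obtain ⟨j, hj, rfl⟩ := Submodule.mem_map.1 hy
    have h1 : J₂.mkQ 1 ∈ L ⊔ b • (⊤ : Submodule H (H ⧸ J₂)) := by
      rw [hL]
      exact Submodule.mem_top
    obtain ⟨l, hl, v, hv, e⟩ := Submodule.mem_sup.1 h1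
    have hv0 : j • v = 0 := by
      refine Submodule.smul_induction_on hv (fun u hu w _ => ?_) (fun x y hx hy => ?_)
      · obtain ⟨w, rfl⟩ := J₂.mkQ_surjective w
        rw [← map_smul, ← map_smul, smul_eq_mul, smul_eq_mul]
        exact (Submodule.Quotient.mk_eq_zero J₂).2
          (hb (Ideal.mul_mem_mul hj (b.mul_mem_right w hu)))
      · rw [smul_add, hx, hy, add_zero]
    have h3 : J₂.mkQ j = j • l := by
      have h4 : J₂.mkQ j = j • J₂.mkQ 1 := by rw [← map_smul, smul_eq_mul, mul_one]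
      rw [h4, ← e, smul_add, hv0, add_zero]
    rw [h3]
    exact L.smul_mem j hl)
  refine ⟨s, Submodule.smul_le.2 fun a ha j hj => ?_⟩
  have h5 : a • J₂.mkQ j ∈ (Λ.Φ b) ^ s • Submodule.map J₂.mkQ J₁ :=
    Submodule.smul_mem_smul ha (Submodule.mem_map_of_mem hj)
  rw [hs, Submodule.mem_bot, ← map_smul] at h5
  exact (Submodule.Quotient.mk_eq_zero J₂).1 h5

/-- From the statement on ideals to the statement on modules.  Let `c = Θ b`, choose `s` with
`c ^ s • ⊤ = c ^ (s + 1) • ⊤ =: E'` and suppose `E' ≠ ⊥`.  Let `J₂ = ann E'` (cofinite, two-sided) and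
`J₁ = {h | b h ⊆ J₂}`.  Then `J₁ c ^ t ≤ J₂` and `c ^ t E' = E'`, so `J₁ ≤ J₂`.  But take a left ideal `I`
minimal over `J₂` (`J₂ ≠ ⊤`, `H ⧸ J₂` is finite-dimensional).  For `e ∈ E'` the submodule `I e` is zero or
simple; if it is simple it contains a nonzero vector killed by the two-sided ideal `b`, so `b I e = 0`.
Hence `I ≤ J₁ ≤ J₂`, absurd. -/
theorem modR_of_ringR (Θ : Ideal H → Ideal H)
    (two : ∀ b : Ideal H, b.IsTwoSided → (Θ b).IsTwoSided)
    (ringR : ∀ (b J₁ J₂ : Ideal H), b.IsTwoSided → J₁.IsTwoSided → J₂.IsTwoSided → J₂ ≤ J₁ →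
      FiniteDimensional k (H ⧸ J₂) → b * J₁ ≤ J₂ → ∃ s : ℕ, J₁ * (Θ b) ^ s ≤ J₂)
    (E : Type) [AddCommGroup E] [Module k E] [Module H E] [IsScalarTower k H E]
    [FiniteDimensional k E] (b : Ideal H) (h2 : b.IsTwoSided)
    (hb : ∀ L : Submodule H E, L ≠ ⊥ → ∃ x ∈ L, x ≠ 0 ∧ ∀ h ∈ b, h • x = 0) :
    ∃ s : ℕ, (Θ b) ^ s • (⊤ : Submodule H E) = ⊥ := by
  haveI : IsArtinian H E := isArtinian_of_tower k inferInstance
  haveI := two b h2
  obtain ⟨_, ⟨s, rfl⟩, hmin⟩ := (wellFounded_lt (α := Submodule H E)).has_min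
    (Set.range fun n : ℕ => (Θ b) ^ n • (⊤ : Submodule H E)) ⟨_, 0, rfl⟩
  refine ⟨s, ?_⟩
  obtain ⟨Y, hY⟩ : ∃ Y, Y = (Θ b) ^ s • (⊤ : Submodule H E) := ⟨_, rfl⟩
  have hst : Θ b • Y = Y := by
    by_contra hne
    refine hmin _ ⟨s + 1, rfl⟩ ?_
    show (Θ b) ^ (s + 1) • (⊤ : Submodule H E) < (Θ b) ^ s • (⊤ : Submodule H E)
    rw [Ideal.IsTwoSided.pow_succ, Submodule.mul_smul, ← hY]
    exact lt_of_le_of_ne Submodule.smul_le_right hne
  have hpow : ∀ t : ℕ, (Θ b) ^ t • Y = Y := by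
    intro t
    induction t with
    | zero => rw [Submodule.pow_zero, Ideal.one_eq_top, Submodule.top_smul]
    | succ t ih => rw [Submodule.pow_succ, Submodule.mul_smul, hst, ih]
  rw [← hY]
  by_contra hne
  haveI := pb_ann_two Y
  haveI := pb_ann_fd k Y
  have hcol : (pb_col b (pb_ann Y)).IsTwoSided := ⟨fun {x} r hx u hu => by
    rw [← mul_assoc]
    exact (pb_ann Y).mul_mem_right r (hx u hu)⟩
  obtain ⟨t, ht⟩ := ringR b (pb_col b (pb_ann Y)) (pb_ann Y) h2 hcol inferInstance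
    (fun x hx u _ => (pb_ann Y).mul_mem_left u hx) inferInstance
    (Submodule.smul_le.2 fun u hu x hx => hx u hu)
  have hle : pb_col b (pb_ann Y) ≤ pb_ann Y := by
    intro x hx e he
    rw [← hpow t] at he
    refine Submodule.smul_induction_on he (fun a ha y hy => ?_) (fun y z hy hz => ?_)
    · rw [← mul_smul]
      exact ht (Ideal.mul_mem_mul hx ha) y hy
    · rw [smul_add, hy, hz, add_zero]
  haveI : IsArtinian H (H ⧸ pb_ann Y) := isArtinian_of_tower k inferInstance
  have htop : (⊤ : Submodule H (H ⧸ pb_ann Y)) ≠ ⊥ := by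
    intro e
    have h1 : (pb_ann Y).mkQ 1 ∈ (⊤ : Submodule H (H ⧸ pb_ann Y)) := Submodule.mem_top
    rw [e, Submodule.mem_bot] at h1
    have h3 : (1 : H) ∈ pb_ann Y := (Submodule.Quotient.mk_eq_zero _).1 h1
    refine hne ((Submodule.eq_bot_iff Y).2 fun y hy => ?_)
    have h4 := h3 y hy
    rwa [one_smul] at h4
  obtain ⟨A, hA, -⟩ := (eq_bot_or_exists_atom_le (⊤ : Submodule H (H ⧸ pb_ann Y))).resolve_left htop
  obtain ⟨x, hxA, hx0⟩ := (Submodule.ne_bot_iff A).1 hA.1
  obtain ⟨x, rfl⟩ := (pb_ann Y).mkQ_surjective x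
  refine hx0 ((Submodule.Quotient.mk_eq_zero _).2 (hle fun u hu e he => ?_))
  by_cases hxe : x • e = 0
  · rw [mul_smul, hxe, smul_zero]
  obtain ⟨y, hy, hy0, hyb⟩ := hb (Submodule.span H {x • e}) fun h0 =>
    hxe (Submodule.span_singleton_eq_bot.1 h0)
  obtain ⟨r, rfl⟩ := Submodule.mem_span_singleton.1 hy
  have hrx : (pb_ann Y).mkQ (r * x) ≠ 0 := fun h0 => hy0 (by
    rw [← mul_smul]
    exact (Submodule.Quotient.mk_eq_zero _).1 h0 e he)
  have hrA : (pb_ann Y).mkQ (r * x) ∈ A := by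
    rw [← smul_eq_mul, map_smul]
    exact A.smul_mem r hxA
  have hsp : Submodule.span H {(pb_ann Y).mkQ (r * x)} = A :=
    (hA.le_iff_eq fun h0 => hrx (Submodule.span_singleton_eq_bot.1 h0)).1
      ((Submodule.span_singleton_le_iff_mem _ _).2 hrA)
  rw [← hsp] at hxA
  obtain ⟨r', hr'⟩ := Submodule.mem_span_singleton.1 hxA
  rw [← map_smul, smul_eq_mul] at hr'
  have h5 : r' * (r * x) - x ∈ pb_ann Y := (Submodule.Quotient.eq _).1 hr'
  have h6 : x • e = r' • r • x • e := by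
    have h7 := h5 e he
    rw [sub_smul, sub_eq_zero, mul_smul, mul_smul] at h7
    exact h7.symm
  rw [mul_smul, h6, ← mul_smul]
  exact hyb _ (b.mul_mem_right r' hu)

end

end Pool.Agent.Lib.MP_ff61db_al
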