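import Pool.Agent.Lib.MP_ff61db_al.PB

set_option autoImplicit false

namespace Pool.Agent.Lib.MP_ff61db_al

open Polynomial TensorProduct

section
variable {H : Type} [Ring H]

/-- transport of a two-sided ideal to the opposite ring -/
def pb2_op (b : Ideal H) : Ideal Hᵐᵒᵖ := Ideal.span {x | MulOpposite.unop x ∈ b}

/-- transport of a two-sided ideal from the opposite ring -/
def pb2_unop (b : Ideal Hᵐᵒᵖ) : Ideal H := Ideal.span {x | MulOpposite.op x ∈ b}

theorem pb2_mem_op {b : Ideal H} (hb : b.IsTwoSided) (x : Hᵐᵒᵖ) :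
    x ∈ pb2_op b ↔ MulOpposite.unop x ∈ b := by
  refine ⟨fun hx => ?_, fun hx => Ideal.subset_span hx⟩
  induction hx using Submodule.span_induction with
  | mem x hx => exact hx
  | zero => simp
  | add x y _ _ hx hy => simpa using b.add_mem hx hy
  | smul r x _ hx =>
    rw [smul_eq_mul, MulOpposite.unop_mul]
    exact Ideal.mul_mem_right _ b hx

theorem pb2_mem_unop {b : Ideal Hᵐᵒᵖ} (hb : b.IsTwoSided) (x : H) :
    x ∈ pb2_unop b ↔ MulOpposite.op x ∈ b := by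
  refine ⟨fun hx => ?_, fun hx => Ideal.subset_span hx⟩
  induction hx using Submodule.span_induction with
  | mem x hx => exact hx
  | zero => simp
  | add x y _ _ hx hy => simpa using b.add_mem hx hy
  | smul r x _ hx =>
    rw [smul_eq_mul, MulOpposite.op_mul]
    exact Ideal.mul_mem_right _ b hx

theorem pb2_op_two {b : Ideal H} (hb : b.IsTwoSided) : (pb2_op b).IsTwoSided where
  mul_mem_of_left := by
    intro a r ha
    rw [pb2_mem_op hb] at *
    rw [MulOpposite.unop_mul]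
    exact b.mul_mem_left _ ha

theorem pb2_unop_two {b : Ideal Hᵐᵒᵖ} (hb : b.IsTwoSided) : (pb2_unop b).IsTwoSided where
  mul_mem_of_left := by
    intro a r ha
    rw [pb2_mem_unop hb] at *
    rw [MulOpposite.op_mul]
    exact b.mul_mem_left _ ha

theorem pb2_inf_two {a b : Ideal H} (ha : a.IsTwoSided) (hb : b.IsTwoSided) :
    (a ⊓ b).IsTwoSided where
  mul_mem_of_left := by
    intro x r hx
    exact ⟨Ideal.mul_mem_right _ a hx.1, Ideal.mul_mem_right _ b hx.2⟩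

theorem pb2_pow_mono {I J : Ideal H} (h : I ≤ J) (s : ℕ) : I ^ s ≤ J ^ s := by
  induction s with
  | zero => rw [Submodule.pow_zero, Submodule.pow_zero]
  | succ s ih =>
    rw [Submodule.pow_succ, Submodule.pow_succ]
    exact Ideal.mul_mono ih h

theorem pb2_op_pow {I : Ideal H} {J : Ideal Hᵐᵒᵖ} (hJ : J.IsTwoSided)
    (h : ∀ x ∈ I, MulOpposite.op x ∈ J) (s : ℕ) :
    ∀ x ∈ I ^ s, MulOpposite.op x ∈ J ^ s := by
  induction s with
  | zero =>
    intro x _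
    rw [Submodule.pow_zero, Ideal.one_eq_top]
    exact Submodule.mem_top
  | succ s ih =>
    intro x hx
    rw [Submodule.pow_succ] at hx
    refine Submodule.mul_induction_on hx (fun a ha c hc => ?_) (fun a c ha hc => ?_)
    · rw [MulOpposite.op_mul, add_comm, Ideal.IsTwoSided.pow_add, Submodule.pow_one]
      exact Ideal.mul_mem_mul (h c hc) (ih a ha)
    · rw [MulOpposite.op_add]
      exact Ideal.add_mem _ ha hc

end

theorem pb2_map_mem {Z M N : Type} [CommRing Z] [AddCommGroup M] [Module Z M] [AddCommGroup N]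
    [Module Z N] (f : M →ₗ[Z] N) (m : Ideal Z) {x : M} (hx : x ∈ m • (⊤ : Submodule Z M)) :
    f x ∈ m • (⊤ : Submodule Z N) := by
  refine Submodule.smul_induction_on hx (fun z hz t _ => ?_) (fun s t hs ht => ?_)
  · rw [map_smul]
    exact Submodule.smul_mem_smul hz Submodule.mem_top
  · rw [map_add]
    exact Submodule.add_mem _ hs ht

section
variable {k H : Type} [Field k] [Ring H] [Algebra k H]

theorem pb2_fd {J : Ideal H} (hJ : J.IsTwoSided) (hfd : FiniteDimensional k (H ⧸ J)) :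
    FiniteDimensional k (Hᵐᵒᵖ ⧸ pb2_op J) := by
  let g : H →ₗ[k] Hᵐᵒᵖ ⧸ pb2_op J :=
    ((pb2_op J).mkQ.restrictScalars k).comp (MulOpposite.opLinearEquiv k).toLinearMap
  have hg : ∀ x, g x = Submodule.Quotient.mk (MulOpposite.op x) := fun _ => rfl
  have hker : J.restrictScalars k ≤ LinearMap.ker g := by
    intro x hx
    rw [LinearMap.mem_ker, hg, Submodule.Quotient.mk_eq_zero, pb2_mem_op hJ]
    exact hx
  let f : (H ⧸ J) →ₗ[k] Hᵐᵒᵖ ⧸ pb2_op J :=
    ((J.restrictScalars k).liftQ g hker).comp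
      (Submodule.Quotient.restrictScalarsEquiv k J).symm.toLinearMap
  refine Module.Finite.of_surjective f ?_
  intro y
  obtain ⟨x, rfl⟩ := Submodule.Quotient.mk_surjective _ y
  exact ⟨Submodule.Quotient.mk (MulOpposite.unop x), rfl⟩

variable {Z : Type} [CommRing Z] [Algebra k Z]

/-- the opposite cover -/
def pb2_cop (c : Cov k H Z) : Cov k Hᵐᵒᵖ Z where
  T := c.Tᵐᵒᵖ
  fin := Module.Finite.equiv (MulOpposite.opLinearEquiv Z)
  φ := AlgHom.op c.φ

/-- coming back from the opposite ring -/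
def pb2_cunop (c : Cov k Hᵐᵒᵖ Z) : Cov k H Z where
  T := c.Tᵐᵒᵖ
  fin := Module.Finite.equiv (MulOpposite.opLinearEquiv Z)
  φ := AlgHom.opComm.symm c.φ

/-- product of two covers -/
def pb2_cprod (c c' : Cov k H Z) : Cov k H Z where
  T := c.T × c'.T
  φ := c.φ.prod c'.φ

theorem pb2_cop_fib (c : Cov k H Z) (m : Ideal Z) (x : Hᵐᵒᵖ) (hx : x ∈ (pb2_cop c).fib m) :
    MulOpposite.unop x ∈ c.fib m :=
  pb2_map_mem (M := c.Tᵐᵒᵖ) (MulOpposite.opLinearEquiv Z).symm.toLinearMap m hx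

theorem pb2_cunop_fib (c : Cov k Hᵐᵒᵖ Z) (m : Ideal Z) (x : H) (hx : x ∈ (pb2_cunop c).fib m) :
    MulOpposite.op x ∈ c.fib m :=
  pb2_map_mem (M := c.Tᵐᵒᵖ) (MulOpposite.opLinearEquiv Z).symm.toLinearMap m hx

theorem pb2_cprod_left (c c' : Cov k H Z) (m : Ideal Z) : (pb2_cprod c c').fib m ≤ c.fib m :=
  fun _ hx => pb2_map_mem (M := c.T × c'.T) (LinearMap.fst Z c.T c'.T) m hx

theorem pb2_cprod_right (c c' : Cov k H Z) (m : Ideal Z) : (pb2_cprod c c').fib m ≤ c'.fib m :=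
  fun _ hx => pb2_map_mem (M := c.T × c'.T) (LinearMap.snd Z c.T c'.T) m hx

/-- the two-sided control function -/
def pb2_Θ (Λ : Link k H) (Λ' : Link k Hᵐᵒᵖ) (b : Ideal H) : Ideal H :=
  b ⊓ Λ.Φ b ⊓ pb2_unop (Λ'.Φ (pb2_op b))

theorem pb2_Θ_two (Λ : Link k H) (Λ' : Link k Hᵐᵒᵖ) (b : Ideal H) (hb : b.IsTwoSided) :
    (pb2_Θ Λ Λ' b).IsTwoSided :=
  pb2_inf_two (pb2_inf_two hb (Λ.two b hb)) (pb2_unop_two (Λ'.two _ (pb2_op_two hb)))

theorem pb2_ringR (Λ : Link k H) (Λ' : Link k Hᵐᵒᵖ) (b J₁ J₂ : Ideal H) (hb : b.IsTwoSided)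
    (h1 : J₁.IsTwoSided) (h2 : J₂.IsTwoSided) (hJ : J₂ ≤ J₁) (hfd : FiniteDimensional k (H ⧸ J₂))
    (h : b * J₁ ≤ J₂) : ∃ s : ℕ, J₁ * (pb2_Θ Λ Λ' b) ^ s ≤ J₂ := by
  have hΦ := Λ'.two _ (pb2_op_two hb)
  obtain ⟨s, hs⟩ := Λ'.ringL (pb2_op b) (pb2_op J₁) (pb2_op J₂) (pb2_op_two hb)
    (fun x hx => by
      rw [pb2_mem_op h1]
      exact hJ ((pb2_mem_op h2 x).1 hx)) (pb2_fd h2 hfd)
    (Ideal.mul_le.2 fun u hu v hv => by
      rw [pb2_mem_op h2, MulOpposite.unop_mul]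
      exact h (Ideal.mul_mem_mul ((pb2_mem_op hb v).1 hv) ((pb2_mem_op h1 u).1 hu)))
  refine ⟨s, Ideal.mul_le.2 fun u hu v hv => ?_⟩
  have hv' : MulOpposite.op v ∈ Λ'.Φ (pb2_op b) ^ s :=
    pb2_op_pow (I := pb2_Θ Λ Λ' b) hΦ (fun x hx => (pb2_mem_unop hΦ x).1 hx.2) s v hv
  have := hs (Ideal.mul_mem_mul hv' ((pb2_mem_op h1 (MulOpposite.op u)).2 hu))
  rw [pb2_mem_op h2] at this
  exact this

end

/-- `Θ b = b ⊓ Φ b ⊓ unop (Φ' (op b))` for two-sided `b` (and for instance `b` otherwise), where `op`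
and `unop` transport two-sided ideals between `H` and `Hᵐᵒᵖ`.  `modL` from `Link.modL`, `ringR` from
`Link.ringL` for `Λ'`, `modR` from `modR_of_ringR`.  `lat`: from `c` form `cᵒᵖ : Cov k Hᵐᵒᵖ Z` with ring
`Tᵐᵒᵖ`, apply both `lat`, come back, and take the product `T × T₁ × T₂ᵐᵒᵖ` of the three rings. -/
theorem link2_of_links {k H : Type} [Field k] [Ring H] [Algebra k H]
    (Λ : Link k H) (Λ' : Link k Hᵐᵒᵖ) : Nonempty (Link2 k H) := by
  refine ⟨{ Θ := pb2_Θ Λ Λ'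
            two := pb2_Θ_two Λ Λ'
            le := fun b => inf_le_left.trans inf_le_left
            modL := ?_
            modR := ?_
            ringR := pb2_ringR Λ Λ'
            lat := ?_ }⟩
  · intro E _ _ _ _ _ b hb hL
    obtain ⟨s, hs⟩ := Λ.modL E b hb hL
    refine ⟨s, le_bot_iff.1 ?_⟩
    rw [← hs]
    exact Submodule.smul_mono_left (pb2_pow_mono (inf_le_left.trans inf_le_right) s)
  · intro E _ _ _ _ _ b hb hL
    exact modR_of_ringR (pb2_Θ Λ Λ') (pb2_Θ_two Λ Λ') (pb2_ringR Λ Λ') E b hb hL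
  · intro Z _ _ c
    obtain ⟨c₁, h₁⟩ := Λ.lat Z c
    obtain ⟨c₂, h₂⟩ := Λ'.lat Z (pb2_cop c)
    refine ⟨pb2_cprod (pb2_cprod c c₁) (pb2_cunop c₂), fun m b hb hc x hx => ?_⟩
    have hx1 := pb2_cprod_left _ _ m hx
    have hx2 := pb2_cprod_right _ _ m hx
    refine ⟨⟨hc (pb2_cprod_left _ _ m hx1), h₁ m b hb hc (pb2_cprod_right _ _ m hx1)⟩, ?_⟩
    refine (pb2_mem_unop (Λ'.two _ (pb2_op_two hb)) x).2 ?_
    refine h₂ m _ (pb2_op_two hb) (fun y hy => ?_) (pb2_cunop_fib c₂ m x hx2)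
    exact (pb2_mem_op hb y).2 (hc (pb2_cop_fib c m y hy))

theorem Link2.two_iter {k H : Type} [Field k] [Ring H] [Algebra k H] (Λ : Link2 k H) (n : ℕ)
    (b : Ideal H) (hb : b.IsTwoSided) : (Λ.Θ^[n] b).IsTwoSided := by
  induction n with
  | zero => exact hb
  | succ n ih =>
    rw [Function.iterate_succ_apply']
    exact Λ.two _ ih

/-- iterating `lat` -/
theorem Link2.lat_iter {k H : Type} [Field k] [Ring H] [Algebra k H] (Λ : Link2 k H) (n : ℕ)
    (Z : Type) [CommRing Z] [Algebra k Z] (c : Cov k H Z) : ∃ c' : Cov k H Z,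
      ∀ (m : Ideal Z) (b : Ideal H), b.IsTwoSided → c.fib m ≤ b → c'.fib m ≤ Λ.Θ^[n] b := by
  induction n with
  | zero => exact ⟨c, fun _ _ _ h => h⟩
  | succ n ih =>
    obtain ⟨c₁, h₁⟩ := ih
    obtain ⟨c₂, h₂⟩ := Λ.lat Z c₁
    refine ⟨c₂, fun m b hb hc => ?_⟩
    rw [Function.iterate_succ_apply']
    exact h₂ m _ (Λ.two_iter n b hb) (h₁ m b hb hc)

end Pool.Agent.Lib.MP_ff61db_al
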