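import Pool.Agent.Lib.MP_ff61db_al.PBase0

set_option autoImplicit false

namespace Pool.Agent.Lib.MP_ff61db_al

open Polynomial TensorProduct

section
variable {k H B : Type} [Field k] [Ring H] [Algebra k H] [AddCommGroup B] [Module k B]

theorem mem_annS (ρ : H →ₐ[k] Module.End k B) (b : Ideal H) (w : B) :
    w ∈ annS ρ b ↔ ∀ h ∈ b, ρ h w = 0 := by
  simp [annS]

theorem pbase_aux1 (ρ : H →ₐ[k] Module.End k B) (X : Submodule k B) (hX : X ≠ ⊥)
    (hinv : ∀ u : H, ∀ w ∈ X, ρ u w ∈ X) (Ps : List (Ideal H))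
    (h : ∀ l : List H, List.Forall₂ (fun x P => x ∈ P) l Ps → ∀ w ∈ X, ρ l.prod w = 0) :
    ∃ P ∈ Ps, X ⊓ annS ρ P ≠ ⊥ := by
  induction Ps with
  | nil =>
    exfalso
    apply hX
    rw [eq_bot_iff]
    intro w hw
    have := h [] List.Forall₂.nil w hw
    simpa using this
  | cons P Qs ih =>
    by_cases hQ : ∀ l : List H, List.Forall₂ (fun x P => x ∈ P) l Qs → ∀ w ∈ X, ρ l.prod w = 0
    · obtain ⟨Q, hQm, hQ'⟩ := ih hQ
      exact ⟨Q, List.mem_cons_of_mem _ hQm, hQ'⟩
    · push Not at hQ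
      obtain ⟨l, hl, w, hw, hne⟩ := hQ
      refine ⟨P, List.mem_cons_self, ?_⟩
      intro hbot
      apply hne
      have hmem : ρ l.prod w ∈ X ⊓ annS ρ P := by
        refine ⟨hinv _ _ hw, (mem_annS ρ P _).2 fun p hp => ?_⟩
        have := h (p :: l) (List.Forall₂.cons hp hl) w hw
        simpa using this
      rw [hbot] at hmem
      simpa using hmem

/-- If a product of two-sided ideals kills a nonzero invariant subspace `X`, one of the ideals kills
a nonzero vector of `X`.  (Induction on the list from the right: if the last ideal `P` kills no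
nonzero vector of `X`, replace `X` by the span of `P X`.) -/
theorem Kills.exists_annS (ρ : H →ₐ[k] Module.End k B) {Ps : List (Ideal H)} {J : Ideal H}
    (h : Kills Ps J) (h2 : ∀ P ∈ Ps, P.IsTwoSided) (X : Submodule k B) (hX : X ≠ ⊥)
    (hinv : ∀ u : H, ∀ w ∈ X, ρ u w ∈ X) (hJ : ∀ u ∈ J, ∀ w ∈ X, ρ u w = 0) :
    ∃ P ∈ Ps, X ⊓ annS ρ P ≠ ⊥ :=
  have _ := h2
  pbase_aux1 ρ X hX hinv Ps fun l hl w hw => hJ _ (h l hl) w hw

end

section
variable {k H Z : Type} [Field k] [Ring H] [Algebra k H] [CommRing Z] [Algebra k Z]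

theorem pbase_aux2 (c : Cov k H Z) (t : c.T) (y : Z →ₐ[k] k) (q : Z[X]) :
    aeval t (q.map (y : Z →+* k)) - aeval t q ∈ RingHom.ker y • (⊤ : Submodule Z c.T) := by
  induction q using Polynomial.induction_on' with
  | add p q hp hq =>
    have := Submodule.add_mem _ hp hq
    simp only [Polynomial.map_add, map_add]
    rwa [add_sub_add_comm]
  | monomial n a =>
    simp only [Polynomial.map_monomial, aeval_monomial]
    rw [← sub_mul, IsScalarTower.algebraMap_apply k Z c.T, ← map_sub, ← Algebra.smul_def]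
    refine Submodule.smul_mem_smul ?_ Submodule.mem_top
    simp [RingHom.mem_ker]

/-- `φ h` is integral over `Z`; specialise the equation at the point `y` -/
theorem Cov.exists_monic (c : Cov k H Z) (h : H) :
    ∃ q : Z[X], q.Monic ∧ ∀ y : Z →ₐ[k] k,
      aeval h (q.map (y : Z →+* k)) ∈ c.fib (RingHom.ker y) := by
  obtain ⟨q, hq, h0⟩ := IsIntegral.of_finite Z (c.φ h)
  refine ⟨q, hq, fun y => ?_⟩
  rw [Cov.mem_fib, ← aeval_algHom_apply]
  have h1 := pbase_aux2 c (c.φ h) y q
  have h2 : aeval (c.φ h) q = 0 := h0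
  rwa [h2, sub_zero] at h1

/-- an element whose image commutes with `φ(H)` is central if `T = Z φ(H)` -/
theorem Cov.Span.central {c : Cov k H Z} (hc : c.Span) {t : c.T}
    (ht : ∀ h : H, t * c.φ h = c.φ h * t) (s : c.T) : t * s = s * t := by
  have hs : s ∈ Submodule.span Z (Set.range c.φ) := by
    rw [hc]
    exact Submodule.mem_top
  induction hs using Submodule.span_induction with
  | mem x hx =>
    obtain ⟨h, rfl⟩ := hx
    exact ht h
  | zero => simp
  | add x y _ _ hx hy => rw [mul_add, add_mul, hx, hy]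
  | smul a x _ hx => rw [mul_smul_comm, smul_mul_assoc, hx]

theorem pbase_aux3 [Algebra.FiniteType k Z] (y : Z →ₐ[k] k) (j : ℕ) :
    Module.Finite k (Z ⧸ RingHom.ker y ^ j) := by
  have : Algebra.IsIntegral k (Z ⧸ RingHom.ker y ^ j) := by
    refine ⟨fun z => ?_⟩
    obtain ⟨z, rfl⟩ := Ideal.Quotient.mk_surjective z
    refine ⟨(X - C (y z)) ^ j, (monic_X_sub_C _).pow _, ?_⟩
    have h1 : z - algebraMap k Z (y z) ∈ RingHom.ker y := by simp [RingHom.mem_ker]
    have h2 := Ideal.pow_mem_pow h1 j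
    rw [← Ideal.Quotient.eq_zero_iff_mem] at h2
    rw [← aeval_def]
    simp only [map_pow, map_sub, aeval_X, aeval_C] at h2 ⊢
    exact h2
  exact Algebra.IsIntegral.finite

/-- `T / m ^ j T` is finite-dimensional for the maximal ideal `m` of a point -/
theorem Cov.finiteDimensional_quot [Algebra.FiniteType k Z] (c : Cov k H Z) (y : Z →ₐ[k] k)
    (j : ℕ) : FiniteDimensional k
      (c.T ⧸ ((RingHom.ker y ^ j • (⊤ : Submodule Z c.T)).restrictScalars k)) := by
  have := pbase_aux3 y j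
  have : IsScalarTower k (Z ⧸ RingHom.ker y ^ j)
      (c.T ⧸ (RingHom.ker y ^ j • (⊤ : Submodule Z c.T))) := by
    refine ⟨fun a z t => ?_⟩
    obtain ⟨z, rfl⟩ := Ideal.Quotient.mk_surjective z
    obtain ⟨t, rfl⟩ := Submodule.Quotient.mk_surjective _ t
    change Submodule.Quotient.mk ((a • z) • t) = Submodule.Quotient.mk (a • (z • t))
    rw [smul_assoc]
  have : Module.Finite k (c.T ⧸ (RingHom.ker y ^ j • (⊤ : Submodule Z c.T))) :=
    Module.Finite.trans (Z ⧸ RingHom.ker y ^ j) _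
  exact Module.Finite.equiv (Submodule.Quotient.restrictScalarsEquiv k
    (RingHom.ker y ^ j • (⊤ : Submodule Z c.T))).symm

theorem Cov.CFin.span {c : Cov k H Z} (hc : c.CFin) : c.Span := by
  obtain ⟨s, hs⟩ := hc
  unfold Cov.Span
  rw [eq_top_iff]
  intro t _
  obtain ⟨f, rfl⟩ := hs t
  exact Submodule.sum_mem _ fun z _ =>
    Submodule.smul_mem _ _ (Submodule.subset_span ⟨f z, rfl⟩)

end

section
variable {k H : Type} [Field k] [Ring H] [Algebra k H]

theorem PrimeR.eq_zero_of_central {A : Type} [Ring A] (hA : PrimeR A) {u : A} (hu : u ≠ 0)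
    (hc : ∀ s, u * s = s * u) {t : A} (ht : u * t = 0) : t = 0 := by
  rcases hA.2 u t (fun s => by rw [hc, mul_assoc, ht, mul_zero]) with h | h
  · exact absurd h hu
  · exact h

theorem Tr.smul_eq_zero (τ : Tr k H) {z : τ.Z} (hz : z ≠ 0) {t : τ.c.T} (ht : z • t = 0) :
    t = 0 := by
  refine τ.prime.eq_zero_of_central (u := algebraMap τ.Z τ.c.T z) ?_
    (fun s => Algebra.commutes z s) (by rw [← Algebra.smul_def, ht])
  intro h
  exact hz (τ.inj (by rw [h, map_zero]))

theorem IsP.two {P : Ideal H} (h : IsP k P) : P.IsTwoSided := by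
  obtain ⟨Z, _, _, _, c, _, _, rfl⟩ := h
  infer_instance

theorem Tr.isP (τ : Tr k H) : IsP k (RingHom.ker τ.c.φ) :=
  ⟨τ.Z, inferInstance, inferInstance, inferInstance, τ.c, τ.span, τ.prime, rfl⟩

theorem IsP.comap {H' : Type} [Ring H'] [Algebra k H'] (f : H' →ₐ[k] H)
    (hf : Function.Surjective f) {P : Ideal H} (h : IsP k P) : IsP k (P.comap f) := by
  obtain ⟨Z, _, _, _, c, hs, hp, rfl⟩ := h
  refine ⟨Z, inferInstance, inferInstance, inferInstance,
    { T := c.T, φ := c.φ.comp f }, ?_, hp, ?_⟩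
  · unfold Cov.Span at hs ⊢
    have : Set.range (c.φ.comp f) = Set.range c.φ := by
      ext t
      constructor
      · rintro ⟨h, rfl⟩
        exact ⟨f h, rfl⟩
      · rintro ⟨h, rfl⟩
        obtain ⟨h', rfl⟩ := hf h
        exact ⟨h', rfl⟩
    rw [← hs]
    exact congrArg (Submodule.span Z) this
  · ext h
    simp [RingHom.mem_ker]

end

end Pool.Agent.Lib.MP_ff61db_al
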