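import Pool.Agent.Lib.MP_ff61db_al.PBase

set_option autoImplicit false

namespace Pool.Agent.Lib.MP_ff61db_al

open Polynomial TensorProduct

/-- the factor of length `n` of the infinite word `x` that starts at position `i` -/
def pd1_fac {A : Type} (x : ℕ → A) (i n : ℕ) : List A := (List.range' i n).map x

theorem pd1_fac_length {A : Type} (x : ℕ → A) (i n : ℕ) : (pd1_fac x i n).length = n := by
  simp [pd1_fac]

theorem pd1_fac_add {A : Type} (x : ℕ → A) (i m n : ℕ) :
    pd1_fac x i (m + n) = pd1_fac x i m ++ pd1_fac x (i + m) n := by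
  unfold pd1_fac
  rw [← List.map_append, List.range'_append_1]

theorem pd1_fac_succ {A : Type} (x : ℕ → A) (i n : ℕ) :
    pd1_fac x i (n + 1) = x i :: pd1_fac x (i + 1) n := by
  simp [pd1_fac, List.range'_succ]

theorem pd1_fac_take {A : Type} (x : ℕ → A) (i m n : ℕ) :
    (pd1_fac x i (m + n)).take m = pd1_fac x i m := by
  rw [pd1_fac_add, List.take_left' (pd1_fac_length x i m)]

theorem pd1_fac_shift {A : Type} (x : ℕ → A) (n : ℕ) : ∀ i i' : ℕ,
    (∀ j, x (i + j) = x (i' + j)) → pd1_fac x i n = pd1_fac x i' n := by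
  induction n with
  | zero => intro i i' _; simp [pd1_fac]
  | succ n ih =>
    intro i i' h
    rw [pd1_fac_succ, pd1_fac_succ, ih (i + 1) (i' + 1) (fun j => ?_)]
    · have := h 0
      simp only [add_zero] at this
      rw [this]
    · have := h (1 + j)
      rwa [← add_assoc, ← add_assoc] at this

/-- an infinite word all of whose factors lie in `L` -/
theorem pd1_koenig {g : ℕ} (L : Set (List (Fin g))) (hinf : L.Infinite)
    (hfac : ∀ u ∈ L, ∀ v : List (Fin g), v <:+: u → v ∈ L) :
    ∃ x : ℕ → Fin g, ∀ i n, pd1_fac x i n ∈ L := by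
  have step : ∀ w : List (Fin g), {v | w ++ v ∈ L}.Infinite →
      ∃ a : Fin g, {v | (w ++ [a]) ++ v ∈ L}.Infinite := by
    intro w hw
    by_contra hcon
    push Not at hcon
    apply hw
    have h1 : ({[]} ∪ ⋃ a : Fin g, (fun v => a :: v) '' {v | (w ++ [a]) ++ v ∈ L} :
        Set (List (Fin g))).Finite :=
      (Set.finite_singleton _).union (Set.finite_iUnion fun a => (hcon a).image _)
    refine h1.subset ?_
    intro v hv
    cases v with
    | nil => exact Or.inl rfl
    | cons a v =>
      refine Or.inr (Set.mem_iUnion.2 ⟨a, v, ?_, rfl⟩)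
      simpa using hv
  choose f hf using step
  let s : ℕ → {w : List (Fin g) // {v | w ++ v ∈ L}.Infinite} := fun n =>
    Nat.rec ⟨[], by simpa using hinf⟩ (fun _ w => ⟨w.1 ++ [f w.1 w.2], hf w.1 w.2⟩) n
  let x : ℕ → Fin g := fun n => f (s n).1 (s n).2
  have hs : ∀ n, (s n).1 = pd1_fac x 0 n := by
    intro n
    induction n with
    | zero => simp [s, pd1_fac]
    | succ n ih =>
      rw [pd1_fac_add, ← ih]
      simp [s, x, pd1_fac]
  refine ⟨x, fun i n => ?_⟩
  obtain ⟨v, hv⟩ := (s (i + n)).2.nonempty
  refine hfac _ hv _ ⟨pd1_fac x 0 i, v, ?_⟩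
  rw [hs, pd1_fac_add, zero_add]

theorem pd1_lex_append {A : Type} {r : A → A → Prop} {a b : List A} (h : List.Lex r a b) :
    a.length = b.length → ∀ s t : List A, List.Lex r (a ++ s) (b ++ t) := by
  induction h with
  | nil => intro h; simp at h
  | rel h => intro _ s t; exact List.Lex.rel h
  | cons _ ih =>
    intro h s t
    exact List.Lex.cons (ih (by simpa using h) s t)

theorem pd1_ofFn_split {B : Type} {d : ℕ} (f : Fin d → B) (k : Fin d) :
    List.ofFn f = (List.ofFn f).take k ++ f k :: (List.ofFn f).drop (k + 1) := by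
  have hk : (k : ℕ) < (List.ofFn f).length := by simp
  conv_lhs => rw [← List.take_append_drop k (List.ofFn f), List.drop_eq_getElem_cons hk]
  simp

/-- words with strictly decreasing initial pieces of one length form a decomposition that is larger
than each of its rearrangements -/
theorem pd1_lex_perm {A : Type} {r : A → A → Prop} {d e : ℕ} (v t : Fin d → List A)
    (hl : ∀ i, (v i).length = e) (hv : ∀ i j, i < j → List.Lex r (v j) (v i))
    (σ : Equiv.Perm (Fin d)) (hσ : σ ≠ 1) :
    List.Lex r (List.ofFn fun i => v (σ i) ++ t (σ i)).flatten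
      (List.ofFn fun i => v i ++ t i).flatten := by
  classical
  have hne : (Finset.univ.filter fun i => σ i ≠ i).Nonempty := by
    by_contra hcon
    apply hσ
    ext i
    have : σ i = i := by
      by_contra h
      exact hcon ⟨i, by simpa using h⟩
    simp [this]
  set k := (Finset.univ.filter fun i => σ i ≠ i).min' hne with hk
  have hk1 : σ k ≠ k := by
    have := Finset.min'_mem _ hne
    simpa using this
  have hk2 : ∀ i, i < k → σ i = i := by
    intro i hi
    by_contra h
    have : k ≤ i := Finset.min'_le _ _ (by simpa using h)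
    exact absurd hi (not_lt.2 this)
  have hk3 : k < σ k := by
    rcases lt_trichotomy k (σ k) with h | h | h
    · exact h
    · exact absurd h.symm hk1
    · exact absurd (σ.injective (hk2 _ h)) hk1
  have htake : (List.ofFn fun i => v (σ i) ++ t (σ i)).take k =
      (List.ofFn fun i => v i ++ t i).take k := by
    apply List.ext_getElem
    · simp
    · intro n h1 h2
      have hn : n < k := by
        simp only [List.length_take] at h1
        omega
      simp only [List.getElem_take, List.getElem_ofFn]
      rw [hk2 _ (by rw [Fin.lt_def]; exact hn)]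
  rw [pd1_ofFn_split (fun i => v (σ i) ++ t (σ i)) k, pd1_ofFn_split (fun i => v i ++ t i) k, htake]
  simp only [List.flatten_append, List.flatten_cons, List.append_assoc]
  exact List.Lex.append_left r (pd1_lex_append (hv _ _ hk3) (by rw [hl, hl]) _ _) _

theorem pd1_flatten {A : Type} (x : ℕ → A) (p : ℕ → ℕ) (hp : ∀ i, p i ≤ p (i + 1)) (n : ℕ) :
    (List.ofFn fun i : Fin n => pd1_fac x (p i) (p (i + 1) - p i)).flatten =
      pd1_fac x (p 0) (p n - p 0) := by
  have hm : Monotone p := monotone_nat_of_le_succ hp
  induction n with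
  | zero => simp [pd1_fac]
  | succ n ih =>
    rw [List.ofFn_succ', List.concat_eq_append, List.flatten_append]
    simp only [Fin.val_castSucc, Fin.val_last, List.flatten_cons, List.flatten_nil,
      List.append_nil]
    rw [ih]
    have h1 : p 0 ≤ p n := hm (Nat.zero_le n)
    have h2 := hp n
    have h3 : p (n + 1) - p 0 = (p n - p 0) + (p (n + 1) - p n) := by omega
    rw [h3, pd1_fac_add, show p 0 + (p n - p 0) = p n by omega]

/-- the words of length `e` that occur infinitely often in `x` -/
def pd1_S {A : Type} (x : ℕ → A) (e : ℕ) : Set (List A) :=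
  {v | v.length = e ∧ ∃ᶠ m in Filter.atTop, pd1_fac x m e = v}

theorem pd1_S_finite {g : ℕ} (x : ℕ → Fin g) (e : ℕ) : (pd1_S x e).Finite :=
  (List.finite_length_eq (Fin g) e).subset fun _ hv => hv.1

theorem pd1_S_eventually {g : ℕ} (x : ℕ → Fin g) (e : ℕ) :
    ∀ᶠ m in Filter.atTop, pd1_fac x m e ∈ pd1_S x e := by
  have h : ∀ᶠ m in Filter.atTop, ∀ v ∈ {v : List (Fin g) | v.length = e},
      v ∉ pd1_S x e → pd1_fac x m e ≠ v := by
    rw [Filter.eventually_all_finite (List.finite_length_eq (Fin g) e)]
    intro v hv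
    by_cases h : v ∈ pd1_S x e
    · exact Filter.Eventually.of_forall fun m hm => absurd h hm
    · have h2 : ¬ ∃ᶠ m in Filter.atTop, pd1_fac x m e = v := fun h3 => h ⟨hv, h3⟩
      rw [Filter.not_frequently] at h2
      exact h2.mono fun m hm _ => hm
  refine h.mono fun m hm => ?_
  by_contra hcon
  exact hm _ (pd1_fac_length x m e) hcon rfl

theorem pd1_S_image {g : ℕ} (x : ℕ → Fin g) (e : ℕ) :
    List.take e '' pd1_S x (e + 1) = pd1_S x e := by
  ext v
  constructor
  · rintro ⟨w, hw, rfl⟩
    refine ⟨by rw [List.length_take, hw.1]; omega, hw.2.mono fun m hm => ?_⟩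
    rw [← hm, pd1_fac_take]
  · intro hv
    obtain ⟨m, h1, h2⟩ := (hv.2.and_eventually (pd1_S_eventually x (e + 1))).exists
    exact ⟨_, h2, by rw [pd1_fac_take, h1]⟩

/-- many recurrent words of one length give the second alternative -/
theorem pd1_many {g : ℕ} (x : ℕ → Fin g) (d e : ℕ) (h : d ≤ (pd1_S x e).ncard) :
    ∃ w : Fin d → List (Fin g), (∃ i n, (List.ofFn w).flatten = pd1_fac x i n) ∧
      ∀ σ : Equiv.Perm (Fin d), σ ≠ 1 →
        List.Lex (· < ·) (List.ofFn fun i => w (σ i)).flatten (List.ofFn w).flatten := by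
  have hf := pd1_S_finite x e
  rw [Set.ncard_eq_toFinset_card _ hf] at h
  let emb := hf.toFinset.orderEmbOfCardLe h
  let v : Fin d → List (Fin g) := fun i => emb (Fin.rev i)
  have hvS : ∀ i, v i ∈ pd1_S x e := fun i =>
    hf.mem_toFinset.1 (Finset.orderEmbOfCardLe_mem _ h _)
  have hv : ∀ i j, i < j → List.Lex (· < ·) (v j) (v i) := by
    intro i j hij
    have : v j < v i := emb.strictMono (Fin.rev_lt_rev.2 hij)
    exact (List.lt_iff_lex_lt _ _).1 this
  have hex : ∀ i n : ℕ, ∃ m, n ≤ m ∧ ∀ hi : i < d, pd1_fac x m e = v ⟨i, hi⟩ := by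
    intro i n
    by_cases hi : i < d
    · obtain ⟨m, h1, h2⟩ := Filter.frequently_atTop.1 (hvS ⟨i, hi⟩).2 n
      exact ⟨m, h1, fun _ => h2⟩
    · exact ⟨n, le_rfl, fun h => absurd h hi⟩
  choose nx hnx1 hnx2 using hex
  let p : ℕ → ℕ := fun i => Nat.rec (nx 0 0) (fun j q => nx (j + 1) (q + e)) i
  have hp1 : ∀ i, p i + e ≤ p (i + 1) := fun i => hnx1 (i + 1) (p i + e)
  have hp2 : ∀ i : ℕ, ∀ hi : i < d, pd1_fac x (p i) e = v ⟨i, hi⟩ := by
    intro i
    cases i with
    | zero => exact hnx2 0 0
    | succ i => exact hnx2 (i + 1) (p i + e)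
  let t : Fin d → List (Fin g) := fun i => pd1_fac x (p i + e) (p (i + 1) - p i - e)
  have hw : ∀ i : Fin d, v i ++ t i = pd1_fac x (p i) (p (i + 1) - p i) := by
    intro i
    have h1 := hp1 i
    rw [show p (i + 1) - p i = e + (p (i + 1) - p i - e) by omega, pd1_fac_add, hp2 i i.2]
  refine ⟨fun i => v i ++ t i, ⟨p 0, p d - p 0, ?_⟩, fun σ hσ => ?_⟩
  · simp only [hw]
    exact pd1_flatten x p (fun i => by have := hp1 i; omega) d
  · exact pd1_lex_perm v t (fun i => (hvS i).1) hv σ hσ

/-- few recurrent words of each length force a short period -/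
theorem pd1_few {g : ℕ} (x : ℕ → Fin g) (d : ℕ) (h : ∀ e, (pd1_S x e).ncard < d) :
    ∃ i m, 0 < m ∧ m ≤ d ∧ ∀ j, x (i + j) = x (i + m + j) := by
  obtain ⟨e, he⟩ : ∃ e, (pd1_S x (e + 1)).ncard ≤ (pd1_S x e).ncard := by
    by_contra hcon
    push Not at hcon
    have : ∀ e, e ≤ (pd1_S x e).ncard := by
      intro e
      induction e with
      | zero => exact Nat.zero_le _
      | succ e ih => have := hcon e; omega
    exact absurd (h d) (not_lt.2 (this d))
  have hinj : Set.InjOn (List.take e) (pd1_S x (e + 1)) := by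
    refine Set.injOn_of_ncard_image_eq ?_ (pd1_S_finite x _)
    refine le_antisymm (Set.ncard_image_le (pd1_S_finite x _)) ?_
    rw [pd1_S_image]
    exact he
  obtain ⟨n0, hn0⟩ := Filter.eventually_atTop.1 (pd1_S_eventually x (e + 1))
  have key : ∀ i i', n0 ≤ i → n0 ≤ i' → pd1_fac x i e = pd1_fac x i' e →
      ∀ j, x (i + j) = x (i' + j) := by
    intro i i' hi hi' hii'
    have h1 : ∀ a b, n0 ≤ a → n0 ≤ b → pd1_fac x a e = pd1_fac x b e →
        x a = x b ∧ pd1_fac x (a + 1) e = pd1_fac x (b + 1) e := by
      intro a b ha hb hab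
      have := hinj (hn0 a ha) (hn0 b hb) (by rw [pd1_fac_take, pd1_fac_take, hab])
      rw [pd1_fac_succ, pd1_fac_succ] at this
      exact List.cons.inj this
    have h2 : ∀ j, pd1_fac x (i + j) e = pd1_fac x (i' + j) e := by
      intro j
      induction j with
      | zero => exact hii'
      | succ j ih => exact (h1 _ _ (by omega) (by omega) ih).2
    intro j
    exact (h1 _ _ (by omega) (by omega) (h2 j)).1
  have hf := pd1_S_finite x e
  have hmaps : ∀ j ∈ Finset.range d, pd1_fac x (n0 + j) e ∈ hf.toFinset := by
    intro j _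
    rw [hf.mem_toFinset, ← pd1_S_image]
    exact ⟨_, hn0 (n0 + j) (by omega), pd1_fac_take x _ e 1⟩
  have hcard : hf.toFinset.card < (Finset.range d).card := by
    rw [Finset.card_range, ← Set.ncard_eq_toFinset_card _ hf]
    exact h e
  obtain ⟨a, ha, b, hb, hab, heq⟩ := Finset.exists_ne_map_eq_of_card_lt_of_maps_to hcard hmaps
  rw [Finset.mem_range] at ha hb
  rcases lt_or_gt_of_ne hab with hlt | hlt
  · refine ⟨n0 + a, b - a, by omega, by omega, fun j => ?_⟩
    rw [show n0 + a + (b - a) = n0 + b by omega]
    exact key _ _ (by omega) (by omega) heq j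
  · refine ⟨n0 + b, a - b, by omega, by omega, fun j => ?_⟩
    rw [show n0 + b + (a - b) = n0 + a by omega]
    exact key _ _ (by omega) (by omega) heq.symm j

/-- Shirshov type dichotomy for an infinite factorial language `L`.
Sketch.  (1) By Zorn (or by iterating) `L` contains a minimal infinite factorial language `M`
(the intersection of a chain of infinite factorial languages contains a word of every length, as
there are finitely many words of each length).  (2) Uniform recurrence: for `v ∈ M` the words of `M`
that do not contain `v` form a factorial language properly inside `M`, so it is finite: there is `R`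
such that every word of `M` of length `≥ R` contains `v`.  (3) If for some `e` there are `d` different
words `v 0 > v 1 > .. > v (d-1)` of length `e` in `M`, take a word of `M` of length `d * R`, cut it in
`d` pieces of length `R`, find `v i` in piece `i`, and cut at the starting points of these occurrences:
this gives `w i` starting with `v i`, and the second alternative.  (4) Otherwise every length has
fewer than `d` words in `M`.  Every word of `M` extends to the right inside `M` (by (2), or by
minimality), so the number `p e` of words of length `e` is monotone and bounded, so `p e = p (e+1)`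
for some `e`: every word of length `e` has a unique right extension by one letter.  A long word of `M`
has two equal factors of length `e` starting at positions `i < i'`, `i' - i < d`, so it is periodic
with period `i' - i` from position `i` on; by pigeonhole one word `u` with `0 < u.length ≤ d` has all
its powers in `M`.  Any other proof is fine. -/
theorem shirshov_words {g : ℕ} (d : ℕ) (L : Set (List (Fin g))) (hinf : L.Infinite)
    (hfac : ∀ u ∈ L, ∀ v : List (Fin g), v <:+: u → v ∈ L) :
    (∃ u : List (Fin g), 0 < u.length ∧ u.length ≤ d ∧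
      ∀ N : ℕ, (List.replicate N u).flatten ∈ L) ∨
    (∃ w : Fin d → List (Fin g), (List.ofFn w).flatten ∈ L ∧
      ∀ σ : Equiv.Perm (Fin d), σ ≠ 1 →
        List.Lex (· < ·) (List.ofFn fun i => w (σ i)).flatten (List.ofFn w).flatten) := by
  obtain ⟨x, hx⟩ := pd1_koenig L hinf hfac
  by_cases h : ∃ e, d ≤ (pd1_S x e).ncard
  · obtain ⟨e, he⟩ := h
    obtain ⟨w, ⟨i, n, h1⟩, h2⟩ := pd1_many x d e he
    exact Or.inr ⟨w, by rw [h1]; exact hx i n, h2⟩
  · push Not at h
    obtain ⟨i, m, hm0, hmd, hper⟩ := pd1_few x d h
    refine Or.inl ⟨pd1_fac x i m, by rw [pd1_fac_length]; exact hm0,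
      by rw [pd1_fac_length]; exact hmd, fun N => ?_⟩
    have h1 : (List.replicate N (pd1_fac x i m)).flatten = pd1_fac x i (N * m) := by
      induction N with
      | zero => simp [pd1_fac]
      | succ N ih =>
        rw [List.replicate_succ, List.flatten_cons, ih, show (N + 1) * m = m + N * m by ring,
          pd1_fac_add, pd1_fac_shift x (N * m) i (i + m) hper]
    rw [h1]
    exact hx _ _

end Pool.Agent.Lib.MP_ff61db_al
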