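import Pool.Agent.Lib.MP_ff61db_al.PD1

set_option autoImplicit false

namespace Pool.Agent.Lib.MP_ff61db_al

open Polynomial TensorProduct

theorem pd2_lex_append {α : Type} {r : α → α → Prop} {v v' : List α} (h : List.Lex r v v')
    (hl : v.length = v'.length) (s : List α) : List.Lex r (v ++ s) (v' ++ s) := by
  induction h with
  | nil => simp at hl
  | rel h => exact List.Lex.rel h
  | cons _ ih => exact List.Lex.cons (ih (by simpa using hl))

theorem pd2_shortlex {α : Type} {r : α → α → Prop} {v v' : List α} (h : List.Shortlex r v v')
    (p s : List α) : List.Shortlex r (p ++ v ++ s) (p ++ v' ++ s) := by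
  rcases List.shortlex_def.1 h with h | ⟨hl, h⟩
  · exact List.Shortlex.of_length_lt (by simpa using h)
  · refine List.Shortlex.of_lex (by simp [hl]) ?_
    rw [List.append_assoc, List.append_assoc]
    exact List.Lex.append_left r (pd2_lex_append h hl s) p

section
variable (C : Type) {A : Type} [CommRing C] [Ring A] [Algebra C A] {g : ℕ} (x : Fin g → A)

/-- the span of the values of the smaller words -/
def pd2S (w : List (Fin g)) : Submodule C A :=
  Submodule.span C (wd x '' {v | List.Shortlex (· < ·) v w})

theorem pd2_mem {v w : List (Fin g)} (h : List.Shortlex (· < ·) v w) : wd x v ∈ pd2S C x w :=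
  Submodule.subset_span ⟨v, h, rfl⟩

theorem pd2_red {v : List (Fin g)} (h : wd x v ∈ pd2S C x v) (p s : List (Fin g)) :
    wd x (p ++ v ++ s) ∈ pd2S C x (p ++ v ++ s) := by
  have key : ∀ u ∈ pd2S C x v, wd x p * u * wd x s ∈ pd2S C x (p ++ v ++ s) := by
    intro u hu
    induction hu using Submodule.span_induction with
    | mem u hu =>
      obtain ⟨v', hv', rfl⟩ := hu
      rw [← wd_append, ← wd_append]
      exact pd2_mem C x (pd2_shortlex hv' p s)
    | zero => simp
    | add a b _ _ ha hb =>
      rw [mul_add, add_mul]
      exact Submodule.add_mem _ ha hb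
    | smul c a _ ha =>
      rw [mul_smul_comm, smul_mul_assoc]
      exact Submodule.smul_mem _ _ ha
  rw [wd_append, wd_append]
  exact key _ h

theorem pd2_span (w : List (Fin g)) :
    wd x w ∈ Submodule.span C (wd x '' {v | wd x v ∉ pd2S C x v}) := by
  induction w using (List.Shortlex.wf (r := fun a b : Fin g => a < b) wellFounded_lt).induction with
  | _ w ih =>
    by_cases h : wd x w ∈ pd2S C x w
    · refine (Submodule.span_le.2 ?_ : pd2S C x w ≤ _) h
      rintro _ ⟨v, hv, rfl⟩
      exact ih v hv
    · exact Submodule.subset_span ⟨w, h, rfl⟩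

theorem pd2_pow (u : List (Fin g)) (n : ℕ) : wd x (List.replicate n u).flatten = wd x u ^ n := by
  rw [wd_flatten, List.map_replicate, List.prod_replicate]

end

/-- Shirshov finiteness theorem.  Order words by length, then lexicographically (well-founded).
Call a word reducible if its value is in the `C`-span of the values of smaller words.  By
well-founded induction the irreducible words span.  If `v` is reducible so is `p ++ v ++ s`, so the
irreducible words form a factorial language.  If it were infinite, `shirshov_words` applies: a power
`u ^ N` with `N` the degree of a monic equation for `wd x u` is reducible (for `N = 0` the ring `A` is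
trivial), and in the second case the identity `hid` shows that the word is reducible. -/
theorem shirshov {C A : Type} [CommRing C] [Ring A] [Algebra C A] {g d : ℕ} (x : Fin g → A)
    (c : Equiv.Perm (Fin d) → C) (hc : c 1 = 1)
    (hid : ∀ w : Fin d → List (Fin g),
      ∑ σ : Equiv.Perm (Fin d), c σ • (List.ofFn fun i => wd x (w (σ i))).prod = 0)
    (hint : ∀ w : List (Fin g), w.length ≤ d → IsIntegral C (wd x w)) :
    (Submodule.span C (Set.range (wd x))).FG := by
  have hfin : {v | wd x v ∉ pd2S C x v}.Finite := by
    by_contra hinf
    rcases shirshov_words d _ hinf (fun u hu v hv hv' => by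
      obtain ⟨p, s, rfl⟩ := hv
      exact hu (pd2_red C x hv' p s)) with ⟨u, hu0, hud, hu⟩ | ⟨w, hw, hσ⟩
    · obtain ⟨q, hq, hq0⟩ := hint u hud
      apply hu q.natDegree
      rw [← aeval_def, hq.as_sum, map_add, map_sum, map_pow, aeval_X] at hq0
      rw [pd2_pow, eq_neg_of_add_eq_zero_left hq0]
      refine Submodule.neg_mem _ (Submodule.sum_mem _ fun i hi => ?_)
      rw [map_mul, map_pow, aeval_X, aeval_C, ← Algebra.smul_def, ← pd2_pow]
      refine Submodule.smul_mem _ _ (pd2_mem C x (List.Shortlex.of_length_lt ?_))
      simp only [List.length_flatten, List.map_replicate, List.sum_replicate, smul_eq_mul]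
      exact Nat.mul_lt_mul_of_pos_right (Finset.mem_range.1 hi) hu0
    · apply hw
      have h1 : ∀ σ : Equiv.Perm (Fin d), (List.ofFn fun i => wd x (w (σ i))).prod =
          wd x (List.ofFn fun i => w (σ i)).flatten := fun σ => by
        rw [wd_flatten, List.map_ofFn]
        rfl
      have h2 := hid w
      simp only [h1] at h2
      rw [← Finset.add_sum_erase _ _ (Finset.mem_univ 1), hc, one_smul] at h2
      have h3 : wd x (List.ofFn w).flatten = _ := eq_neg_of_add_eq_zero_left h2
      rw [h3]
      refine Submodule.neg_mem _ (Submodule.sum_mem _ fun σ hσ' => ?_)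
      refine Submodule.smul_mem _ _ (pd2_mem C x (List.Shortlex.of_lex ?_
        (hσ σ (Finset.ne_of_mem_erase hσ'))))
      simp only [List.length_flatten, List.map_ofFn, List.sum_ofFn, Function.comp_apply]
      exact Equiv.sum_comp σ fun i => (w i).length
  refine Submodule.fg_def.2 ⟨_, hfin.image (wd x), le_antisymm ?_ ?_⟩
  · exact Submodule.span_mono (Set.image_subset_range _ _)
  · refine Submodule.span_le.2 ?_
    rintro _ ⟨w, rfl⟩
    exact pd2_span C x w

/-- The form used later: `A` receives `H` through `f`, and `C` is a `k`-algebra. -/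
theorem shirshov_map {k H C A : Type} [Field k] [Ring H] [Algebra k H] [CommRing C] [Algebra k C]
    [Ring A] [Algebra k A] [Algebra C A] [IsScalarTower k C A] {g d : ℕ} {x : Fin g → H}
    (hx : Gen k x) (hd : MPI k H d) (f : H →ₐ[k] A)
    (hint : ∀ w : List (Fin g), w.length ≤ d → IsIntegral C (f (wd x w))) :
    (Submodule.span C (Set.range f)).FG := by
  obtain ⟨c, hc, hid⟩ := hd
  have h := shirshov (C := C) (fun i => f (x i)) (fun σ => algebraMap k C (c σ))
    (by rw [hc, map_one]) (fun w => by
      have h1 := congrArg f (hid fun i => wd x (w i))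
      rw [map_sum, map_zero] at h1
      rw [← h1]
      refine Finset.sum_congr rfl fun σ _ => ?_
      rw [algebraMap_smul, map_smul, map_list_prod, List.map_ofFn]
      simp only [← map_wd]
      rfl) (fun w hw => by
      rw [← map_wd]
      exact hint w hw)
  have h2 : Submodule.span C (Set.range f) =
      Submodule.span C (Set.range (wd fun i => f (x i))) := by
    refine le_antisymm (Submodule.span_le.2 ?_) (Submodule.span_mono ?_)
    · rintro _ ⟨u, rfl⟩
      have hu : u ∈ Submodule.span k (Set.range (wd x)) := by
        rw [hx.span_wd]; trivial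
      induction hu using Submodule.span_induction with
      | mem u hu =>
        obtain ⟨w, rfl⟩ := hu
        exact Submodule.subset_span ⟨w, (map_wd x f w).symm⟩
      | zero =>
        rw [map_zero]
        exact Submodule.zero_mem _
      | add a b _ _ ha hb =>
        rw [map_add]
        exact Submodule.add_mem _ ha hb
      | smul a u _ hu =>
        rw [map_smul, ← algebraMap_smul C]
        exact Submodule.smul_mem _ _ hu
    · rintro _ ⟨w, rfl⟩
      exact ⟨_, map_wd x f w⟩
  rwa [h2]

end Pool.Agent.Lib.MP_ff61db_al
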