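import Mathlib

/-! Definitions for the theorem: affine PI Hopf algebras are noetherian. -/

set_option autoImplicit false

namespace Pool.Agent.Lib.MP_ff61db_al

open Polynomial

/-- the value of the word `w` in the letters `x` -/
def wd {A : Type} [Monoid A] {g : ℕ} (x : Fin g → A) (w : List (Fin g)) : A := (w.map x).prod

/-- `x` generates `H` as a `k`-algebra -/
def Gen (k : Type) [Field k] {H : Type} [Ring H] [Algebra k H] {g : ℕ} (x : Fin g → H) : Prop :=
  Algebra.adjoin k (Set.range x) = ⊤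

/-- `H` satisfies a multilinear identity of degree `d` in which `a 0 * ... * a (d-1)` has
coefficient one -/
def MPI (k H : Type) [Field k] [Ring H] [Algebra k H] (d : ℕ) : Prop :=
  ∃ c : Equiv.Perm (Fin d) → k, c 1 = 1 ∧
    ∀ a : Fin d → H, ∑ σ : Equiv.Perm (Fin d), c σ • (List.ofFn fun i => a (σ i)).prod = 0

/-- the product of the ideals of the list `Ps` lies in `J` (written elementwise) -/
def Kills {A : Type} [Ring A] (Ps : List (Ideal A)) (J : Ideal A) : Prop :=
  ∀ l : List A, List.Forall₂ (fun x P => x ∈ P) l Ps → l.prod ∈ J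

/-- `P` is a prime two-sided ideal -/
def PrimeI {A : Type} [Ring A] (P : Ideal A) : Prop :=
  P.IsTwoSided ∧ P ≠ ⊤ ∧ ∀ x y : A, (∀ t : A, x * t * y ∈ P) → x ∈ P ∨ y ∈ P

/-- `A` is a prime ring -/
def PrimeR (A : Type) [Ring A] : Prop :=
  Nontrivial A ∧ ∀ x y : A, (∀ t : A, x * t * y = 0) → x = 0 ∨ y = 0

/-- generalized monomial `y 0 * a 0 * y 1 * a 1 * ... * a (n-1) * y n` -/
def gm {A : Type} [Monoid A] {n : ℕ} (y : Fin (n + 1) → A) (a : Fin n → A) : A :=
  y 0 * (List.ofFn fun i => a i * y i.succ).prod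

/-- Capelli polynomial -/
def cap {A : Type} [Ring A] (n : ℕ) (a : Fin n → A) (y : Fin (n + 1) → A) : A :=
  ∑ σ : Equiv.Perm (Fin n), ((Equiv.Perm.sign σ : ℤˣ) : ℤ) • gm y (fun i => a (σ i))

/-- multiply the entries in the slots of `S` on the left by `h` -/
def ins {A : Type} [Monoid A] {n : ℕ} (S : Finset (Fin n)) (h : A) (a : Fin n → A) : Fin n → A :=
  fun l => if l ∈ S then h * a l else a l

/-- a map from `H` to an algebra which is a finite module over the commutative algebra `Z` -/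
structure Cov (k H Z : Type) [Field k] [Ring H] [Algebra k H] [CommRing Z] [Algebra k Z] :
    Type 1 where
  T : Type
  [ring : Ring T]
  [algZ : Algebra Z T]
  [algk : Algebra k T]
  [tower : IsScalarTower k Z T]
  [fin : Module.Finite Z T]
  φ : H →ₐ[k] T

attribute [instance] Cov.ring Cov.algZ Cov.algk Cov.tower Cov.fin

section
variable {k H Z : Type} [Field k] [Ring H] [Algebra k H] [CommRing Z] [Algebra k Z]

/-- the preimage in `H` of `m T` -/
def Cov.fib (c : Cov k H Z) (m : Ideal Z) : Ideal H where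
  carrier := {h | c.φ h ∈ m • (⊤ : Submodule Z c.T)}
  add_mem' := by
    intro a b ha hb
    simp only [Set.mem_ofPred_eq, map_add] at *
    exact Submodule.add_mem _ ha hb
  zero_mem' := by simp
  smul_mem' := by
    intro r a ha
    simp only [Set.mem_ofPred_eq, smul_eq_mul, map_mul] at *
    refine Submodule.smul_induction_on ha (fun z hz t _ => ?_) (fun s t hs ht => ?_)
    · rw [mul_smul_comm]
      exact Submodule.smul_mem_smul hz Submodule.mem_top
    · rw [mul_add]
      exact Submodule.add_mem _ hs ht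

theorem Cov.mem_fib (c : Cov k H Z) (m : Ideal Z) (h : H) :
    h ∈ c.fib m ↔ c.φ h ∈ m • (⊤ : Submodule Z c.T) := Iff.rfl

instance Cov.fib_two (c : Cov k H Z) (m : Ideal Z) : (c.fib m).IsTwoSided where
  mul_mem_of_left := by
    intro a r ha
    rw [Cov.mem_fib] at *
    rw [map_mul]
    refine Submodule.smul_induction_on ha (fun z hz t _ => ?_) (fun s t hs ht => ?_)
    · rw [smul_mul_assoc]
      exact Submodule.smul_mem_smul hz Submodule.mem_top
    · rw [add_mul]
      exact Submodule.add_mem _ hs ht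

/-- `T = Z φ(H)` -/
def Cov.Span (c : Cov k H Z) : Prop := Submodule.span Z (Set.range c.φ) = ⊤

/-- `T` is generated over `φ(H)` by finitely many elements of `Z` -/
def Cov.CFin (c : Cov k H Z) : Prop :=
  ∃ s : Finset Z, ∀ t : c.T, ∃ f : Z → H, t = ∑ z ∈ s, z • c.φ (f z)

end

section
variable (k : Type) [Field k] {H : Type} [Ring H] [Algebra k H]

/-- `P` is the kernel of a map onto a prime ring `T = Z φ(H)` finite over an affine `Z` -/
def IsP (P : Ideal H) : Prop :=
  ∃ (Z : Type) (_ : CommRing Z) (_ : Algebra k Z) (_ : Algebra.FiniteType k Z) (c : Cov k H Z),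
    c.Span ∧ PrimeR c.T ∧ RingHom.ker c.φ = P

/-- `N` is the kernel of a map to a ring `T` finite over an affine `Z` and generated over `φ(H)` by
finitely many elements of `Z` -/
def CF (N : Ideal H) : Prop :=
  ∃ (Z : Type) (_ : CommRing Z) (_ : Algebra k Z) (_ : Algebra.FiniteType k Z) (c : Cov k H Z),
    c.CFin ∧ RingHom.ker c.φ = N

/-- the growth of `H / P` is at most polynomial of degree `e` -/
def Gr {g : ℕ} (x : Fin g → H) (P : Ideal H) (e : ℕ) : Prop :=
  ∃ C : ℕ, ∀ n : ℕ, Module.finrank k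
    ((Submodule.span k {u | ∃ w : List (Fin g), w.length ≤ n ∧ u = wd x w}).map
      (P.restrictScalars k).mkQ) ≤ C * (n + 1) ^ e

end

section
variable (k H : Type) [Field k] [Ring H] [Algebra k H]

/-- finitely many primes `IsP` with product zero -/
def Struct : Prop := ∃ Ps : List (Ideal H), (∀ P ∈ Ps, IsP k P) ∧ Kills Ps ⊥

/-- trace ring data -/
structure Tr : Type 1 where
  Z : Type
  [cZ : CommRing Z]
  [dom : IsDomain Z]
  [aZ : Algebra k Z]
  [ft : Algebra.FiniteType k Z]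
  c : Cov k H Z
  span : c.Span
  prime : PrimeR c.T
  inj : Function.Injective (algebraMap Z c.T)
  cen : ∀ t : c.T, (∀ s : c.T, t * s = s * t) → ∃ z : Z, algebraMap Z c.T z = t
  a : Z
  a0 : a ≠ 0
  ha : ∀ t : c.T, ∃ h : H, c.φ h = a • t
  χ : H → Z[X]
  monic : ∀ h, (χ h).Monic
  root : ∀ (h : H) (x : Z →ₐ[k] k) (μ : k), ((χ h).map (x : Z →+* k)).IsRoot μ → ∀ t : c.T,
    (algebraMap k c.T μ - c.φ h) * t - 1 ∉ RingHom.ker x • (⊤ : Submodule Z c.T)
  int : ∀ z : Z, IsIntegral (Algebra.adjoin k {u : Z | ∃ h i, u = (χ h).coeff i}) z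

attribute [instance] Tr.cZ Tr.dom Tr.aZ Tr.ft

/-- one-sided control of links between finite-dimensional simple modules -/
structure Link : Type 1 where
  Φ : Ideal H → Ideal H
  two : ∀ b : Ideal H, b.IsTwoSided → (Φ b).IsTwoSided
  p0 : ∀ (E : Type) [AddCommGroup E] [Module k E] [Module H E] [IsScalarTower k H E]
    [FiniteDimensional k E] (s : E), (∀ x : E, x ≠ 0 → ∃ h : H, h • x = s) →
    ∀ b : Ideal H, b.IsTwoSided → b • (⊤ : Submodule H E) ≠ ⊤ → ∀ h ∈ Φ b, h • s = 0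
  lat : ∀ (Z : Type) [CommRing Z] [Algebra k Z] (c : Cov k H Z), ∃ c' : Cov k H Z,
    ∀ (m : Ideal Z) (b : Ideal H), b.IsTwoSided → c.fib m ≤ b → c'.fib m ≤ Φ b

/-- two-sided control of links -/
structure Link2 : Type 1 where
  Θ : Ideal H → Ideal H
  two : ∀ b : Ideal H, b.IsTwoSided → (Θ b).IsTwoSided
  le : ∀ b : Ideal H, Θ b ≤ b
  modL : ∀ (E : Type) [AddCommGroup E] [Module k E] [Module H E] [IsScalarTower k H E]
    [FiniteDimensional k E] (b : Ideal H), b.IsTwoSided →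
    (∀ L : Submodule H E, L ⊔ b • (⊤ : Submodule H E) = ⊤ → L = ⊤) →
    ∃ s : ℕ, (Θ b) ^ s • (⊤ : Submodule H E) = ⊥
  modR : ∀ (E : Type) [AddCommGroup E] [Module k E] [Module H E] [IsScalarTower k H E]
    [FiniteDimensional k E] (b : Ideal H), b.IsTwoSided →
    (∀ L : Submodule H E, L ≠ ⊥ → ∃ x ∈ L, x ≠ 0 ∧ ∀ h ∈ b, h • x = 0) →
    ∃ s : ℕ, (Θ b) ^ s • (⊤ : Submodule H E) = ⊥
  ringR : ∀ (b J₁ J₂ : Ideal H), b.IsTwoSided → J₁.IsTwoSided → J₂.IsTwoSided → J₂ ≤ J₁ →
    FiniteDimensional k (H ⧸ J₂) → b * J₁ ≤ J₂ → ∃ s : ℕ, J₁ * (Θ b) ^ s ≤ J₂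
  lat : ∀ (Z : Type) [CommRing Z] [Algebra k Z] (c : Cov k H Z), ∃ c' : Cov k H Z,
    ∀ (m : Ideal Z) (b : Ideal H), b.IsTwoSided → c.fib m ≤ b → c'.fib m ≤ Θ b

end

section
variable {k B : Type} [Field k] [AddCommGroup B] [Module k B]

/-- `(ker y) B` for an action `ψ` of `Z` on `B` -/
def Fib {Z : Type} [CommRing Z] [Algebra k Z] (ψ : Z →ₐ[k] Module.End k B) (y : Z →ₐ[k] k) :
    Submodule k B :=
  Submodule.span k {b | ∃ z b₀, y z = 0 ∧ b = ψ z b₀}

/-- `B` is spanned by the images of finitely many vectors under the operators in `O` -/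
def FGby (O : Set (Module.End k B)) : Prop :=
  ∃ s : Finset B, Submodule.span k {b | ∃ o ∈ O, ∃ b₀ ∈ s, b = o b₀} = ⊤

/-- the vectors killed by the ideal `b` in the representation `ρ` -/
def annS {H : Type} [Ring H] [Algebra k H] (ρ : H →ₐ[k] Module.End k B) (b : Ideal H) :
    Submodule k B :=
  ⨅ h ∈ b, LinearMap.ker (ρ h)

end

/-- `J₁ / J₀` is a finitely generated left module -/
def LFG {H : Type} [Ring H] (J₀ J₁ : Ideal H) : Prop :=
  ∃ s : Finset H, (s : Set H) ⊆ J₁ ∧ J₁ ≤ J₀ ⊔ Ideal.span (s : Set H)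

/-- ascending chain condition for two-sided ideals between `N * N` and `N` -/
def Acc2 {H : Type} [Ring H] (N : Ideal H) : Prop :=
  WellFoundedGT {J : Ideal H // J.IsTwoSided ∧ N * N ≤ J ∧ J ≤ N}

/-- the structure map `Z → T` as a map of `k`-algebras -/
def Cov.ι {k H Z : Type} [Field k] [Ring H] [Algebra k H] [CommRing Z] [Algebra k Z]
    (c : Cov k H Z) : Z →ₐ[k] c.T := IsScalarTower.toAlgHom k Z c.T

/-- a nonzero sub-bimodule of `N / J₀` on which two trace rings act -/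
structure Bi (k H : Type) [Field k] [Ring H] [Algebra k H] (J₀ N : Ideal H) [J₀.IsTwoSided] :
    Type 1 where
  τ : Tr k H
  τ' : Tr k Hᵐᵒᵖ
  Y : Type
  [ag : AddCommGroup Y]
  [md : Module k Y]
  [nt : Nontrivial Y]
  ψ : τ.c.T →ₐ[k] Module.End k Y
  ψ' : τ'.c.T →ₐ[k] Module.End k Y
  comm : ∀ t t', Commute (ψ t) (ψ' t')
  ι : Y →ₗ[k] H ⧸ J₀
  inj : Function.Injective ι
  left : ∀ h y, ι (ψ (τ.c.φ h) y) = Ideal.Quotient.mk J₀ h * ι y
  right : ∀ h y, ι (ψ' (τ'.c.φ (MulOpposite.op h)) y) = ι y * Ideal.Quotient.mk J₀ h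
  sub : ∀ y, ∃ n ∈ N, ι y = Ideal.Quotient.mk J₀ n

attribute [instance] Bi.ag Bi.md Bi.nt

end Pool.Agent.Lib.MP_ff61db_al
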