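import Pool.Agent.Lib.MP_ff61db_al.PBase

set_option autoImplicit false

namespace Pool.Agent.Lib.MP_ff61db_al

open Polynomial TensorProduct

/-- the elements `a` with `a T v ⊆ J` -/
def pe0_left {T : Type} [Ring T] (J : Ideal T) (v : T) : Ideal T where
  carrier := {a | ∀ t, a * t * v ∈ J}
  add_mem' := fun ha hb t => by
    rw [add_mul, add_mul]
    exact J.add_mem (ha t) (hb t)
  zero_mem' := fun t => by
    rw [zero_mul, zero_mul]
    exact J.zero_mem
  smul_mem' := fun r a ha t => by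
    rw [smul_eq_mul, mul_assoc r, mul_assoc r]
    exact J.mul_mem_left r (ha t)

instance pe0_left_two {T : Type} [Ring T] (J : Ideal T) (v : T) : (pe0_left J v).IsTwoSided where
  mul_mem_of_left := fun r ha t => by
    rw [mul_assoc _ r]
    exact ha _

/-- the elements `b` with `I b ⊆ J` -/
def pe0_right {T : Type} [Ring T] (J I : Ideal T) [I.IsTwoSided] : Ideal T where
  carrier := {b | ∀ a ∈ I, a * b ∈ J}
  add_mem' := fun hb hc a ha => by
    rw [mul_add]
    exact J.add_mem (hb a ha) (hc a ha)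
  zero_mem' := fun a _ => by
    rw [mul_zero]
    exact J.zero_mem
  smul_mem' := fun r b hb a ha => by
    rw [smul_eq_mul, ← mul_assoc]
    exact hb _ (I.mul_mem_right r ha)

instance pe0_right_two {T : Type} [Ring T] (J I : Ideal T) [I.IsTwoSided] [J.IsTwoSided] :
    (pe0_right J I).IsTwoSided where
  mul_mem_of_left := fun r hb a ha => by
    rw [← mul_assoc]
    exact J.mul_mem_right r (hb a ha)

/-- Noetherian induction on two-sided ideals (they are `Z`-submodules of the noetherian module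
`T`): a maximal counterexample `J` is neither `⊤` (empty list) nor prime (`[J]`), so there are
`u, v ∉ J` with `u T v ⊆ J`; concatenate the lists for `J + T u T` and `J + T v T`. -/
theorem exists_primes {Z T : Type} [CommRing Z] [IsNoetherianRing Z] [Ring T] [Algebra Z T]
    [Module.Finite Z T] (J : Ideal T) (hJ : J.IsTwoSided) :
    ∃ Ps : List (Ideal T), (∀ P ∈ Ps, PrimeI P ∧ J ≤ P) ∧ Kills Ps J := by
  have : IsNoetherian T T := isNoetherian_of_tower Z inferInstance
  induction J using WellFoundedGT.induction with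
  | ind J ih =>
    by_cases htop : J = ⊤
    · exact ⟨[], fun P hP => absurd hP List.not_mem_nil, fun l _ => htop ▸ Submodule.mem_top⟩
    by_cases hp : ∀ x y : T, (∀ t : T, x * t * y ∈ J) → x ∈ J ∨ y ∈ J
    · refine ⟨[J], fun P hP => ?_, fun l hl => ?_⟩
      · rw [List.mem_singleton.1 hP]
        exact ⟨⟨hJ, htop, hp⟩, le_rfl⟩
      · rcases hl with _ | ⟨h1, h2⟩
        rcases h2
        rw [List.prod_singleton]
        exact h1
    push Not at hp
    obtain ⟨u, v, huv, hu, hv⟩ := hp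
    have h1 : J < pe0_left J v := by
      refine lt_of_le_of_ne (fun a ha t => J.mul_mem_right _ (J.mul_mem_right _ ha)) fun e => hu ?_
      rw [e]
      exact huv
    have h2 : J < pe0_right J (pe0_left J v) := by
      refine lt_of_le_of_ne (fun b hb a _ => J.mul_mem_left _ hb) fun e => hv ?_
      rw [e]
      intro a ha
      have := ha 1
      rwa [mul_one] at this
    obtain ⟨Ps, hP1, hP2⟩ := ih _ h1 inferInstance
    obtain ⟨Qs, hQ1, hQ2⟩ := ih _ h2 inferInstance
    refine ⟨Ps ++ Qs, fun P hP => ?_, hP2.append hQ2 fun a ha b hb => hb a ha⟩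
    rcases List.mem_append.1 hP with h | h
    · exact ⟨(hP1 P h).1, h1.le.trans (hP1 P h).2⟩
    · exact ⟨(hQ1 P h).1, h2.le.trans (hQ1 P h).2⟩

section
variable {k H Z : Type} [Field k] [Ring H] [Algebra k H] [CommRing Z] [Algebra k Z]

/-- the quotient of a `Cov` by a two-sided ideal of `T` -/
noncomputable def Cov.quot (c : Cov k H Z) (P : Ideal c.T) [P.IsTwoSided] : Cov k H Z where
  T := c.T ⧸ P
  φ := (Ideal.Quotient.mkₐ k P).comp c.φ

theorem Cov.quot_span {c : Cov k H Z} (hc : c.Span) (P : Ideal c.T) [P.IsTwoSided] :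
    (c.quot P).Span := by
  change Submodule.span Z (Set.range ((Ideal.Quotient.mkₐ Z P).toLinearMap ∘ c.φ)) = ⊤
  rw [Set.range_comp, ← Submodule.map_span, hc, Submodule.map_top, LinearMap.range_eq_top]
  exact Ideal.Quotient.mk_surjective

theorem Cov.quot_ker (c : Cov k H Z) (P : Ideal c.T) [P.IsTwoSided] :
    RingHom.ker (c.quot P).φ = P.comap c.φ := by
  ext u
  exact Ideal.Quotient.eq_zero_iff_mem

theorem PrimeI.primeR {A : Type} [Ring A] {P : Ideal A} [P.IsTwoSided] (h : PrimeI P) :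
    PrimeR (A ⧸ P) := by
  refine ⟨Ideal.Quotient.nontrivial_iff.2 h.2.1, fun x y hxy => ?_⟩
  obtain ⟨x, rfl⟩ := Ideal.Quotient.mk_surjective x
  obtain ⟨y, rfl⟩ := Ideal.Quotient.mk_surjective y
  rw [Ideal.Quotient.eq_zero_iff_mem, Ideal.Quotient.eq_zero_iff_mem]
  refine h.2.2 x y fun t => ?_
  rw [← Ideal.Quotient.eq_zero_iff_mem, map_mul, map_mul]
  exact hxy _

theorem isP_comap [Algebra.FiniteType k Z] {c : Cov k H Z} (hc : c.Span) {P : Ideal c.T}
    (hP : PrimeI P) : IsP k (P.comap c.φ) := by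
  have := hP.1
  exact ⟨Z, inferInstance, inferInstance, inferInstance, c.quot P, Cov.quot_span hc P, hP.primeR,
    c.quot_ker P⟩

theorem Cov.exists_isP [Algebra.FiniteType k Z] {c : Cov k H Z} (hc : c.Span) :
    ∃ Ps : List (Ideal H), (∀ P ∈ Ps, IsP k P) ∧ Kills Ps (RingHom.ker c.φ) := by
  have : IsNoetherianRing Z := Algebra.FiniteType.isNoetherianRing k Z
  obtain ⟨Ps, h1, h2⟩ := exists_primes (Z := Z) (⊥ : Ideal c.T) inferInstance
  refine ⟨Ps.map (Ideal.comap c.φ), fun P hP => ?_, h2.comap c.φ⟩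
  obtain ⟨Q, hQ, rfl⟩ := List.mem_map.1 hP
  exact isP_comap hc (h1 Q hQ).1

end

/-- Let `h` be a lift of a nonzero `b ∈ Z` with `b T ⊆ φ(H)`.  There are primes `IsP` containing
`ker φ` and `h` whose product lies in `ker φ + H h`: take the primes of `T` over `J = b T` with
product in `J`, pull them back, and repeat the list twice (`(b t) (b t') = φ(h') b` where
`φ h' = b t t'`). -/
theorem Tr.exists_isP_over {k H : Type} [Field k] [Ring H] [Algebra k H] (τ : Tr k H)
    (b : τ.Z) (hb : ∀ t : τ.c.T, ∃ u : H, τ.c.φ u = b • t) (h : H)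
    (hh : τ.c.φ h = algebraMap τ.Z τ.c.T b) :
    ∃ Ps : List (Ideal H), (∀ P ∈ Ps, IsP k P ∧ RingHom.ker τ.c.φ ≤ P ∧ h ∈ P) ∧
      Kills Ps (RingHom.ker τ.c.φ ⊔ Ideal.span {h}) := by
  have : IsNoetherianRing τ.Z := Algebra.FiniteType.isNoetherianRing k τ.Z
  have h2 : (Ideal.span {algebraMap τ.Z τ.c.T b}).IsTwoSided := ⟨fun r ha => by
    obtain ⟨s, rfl⟩ := Ideal.mem_span_singleton'.1 ha
    exact Ideal.mem_span_singleton'.2 ⟨s * r, by rw [mul_assoc, mul_assoc, Algebra.commutes]⟩⟩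
  obtain ⟨Ps, hP1, hP2⟩ := exists_primes (Z := τ.Z) _ h2
  have hK := hP2.comap τ.c.φ
  refine ⟨Ps.map (Ideal.comap τ.c.φ) ++ Ps.map (Ideal.comap τ.c.φ), fun P hP => ?_,
    hK.append hK fun u hu v hv => ?_⟩
  · rw [List.mem_append, or_self] at hP
    obtain ⟨Q, hQ, rfl⟩ := List.mem_map.1 hP
    refine ⟨isP_comap τ.span (hP1 Q hQ).1, Ideal.ker_le_comap _, (hP1 Q hQ).2 ?_⟩
    rw [hh]
    exact Ideal.mem_span_singleton_self _
  · obtain ⟨s, hs⟩ := Ideal.mem_span_singleton'.1 (Ideal.mem_comap.1 hu)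
    obtain ⟨s', hs'⟩ := Ideal.mem_span_singleton'.1 (Ideal.mem_comap.1 hv)
    obtain ⟨w, hw⟩ := hb (s * s')
    refine Submodule.mem_sup.2 ⟨u * v - w * h, ?_, w * h,
      Ideal.mem_span_singleton'.2 ⟨w, rfl⟩, sub_add_cancel _ _⟩
    rw [RingHom.mem_ker, map_sub, map_mul, map_mul, ← hs, ← hs', hw, hh, Algebra.smul_def,
      ← Algebra.commutes b s, sub_eq_zero]
    simp only [mul_assoc]

end Pool.Agent.Lib.MP_ff61db_al
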