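import Pool.Agent.Lib.MP_ff61db_al.PBase

set_option autoImplicit false

namespace Pool.Agent.Lib.MP_ff61db_al

open Polynomial TensorProduct

theorem pe1_nil {Q : Type} [Ring Q] (h : PrimeR Q) (J : Ideal Q) [J.IsTwoSided] (n : ℕ)
    (hn : J ^ n = ⊥) : J = ⊥ := by
  induction n with
  | zero =>
    have := h.1
    rw [Submodule.pow_zero, Ideal.one_eq_top] at hn
    exact absurd hn top_ne_bot
  | succ n ih =>
    by_contra hJ
    obtain ⟨y, hy, hy0⟩ := Submodule.exists_mem_ne_zero_of_ne_bot hJ
    refine hJ (ih ?_)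
    rw [eq_bot_iff]
    intro x hx
    rcases h.2 x y (fun t => by
      have h1 : x * (t * y) ∈ J ^ (n + 1) := by
        rw [Submodule.pow_succ]
        exact Ideal.mul_mem_mul hx (J.mul_mem_left t hy)
      rw [hn] at h1
      rw [mul_assoc]
      exact h1) with h0 | h0
    · exact h0
    · exact absurd h0 hy0

/-- A finite-dimensional prime algebra is simple: the Jacobson radical is nilpotent, hence zero;
in a semisimple ring a two-sided ideal `J` has a complementary left ideal `J'`, and
`J J' ≤ J ⊓ J' = 0`. -/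
theorem isSimpleRing_of_primeR (K Q : Type) [Field K] [Ring Q] [Algebra K Q]
    [FiniteDimensional K Q] (h : PrimeR Q) : IsSimpleRing Q := by
  have : IsArtinianRing Q := IsArtinianRing.of_finite K Q
  obtain ⟨n, hn⟩ := (IsSemiprimaryRing.isNilpotent : IsNilpotent (Ring.jacobson Q))
  have hJ : Ring.jacobson Q = ⊥ := pe1_nil h _ n hn
  have : IsSemisimpleRing Q := IsArtinianRing.isSemisimpleRing_iff_jacobson.mpr hJ
  rw [isSimpleRing_iff_isTwoSided_imp]
  refine ⟨h.1, fun I hI => ?_⟩
  obtain ⟨I', hI'⟩ := exists_isCompl I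
  by_cases h0 : I = ⊥
  · exact Or.inl h0
  · right
    obtain ⟨x, hx, hx0⟩ := Submodule.exists_mem_ne_zero_of_ne_bot h0
    have h1 : I' = ⊥ := by
      rw [eq_bot_iff]
      intro y hy
      rcases h.2 x y (fun t => by
        have h2 : x * t * y ∈ I ⊓ I' :=
          ⟨I.mul_mem_right _ (I.mul_mem_right _ hx), I'.mul_mem_left _ hy⟩
        rw [hI'.inf_eq_bot] at h2
        exact h2) with h3 | h3
      · exact absurd h3 hx0
      · exact h3
    have h4 := hI'.sup_eq_top
    rwa [h1, sup_bot_eq] at h4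

/-- localization of a prime ring at the nonzero elements of a central domain -/
theorem pe1_loc {Z T : Type} [CommRing Z] [IsDomain Z] [Ring T] [Algebra Z T]
    [Module.Finite Z T] (hT : PrimeR T) (hinj : Function.Injective (algebraMap Z T)) :
    ∃ (Q : Type) (_ : Ring Q) (_ : Algebra Z Q) (j : T →ₐ[Z] Q), IsSimpleRing Q ∧
      Function.Injective j ∧ (∀ q : Q, ∃ z : Z, z ≠ 0 ∧ ∃ t : T, z • q = j t) ∧
      ∀ z : Z, z ≠ 0 → IsUnit (algebraMap Z Q z) := by
  let K := FractionRing Z
  let j : T →ₐ[Z] K ⊗[Z] T := Algebra.TensorProduct.includeRight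
  have hloc : IsLocalizedModule (nonZeroDivisors Z) (TensorProduct.mk Z K T 1) := inferInstance
  have htf : ∀ z : Z, z ≠ 0 → ∀ t : T, z • t = 0 → t = 0 := by
    intro z hz t ht
    refine hT.eq_zero_of_central (u := algebraMap Z T z) ?_
      (fun s => Algebra.commutes z s) (by rw [← Algebra.smul_def, ht])
    intro h
    exact hz (hinj (by rw [h, map_zero]))
  have hj : Function.Injective j := by
    rw [injective_iff_map_eq_zero]
    intro t ht
    have h1 : TensorProduct.mk Z K T 1 t = TensorProduct.mk Z K T 1 0 := by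
      rw [map_zero]
      exact ht
    obtain ⟨c, hc⟩ := hloc.exists_of_eq h1
    rw [smul_zero] at hc
    exact htf c (nonZeroDivisors.coe_ne_zero c) t hc
  have hsurj : ∀ q : K ⊗[Z] T, ∃ z : Z, z ≠ 0 ∧ ∃ t : T, z • q = j t := by
    intro q
    obtain ⟨⟨t, c⟩, hc⟩ := hloc.surj q
    exact ⟨c, nonZeroDivisors.coe_ne_zero c, t, hc⟩
  have hunit : ∀ z : Z, z ≠ 0 → IsUnit (algebraMap Z (K ⊗[Z] T) z) := by
    intro z hz
    rw [IsScalarTower.algebraMap_apply Z K (K ⊗[Z] T)]
    refine IsUnit.map _ (IsUnit.mk0 _ ?_)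
    intro h
    exact hz (IsFractionRing.injective Z K (by rw [h, map_zero]))
  have hcan : ∀ z : Z, z ≠ 0 → ∀ q : K ⊗[Z] T, z • q = 0 → q = 0 := by
    intro z hz q hq
    exact ((hunit z hz).mul_right_eq_zero).1 ((Algebra.smul_def z q).symm.trans hq)
  have hQ : PrimeR (K ⊗[Z] T) := by
    have := hT.1
    refine ⟨hj.nontrivial, fun x y hxy => ?_⟩
    obtain ⟨z, hz, s, hs⟩ := hsurj x
    obtain ⟨w, hw, t, ht⟩ := hsurj y
    rcases hT.2 s t (fun u => hj (by
      rw [map_mul, map_mul, ← hs, ← ht, map_zero, smul_mul_assoc, smul_mul_assoc, mul_smul_comm,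
        hxy, smul_zero, smul_zero])) with h | h
    · left
      exact hcan z hz x (by rw [hs, h, map_zero])
    · right
      exact hcan w hw y (by rw [ht, h, map_zero])
  exact ⟨K ⊗[Z] T, inferInstance, inferInstance, j, isSimpleRing_of_primeR K _ hQ, hj, hsurj,
    hunit⟩

theorem pe1_span_center {Z T : Type} [CommRing Z] [Ring T] [Algebra Z T] {S : Set T}
    (hS : Submodule.span Z S = ⊤) : Submodule.span (Subring.center T) S = ⊤ := by
  rw [eq_top_iff]
  intro t _
  have ht : t ∈ Submodule.span Z S := hS ▸ Submodule.mem_top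
  induction ht using Submodule.span_induction with
  | mem x hx => exact Submodule.subset_span hx
  | zero => exact Submodule.zero_mem _
  | add x y _ _ hx hy => exact Submodule.add_mem _ (hx trivial) (hy trivial)
  | smul z x _ hx =>
    have hz : algebraMap Z T z ∈ Subring.center T :=
      Subring.mem_center_iff.2 fun s => (Algebra.commutes z s).symm
    have h1 := Submodule.smul_mem _ (⟨_, hz⟩ : Subring.center T) (hx trivial)
    rw [Algebra.smul_def]
    exact h1

theorem pe1_domain {T : Type} [Ring T] (hT : PrimeR T) : IsDomain (Subring.center T) := by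
  have := hT.1
  have : NoZeroDivisors (Subring.center T) := by
    refine ⟨fun {a b} hab => ?_⟩
    by_cases ha : a = 0
    · exact Or.inl ha
    · right
      refine Subtype.ext (hT.eq_zero_of_central (u := a.1) (fun h => ha (Subtype.ext h))
        (fun s => (Subring.mem_center_iff.1 a.2 s).symm) ?_)
      exact congrArg Subtype.val hab
  exact NoZeroDivisors.to_isDomain _

theorem pe1_span_loc {Z T Q : Type} [CommRing Z] [Ring T] [Algebra Z T] [Ring Q] [Algebra Z Q]
    (j : T →ₐ[Z] Q) (hsurj : ∀ q : Q, ∃ z : Z, z ≠ 0 ∧ ∃ t : T, z • q = j t)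
    (hunit : ∀ z : Z, z ≠ 0 → IsUnit (algebraMap Z Q z)) {S : Set T}
    (hS : Submodule.span Z S = ⊤) : Submodule.span (Subring.center Q) (j '' S) = ⊤ := by
  have h1 : ∀ t : T, j t ∈ Submodule.span (Subring.center Q) (j '' S) := by
    intro t
    have ht : t ∈ Submodule.span Z S := hS ▸ Submodule.mem_top
    induction ht using Submodule.span_induction with
    | mem x hx => exact Submodule.subset_span ⟨x, hx, rfl⟩
    | zero => rw [map_zero]; exact Submodule.zero_mem _
    | add x y _ _ hx hy => rw [map_add]; exact Submodule.add_mem _ hx hy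
    | smul z x _ hx =>
      have hz : algebraMap Z Q z ∈ Subring.center Q :=
        Subring.mem_center_iff.2 fun s => (Algebra.commutes z s).symm
      have h1 := Submodule.smul_mem _ (⟨_, hz⟩ : Subring.center Q) hx
      rw [map_smul, Algebra.smul_def]
      exact h1
  rw [eq_top_iff]
  intro q _
  obtain ⟨z, hz, t, ht⟩ := hsurj q
  obtain ⟨u, hu⟩ := hunit z hz
  have hc : ((u⁻¹ : Qˣ) : Q) ∈ Subring.center Q := by
    refine Subring.mem_center_iff.2 fun s => ?_
    have h2 : Commute (u : Q) s := by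
      rw [hu]
      exact Algebra.commutes z s
    exact (h2.units_inv_left).eq.symm
  have h3 := Submodule.smul_mem _ (⟨_, hc⟩ : Subring.center Q) (h1 t)
  have h4 : q = ((u⁻¹ : Qˣ) : Q) * j t := by
    rw [← ht, Algebra.smul_def, ← hu, Units.inv_mul_cancel_left]
  rw [h4]
  exact h3

/-- The central simple hull.  Replace `Z` by its image `Z₀` in `T` (a domain, since `T` is prime and
`Z₀` is central), let `K` be the fraction field of `Z₀`, `Q = K ⊗[Z₀] T` (or the localization of `T`),
`T → Q` is injective (`T` is torsion-free), `Q` is prime and finite-dimensional over `K`, hence simple;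
`L` is the centre of `Q` (a field, `IsSimpleRing.isField_center`), which contains `K`. -/
theorem exists_hull {k H : Type} [Field k] [Ring H] [Algebra k H] {P : Ideal H} (hP : IsP k P) :
    ∃ (L Q : Type) (_ : Field L) (_ : Ring Q) (_ : Algebra k L) (_ : Algebra L Q) (_ : Algebra k Q)
      (_ : IsScalarTower k L Q) (_ : FiniteDimensional L Q) (_ : IsSimpleRing Q)
      (ψ : H →ₐ[k] Q), (∀ q : Q, (∀ s : Q, q * s = s * q) → ∃ β : L, algebraMap L Q β = q) ∧
      Submodule.span L (Set.range ψ) = ⊤ ∧ RingHom.ker ψ = P := by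
  obtain ⟨Z, _, _, _, c, hspan, hT, hker⟩ := hP
  have := pe1_domain hT
  obtain ⟨s, hs⟩ := (Module.Finite.fg_top : (⊤ : Submodule Z c.T).FG)
  have hs' := pe1_span_center hs
  have : Module.Finite (Subring.center c.T) c.T := ⟨⟨s, hs'⟩⟩
  obtain ⟨Q, _, _, j, hQ, hj, hsurj, hunit⟩ :=
    pe1_loc (Z := Subring.center c.T) hT Subtype.val_injective
  have hF := IsSimpleRing.isField_center Q
  let g : k →+* Q := (j : c.T →+* Q).comp (algebraMap k c.T)
  have hg : ∀ a : k, g a ∈ Subring.center Q := by
    intro a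
    have ha : algebraMap k c.T a ∈ Subring.center c.T :=
      Subring.mem_center_iff.2 fun s => (Algebra.commutes a s).symm
    have h1 : g a = algebraMap (Subring.center c.T) Q ⟨_, ha⟩ := j.commutes ⟨_, ha⟩
    rw [h1]
    exact Subring.mem_center_iff.2 fun s => (Algebra.commutes _ s).symm
  let algL : Algebra k (Subring.center Q) := (g.codRestrict (Subring.center Q) hg).toAlgebra
  let algQ : Algebra k Q := g.toAlgebra' fun a x => (Subring.mem_center_iff.1 (hg a) x).symm
  have tow : IsScalarTower k (Subring.center Q) Q := IsScalarTower.of_algebraMap_eq fun _ => rfl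
  have hfin : Module.Finite (Subring.center Q) Q := by
    refine ⟨Submodule.fg_def.2 ⟨j '' (s : Set c.T), s.finite_toSet.image _, ?_⟩⟩
    exact pe1_span_loc j hsurj hunit hs'
  let ψ : H →ₐ[k] Q :=
    { (j : c.T →+* Q).comp (c.φ : H →+* c.T) with
      commutes' := fun a => by
        change j (c.φ (algebraMap k H a)) = j (algebraMap k c.T a)
        rw [c.φ.commutes] }
  have hψ : ∀ h, ψ h = j (c.φ h) := fun _ => rfl
  have hsp : Submodule.span (Subring.center Q) (Set.range ψ) = ⊤ := by
    have h1 := pe1_span_loc j hsurj hunit (pe1_span_center hspan)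
    rw [← Set.range_comp] at h1
    exact h1
  refine ⟨Subring.center Q, Q, hF.toField, inferInstance, algL, inferInstanceAs
    (Algebra (Subring.center Q) Q), algQ, tow, hfin, hQ, ψ, ?_, hsp, ?_⟩
  · intro q hq
    exact ⟨⟨q, Subring.mem_center_iff.2 fun s => (hq s).symm⟩, rfl⟩
  · rw [← hker]
    ext h
    rw [RingHom.mem_ker, RingHom.mem_ker, hψ, map_eq_zero_iff j hj]

/-- A nonzero two-sided ideal of a prime ring finite over a central domain meets the centre.
Localize at the nonzero elements of `Z` and use `isSimpleRing_of_primeR`: `1 = i / z`. -/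
theorem exists_central_mem {Z T : Type} [CommRing Z] [IsDomain Z] [Ring T] [Algebra Z T]
    [Module.Finite Z T] (hT : PrimeR T) (hinj : Function.Injective (algebraMap Z T))
    (J : Ideal T) [J.IsTwoSided] (hJ : J ≠ ⊥) : ∃ z : Z, z ≠ 0 ∧ algebraMap Z T z ∈ J := by
  obtain ⟨Q, _, _, j, hQ, hj, hsurj, -⟩ := pe1_loc hT hinj
  let I : Ideal Q :=
    { carrier := {q | ∃ z : Z, z ≠ 0 ∧ ∃ t ∈ J, z • q = j t}
      add_mem' := by
        rintro a b ⟨z, hz, s, hs, ha⟩ ⟨w, hw, t, ht, hb⟩
        refine ⟨z * w, mul_ne_zero hz hw, w • s + z • t, ?_, ?_⟩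
        · rw [Algebra.smul_def, Algebra.smul_def]
          exact J.add_mem (J.mul_mem_left _ hs) (J.mul_mem_left _ ht)
        · rw [map_add, map_smul, map_smul, ← ha, ← hb, smul_add, smul_smul, smul_smul, mul_comm w z]
      zero_mem' := ⟨1, one_ne_zero, 0, J.zero_mem, by rw [smul_zero, map_zero]⟩
      smul_mem' := by
        rintro r a ⟨z, hz, s, hs, ha⟩
        obtain ⟨w, hw, t, ht⟩ := hsurj r
        refine ⟨w * z, mul_ne_zero hw hz, t * s, J.mul_mem_left _ hs, ?_⟩
        rw [map_mul, ← ha, ← ht, smul_eq_mul, smul_mul_smul_comm] }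
  have hI : I.IsTwoSided := by
    refine ⟨?_⟩
    rintro a r ⟨z, hz, s, hs, ha⟩
    obtain ⟨w, hw, t, ht⟩ := hsurj r
    refine ⟨z * w, mul_ne_zero hz hw, s * t, J.mul_mem_right _ hs, ?_⟩
    rw [map_mul, ← ha, ← ht, smul_mul_smul_comm]
  rcases (isSimpleRing_iff_isTwoSided_imp.1 hQ).2 I hI with h | h
  · exfalso
    obtain ⟨t, ht, ht0⟩ := Submodule.exists_mem_ne_zero_of_ne_bot hJ
    have h1 : j t ∈ I := ⟨1, one_ne_zero, t, ht, one_smul _ _⟩
    rw [h] at h1
    exact ht0 (hj (by rw [map_zero]; exact h1))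
  · have h1 : (1 : Q) ∈ I := h ▸ Submodule.mem_top
    obtain ⟨z, hz, t, ht, h2⟩ := h1
    refine ⟨z, hz, ?_⟩
    have h3 : algebraMap Z T z = t := hj (by rw [j.commutes, ← h2, Algebra.algebraMap_eq_smul_one])
    rw [h3]
    exact ht

end Pool.Agent.Lib.MP_ff61db_al
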