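import Pool.Agent.Lib.MP_ff61db_al.PK5

set_option autoImplicit false

namespace Pool.Agent.Lib.MP_ff61db_al

open Polynomial TensorProduct

section
variable (R : Type) {Q : Type} [CommRing R] [Ring Q] [Algebra R Q]

theorem pe2_ml_mem {ι M N : Type} [Fintype ι] [AddCommGroup M] [Module R M] [AddCommGroup N]
    [Module R N] (f : MultilinearMap R (fun _ : ι => M) N) (S : ι → Set M) (P : Submodule R N)
    (h : ∀ a : ι → M, (∀ i, a i ∈ S i) → f a ∈ P) (a : ι → M)
    (ha : ∀ i, a i ∈ Submodule.span R (S i)) : f a ∈ P := by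
  classical
  have key : ∀ t : Finset ι, ∀ a : ι → M, (∀ i ∈ t, a i ∈ Submodule.span R (S i)) →
      (∀ i ∉ t, a i ∈ S i) → f a ∈ P := by
    intro t
    induction t using Finset.induction_on with
    | empty => intro a _ h2; exact h a (fun i => h2 i (by simp))
    | insert j t hj ih =>
      intro a h1 h2
      have hj1 : a j ∈ Submodule.span R (S j) := h1 j (by simp)
      have : ∀ v ∈ Submodule.span R (S j), f (Function.update a j v) ∈ P := by
        intro v hv
        induction hv using Submodule.span_induction with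
        | mem v hv =>
          refine ih _ (fun i hi => ?_) (fun i hi => ?_)
          · have : i ≠ j := fun e => hj (e ▸ hi)
            rw [Function.update_of_ne this]
            exact h1 i (by simp [hi])
          · by_cases e : i = j
            · subst e; simpa using hv
            · rw [Function.update_of_ne e]
              exact h2 i (by simp [e, hi])
        | zero => rw [f.map_update_zero]; exact P.zero_mem
        | add u v _ _ hu hv => rw [f.map_update_add]; exact P.add_mem hu hv
        | smul r v _ hv => rw [f.map_update_smul]; exact P.smul_mem r hv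
      simpa using this _ hj1
  exact key Finset.univ a (fun i _ => ha i) (fun i hi => absurd (Finset.mem_univ i) hi)

/-- `gm y` as a multilinear map -/
noncomputable def pe2_gmA {n : ℕ} (y : Fin (n + 1) → Q) : MultilinearMap R (fun _ : Fin n => Q) Q :=
  (LinearMap.mulLeft R (y 0)).compMultilinearMap
    ((MultilinearMap.mkPiAlgebraFin R n Q).compLinearMap fun i => LinearMap.mulRight R (y i.succ))

theorem pe2_gmA_apply {n : ℕ} (y : Fin (n + 1) → Q) (a : Fin n → Q) : pe2_gmA R y a = gm y a := by
  simp [pe2_gmA, gm]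

/-- `cap n - y` as an alternating map -/
noncomputable def pe2_capA {n : ℕ} (y : Fin (n + 1) → Q) : Q [⋀^Fin n]→ₗ[R] Q :=
  MultilinearMap.alternatization (pe2_gmA R y)

theorem pe2_capA_apply {n : ℕ} (y : Fin (n + 1) → Q) (a : Fin n → Q) :
    pe2_capA R y a = cap n a y := by
  rw [pe2_capA, MultilinearMap.alternatization_apply, cap]
  refine Finset.sum_congr rfl fun σ _ => ?_
  rw [MultilinearMap.domDomCongr_apply, pe2_gmA_apply, Units.smul_def]

/-- `cap n a` as a multilinear map -/
noncomputable def pe2_capY {n : ℕ} (a : Fin n → Q) :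
    MultilinearMap R (fun _ : Fin (n + 1) => Q) Q :=
  ∑ σ : Equiv.Perm (Fin n), ((Equiv.Perm.sign σ : ℤˣ) : ℤ) •
    ((MultilinearMap.mkPiAlgebraFin R (n + 1) Q).compLinearMap
      fun i => LinearMap.mulLeft R ((Fin.cons 1 (fun j => a (σ j)) : Fin (n + 1) → Q) i))

theorem pe2_capY_apply {n : ℕ} (a : Fin n → Q) (y : Fin (n + 1) → Q) :
    pe2_capY R a y = cap n a y := by
  rw [pe2_capY, MultilinearMap.sum_apply, cap]
  refine Finset.sum_congr rfl fun σ _ => ?_
  simp [gm, List.ofFn_succ]

theorem pe2_gm_of {n : ℕ} (u v : Fin n → Q) : ∃ y : Fin (n + 1) → Q, ∀ a : Fin n → Q,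
    (List.ofFn fun i => u i * a i * v i).prod = gm y a := by
  induction n with
  | zero => exact ⟨fun _ => 1, fun a => by simp [gm]⟩
  | succ n ih =>
    obtain ⟨y, hy⟩ := ih (fun i => u i.succ) (fun i => v i.succ)
    refine ⟨Fin.cons (u 0) (Fin.cons (v 0 * y 0) fun i => y i.succ), fun a => ?_⟩
    rw [List.ofFn_succ, List.prod_cons, hy (fun i => a i.succ)]
    simp [gm, List.ofFn_succ, mul_assoc]

end

theorem pe2_surj {L Q : Type} [Field L] [Ring Q] [Algebra L Q] [FiniteDimensional L Q]
    [IsSimpleRing Q]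
    (hc : ∀ q : Q, (∀ s : Q, q * s = s * q) → ∃ β : L, algebraMap L Q β = q)
    (f : Module.End L Q) : ∃ w : Q ⊗[L] Qᵐᵒᵖ, AlgHom.mulLeftRight L Q w = f := by
  classical
  letI : Module (Q ⊗[L] Qᵐᵒᵖ) Q := instModuleTensorProductMop L Q
  have hsm : ∀ (w : Q ⊗[L] Qᵐᵒᵖ) (x : Q), w • x = AlgHom.mulLeftRight L Q w x := fun _ _ => rfl
  have hl : ∀ u x : Q, u * x = (u ⊗ₜ[L] (1 : Qᵐᵒᵖ)) • x := fun u x => by simp [hsm]
  have hr : ∀ u x : Q, x * u = ((1 : Q) ⊗ₜ[L] MulOpposite.op u) • x := fun u x => by simp [hsm]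
  haveI : IsSimpleModule (Q ⊗[L] Qᵐᵒᵖ) Q := by
    refine isSimpleModule_iff_toSpanSingleton_surjective.mpr ⟨inferInstance, fun v hv => ?_⟩
    rw [← LinearMap.range_eq_top]
    set N := LinearMap.range (LinearMap.toSpanSingleton (Q ⊗[L] Qᵐᵒᵖ) Q v) with hN
    let I : TwoSidedIdeal Q := TwoSidedIdeal.mk' (N : Set Q) N.zero_mem
      (fun ha hb => N.add_mem ha hb) (fun ha => N.neg_mem ha)
      (fun {x y} hy => by rw [hl]; exact N.smul_mem _ hy)
      (fun {x y} hx => by rw [hr]; exact N.smul_mem _ hx)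
    have h1 : (1 : Q) ∈ I := IsSimpleRing.one_mem_of_ne_zero_mem I hv (by
      rw [TwoSidedIdeal.mem_mk']
      exact ⟨1, by simp⟩)
    rw [TwoSidedIdeal.mem_mk'] at h1
    rw [eq_top_iff]
    intro x _
    have := N.smul_mem (x ⊗ₜ[L] (1 : Qᵐᵒᵖ)) h1
    rwa [← hl, mul_one] at this
  have hg : ∀ g : Module.End (Q ⊗[L] Qᵐᵒᵖ) Q, ∃ β : L, ∀ x, g x = β • x := by
    intro g
    have h1 : ∀ x, g x = x * g 1 := fun x => by rw [hl, ← map_smul, ← hl, mul_one]
    have h2 : ∀ x, g x = g 1 * x := fun x => by rw [hr, ← map_smul, ← hr, one_mul]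
    obtain ⟨β, hβ⟩ := hc (g 1) (fun s => by rw [← h1, ← h2])
    exact ⟨β, fun x => by rw [h2, ← hβ, Algebra.smul_def]⟩
  let f' : Module.End (Module.End (Q ⊗[L] Qᵐᵒᵖ) Q) Q :=
    { toFun := f
      map_add' := f.map_add
      map_smul' := fun g x => by
        obtain ⟨β, hβ⟩ := hg g
        simp [Module.End.smul_def, hβ] }
  let e := Module.finBasis L Q
  obtain ⟨w, hw⟩ := jacobson_density f' (Finset.univ.image e)
  refine ⟨w, e.ext fun i => ?_⟩
  rw [← hsm, ← hw (e i) (by simp)]
  rfl

section
variable {L Q : Type} [Field L] [Ring Q] [Algebra L Q] [FiniteDimensional L Q]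

/-- `cap n - y` as an alternating map; use `Module.Basis.det` and `AlternatingMap.eq_smul_basis_det`
(after composing with a linear functional), or `AlternatingMap` extensionality on a basis -/
theorem cap_mulLeft (r : Q) (a : Fin (Module.finrank L Q) → Q)
    (y : Fin (Module.finrank L Q + 1) → Q) :
    cap _ (fun i => r * a i) y = LinearMap.det (LinearMap.mulLeft L r) • cap _ a y := by
  let e := Module.finBasis L Q
  rw [← pe2_capA_apply L, ← pe2_capA_apply L]
  refine e.ext_elem fun j => ?_
  have h := AlternatingMap.eq_smul_basis_det e ((e.coord j).compAlternatingMap (pe2_capA L y))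
  have h1 := congrArg (fun F => F (fun i => r * a i)) h
  have h2 := congrArg (fun F => F a) h
  have h3 := e.det_comp (LinearMap.mulLeft L r) a
  simp only [LinearMap.compAlternatingMap_apply, Module.Basis.coord_apply,
    AlternatingMap.smul_apply, smul_eq_mul] at h1 h2
  have h4 : (⇑(LinearMap.mulLeft L r) ∘ a) = fun i => r * a i := rfl
  rw [h4] at h3
  rw [map_smul, Finsupp.smul_apply, h1, h2, h3, smul_eq_mul]
  ring

/-- The Capelli polynomial of degree `N = dim Q` does not vanish on a central simple algebra.  `Q` is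
a simple module over `Q ⊗[L] Qᵐᵒᵖ` with endomorphism ring `L`, so by `jacobson_density` (or
`IsAzumaya` / `Algebra.IsCentral` results) every `L`-linear map `Q → Q` is a finite sum of maps
`x ↦ u * x * v`.  Let `a` be a basis and `τ i` the `i`-th coordinate times `1`.  Then
`∑ σ, sign σ • ∏ i, τ i (a (σ i)) = 1`, and expanding the `τ i` writes the left side as a sum of values
`cap N a y`.  Finally `cap` is multilinear in `a` and in `y`, and `R` spans `Q`. -/
theorem exists_cap_ne_zero [IsSimpleRing Q]
    (hc : ∀ q : Q, (∀ s : Q, q * s = s * q) → ∃ β : L, algebraMap L Q β = q)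
    (R : Set Q) (hR : Submodule.span L R = ⊤) :
    ∃ (a : Fin (Module.finrank L Q) → Q) (y : Fin (Module.finrank L Q + 1) → Q),
      (∀ i, a i ∈ R) ∧ (∀ i, y i ∈ R) ∧ cap _ a y ≠ 0 := by
  classical
  by_contra hcon
  have h0 : ∀ (a : Fin (Module.finrank L Q) → Q) (y : Fin (Module.finrank L Q + 1) → Q),
      (∀ i, a i ∈ R) → (∀ i, y i ∈ R) → cap _ a y = 0 := by
    intro a y ha hy
    by_contra h
    exact hcon ⟨a, y, ha, hy, h⟩
  have h1 : ∀ (a : Fin (Module.finrank L Q) → Q) (y : Fin (Module.finrank L Q + 1) → Q),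
      cap _ a y = 0 := by
    intro a y
    rw [← pe2_capA_apply L, ← Submodule.mem_bot L]
    refine pe2_ml_mem L (pe2_capA L y).toMultilinearMap (fun _ => R) ⊥ (fun a ha => ?_) a
      (fun i => by rw [hR]; trivial)
    change pe2_capA L y a ∈ _
    rw [pe2_capA_apply, ← pe2_capY_apply L]
    refine pe2_ml_mem L (pe2_capY L a) (fun _ => R) ⊥ (fun y hy => ?_) y
      (fun i => by rw [hR]; trivial)
    rw [pe2_capY_apply, h0 a y ha hy]
    trivial
  let e := Module.finBasis L Q
  let F : MultilinearMap L (fun _ : Fin (Module.finrank L Q) => Q ⊗[L] Qᵐᵒᵖ) Q :=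
    ∑ σ : Equiv.Perm (Fin (Module.finrank L Q)), ((Equiv.Perm.sign σ : ℤˣ) : ℤ) •
      ((MultilinearMap.mkPiAlgebraFin L _ Q).compLinearMap
        fun i => LinearMap.applyₗ (e (σ i)) ∘ₗ (AlgHom.mulLeftRight L Q).toLinearMap)
  have hF : ∀ w, F w = ∑ σ : Equiv.Perm (Fin (Module.finrank L Q)),
      ((Equiv.Perm.sign σ : ℤˣ) : ℤ) •
        (List.ofFn fun i => AlgHom.mulLeftRight L Q (w i) (e (σ i))).prod := by
    intro w
    simp [F, MultilinearMap.sum_apply]
  have hF0 : ∀ w, F w = 0 := by
    intro w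
    rw [← Submodule.mem_bot L]
    refine pe2_ml_mem L F (fun _ => {t | ∃ u v, u ⊗ₜ[L] v = t}) ⊥ (fun w hw => ?_) w
      (fun i => by rw [TensorProduct.span_tmul_eq_top]; trivial)
    choose u v huv using hw
    obtain ⟨y, hy⟩ := pe2_gm_of u (fun i => (v i).unop)
    rw [Submodule.mem_bot, hF, ← h1 e y, cap]
    refine Finset.sum_congr rfl fun σ _ => ?_
    rw [← hy]
    simp [← huv]
  choose w hw using fun i => pe2_surj hc (Algebra.linearMap L Q ∘ₗ e.coord i)
  have h2 := hF0 w
  rw [hF, Finset.sum_eq_single 1] at h2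
  · simp [hw] at h2
  · intro σ _ hσ
    obtain ⟨i, hi⟩ : ∃ i, σ i ≠ i := by
      by_contra h
      push Not at h
      exact hσ (Equiv.ext h)
    rw [List.prod_eq_zero, smul_zero]
    rw [List.mem_ofFn]
    refine ⟨i, ?_⟩
    simp [hw, Finsupp.single_apply, hi]
  · simp

end

/-- The ideal of Capelli values.  `I` is the `k`-span of the values `cap N (ψ ∘ a) (ψ ∘ y)`,
`N = finrank L Q`.  If `Z` stabilizes `I`, then `cap N a (ψ ∘ y) ∈ I` whenever all `a i` lie in the
`Z`-span of `ψ(H)` (multilinearity), which with `cap_mulLeft` gives the first claim.  For the second,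
expand `cap N ((1 + m) * a) y - cap N a y` (`MultilinearMap.map_add_univ`, or change one slot at a
time): every term has a slot in `𝔪 • span`. -/
theorem exists_capIdeal {k H L Q : Type} [Field k] [Ring H] [Algebra k H] [Field L] [Ring Q]
    [Algebra k L] [Algebra L Q] [Algebra k Q] [IsScalarTower k L Q] [FiniteDimensional L Q]
    [IsSimpleRing Q] (ψ : H →ₐ[k] Q)
    (hc : ∀ q : Q, (∀ s : Q, q * s = s * q) → ∃ β : L, algebraMap L Q β = q)
    (hR : Submodule.span L (Set.range ψ) = ⊤) :
    ∃ I : Submodule k Q, I ≠ ⊥ ∧ (∀ i ∈ I, i ∈ Set.range ψ) ∧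
      (∀ h : H, ∀ i ∈ I, ψ h * i ∈ I ∧ i * ψ h ∈ I) ∧
      ∀ Z : Subalgebra k L, (∀ β ∈ Z, ∀ i ∈ I, β • i ∈ I) →
        (∀ t ∈ Submodule.span Z (Set.range ψ), ∀ i ∈ I,
          LinearMap.det (LinearMap.mulLeft L t) • i ∈ I) ∧
        ∀ (𝔪 : Ideal Z), ∀ m ∈ 𝔪 • Submodule.span Z (Set.range ψ), ∀ i ∈ I,
          (LinearMap.det (LinearMap.mulLeft L (1 + m)) - 1) • i ∈
            Submodule.span k {b | ∃ β ∈ 𝔪, ∃ i' ∈ I, b = (β : L) • i'} := by
  classical
  let I : Submodule k Q := Submodule.span k {v | ∃ (a : Fin (Module.finrank L Q) → Q)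
    (y : Fin (Module.finrank L Q + 1) → Q), (∀ i, a i ∈ Set.range ψ) ∧ (∀ i, y i ∈ Set.range ψ) ∧
      v = cap _ a y}
  have hmul : ∀ u ∈ Set.range ψ, ∀ v ∈ Set.range ψ, u * v ∈ Set.range ψ := by
    rintro _ ⟨u, rfl⟩ _ ⟨v, rfl⟩
    exact ⟨u * v, map_mul ψ u v⟩
  refine ⟨I, ?_, ?_, ?_, ?_⟩
  · obtain ⟨a, y, ha, hy, h⟩ := exists_cap_ne_zero hc _ hR
    exact (Submodule.ne_bot_iff _).2 ⟨_, Submodule.subset_span ⟨a, y, ha, hy, rfl⟩, h⟩
  · have : I ≤ ψ.range.toSubmodule := by
      refine Submodule.span_le.2 ?_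
      rintro _ ⟨a, y, ha, hy, rfl⟩
      change cap _ a y ∈ ψ.range
      refine Subalgebra.sum_mem _ fun σ _ => Subalgebra.zsmul_mem _ ?_ _
      refine Subalgebra.mul_mem _ (hy 0) (Subalgebra.list_prod_mem _ ?_)
      intro t ht
      obtain ⟨i, rfl⟩ := List.mem_ofFn.1 ht
      exact Subalgebra.mul_mem _ (ha _) (hy _)
    exact fun i hi => this hi
  · intro h i hi
    induction hi using Submodule.span_induction with
    | mem v hv =>
      obtain ⟨a, y, ha, hy, rfl⟩ := hv
      constructor
      · rw [mul_cap]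
        refine Submodule.subset_span ⟨a, _, ha, fun i => ?_, rfl⟩
        by_cases e : i = 0
        · subst e
          simpa using hmul _ ⟨h, rfl⟩ _ (hy 0)
        · rw [Function.update_of_ne e]; exact hy i
      · rw [cap_mul]
        refine Submodule.subset_span ⟨a, _, ha, fun i => ?_, rfl⟩
        by_cases e : i = Fin.last _
        · subst e
          simpa using hmul _ (hy _) _ ⟨h, rfl⟩
        · rw [Function.update_of_ne e]; exact hy i
    | zero => simp
    | add u v _ _ hu hv =>
      rw [mul_add, add_mul]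
      exact ⟨I.add_mem hu.1 hv.1, I.add_mem hu.2 hv.2⟩
    | smul r v _ hv =>
      rw [mul_smul_comm, smul_mul_assoc]
      exact ⟨I.smul_mem r hv.1, I.smul_mem r hv.2⟩
  · intro Z hZ
    let IZ : Submodule Z Q :=
      { carrier := I
        add_mem' := fun ha hb => I.add_mem ha hb
        zero_mem' := I.zero_mem
        smul_mem' := fun β i hi => hZ β β.2 i hi }
    set T := Submodule.span Z (Set.range ψ) with hT
    have hcap : ∀ (a : Fin (Module.finrank L Q) → Q) (y : Fin (Module.finrank L Q + 1) → Q),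
        (∀ i, a i ∈ T) → (∀ i, y i ∈ Set.range ψ) → cap _ a y ∈ I := by
      intro a y ha hy
      rw [← pe2_capA_apply Z]
      refine pe2_ml_mem Z (pe2_capA Z y).toMultilinearMap (fun _ => Set.range ψ) IZ
        (fun a ha => ?_) a ha
      change pe2_capA Z y a ∈ I
      rw [pe2_capA_apply]
      exact Submodule.subset_span ⟨a, y, ha, hy, rfl⟩
    have hTm : ∀ t ∈ T, ∀ u ∈ Set.range ψ, t * u ∈ T := by
      intro t ht u hu
      induction ht using Submodule.span_induction with
      | mem v hv => exact Submodule.subset_span (hmul _ hv _ hu)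
      | zero => simp
      | add v w _ _ hv hw => rw [add_mul]; exact T.add_mem hv hw
      | smul r v _ hv => rw [smul_mul_assoc]; exact T.smul_mem r hv
    refine ⟨fun t ht i hi => ?_, fun 𝔪 m hm i hi => ?_⟩
    · induction hi using Submodule.span_induction with
      | mem v hv =>
        obtain ⟨a, y, ha, hy, rfl⟩ := hv
        rw [← cap_mulLeft]
        exact hcap _ y (fun i => hTm t ht _ (ha i)) hy
      | zero => simp
      | add u v _ _ hu hv => rw [smul_add]; exact I.add_mem hu hv
      | smul r v _ hv => rw [smul_comm]; exact I.smul_mem r hv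
    · set J := Submodule.span k {b | ∃ β ∈ 𝔪, ∃ i' ∈ I, b = (β : L) • i'} with hJ
      induction hi using Submodule.span_induction with
      | mem v hv =>
        obtain ⟨a, y, ha, hy, rfl⟩ := hv
        have hone : ∀ (b : Fin (Module.finrank L Q) → Q) (j : Fin (Module.finrank L Q)),
            (∀ i, b i ∈ T) → ∀ v ∈ 𝔪 • T, pe2_capA Z y (Function.update b j v) ∈ J := by
          intro b j hb v hv
          refine Submodule.smul_induction_on hv (fun β hβ t ht => ?_) (fun u w hu hw => ?_)
          · rw [AlternatingMap.map_update_smul, pe2_capA_apply]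
            refine Submodule.subset_span ⟨β, hβ, _, hcap _ y (fun i => ?_) hy, rfl⟩
            by_cases e : i = j
            · subst e; simpa using ht
            · rw [Function.update_of_ne e]; exact hb i
          · rw [AlternatingMap.map_update_add]; exact J.add_mem hu hw
        have hma : ∀ i, m * a i ∈ 𝔪 • T := by
          intro i
          refine Submodule.smul_induction_on hm (fun β hβ t ht => ?_) (fun u w hu hw => ?_)
          · rw [smul_mul_assoc]
            exact Submodule.smul_mem_smul hβ (hTm t ht _ (ha i))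
          · rw [add_mul]; exact Submodule.add_mem _ hu hw
        rw [sub_smul, one_smul, ← cap_mulLeft, ← pe2_capA_apply Z, ← pe2_capA_apply Z]
        have h1 : (fun i => (1 + m) * a i) = (fun i => m * a i) + a := by
          funext i; simp [add_mul, add_comm]
        have h2 := (pe2_capA Z y).toMultilinearMap.map_add_univ (fun i => m * a i) a
        rw [h1]
        change (pe2_capA Z y).toMultilinearMap _ - (pe2_capA Z y).toMultilinearMap _ ∈ J
        rw [h2, ← Finset.add_sum_erase _ _ (Finset.mem_univ ∅), Finset.piecewise_empty,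
          add_sub_cancel_left]
        refine J.sum_mem fun s hs => ?_
        obtain ⟨j, hj⟩ := Finset.nonempty_iff_ne_empty.2 (Finset.ne_of_mem_erase hs)
        have h3 : s.piecewise (fun i => m * a i) a =
            Function.update (s.piecewise (fun i => m * a i) a) j (m * a j) := by
          rw [eq_comm, Function.update_eq_self_iff, Finset.piecewise_eq_of_mem _ _ _ hj]
        rw [h3]
        refine hone _ j (fun i => ?_) _ (hma j)
        by_cases e : i ∈ s
        · rw [Finset.piecewise_eq_of_mem _ _ _ e]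
          exact Submodule.smul_le_right (hma i)
        · rw [Finset.piecewise_eq_of_notMem _ _ _ e]
          exact Submodule.subset_span (ha i)
      | zero => simp
      | add u v _ _ hu hv => rw [smul_add]; exact J.add_mem hu hv
      | smul r v _ hv => rw [smul_comm]; exact J.smul_mem r hv

end Pool.Agent.Lib.MP_ff61db_al
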