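import Pool.Agent.Lib.MP_ff61db_al.PE1
import Pool.Agent.Lib.MP_ff61db_al.PE2
import Pool.Agent.Lib.MP_ff61db_al.PD2

set_option autoImplicit false

namespace Pool.Agent.Lib.MP_ff61db_al

open Polynomial TensorProduct

/-- If all values of `p` at points of the infinite field `k` lie in `Z`, so do its coefficients. -/
theorem pe3_coeff_mem {k L : Type} [Field k] [Infinite k] [CommRing L] [Algebra k L]
    (Z : Subalgebra k L) (p : L[X]) (hp : ∀ μ : k, p.eval (algebraMap k L μ) ∈ Z) (i : ℕ) :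
    p.coeff i ∈ Z := by
  by_contra hi
  obtain ⟨f, hf, hZ⟩ := Submodule.exists_dual_map_eq_bot_of_notMem
    (p := Subalgebra.toSubmodule Z) (x := p.coeff i) hi inferInstance
  have hf0 : ∀ z ∈ Z, f z = 0 := by
    intro z hz
    have : f z ∈ (Subalgebra.toSubmodule Z).map f := Submodule.mem_map_of_mem hz
    rw [hZ] at this
    simpa using this
  let q : k[X] := ∑ j ∈ Finset.range (p.natDegree + 1), monomial j (f (p.coeff j))
  have hq : q = 0 := by
    apply Polynomial.funext
    intro μ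
    rw [eval_zero, ← hf0 _ (hp μ), eval_eq_sum_range (p := p), map_sum, eval_finsetSum]
    refine Finset.sum_congr rfl fun j _ => ?_
    rw [eval_monomial, ← map_pow, mul_comm (p.coeff j), ← Algebra.smul_def, map_smul, smul_eq_mul,
      mul_comm]
  have h1 : q.coeff i = f (p.coeff i) := by
    simp only [q, finsetSum_coeff, coeff_monomial, Finset.sum_ite_eq', Finset.mem_range]
    split_ifs with h
    · rfl
    · rw [coeff_eq_zero_of_natDegree_lt (by omega), map_zero]
  rw [hq, coeff_zero] at h1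
  exact hf h1.symm

/-- The finiteness statements, from Shirshov. -/
theorem pe3_fin {k H Z Q : Type} [Field k] [Ring H] [Algebra k H] [CommRing Z] [Algebra k Z]
    [Ring Q] [Algebra k Q] [Algebra Z Q] [IsScalarTower k Z Q] {g d : ℕ} {x : Fin g → H}
    (hx : Gen k x) (hd : MPI k H d) (ψ : H →ₐ[k] Q) (χ : H → Z[X]) (hm : ∀ h, (χ h).Monic)
    (h0 : ∀ h, aeval (ψ h) (χ h) = 0) (i₀ : Q) (hi : ∀ z : Z, z • i₀ ∈ Set.range ψ)
    (hi0 : ∀ z : Z, z • i₀ = 0 → z = 0) :
    Algebra.FiniteType k Z ∧ (Submodule.span Z (Set.range ψ)).FG ∧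
      ∀ z : Z, IsIntegral (Algebra.adjoin k {u : Z | ∃ h i, u = (χ h).coeff i}) z := by
  classical
  let S : Set Z := ⋃ w ∈ {w : List (Fin g) | w.length ≤ d}, ((χ (wd x w)).coeffs : Set Z)
  have hS : S.Finite :=
    (List.finite_length_le (Fin g) d).biUnion fun w _ => Finset.finite_toSet _
  let A : Subalgebra k Z := Algebra.adjoin k S
  have hA : Algebra.FiniteType k A :=
    (Subalgebra.fg_iff_finiteType A).1 (Subalgebra.fg_def.2 ⟨S, hS, rfl⟩)
  have hN : IsNoetherianRing A := Algebra.FiniteType.isNoetherianRing k A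
  have hint : ∀ w : List (Fin g), w.length ≤ d → IsIntegral A (ψ (wd x w)) := by
    intro w hw
    have hl : χ (wd x w) ∈ lifts (algebraMap A Z) := by
      rw [lifts_iff_coeffs_subset_range]
      intro u hu
      refine ⟨⟨u, Algebra.subset_adjoin ?_⟩, rfl⟩
      exact Set.mem_biUnion (s := {w : List (Fin g) | w.length ≤ d}) hw hu
    obtain ⟨q, hq1, -, hq2⟩ := lifts_and_natDegree_eq_and_monic hl (hm _)
    refine ⟨q, hq2, ?_⟩
    rw [← aeval_def, ← aeval_map_algebraMap Z, hq1, h0]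
  have hfg : (Submodule.span A (Set.range ψ)).FG := shirshov_map hx hd ψ hint
  let e : Z →ₗ[A] Q := (LinearMap.toSpanSingleton Z Q i₀).restrictScalars A
  have he : Function.Injective e := by
    rw [injective_iff_map_eq_zero]
    intro z hz
    exact hi0 z hz
  have hZ : Module.Finite A Z := by
    have h1 : (Submodule.map e ⊤).FG := by
      refine hfg.of_le ?_
      rintro _ ⟨z, -, rfl⟩
      exact Submodule.subset_span (hi z)
    exact ⟨Submodule.fg_of_fg_map_injective e he h1⟩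
  refine ⟨Algebra.FiniteType.trans hA inferInstance, ?_, fun z => ?_⟩
  · obtain ⟨s, hs⟩ := hfg
    refine ⟨s, ?_⟩
    rw [← Submodule.span_span_of_tower A Z (s : Set Q), hs, Submodule.span_span_of_tower]
  · have hle : A ≤ Algebra.adjoin k {u : Z | ∃ h i, u = (χ h).coeff i} := by
      refine Algebra.adjoin_mono fun u hu => ?_
      obtain ⟨w, -, hw⟩ := Set.mem_iUnion₂.1 hu
      obtain ⟨n, -, hn⟩ := mem_coeffs_iff.1 hw
      exact ⟨_, n, hn⟩
    have hz : IsIntegral A z := Algebra.IsIntegral.isIntegral z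
    exact hz.map_of_comp_eq (Subalgebra.inclusion hle).toRingHom (RingHom.id Z) (by ext; rfl)

theorem pe3_prime {Q : Type} [Ring Q] [IsSimpleRing Q] {u v : Q} (h : ∀ s, u * s * v = 0) :
    u = 0 ∨ v = 0 := by
  by_cases hu : u = 0
  · exact Or.inl hu
  · right
    let J : TwoSidedIdeal Q := TwoSidedIdeal.mk' {q | ∀ s, q * s * v = 0} (by simp)
      (fun {a b} ha hb s => by rw [add_mul, add_mul, ha s, hb s, add_zero])
      (fun {a} ha s => by rw [neg_mul, neg_mul, ha s, neg_zero])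
      (fun {a b} hb s => by rw [mul_assoc a, mul_assoc a, hb s, mul_zero])
      (fun {a b} ha s => by rw [mul_assoc a, ha])
    have h1 : (1 : Q) ∈ J := IsSimpleRing.one_mem_of_ne_zero_mem J hu
      (by simpa [J, TwoSidedIdeal.mem_mk'] using h)
    simp only [J, TwoSidedIdeal.mem_mk', Set.mem_ofPred_eq] at h1
    simpa using h1 1

theorem pe3_aeval {L Q : Type} [Field L] [Ring Q] [Algebra L Q] [FiniteDimensional L Q] (q : Q) :
    aeval q (LinearMap.mulLeft L q).charpoly = 0 := by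
  have h1 := LinearMap.aeval_self_charpoly (LinearMap.mulLeft L q)
  have h2 : LinearMap.mulLeft L q = Algebra.lmul L Q q := rfl
  rw [h2, aeval_algHom_apply] at h1
  exact Algebra.lmul_injective (by rw [map_zero]; exact h1)

theorem pe3_eval {L Q : Type} [Field L] [Ring Q] [Algebra L Q] [FiniteDimensional L Q] (q : Q)
    (β : L) : (LinearMap.mulLeft L q).charpoly.eval β =
      LinearMap.det (LinearMap.mulLeft L (algebraMap L Q β - q)) := by
  rw [LinearMap.eval_charpoly]
  congr 1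
  ext s
  simp [sub_mul, Algebra.smul_def]

/-- `I` as a module over a subalgebra which stabilizes it -/
def pe3IZ {k L Q : Type} [Field k] [Field L] [AddCommGroup Q] [Algebra k L] [Module L Q]
    [Module k Q] (Z : Subalgebra k L) (I : Submodule k Q) (hZ : ∀ β ∈ Z, ∀ i ∈ I, β • i ∈ I) :
    Submodule Z Q where
  carrier := I
  add_mem' := fun ha hb => I.add_mem ha hb
  zero_mem' := I.zero_mem
  smul_mem' := fun r a ha => hZ r r.2 a ha

theorem pe3_nak {k L Q : Type} [Field k] [Field L] [AddCommGroup Q] [Algebra k L] [Module L Q]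
    [Module k Q] [IsScalarTower k L Q] (Z : Subalgebra k L) (I : Submodule k Q)
    (hZ : ∀ β ∈ Z, ∀ i ∈ I, β • i ∈ I) (hfg : (pe3IZ Z I hZ).FG) {i₀ : Q} (hi₀ : i₀ ∈ I)
    (hi₀0 : i₀ ≠ 0) (𝔪 : Ideal Z) (e : Z) (he : e ∈ 𝔪) (ν : L) (hν : ∀ i ∈ I, ν • i ∈ I)
    (h : ∀ i ∈ I, ((e : L) * ν - 1) • i ∈
      Submodule.span k {b | ∃ β ∈ 𝔪, ∃ i' ∈ I, b = (β : L) • i'}) : (1 : Z) ∈ 𝔪 := by
  have h2 : Submodule.span k {b | ∃ β ∈ 𝔪, ∃ i' ∈ I, b = (β : L) • i'} ≤
      (𝔪 • pe3IZ Z I hZ).restrictScalars k := by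
    rw [Submodule.span_le]
    rintro _ ⟨β, hβ, i', hi', rfl⟩
    have h3 : β • i' ∈ 𝔪 • pe3IZ Z I hZ :=
      Submodule.smul_mem_smul hβ (show i' ∈ pe3IZ Z I hZ from hi')
    rw [SetLike.mem_coe, Submodule.restrictScalars_mem]
    exact h3
  have hle : pe3IZ Z I hZ ≤ 𝔪 • pe3IZ Z I hZ := by
    intro i hi
    have h3 : ((e : L) * ν) • i ∈ 𝔪 • pe3IZ Z I hZ := by
      have h3 : e • (ν • i) ∈ 𝔪 • pe3IZ Z I hZ :=
        Submodule.smul_mem_smul he (show ν • i ∈ pe3IZ Z I hZ from hν i hi)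
      rw [mul_smul]
      exact h3
    have h4 := h2 (h i hi)
    rw [sub_smul, one_smul, Submodule.restrictScalars_mem] at h4
    have h5 := Submodule.sub_mem _ h3 h4
    rwa [sub_sub_cancel] at h5
  obtain ⟨r, hr1, hr⟩ :=
    Submodule.exists_sub_one_mem_and_smul_eq_zero_of_fg_of_le_smul 𝔪 _ hfg hle
  have h1 : (r : L) • i₀ = 0 := hr i₀ hi₀
  have h3 : r = 0 := Subtype.ext ((smul_eq_zero.1 h1).resolve_right hi₀0)
  rw [h3, zero_sub] at hr1
  exact neg_mem_iff.1 hr1

/-- The trace ring.  Take `L, Q, ψ` from `exists_hull` and `I` from `exists_capIdeal`.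
`Z = {β ∈ L | β I ⊆ I}` (a `Subalgebra k L`, a domain), `T = Algebra.adjoin Z (range ψ)`, which is the
`Z`-span of `range ψ`; `I` is a nonzero two-sided ideal of `T`.
* `χ h` is the characteristic polynomial of `mulLeft L (ψ h)`; its values at all `μ ∈ k` are
  determinants of elements of `T`, so they lie in `Z`; `k` is infinite, so (Lagrange interpolation) its
  coefficients lie in `Z`; lift it to `Z[X]`.
* Let `A ≤ Z` be generated by the coefficients of `χ (wd x w)`, `w.length ≤ d` (finitely many); by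
  Cayley-Hamilton these words are integral over `A`, so `shirshov_map` shows that the `A`-span of `range ψ`
  is finite over the noetherian ring `A`.  It contains `I`, and `β ↦ β • i₀` embeds `Z` in `I`, so `Z` is
  finite over `A`.  This gives `ft`, `int` and `fin`.
* `T` is prime since `Q = L T` is simple; a central element of `T` is central in `Q`, so it is some
  `β ∈ L`, and `β I ⊆ I`.
* `a`: `exists_central_mem` gives `a ≠ 0` with `a 1 ∈ I`; then `a t ∈ I ⊆ range ψ`.
* `root`: if `(μ - ψ h) t = 1 + m`, `m ∈ 𝔪 T`, `𝔪 = ker x`, then `ν (μ - ψ h) ν t = ν (1 + m)` for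
  `ν = det ∘ mulLeft`, with values in `Z`, and `ν (μ - ψ h) = eval μ (χ h) ∈ 𝔪`.  So `ν (1 + m) ∈ 𝔪`, while
  `(ν (1 + m) - 1) I ⊆ 𝔪 I`; hence `I = 𝔪 I` and Nakayama
  (`Submodule.exists_sub_one_mem_and_smul_eq_zero_of_fg_of_le_smul`) gives a contradiction. -/
theorem exists_tr {k H : Type} [Field k] [IsAlgClosed k] [Ring H] [Algebra k H] {g d : ℕ}
    {x : Fin g → H} (hx : Gen k x) (hd : MPI k H d) {P : Ideal H} (hP : IsP k P) :
    ∃ τ : Tr k H, RingHom.ker τ.c.φ = P := by
  obtain ⟨L, Q, _, _, _, _, _, _, _, _, ψ, hc, hR, hker⟩ := exists_hull hP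
  obtain ⟨I, hI0, hIr, hIm, hIZ⟩ := exists_capIdeal ψ hc hR
  obtain ⟨i₀, hi₀, hi₀0⟩ := (Submodule.ne_bot_iff I).1 hI0
  let Z : Subalgebra k L :=
    { carrier := {β | ∀ i ∈ I, β • i ∈ I}
      mul_mem' := fun {a b} ha hb i hi => by rw [mul_smul]; exact ha _ (hb i hi)
      add_mem' := fun {a b} ha hb i hi => by rw [add_smul]; exact I.add_mem (ha i hi) (hb i hi)
      algebraMap_mem' := fun r i hi => by rw [algebraMap_smul]; exact I.smul_mem r hi }
  have hZ : ∀ β ∈ Z, ∀ i ∈ I, β • i ∈ I := fun β h => h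
  obtain ⟨hdet, hdet1⟩ := hIZ Z hZ
  have hmul : ∀ s t : Q, s ∈ Submodule.span Z (Set.range ψ) → t ∈ Submodule.span Z (Set.range ψ) →
      s * t ∈ Submodule.span Z (Set.range ψ) := by
    intro s t hs ht
    have h1 := Submodule.mul_mem_mul hs ht
    rw [Submodule.span_mul_span] at h1
    refine Submodule.span_mono ?_ h1
    rintro _ ⟨_, ⟨a, rfl⟩, _, ⟨b, rfl⟩, rfl⟩
    exact ⟨a * b, map_mul ψ a b⟩
  let T : Subalgebra Z Q := (Submodule.span Z (Set.range ψ)).toSubalgebra
    (Submodule.subset_span ⟨1, map_one ψ⟩) hmul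
  have hψT : ∀ h, ψ h ∈ T := fun h => Submodule.subset_span (R := Z) ⟨h, rfl⟩
  have hIT : ∀ i ∈ I, i ∈ T := fun i hi => Submodule.subset_span (R := Z) (hIr i hi)
  have hTI : ∀ t ∈ T, ∀ i ∈ I, t * i ∈ I ∧ i * t ∈ I := by
    intro t ht i hi
    have ht' : t ∈ Submodule.span Z (Set.range ψ) := ht
    induction ht' using Submodule.span_induction with
    | mem u hu => obtain ⟨h, rfl⟩ := hu; exact hIm h i hi
    | zero => simp
    | add u v hu hv h1 h2 =>
      rw [add_mul, mul_add]
      exact ⟨I.add_mem (h1 hu).1 (h2 hv).1, I.add_mem (h1 hu).2 (h2 hv).2⟩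
    | smul z u hu h1 =>
      rw [smul_mul_assoc, mul_smul_comm]
      exact ⟨hZ z z.2 _ (h1 hu).1, hZ z z.2 _ (h1 hu).2⟩
  have hν : ∀ t ∈ T, LinearMap.det (LinearMap.mulLeft L t) ∈ Z := fun t ht => hdet t ht
  have hχ : ∀ h : H, ∃ q : Z[X],
      q.map (algebraMap Z L) = (LinearMap.mulLeft L (ψ h)).charpoly ∧ q.Monic := by
    intro h
    have hl : (LinearMap.mulLeft L (ψ h)).charpoly ∈ lifts (algebraMap Z L) := by
      rw [lifts_iff_coeff_lifts]
      intro n
      refine ⟨⟨_, pe3_coeff_mem Z (LinearMap.mulLeft L (ψ h)).charpoly (fun μ => ?_) n⟩, rfl⟩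
      rw [pe3_eval, ← IsScalarTower.algebraMap_apply, ← ψ.commutes, ← map_sub]
      exact hν _ (hψT _)
    obtain ⟨q, hq1, -, hq2⟩ := lifts_and_natDegree_eq_and_monic hl (LinearMap.charpoly_monic _)
    exact ⟨q, hq1, hq2⟩
  choose χ hχ1 hχ2 using hχ
  obtain ⟨hft, hfg, hint⟩ := pe3_fin hx hd ψ χ hχ2
    (fun h => by rw [← aeval_map_algebraMap L, hχ1, pe3_aeval]) i₀
    (fun z => hIr _ (hZ z z.2 i₀ hi₀))
    (fun z hz => by
      have hz' : (z : L) • i₀ = 0 := hz
      exact Subtype.ext ((smul_eq_zero.1 hz').resolve_right hi₀0))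
  have hN : IsNoetherianRing Z := Algebra.FiniteType.isNoetherianRing k Z
  have hfin : Module.Finite Z T := (Module.Finite.iff_fg (N := Submodule.span Z (Set.range ψ))).2 hfg
  let φ : H →ₐ[k] T :=
    { toFun := fun h => ⟨ψ h, hψT h⟩
      map_one' := Subtype.ext (map_one ψ)
      map_mul' := fun a b => Subtype.ext (map_mul ψ a b)
      map_zero' := Subtype.ext (map_zero ψ)
      map_add' := fun a b => Subtype.ext (map_add ψ a b)
      commutes' := fun r => Subtype.ext (ψ.commutes r) }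
  let c : Cov k H Z := { T := T, φ := φ }
  have hall : ∀ F : Q →ₗ[L] Q, (∀ h, F (ψ h) = 0) → ∀ q, F q = 0 := by
    intro F hF q
    have h1 : Submodule.span L (Set.range ψ) ≤ LinearMap.ker F := by
      rw [Submodule.span_le]
      rintro _ ⟨h, rfl⟩
      exact hF h
    exact h1 (hR ▸ Submodule.mem_top)
  have hprime : PrimeR T := by
    refine ⟨inferInstance, fun u v huv => ?_⟩
    have h1 := hall (LinearMap.mulRight L (v : Q) ∘ₗ LinearMap.mulLeft L (u : Q))
      (fun h => congrArg Subtype.val (huv (φ h)))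
    rcases pe3_prime (u := (u : Q)) (v := (v : Q)) h1 with h | h
    · exact Or.inl (Subtype.ext h)
    · exact Or.inr (Subtype.ext h)
  have hinj : Function.Injective (algebraMap Z T) := by
    intro a b hab
    have h1 : algebraMap L Q a = algebraMap L Q b := congrArg Subtype.val hab
    exact Subtype.ext ((algebraMap L Q).injective h1)
  let J : Ideal T :=
    { carrier := {t | (t : Q) ∈ I}
      add_mem' := fun {a b} ha hb => I.add_mem ha hb
      zero_mem' := I.zero_mem
      smul_mem' := fun r a ha => (hTI r r.2 a ha).1 }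
  have hJ2 : J.IsTwoSided := ⟨fun {a} r ha => (hTI r r.2 a ha).2⟩
  have hJ0 : J ≠ ⊥ := (Submodule.ne_bot_iff J).2
    ⟨⟨i₀, hIT i₀ hi₀⟩, hi₀, fun h => hi₀0 (congrArg Subtype.val h)⟩
  obtain ⟨a, ha0, ha⟩ := exists_central_mem hprime hinj J hJ0
  have hIfg : (pe3IZ Z I hZ).FG := hfg.of_le fun i hi => hIT i hi
  refine ⟨{ Z := Z
            c := c
            span := ?_
            prime := hprime
            inj := hinj
            cen := ?_
            a := a
            a0 := ha0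
            ha := ?_
            χ := χ
            monic := hχ2
            root := ?_
            int := hint }, ?_⟩
  · have h1 : Set.range φ = ((↑) : Submodule.span Z (Set.range ψ) → Q) ⁻¹' Set.range ψ := by
      ext t
      exact ⟨fun ⟨h, hh⟩ => ⟨h, congrArg Subtype.val hh⟩, fun ⟨h, hh⟩ => ⟨h, Subtype.ext hh⟩⟩
    have h2 := Submodule.span_span_coe_preimage (R := Z) (s := Set.range ψ)
    rw [← h1] at h2
    exact h2
  · intro (t : T) ht
    have h1 := hall (LinearMap.mulLeft L (t : Q) - LinearMap.mulRight L (t : Q))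
      (fun h => sub_eq_zero.2 (congrArg Subtype.val (ht (φ h))))
    obtain ⟨β, hβ⟩ := hc t fun s => sub_eq_zero.1 (h1 s)
    refine ⟨⟨β, fun i hi => ?_⟩, Subtype.ext hβ⟩
    rw [Algebra.smul_def, hβ]
    exact (hTI t t.2 i hi).1
  · intro (t : T)
    obtain ⟨h, hh⟩ := hIr _ (hTI t t.2 _ ha).2
    refine ⟨h, Subtype.ext ?_⟩
    have h1 : ((a • t : T) : Q) = ((algebraMap Z T a * t : T) : Q) := by rw [Algebra.smul_def]
    exact hh.trans h1.symm
  · intro h y μ hμ (t : T) hm
    set 𝔪 : Ideal Z := RingHom.ker y with h𝔪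
    have hcoe : ∀ m : T, m ∈ 𝔪 • (⊤ : Submodule Z T) →
        (m : Q) ∈ 𝔪 • Submodule.span Z (Set.range ψ) := by
      intro m hm
      refine Submodule.smul_induction_on hm (fun z hz s _ => ?_) (fun s s' hs hs' => ?_)
      · exact Submodule.smul_mem_smul hz s.2
      · exact Submodule.add_mem _ hs hs'
    have hm' : (algebraMap k Q μ - ψ h) * (t : Q) - 1 ∈ 𝔪 • Submodule.span Z (Set.range ψ) :=
      hcoe _ hm
    have he : (χ h).eval (algebraMap k Z μ) ∈ 𝔪 := by
      rw [h𝔪, RingHom.mem_ker]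
      have h1 := eval₂_at_apply (p := χ h) (y : Z →+* k) (algebraMap k Z μ)
      have h2 : (y : Z →+* k) (algebraMap k Z μ) = μ := y.commutes μ
      rw [h2, eval₂_eq_eval_map, hμ.eq_zero] at h1
      exact h1.symm
    have he' : (((χ h).eval (algebraMap k Z μ) : Z) : L) =
        LinearMap.det (LinearMap.mulLeft L (algebraMap k Q μ - ψ h)) := by
      rw [IsScalarTower.algebraMap_apply k L Q, ← pe3_eval, ← hχ1, eval_map]
      exact (eval₂_at_apply (p := χ h) (algebraMap Z L) (algebraMap k Z μ)).symm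
    have h1 := pe3_nak Z I hZ hIfg hi₀ hi₀0 𝔪 _ he (LinearMap.det (LinearMap.mulLeft L (t : Q)))
      (hdet _ t.2) (fun i hi => by
        have h1 := hdet1 𝔪 _ hm' i hi
        rwa [add_sub_cancel, LinearMap.mulLeft_mul, LinearMap.det_comp, ← he'] at h1)
    rw [h𝔪, RingHom.mem_ker, map_one] at h1
    exact one_ne_zero h1
  · rw [← hker]
    ext h
    exact ⟨fun hh => congrArg Subtype.val (show φ h = 0 from hh), fun hh => Subtype.ext hh⟩

end Pool.Agent.Lib.MP_ff61db_al
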