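import Pool.Agent.Lib.MP_ff61db_al.PBase

set_option autoImplicit false

namespace Pool.Agent.Lib.MP_ff61db_al

open Polynomial TensorProduct

/-- restriction of an action to an invariant subspace -/
def pext_res {k A W : Type} [Field k] [Ring A] [Algebra k A] [AddCommGroup W] [Module k W]
    (ρ : A →ₐ[k] Module.End k W) (X : Submodule k W) (hX : ∀ h, ∀ w ∈ X, ρ h w ∈ X) :
    A →ₐ[k] Module.End k X where
  toFun h := (ρ h).restrict (hX h)
  map_one' := by
    ext w
    simp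
  map_mul' s t := by
    ext w
    simp
  map_zero' := by
    ext w
    simp
  map_add' s t := by
    ext w
    simp
  commutes' r := by
    ext w
    simp

theorem pext_res_apply {k A W : Type} [Field k] [Ring A] [Algebra k A] [AddCommGroup W]
    [Module k W] (ρ : A →ₐ[k] Module.End k W) (X : Submodule k W) (hX : ∀ h, ∀ w ∈ X, ρ h w ∈ X)
    (h : A) (w : X) : (pext_res ρ X hX h w : W) = ρ h w := rfl

/-- Extension of the action to `T`.  Say `Rel t w w'` if `ρ h₀ w' = ρ h w` for all `h` with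
`φ h = a • t`.  `w'` is unique.  Let `W'` be the set of `w` such that for all `t` there is `w'`.  If
`Rel t w w'` and `Rel (t' * t) w w''` then `Rel t' w' w''` (apply `ρ h₀` once more, `h₀` is central modulo
`ker φ`), so `W'` is stable and `ψ t w = w'` is an algebra map. -/
theorem exists_ext {k H Z W : Type} [Field k] [Ring H] [Algebra k H] [CommRing Z] [Algebra k Z]
    [AddCommGroup W] [Module k W] (c : Cov k H Z) (ρ : H →ₐ[k] Module.End k W) (a : Z)
    (ha : ∀ t : c.T, ∃ h : H, c.φ h = a • t) (h₀ : H) (hh₀ : c.φ h₀ = algebraMap Z c.T a)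
    (hker : ∀ h : H, c.φ h = 0 → ρ h = 0) (hinj : Function.Injective (ρ h₀)) :
    ∃ (W' : Submodule k W) (ψ : c.T →ₐ[k] Module.End k W'),
      (∀ w : W, ρ h₀ w ∈ W') ∧ (∀ (h : H) (w : W'), (ψ (c.φ h) w : W) = ρ h w) ∧
      ∀ u : Module.End k W, (∀ h : H, Commute u (ρ h)) →
        (∀ w ∈ W', u w ∈ W') ∧
        ∀ (t : c.T) (w : W') (hw : u w ∈ W'), u (ψ t w) = (ψ t ⟨u w, hw⟩ : W) := by
  choose σ hσ using ha
  have hc : ∀ h h' : H, c.φ h = c.φ h' → ρ h = ρ h' := by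
    intro h h' e
    have := hker (h - h') (by rw [map_sub, e, sub_self])
    rwa [map_sub, sub_eq_zero] at this
  have hl : ∀ h : H, c.φ (h₀ * h) = a • c.φ h := by
    intro h
    rw [map_mul, hh₀, Algebra.smul_def]
  have hr : ∀ h : H, c.φ (h * h₀) = a • c.φ h := by
    intro h
    rw [map_mul, hh₀, Algebra.smul_def, Algebra.commutes]
  have hcm : ∀ (h : H) (w : W), ρ h (ρ h₀ w) = ρ h₀ (ρ h w) := by
    intro h w
    rw [← Module.End.mul_apply, ← Module.End.mul_apply, ← map_mul, ← map_mul,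
      hc (h * h₀) (h₀ * h) (by rw [hl, hr])]
  have hmul : ∀ (t t' : c.T) (w : W), ρ (σ t) (ρ (σ t') w) = ρ h₀ (ρ (σ (t * t')) w) := by
    intro t t' w
    rw [← Module.End.mul_apply, ← Module.End.mul_apply, ← map_mul, ← map_mul,
      hc (σ t * σ t') (h₀ * σ (t * t'))
        (by rw [hl, map_mul, hσ, hσ, hσ, smul_mul_assoc, mul_smul_comm])]
  have hphi : ∀ (h : H) (w : W), ρ (σ (c.φ h)) w = ρ h₀ (ρ h w) := by
    intro h w
    rw [← Module.End.mul_apply, ← map_mul, hc (σ (c.φ h)) (h₀ * h) (by rw [hl, hσ])]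
  have hadd : ∀ (t t' : c.T), ρ (σ (t + t')) = ρ (σ t) + ρ (σ t') := by
    intro t t'
    rw [← map_add]
    exact hc _ _ (by rw [map_add, hσ, hσ, hσ, smul_add])
  obtain ⟨g, hg⟩ := LinearMap.exists_leftInverse_of_injective (ρ h₀)
    (LinearMap.ker_eq_bot.2 hinj)
  have hg' : ∀ w, g (ρ h₀ w) = w := fun w => LinearMap.congr_fun hg w
  set W' : Submodule k W := ⨅ t : c.T, (LinearMap.range (ρ h₀)).comap (ρ (σ t)) with hW'
  have mem : ∀ w, w ∈ W' ↔ ∀ t, ∃ w', ρ h₀ w' = ρ (σ t) w := by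
    intro w
    simp [hW', Submodule.mem_iInf]
  have hkey : ∀ (t : c.T), ∀ w ∈ W', ρ h₀ (g (ρ (σ t) w)) = ρ (σ t) w := by
    intro t w hw
    obtain ⟨w', e⟩ := (mem w).1 hw t
    rw [← e, hg']
  have hst : ∀ (t : c.T), ∀ w ∈ W', (g.comp (ρ (σ t))) w ∈ W' := by
    intro t w hw
    rw [mem]
    intro t'
    refine ⟨g (ρ (σ (t' * t)) w), hinj ?_⟩
    rw [hkey _ w hw, ← hmul, LinearMap.comp_apply, ← hcm, hkey _ w hw]
  have hk2 : ∀ (t : c.T) (w : W'),
      ρ h₀ (((g.comp (ρ (σ t))).restrict (hst t) w : W') : W) = ρ (σ t) w :=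
    fun t w => hkey t w w.2
  have hext : ∀ f f' : Module.End k W', (∀ w : W', ρ h₀ (f w : W) = ρ h₀ (f' w : W)) → f = f' := by
    intro f f' h
    ext w
    exact hinj (h w)
  let ψ : c.T →ₐ[k] Module.End k W' :=
    { toFun := fun t => (g.comp (ρ (σ t))).restrict (hst t)
      map_one' := by
        apply hext
        intro w
        rw [hk2, ← map_one c.φ, hphi]
        simp
      map_mul' := by
        intro t t'
        apply hext
        intro w
        apply hinj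
        rw [hk2, Module.End.mul_apply, hk2, ← hcm (σ t), hk2, hmul]
      map_zero' := by
        apply hext
        intro w
        rw [hk2, ← map_zero c.φ, hphi]
        simp
      map_add' := by
        intro t t'
        apply hext
        intro w
        rw [hk2, hadd, LinearMap.add_apply, LinearMap.add_apply, Submodule.coe_add, map_add, hk2,
          hk2]
      commutes' := by
        intro r
        apply hext
        intro w
        rw [hk2, ← c.φ.commutes, hphi]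
        simp }
  have hψ : ∀ (t : c.T) (w : W'), ρ h₀ (ψ t w : W) = ρ (σ t) w := hk2
  refine ⟨W', ψ, ?_, ?_, ?_⟩
  · intro w
    rw [mem]
    intro t
    exact ⟨ρ (σ t) w, (hcm _ _).symm⟩
  · intro h w
    apply hinj
    rw [hψ, hphi]
  · intro u hu
    have hu' : ∀ (h : H) (w : W), u (ρ h w) = ρ h (u w) := fun h w =>
      LinearMap.congr_fun (hu h).eq w
    refine ⟨?_, ?_⟩
    · intro w hw
      rw [mem]
      intro t
      obtain ⟨w', e⟩ := (mem w).1 hw t
      exact ⟨u w', by rw [← hu', e, hu']⟩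
    · intro t w hw
      apply hinj
      rw [hψ, ← hu', hψ, hu']

/-- Two commuting actions.  Restrict both actions to `X`, apply `exists_ext` to the second one,
restrict the first action to the resulting subspace, and apply `exists_ext` again. -/
theorem exists_ext₂ {k H H' Z Z' W : Type} [Field k] [Ring H] [Algebra k H] [Ring H'] [Algebra k H']
    [CommRing Z] [Algebra k Z] [CommRing Z'] [Algebra k Z'] [AddCommGroup W] [Module k W]
    (c : Cov k H Z) (c' : Cov k H' Z') (ρ : H →ₐ[k] Module.End k W) (ρ' : H' →ₐ[k] Module.End k W)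
    (hcomm : ∀ h h', Commute (ρ h) (ρ' h')) (X : Submodule k W) (hX : X ≠ ⊥)
    (hinv : ∀ h, ∀ w ∈ X, ρ h w ∈ X) (hinv' : ∀ h', ∀ w ∈ X, ρ' h' w ∈ X)
    (a : Z) (ha : ∀ t : c.T, ∃ h : H, c.φ h = a • t) (h₀ : H) (hh₀ : c.φ h₀ = algebraMap Z c.T a)
    (hker : ∀ h : H, c.φ h = 0 → ∀ w ∈ X, ρ h w = 0) (hinj : ∀ w ∈ X, ρ h₀ w = 0 → w = 0)
    (a' : Z') (ha' : ∀ t : c'.T, ∃ h : H', c'.φ h = a' • t) (h₀' : H')
    (hh₀' : c'.φ h₀' = algebraMap Z' c'.T a')
    (hker' : ∀ h : H', c'.φ h = 0 → ∀ w ∈ X, ρ' h w = 0) (hinj' : ∀ w ∈ X, ρ' h₀' w = 0 → w = 0) :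
    ∃ (Y : Type) (_ : AddCommGroup Y) (_ : Module k Y) (_ : Nontrivial Y)
      (ψ : c.T →ₐ[k] Module.End k Y) (ψ' : c'.T →ₐ[k] Module.End k Y) (ι : Y →ₗ[k] W),
      (∀ t t', Commute (ψ t) (ψ' t')) ∧ Function.Injective ι ∧
      (∀ h y, ι (ψ (c.φ h) y) = ρ h (ι y)) ∧ (∀ h y, ι (ψ' (c'.φ h) y) = ρ' h (ι y)) ∧
      ∀ y, ι y ∈ X := by
  set ρX := pext_res ρ X hinv with hρX
  set ρX' := pext_res ρ' X hinv' with hρX'
  have hcX : ∀ h h', Commute (ρX h) (ρX' h') := by
    intro h h'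
    ext w
    exact LinearMap.congr_fun (hcomm h h').eq w
  have inj1 : Function.Injective (ρX' h₀') := by
    rw [injective_iff_map_eq_zero]
    intro w hw
    exact Subtype.ext (hinj' w w.2 (congrArg Subtype.val hw))
  obtain ⟨W₁, ψ₁, m₁, e₁, c₁⟩ := exists_ext c' ρX' a' ha' h₀' hh₀' (by
    intro h hh
    ext w
    exact hker' h hh w w.2) inj1
  have hinv₁ : ∀ h, ∀ w ∈ W₁, ρX h w ∈ W₁ := fun h => (c₁ (ρX h) (hcX h)).1
  set ρ₁ := pext_res ρX W₁ hinv₁ with hρ₁
  have hc₁ : ∀ t' h, Commute (ψ₁ t') (ρ₁ h) := by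
    intro t' h
    refine LinearMap.ext fun w => Subtype.ext ?_
    exact ((c₁ (ρX h) (hcX h)).2 t' w (hinv₁ h w w.2)).symm
  have inj2 : Function.Injective (ρ₁ h₀) := by
    rw [injective_iff_map_eq_zero]
    intro w hw
    exact Subtype.ext (Subtype.ext (hinj w w.1.2
      (congrArg Subtype.val (congrArg Subtype.val hw))))
  obtain ⟨W₂, ψ₂, m₂, e₂, c₂⟩ := exists_ext c ρ₁ a ha h₀ hh₀ (by
    intro h hh
    ext w
    exact hker h hh w w.1.2) inj2
  have hinv₂ : ∀ t', ∀ w ∈ W₂, ψ₁ t' w ∈ W₂ := fun t' => (c₂ (ψ₁ t') (hc₁ t')).1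
  have hnt : Nontrivial W₂ := by
    obtain ⟨x, hx, hx0⟩ := (Submodule.ne_bot_iff X).1 hX
    refine ⟨⟨⟨ρ₁ h₀ ⟨ρX' h₀' ⟨x, hx⟩, m₁ _⟩, m₂ _⟩, 0, ?_⟩⟩
    intro e
    have h1 := (injective_iff_map_eq_zero _).1 inj2 _ (congrArg Subtype.val e)
    have h2 := (injective_iff_map_eq_zero _).1 inj1 _ (congrArg Subtype.val h1)
    exact hx0 (congrArg Subtype.val h2)
  refine ⟨W₂, inferInstance, inferInstance, hnt, ψ₂, pext_res ψ₁ W₂ hinv₂,
    X.subtype.comp (W₁.subtype.comp W₂.subtype), ?_, ?_, ?_, ?_, ?_⟩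
  · intro t t'
    refine LinearMap.ext fun w => Subtype.ext ?_
    exact ((c₂ (ψ₁ t') (hc₁ t')).2 t w (hinv₂ t' w w.2)).symm
  · intro y y' e
    exact Subtype.ext (Subtype.ext (Subtype.ext e))
  · intro h y
    exact congrArg Subtype.val (congrArg Subtype.val (e₂ h y))
  · intro h y
    exact congrArg Subtype.val (e₁ h y.1)
  · intro y
    exact y.1.1.2

end Pool.Agent.Lib.MP_ff61db_al
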