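import Pool.Agent.Lib.MP_ff61db_al.PB2

set_option autoImplicit false

namespace Pool.Agent.Lib.MP_ff61db_al

open Polynomial TensorProduct

section
variable {H : Type} [Ring H] {V : Type} [AddCommGroup V] [Module H V]

/-- the vectors killed by a two-sided ideal -/
def pf1_ann (I : Ideal H) [I.IsTwoSided] (V : Type) [AddCommGroup V] [Module H V] :
    Submodule H V where
  carrier := {v | ∀ h ∈ I, h • v = 0}
  add_mem' := by
    intro a b ha hb h hh
    rw [smul_add, ha h hh, hb h hh, add_zero]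
  zero_mem' := fun h _ => smul_zero h
  smul_mem' := by
    intro r v hv h hh
    rw [smul_smul]
    exact hv _ (I.mul_mem_right r hh)

theorem pf1_mem_ann (I : Ideal H) [I.IsTwoSided] (v : V) :
    v ∈ pf1_ann I V ↔ ∀ h ∈ I, h • v = 0 := Iff.rfl

theorem pf1_pow_mul {b I : Ideal H} [b.IsTwoSided] {N : ℕ} (h : b ^ N ≤ I) (n : ℕ) :
    b ^ (N * n) ≤ I ^ n := by
  induction n with
  | zero => rw [mul_zero, Submodule.pow_zero, Submodule.pow_zero]
  | succ n ih =>
    rw [Nat.mul_succ, Ideal.IsTwoSided.pow_add, Submodule.pow_succ]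
    exact Ideal.mul_mono ih h

theorem pf1_nil {b b' c : Ideal H} [b.IsTwoSided] [b'.IsTwoSided] [c.IsTwoSided] {j N s : ℕ}
    (hN : b ^ N ≤ c ⊔ b') (X Y : Submodule H V) (hj : b' ^ j • X ≤ Y) (hs : c ^ s • X ≤ Y) :
    b ^ (N * (s + j)) • X ≤ Y := by
  refine (Submodule.smul_mono_left ((pf1_pow_mul hN _).trans (sup_pow_le s j))).trans ?_
  rw [Submodule.sup_smul]
  exact sup_le hs hj

theorem pf1_exists_ann (b : Ideal H) (n : ℕ) : ∀ X : Submodule H V, X ≠ ⊥ → b ^ n • X ≤ ⊥ →
    ∃ y ∈ X, y ≠ 0 ∧ ∀ h ∈ b, h • y = 0 := by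
  induction n with
  | zero =>
    intro X hX h
    rw [Submodule.pow_zero, Ideal.one_eq_top, Submodule.top_smul] at h
    exact absurd (le_bot_iff.1 h) hX
  | succ n ih =>
    intro X hX h
    by_cases h1 : b • X = ⊥
    · obtain ⟨y, hy, hy0⟩ := Submodule.exists_mem_ne_zero_of_ne_bot hX
      refine ⟨y, hy, hy0, fun r hr => ?_⟩
      have := Submodule.smul_mem_smul hr hy
      rwa [h1, Submodule.mem_bot] at this
    · rw [Submodule.pow_succ, Submodule.mul_smul] at h
      obtain ⟨y, hy, hy0⟩ := ih (b • X) h1 h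
      exact ⟨y, Submodule.smul_le_right hy, hy0⟩

theorem pf1_le_sup (b : Ideal H) (L F : Submodule H V) (h : F ≤ L ⊔ b • F) (n : ℕ) :
    F ≤ L ⊔ b ^ n • F := by
  induction n with
  | zero =>
    rw [Submodule.pow_zero, Ideal.one_eq_top, Submodule.top_smul]
    exact le_sup_right
  | succ n ih =>
    refine ih.trans (sup_le le_sup_left ?_)
    refine (Submodule.smul_mono le_rfl h).trans ?_
    rw [Submodule.smul_sup, Submodule.pow_succ, Submodule.mul_smul]
    exact sup_le_sup_right Submodule.smul_le_right _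

end

section
variable {k H : Type} [Field k] [Ring H] [Algebra k H]

/-- Block decomposition for a stable ideal.  First: if `(Θ b) ^ s` kills a subquotient `F` of `E` then a
power of `b` kills `F` (`sup_pow_le`, `b ^ N ≤ Θ b ⊔ b'`).  Choose `M ≥ 1` so large that `E' = b ^ M • ⊤` and
`E₀ = {e | b ^ M e = 0}` are stable.  Sum: let `F` be a minimal submodule with `F ⊔ E' = ⊤`; the hypothesis
of `modL` holds for `F` (if `L ⊔ b F = F` then `L ⊔ b ^ M F = F`, so `L ⊔ E' = ⊤`), so `F ≤ E₀`.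
Intersection: let `L` be maximal with `L ⊓ E₀ = ⊥`; every nonzero submodule of `E / L` meets the image of
`E₀`, on which `b` acts nilpotently, so the hypothesis of `modR` holds, a power of `b` kills `E / L`, and
`E' ≤ L`. -/
theorem Link2.block (Λ : Link2 k H) (E : Type) [AddCommGroup E] [Module k E] [Module H E]
    [IsScalarTower k H E] [FiniteDimensional k E] (b b' : Ideal H) [b.IsTwoSided] [b'.IsTwoSided]
    {j N : ℕ} (hj : b' ^ j • (⊤ : Submodule H E) = ⊥) (hN : b ^ N ≤ Λ.Θ b ⊔ b') :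
    ∃ M : ℕ, 1 ≤ M ∧
      (∀ e : E, ∃ e₀ : E, (∀ h ∈ b ^ M, h • e₀ = 0) ∧ e - e₀ ∈ b ^ M • (⊤ : Submodule H E)) ∧
      ∀ e ∈ b ^ M • (⊤ : Submodule H E), (∀ h ∈ b ^ M, h • e = 0) → e = 0 := by
  have : IsArtinian H E := isArtinian_of_tower k inferInstance
  have : IsNoetherian H E := isNoetherian_of_tower k inferInstance
  have hΘ : (Λ.Θ b).IsTwoSided := Λ.two b inferInstance
  obtain ⟨M₁, hM₁⟩ := IsArtinian.monotone_stabilizes (R := H) (M := E)
    ⟨fun n => OrderDual.toDual (b ^ n • (⊤ : Submodule H E)),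
      fun m n hmn => Submodule.smul_mono_left (Ideal.pow_le_pow_right hmn)⟩
  obtain ⟨M₂, hM₂⟩ := monotone_stabilizes_iff_noetherian.2 (inferInstance : IsNoetherian H E)
    ⟨fun n => pf1_ann (b ^ n) E,
      fun m n hmn v hv h hh => hv h (Ideal.pow_le_pow_right hmn hh)⟩
  set M := M₁ + M₂ + 1 with hM
  have hD : ∀ n, b ^ M • (⊤ : Submodule H E) ≤ b ^ n • ⊤ := by
    intro n
    have h1 : b ^ M₁ • (⊤ : Submodule H E) = b ^ M • ⊤ := hM₁ M (by omega)
    have h2 : b ^ M₁ • (⊤ : Submodule H E) = b ^ (M + n) • ⊤ := hM₁ (M + n) (by omega)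
    rw [← h1, h2]
    exact Submodule.smul_mono_left (Ideal.pow_le_pow_right (by omega))
  have hA : ∀ n, pf1_ann (b ^ n) E ≤ pf1_ann (b ^ M) E := by
    intro n
    have h1 : pf1_ann (b ^ M₂) E = pf1_ann (b ^ M) E := hM₂ M (by omega)
    have h2 : pf1_ann (b ^ M₂) E = pf1_ann (b ^ (M + n)) E := hM₂ (M + n) (by omega)
    rw [← h1, h2]
    exact fun v hv h hh => hv h (Ideal.pow_le_pow_right (by omega) hh)
  refine ⟨M, by omega, ?_, ?_⟩
  · obtain ⟨F, hF, hmin⟩ := (wellFounded_lt (α := Submodule H E)).has_min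
      {F | F ⊔ b ^ M • (⊤ : Submodule H E) = ⊤} ⟨⊤, top_sup_eq _⟩
    have : FiniteDimensional k F :=
      FiniteDimensional.of_injective (F.subtype.restrictScalars k) F.injective_subtype
    obtain ⟨s, hs⟩ := Λ.modL F b inferInstance (fun L hL => by
      have h1 : L.map F.subtype ⊔ b • F = F := by
        have := congrArg (Submodule.map F.subtype) hL
        rwa [Submodule.map_sup, Submodule.map_smul'', Submodule.map_subtype_top] at this
      have h2 := pf1_le_sup b (L.map F.subtype) F h1.ge M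
      have h3 : L.map F.subtype ⊔ b ^ M • (⊤ : Submodule H E) = ⊤ := by
        refine top_le_iff.1 (le_trans (le_of_eq hF.symm) (sup_le (h2.trans ?_) le_sup_right))
        exact sup_le_sup_left (Submodule.smul_mono le_rfl le_top) _
      have h4 : L.map F.subtype = F :=
        (lt_or_eq_of_le (Submodule.map_subtype_le F L)).resolve_left (hmin _ h3)
      apply Submodule.map_injective_of_injective F.injective_subtype
      rw [h4, Submodule.map_subtype_top])
    have hs' : Λ.Θ b ^ s • F ≤ ⊥ := by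
      have := congrArg (Submodule.map F.subtype) hs
      rw [Submodule.map_smul'', Submodule.map_subtype_top, Submodule.map_bot] at this
      exact this.le
    have h5 := pf1_nil hN F ⊥ ((Submodule.smul_mono le_rfl le_top).trans hj.le) hs'
    intro e
    have he : e ∈ F ⊔ b ^ M • (⊤ : Submodule H E) := by
      rw [show F ⊔ b ^ M • (⊤ : Submodule H E) = ⊤ from hF]
      exact Submodule.mem_top
    obtain ⟨f, hf, d, hd, rfl⟩ := Submodule.mem_sup.1 he
    refine ⟨f, hA (N * (s + j)) (fun h hh => ?_), by simpa using hd⟩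
    exact (Submodule.mem_bot H).1 (h5 (Submodule.smul_mem_smul hh hf))
  · obtain ⟨L, hL, hmax⟩ := (wellFounded_gt (α := Submodule H E)).has_min
      {L | L ⊓ pf1_ann (b ^ M) E = ⊥} ⟨⊥, bot_inf_eq _⟩
    have hL' : L ⊓ pf1_ann (b ^ M) E = ⊥ := hL
    have : FiniteDimensional k (E ⧸ L) :=
      Module.Finite.of_surjective (L.mkQ.restrictScalars k) L.mkQ_surjective
    obtain ⟨s, hs⟩ := Λ.modR (E ⧸ L) b inferInstance (fun P hP => by
      have h1 : L < P.comap L.mkQ := by
        refine lt_of_le_of_ne (Submodule.le_comap_mkQ L P) fun h => hP ?_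
        rw [← Submodule.map_comap_eq_of_surjective L.mkQ_surjective P, ← h,
          Submodule.mkQ_map_self]
      have h2 : P.comap L.mkQ ⊓ pf1_ann (b ^ M) E ≠ ⊥ := fun h => hmax _ h h1
      obtain ⟨x, hx, hx0⟩ := Submodule.exists_mem_ne_zero_of_ne_bot h2
      have h3 : P ⊓ pf1_ann (b ^ M) (E ⧸ L) ≠ ⊥ := by
        intro h
        have h4 : L.mkQ x ∈ P ⊓ pf1_ann (b ^ M) (E ⧸ L) := by
          refine ⟨hx.1, fun r hr => ?_⟩
          rw [← map_smul, hx.2 r hr, map_zero]
        rw [h, Submodule.mem_bot, Submodule.mkQ_apply, Submodule.Quotient.mk_eq_zero] at h4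
        have h5 : x ∈ L ⊓ pf1_ann (b ^ M) E := ⟨h4, hx.2⟩
        rw [hL', Submodule.mem_bot] at h5
        exact hx0 h5
      obtain ⟨y, hy, hy0⟩ := pf1_exists_ann b M _ h3
        (Submodule.smul_le.2 fun r hr v hv => (Submodule.mem_bot H).2 (hv.2 r hr))
      exact ⟨y, hy.1, hy0⟩)
    have hs' : Λ.Θ b ^ s • (⊤ : Submodule H E) ≤ L := by
      refine Submodule.smul_le.2 fun r hr v _ => ?_
      have h1 : r • L.mkQ v ∈ Λ.Θ b ^ s • (⊤ : Submodule H (E ⧸ L)) :=
        Submodule.smul_mem_smul hr Submodule.mem_top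
      rwa [hs, Submodule.mem_bot, ← map_smul, Submodule.mkQ_apply,
        Submodule.Quotient.mk_eq_zero] at h1
    have h5 := pf1_nil hN ⊤ L (hj.le.trans bot_le) hs'
    intro e he he0
    have h6 : e ∈ L ⊓ pf1_ann (b ^ M) E := ⟨h5 (hD _ he), he0⟩
    rwa [hL', Submodule.mem_bot] at h6

end

/-- Artin-Rees (`Ideal.exists_pow_inf_eq_pow_smul`) for the range of the `Z`-linear map
`δ : T → (generators → T)`, `t ↦ (t s - s t)`, whose kernel is the centre. -/
theorem central_mod_pow {Z T : Type} [CommRing Z] [IsNoetherianRing Z] [Ring T] [Algebra Z T]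
    [Module.Finite Z T] (hc : ∀ t : T, (∀ s : T, t * s = s * t) → ∃ z : Z, algebraMap Z T z = t)
    (m : Ideal Z) : ∃ j : ℕ, 1 ≤ j ∧ ∀ t : T,
      (∀ s : T, t * s - s * t ∈ m ^ j • (⊤ : Submodule Z T)) →
      ∃ z : Z, t - algebraMap Z T z ∈ m • (⊤ : Submodule Z T) := by
  classical
  obtain ⟨n, g, hg⟩ := Module.Finite.exists_fin (R := Z) (M := T)
  let δ : T →ₗ[Z] (Fin n → T) :=
    LinearMap.pi fun i => LinearMap.mulRight Z (g i) - LinearMap.mulLeft Z (g i)
  have hδ : ∀ t i, δ t i = t * g i - g i * t := fun t i => rfl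
  obtain ⟨j, hj⟩ := Ideal.exists_pow_inf_eq_pow_smul m (LinearMap.range δ)
  refine ⟨j + 1, by omega, fun t ht => ?_⟩
  have h1 : δ t ∈ m ^ (j + 1) • (⊤ : Submodule Z (Fin n → T)) := by
    rw [← Finset.univ_sum_single (δ t)]
    refine Submodule.sum_mem _ fun i _ => ?_
    have h2 : LinearMap.single Z (fun _ : Fin n => T) i (δ t i) ∈
        (m ^ (j + 1) • (⊤ : Submodule Z T)).map (LinearMap.single Z (fun _ : Fin n => T) i) :=
      Submodule.mem_map_of_mem (by rw [hδ]; exact ht _)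
    rw [Submodule.map_smul''] at h2
    exact Submodule.smul_mono le_rfl le_top h2
  have h2 : δ t ∈ m ^ (j + 1) • (⊤ : Submodule Z (Fin n → T)) ⊓ LinearMap.range δ :=
    ⟨h1, LinearMap.mem_range_self _ _⟩
  rw [hj (j + 1) (by omega), show j + 1 - j = 1 by omega, pow_one] at h2
  have h3 : δ t ∈ (m • (⊤ : Submodule Z T)).map δ := by
    rw [Submodule.map_smul'', Submodule.map_top]
    exact Submodule.smul_mono le_rfl inf_le_right h2
  obtain ⟨t', ht', h4⟩ := h3
  have h5 : δ (t - t') = 0 := by rw [map_sub, h4, sub_self]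
  obtain ⟨z, hz⟩ := hc (t - t') (fun s => by
    have hs : s ∈ Submodule.span Z (Set.range g) := by rw [hg]; exact Submodule.mem_top
    induction hs using Submodule.span_induction with
    | mem x hx =>
      obtain ⟨i, rfl⟩ := hx
      have := congrFun h5 i
      rw [hδ] at this
      exact sub_eq_zero.1 this
    | zero => simp
    | add x y _ _ hx hy => rw [mul_add, add_mul, hx, hy]
    | smul a x _ hx => rw [mul_smul_comm, smul_mul_assoc, hx])
  refine ⟨z, ?_⟩
  rw [hz, sub_sub_cancel]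
  exact ht'

end Pool.Agent.Lib.MP_ff61db_al
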