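import Pool.Agent.Lib.MP_ff61db_al.PF1

set_option autoImplicit false

namespace Pool.Agent.Lib.MP_ff61db_al

open Polynomial TensorProduct

section
variable {k H : Type} [Field k] [Ring H] [Algebra k H]

section
variable {Z : Type} [CommRing Z] [Algebra k Z]

/-- the ideal `m T` of `T` -/
def pf2_id (c : Cov k H Z) (m : Ideal Z) : Ideal c.T :=
  Cov.fib (k := k) { T := c.T, φ := AlgHom.id k c.T } m

instance pf2_two (c : Cov k H Z) (m : Ideal Z) : (pf2_id c m).IsTwoSided := Cov.fib_two _ m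

theorem pf2_mem (c : Cov k H Z) (m : Ideal Z) (t : c.T) :
    t ∈ pf2_id c m ↔ t ∈ m • (⊤ : Submodule Z c.T) := Iff.rfl

theorem pf2_mul (c : Cov k H Z) (m m' : Ideal Z) {s t : c.T} (hs : s ∈ m • (⊤ : Submodule Z c.T))
    (ht : t ∈ m' • (⊤ : Submodule Z c.T)) : s * t ∈ (m * m') • (⊤ : Submodule Z c.T) := by
  refine Submodule.smul_induction_on hs (fun z hz s _ => ?_) (fun s s' h h' => ?_)
  · refine Submodule.smul_induction_on ht (fun z' hz' t _ => ?_) (fun t t' h h' => ?_)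
    · rw [smul_mul_smul_comm]
      exact Submodule.smul_mem_smul (Ideal.mul_mem_mul hz hz') Submodule.mem_top
    · rw [mul_add]
      exact Submodule.add_mem _ h h'
  · rw [add_mul]
    exact Submodule.add_mem _ h h'

theorem pf2_pow (c : Cov k H Z) (m : Ideal Z) (j : ℕ) : c.fib m ^ j ≤ c.fib (m ^ j) := by
  induction j with
  | zero =>
    intro h _
    rw [Cov.mem_fib, pow_zero, Ideal.one_eq_top, Submodule.top_smul]
    trivial
  | succ j ih =>
    rw [Submodule.pow_succ, Ideal.mul_le]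
    intro r hr s hs
    rw [Cov.mem_fib, map_mul, pow_succ]
    exact pf2_mul c _ _ (ih hr) hs

theorem pf2_scal (c : Cov k H Z) (x : Z →ₐ[k] k) (z : Z) (t : c.T) :
    z • t - x z • t ∈ RingHom.ker x • (⊤ : Submodule Z c.T) := by
  rw [← algebraMap_smul Z (x z) t, ← sub_smul]
  refine Submodule.smul_mem_smul ?_ Submodule.mem_top
  rw [RingHom.mem_ker, map_sub, AlgHom.commutes]
  exact sub_self _

theorem pf2_ksmul (c : Cov k H Z) (S : Submodule Z c.T) (a : k) {t : c.T} (ht : t ∈ S) :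
    a • t ∈ S := by
  rw [← algebraMap_smul Z a t]
  exact S.smul_mem _ ht

end

/-- Connectedness of a fibre, stable case.  Let `m = ker x`, `j` as in `central_mod_pow`, and
`E = T / m ^ j T` as a left `H`-module through `φ` (`Cov.finiteDimensional_quot`; `(fib m) ^ j` kills `E`).
Apply `Link2.block`.  Both summands are stable under right multiplication by `T` and under left
multiplication by `T = Z φ(H)`.  Write `1 = e₀ + e₁`; by uniqueness `e₀` is central, so a representative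
`t₀` is congruent modulo `m T` to a scalar `x z`.  If `x z = 0` then `1 ∈ φ(b) T + m T`, absurd.  Otherwise
`φ(h) t₀ ∈ m ^ j T` gives `φ h ∈ m T` for `h ∈ b ^ M`. -/
theorem Tr.stable_nil (τ : Tr k H) (Λ : Link2 k H) (x : τ.Z →ₐ[k] k) (b : Ideal H) [b.IsTwoSided]
    (hb : (1 : τ.c.T) ∉ Submodule.span τ.Z {t | ∃ h ∈ b, ∃ t', t = τ.c.φ h * t'} ⊔
      RingHom.ker x • (⊤ : Submodule τ.Z τ.c.T))
    {N : ℕ} (hN : b ^ N ≤ Λ.Θ b ⊔ τ.c.fib (RingHom.ker x)) :
    ∃ M : ℕ, b ^ M ≤ τ.c.fib (RingHom.ker x) := by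
  have : IsNoetherianRing τ.Z := Algebra.FiniteType.isNoetherianRing k τ.Z
  obtain ⟨j, hj1, hj⟩ := central_mod_pow τ.cen (RingHom.ker x)
  let I : Ideal τ.c.T := pf2_id τ.c (RingHom.ker x ^ j)
  let π : τ.c.T →ₐ[k] τ.c.T ⧸ I := Ideal.Quotient.mkₐ k I
  have hπ0 : ∀ t, π t = 0 ↔ t ∈ RingHom.ker x ^ j • (⊤ : Submodule τ.Z τ.c.T) := fun t =>
    Ideal.Quotient.eq_zero_iff_mem
  have hπs : Function.Surjective π := Ideal.Quotient.mk_surjective
  have hle : RingHom.ker x ^ j • (⊤ : Submodule τ.Z τ.c.T) ≤ RingHom.ker x • ⊤ :=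
    Submodule.smul_mono_left (Ideal.pow_le_self (by omega))
  let _ : Module H (τ.c.T ⧸ I) := Module.compHom _ ((π.comp τ.c.φ : H →ₐ[k] _) : H →+* τ.c.T ⧸ I)
  have hsm : ∀ (h : H) (e : τ.c.T ⧸ I), h • e = π (τ.c.φ h) * e := fun _ _ => rfl
  have : IsScalarTower k H (τ.c.T ⧸ I) := ⟨fun a h e => by
    rw [hsm, hsm, map_smul, map_smul, smul_mul_assoc]⟩
  have : FiniteDimensional k (τ.c.T ⧸ I) := by
    have := τ.c.finiteDimensional_quot x j
    refine Module.Finite.of_surjective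
      (((RingHom.ker x ^ j • (⊤ : Submodule τ.Z τ.c.T)).restrictScalars k).liftQ π.toLinearMap
        fun t ht => (hπ0 t).2 ht) fun e => ?_
    obtain ⟨t, rfl⟩ := hπs e
    exact ⟨Submodule.Quotient.mk t, rfl⟩
  have hkill : τ.c.fib (RingHom.ker x) ^ j • (⊤ : Submodule H (τ.c.T ⧸ I)) = ⊥ := by
    rw [eq_bot_iff, Submodule.smul_le]
    intro h hh e _
    rw [hsm, (hπ0 _).2 (pf2_pow τ.c _ j hh), zero_mul]
    exact Submodule.zero_mem _
  obtain ⟨M, hM, h1, h2⟩ := Λ.block (τ.c.T ⧸ I) b (τ.c.fib (RingHom.ker x)) hkill hN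
  obtain ⟨e₀, he₀, he₁⟩ := h1 1
  have hc : ∀ (z : τ.Z) (t : τ.c.T) (e : τ.c.T ⧸ I),
      π (z • t) * e = π t * e * π (algebraMap τ.Z τ.c.T z) := by
    intro z t e
    obtain ⟨s, rfl⟩ := hπs e
    rw [← map_mul, ← map_mul, ← map_mul, smul_mul_assoc, Algebra.smul_def, Algebra.commutes]
  have r0 : ∀ e : τ.c.T ⧸ I, (∀ h ∈ b ^ M, h • e = 0) → ∀ w, ∀ h ∈ b ^ M, h • (e * w) = 0 :=
    fun e he w h hh => by rw [hsm, ← mul_assoc, ← hsm, he h hh, zero_mul]
  have r1 : ∀ e ∈ b ^ M • (⊤ : Submodule H (τ.c.T ⧸ I)), ∀ w,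
      e * w ∈ b ^ M • (⊤ : Submodule H (τ.c.T ⧸ I)) := by
    intro e he w
    refine Submodule.smul_induction_on he (fun h hh e _ => ?_) (fun e e' h h' => ?_)
    · rw [hsm, mul_assoc, ← hsm]
      exact Submodule.smul_mem_smul hh Submodule.mem_top
    · rw [add_mul]
      exact Submodule.add_mem _ h h'
  have l01 : ∀ t : τ.c.T, (∀ h ∈ b ^ M, h • (π t * e₀) = 0) ∧
      π t * (1 - e₀) ∈ b ^ M • (⊤ : Submodule H (τ.c.T ⧸ I)) := by
    intro t
    have ht : t ∈ Submodule.span τ.Z (Set.range τ.c.φ) := τ.span ▸ Submodule.mem_top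
    induction ht using Submodule.span_induction with
    | mem t ht =>
      obtain ⟨u, rfl⟩ := ht
      refine ⟨fun h hh => ?_, ?_⟩
      · rw [← hsm, ← mul_smul]
        exact he₀ _ (Ideal.mul_mem_right _ _ hh)
      · rw [← hsm]
        exact Submodule.smul_mem _ _ he₁
    | zero =>
      rw [map_zero, zero_mul, zero_mul]
      exact ⟨fun h _ => smul_zero h, Submodule.zero_mem _⟩
    | add s t _ _ hs ht =>
      rw [map_add, add_mul, add_mul]
      exact ⟨fun h hh => by rw [smul_add, hs.1 h hh, ht.1 h hh, add_zero],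
        Submodule.add_mem _ hs.2 ht.2⟩
    | smul z t _ ht =>
      rw [hc, hc]
      exact ⟨r0 _ ht.1 _, r1 _ ht.2 _⟩
  obtain ⟨t₀, rfl⟩ := hπs e₀
  have hcen : ∀ s, t₀ * s - s * t₀ ∈ RingHom.ker x ^ j • (⊤ : Submodule τ.Z τ.c.T) := by
    intro s
    rw [← hπ0, map_sub, map_mul, map_mul]
    refine h2 _ ?_ fun h hh => ?_
    · have e : π t₀ * π s - π s * π t₀ = π s * (1 - π t₀) - (1 - π t₀) * π s := by
        rw [mul_sub, sub_mul, mul_one, one_mul]; abel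
      rw [e]
      exact Submodule.sub_mem _ (l01 s).2 (r1 _ he₁ _)
    · rw [smul_sub, r0 _ he₀ _ h hh, (l01 s).1 h hh, sub_zero]
  obtain ⟨z, hz⟩ := hj t₀ hcen
  have hz1 : t₀ - x z • (1 : τ.c.T) ∈ RingHom.ker x • (⊤ : Submodule τ.Z τ.c.T) := by
    have h3 := Submodule.add_mem _ hz (pf2_scal τ.c x z 1)
    rwa [Algebra.algebraMap_eq_smul_one, sub_add_sub_cancel] at h3
  by_cases hx : x z = 0
  · exfalso
    rw [hx, zero_smul, sub_zero] at hz1
    have h3 : ∀ e ∈ b ^ M • (⊤ : Submodule H (τ.c.T ⧸ I)),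
        ∃ s ∈ Submodule.span τ.Z {t | ∃ h ∈ b, ∃ t', t = τ.c.φ h * t'}, π s = e := by
      intro e he
      refine Submodule.smul_induction_on he (fun h hh e _ => ?_) ?_
      · obtain ⟨t', rfl⟩ := hπs e
        exact ⟨_, Submodule.subset_span ⟨h, Ideal.pow_le_self (by omega) hh, t', rfl⟩,
          by rw [map_mul, hsm]⟩
      · rintro _ _ ⟨s, hs, rfl⟩ ⟨s', hs', rfl⟩
        exact ⟨s + s', Submodule.add_mem _ hs hs', map_add _ _ _⟩
    obtain ⟨s, hs, hs'⟩ := h3 _ he₁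
    have h4 : 1 - t₀ - s ∈ RingHom.ker x • (⊤ : Submodule τ.Z τ.c.T) :=
      hle ((hπ0 _).1 (by rw [map_sub, map_sub, map_one, hs', sub_self]))
    refine hb (Submodule.mem_sup.2 ⟨s, hs, _, Submodule.add_mem _ h4 hz1, ?_⟩)
    abel
  · refine ⟨M, fun h hh => ?_⟩
    have h3 : τ.c.φ h * t₀ ∈ RingHom.ker x • (⊤ : Submodule τ.Z τ.c.T) :=
      hle ((hπ0 _).1 (by rw [map_mul, ← hsm, he₀ h hh]))
    have h4 : τ.c.φ h * (t₀ - x z • (1 : τ.c.T)) ∈ RingHom.ker x • (⊤ : Submodule τ.Z τ.c.T) :=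
      (pf2_id τ.c (RingHom.ker x)).mul_mem_left _ hz1
    have h5 := pf2_ksmul τ.c _ (x z)⁻¹ (Submodule.sub_mem _ h3 h4)
    rw [mul_sub, sub_sub_cancel, mul_smul_comm, mul_one, smul_smul, inv_mul_cancel₀ hx,
      one_smul] at h5
    exact h5

theorem pf2_stab (f : ℕ → ℕ → ℕ) (n : ℕ) (h0 : ∀ N, f 0 N ≤ n)
    (h1 : ∀ i N N', N ≤ N' → f i N' ≤ f i N) (h2 : ∀ i N, f (i + 1) N ≤ f i N) :
    ∃ i ≤ n, ∃ N, 1 ≤ N ∧ f (i + 1) N = f i N := by
  have hm : ∀ i, ∃ N, ∀ N', f i N ≤ f i N' := fun i =>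
    ⟨Function.argmin (f i), fun N' => Function.argmin_le (f i) N'⟩
  choose g hg using hm
  by_contra hn
  push Not at hn
  have h3 : ∀ i ≤ n, f (i + 1) (g (i + 1)) < f i (g i) := by
    intro i hi
    have a1 := hn i hi (g i + 1) (by omega)
    have a2 := h2 i (g i + 1)
    have a3 := h1 i (g i) (g i + 1) (by omega)
    have a4 := hg (i + 1) (g i + 1)
    omega
  have h4 : ∀ i ≤ n + 1, f i (g i) + i ≤ n := by
    intro i hi
    induction i with
    | zero => exact h0 _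
    | succ i ih =>
      have a1 := ih (by omega)
      have a2 := h3 i (by omega)
      omega
  have := h4 (n + 1) le_rfl
  omega

/-- Connectedness of a fibre, uniformly in the point.  Let `n` be the number of generators of `T` over
`Z`, so that `dim T / m T ≤ n`.  Put `b i = Θ^[i] b` (decreasing) and let `D i` be the eventual value of the
decreasing sequence of subspaces `image of (b i) ^ N` in `T / m T`.  `D 0 ≥ D 1 ≥ .. ≥ D (n + 1)`, so
`D i = D (i + 1)` for some `i ≤ n`, which gives `(b i) ^ N ≤ Θ (b i) ⊔ fib m`.  Apply `Tr.stable_nil` to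
`b i`, and use `Θ^[n] b ≤ b i`. -/
theorem Tr.fibre_nil (τ : Tr k H) (Λ : Link2 k H) : ∃ n : ℕ,
    ∀ (x : τ.Z →ₐ[k] k) (b : Ideal H), b.IsTwoSided →
      (1 : τ.c.T) ∉ Submodule.span τ.Z {t | ∃ h ∈ b, ∃ t', t = τ.c.φ h * t'} ⊔
        RingHom.ker x • (⊤ : Submodule τ.Z τ.c.T) →
      ∀ h ∈ Λ.Θ^[n] b, ∃ s : ℕ, τ.c.φ h ^ s ∈ RingHom.ker x • (⊤ : Submodule τ.Z τ.c.T) := by
  obtain ⟨n, s, hs⟩ := Module.Finite.exists_fin (R := τ.Z) (M := τ.c.T)
  refine ⟨n, fun x b hb2 hb h hh => ?_⟩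
  let S : Submodule k τ.c.T := (RingHom.ker x • (⊤ : Submodule τ.Z τ.c.T)).restrictScalars k
  have hsp : Submodule.span k (Set.range fun i => S.mkQ (s i)) = ⊤ := by
    rw [eq_top_iff]
    rintro e -
    obtain ⟨t, rfl⟩ := S.mkQ_surjective e
    have ht : t ∈ Submodule.span τ.Z (Set.range s) := hs ▸ Submodule.mem_top
    induction ht using Submodule.span_induction with
    | mem t ht =>
      obtain ⟨i, rfl⟩ := ht
      exact Submodule.subset_span ⟨i, rfl⟩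
    | zero =>
      rw [map_zero]
      exact Submodule.zero_mem _
    | add t t' _ _ ht ht' =>
      rw [map_add]
      exact Submodule.add_mem _ ht ht'
    | smul z t _ ht =>
      have e : S.mkQ (z • t) = x z • S.mkQ t := by
        rw [← map_smul]
        exact (Submodule.Quotient.eq S).2 (pf2_scal τ.c x z t)
      rw [e]
      exact Submodule.smul_mem _ _ ht
  have hfd : FiniteDimensional k (τ.c.T ⧸ S) :=
    ⟨hsp ▸ Submodule.fg_span (Set.finite_range _)⟩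
  have hrk : Module.finrank k (τ.c.T ⧸ S) ≤ n := by
    simpa using finrank_le_of_span_eq_top hsp
  let F : Ideal H → Submodule k (τ.c.T ⧸ S) := fun J =>
    (J.restrictScalars k).map (S.mkQ ∘ₗ τ.c.φ.toLinearMap)
  have hF : ∀ J J' : Ideal H, J ≤ J' → F J ≤ F J' := fun J J' hJ =>
    Submodule.map_mono fun u hu => hJ hu
  have htwo : ∀ i, (Λ.Θ^[i] b).IsTwoSided := fun i => Λ.two_iter i b hb2
  have hdec : ∀ i, Λ.Θ^[i + 1] b ≤ Λ.Θ^[i] b := fun i => by
    rw [Function.iterate_succ_apply']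
    exact Λ.le _
  have hanti : Antitone fun i => Λ.Θ^[i] b := antitone_nat_of_succ_le hdec
  obtain ⟨i, hi, N, hN, he⟩ := pf2_stab (fun i N => Module.finrank k (F (Λ.Θ^[i] b ^ N))) n
    (fun N => (Submodule.finrank_le _).trans hrk)
    (fun i N N' hN => Submodule.finrank_mono (hF _ _ (by
      have := htwo i
      exact Ideal.pow_le_pow_right hN)))
    (fun i N => Submodule.finrank_mono (hF _ _ (Ideal.pow_right_mono (hdec i) N)))
  have h1 : F (Λ.Θ^[i + 1] b ^ N) = F (Λ.Θ^[i] b ^ N) :=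
    Submodule.eq_of_le_of_finrank_eq (hF _ _ (Ideal.pow_right_mono (hdec i) N)) he
  have := htwo i
  have := htwo (i + 1)
  have h2 : Λ.Θ^[i] b ^ N ≤ Λ.Θ (Λ.Θ^[i] b) ⊔ τ.c.fib (RingHom.ker x) := by
    intro u hu
    have h3 : (S.mkQ ∘ₗ τ.c.φ.toLinearMap) u ∈ F (Λ.Θ^[i + 1] b ^ N) := h1 ▸ ⟨u, hu, rfl⟩
    obtain ⟨w, hw, e⟩ := h3
    have h4 : w ∈ Λ.Θ (Λ.Θ^[i] b) := by
      rw [← Function.iterate_succ_apply' Λ.Θ]
      exact Ideal.pow_le_self (by omega) hw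
    refine Submodule.mem_sup.2 ⟨w, h4, u - w, ?_, by abel⟩
    rw [Cov.mem_fib, map_sub]
    exact (Submodule.Quotient.eq S).1 e.symm
  obtain ⟨M, hM⟩ := τ.stable_nil Λ x (Λ.Θ^[i] b) (fun h1 => hb (by
    refine SetLike.le_def.1 (sup_le_sup_right (Submodule.span_mono ?_) _) h1
    rintro _ ⟨u, hu, t', rfl⟩
    exact ⟨u, hanti (Nat.zero_le i) hu, t', rfl⟩)) h2
  refine ⟨M, ?_⟩
  rw [← map_pow]
  exact hM (Ideal.pow_mem_pow (hanti hi hh) M)

/-- Roots.  If `q (μ) ≠ 0` while `φ (q h)` is nilpotent modulo `m T`, then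
`q μ - q (φ h) = (μ - φ h) * r` has a right inverse modulo `m T` (geometric sum), against `τ.root`. -/
theorem Tr.isRoot_of_nil (τ : Tr k H) (x : τ.Z →ₐ[k] k) (h : H) (q : k[X]) {s : ℕ}
    (hq : τ.c.φ (aeval h q) ^ s ∈ RingHom.ker x • (⊤ : Submodule τ.Z τ.c.T)) {μ : k}
    (hμ : ((τ.χ h).map (x : τ.Z →+* k)).IsRoot μ) : q.IsRoot μ := by
  by_contra hc
  have hc' : q.eval μ ≠ 0 := hc
  obtain ⟨r, hr⟩ := X_sub_C_dvd_sub_C_eval (p := q) (a := μ)
  have h1 : algebraMap k τ.c.T (q.eval μ) - τ.c.φ (aeval h q) =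
      (algebraMap k τ.c.T μ - τ.c.φ h) * aeval (τ.c.φ h) r := by
    have h2 := congrArg (aeval (τ.c.φ h)) hr
    rw [map_sub, map_mul, map_sub, aeval_C, aeval_C, aeval_X, aeval_algHom_apply] at h2
    rw [← neg_sub, h2, ← neg_mul, neg_sub]
  have h3 := Commute.mul_geom_sum₂
    (Algebra.commutes (q.eval μ) (τ.c.φ (aeval h q)) : Commute _ _) s
  refine τ.root h x μ hμ ((q.eval μ ^ s)⁻¹ • (aeval (τ.c.φ h) r * ∑ i ∈ Finset.range s,
    algebraMap k τ.c.T (q.eval μ) ^ i * τ.c.φ (aeval h q) ^ (s - 1 - i))) ?_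
  rw [mul_smul_comm, ← mul_assoc, ← h1, h3, smul_sub, ← map_pow, Algebra.algebraMap_eq_smul_one,
    smul_smul, inv_mul_cancel₀ (pow_ne_zero s hc'), one_smul, sub_sub_cancel_left]
  exact Submodule.neg_mem _ (pf2_ksmul τ.c _ _ hq)

end

end Pool.Agent.Lib.MP_ff61db_al
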