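import Pool.Agent.Lib.MP_ff61db_al.PBase

set_option autoImplicit false

namespace Pool.Agent.Lib.MP_ff61db_al

open Polynomial TensorProduct

/-- if all proper quotients of `M / X` are noetherian, so is `M / X` -/
theorem pfj_of_gt {S M : Type} [Ring S] [AddCommGroup M] [Module S M] (X : Submodule S M)
    (h : ∀ Y, X < Y → IsNoetherian S (M ⧸ Y)) : IsNoetherian S (M ⧸ X) := by
  refine ⟨fun L => ?_⟩
  by_cases hL : L = ⊥
  · rw [hL]
    exact Submodule.fg_bot
  obtain ⟨x, hx, hx0⟩ := (Submodule.ne_bot_iff L).1 hL
  let Y : Submodule S M := (Submodule.span S {x}).comap X.mkQ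
  have hXY : X ≤ Y := Submodule.le_comap_mkQ _ _
  have hlt : X < Y := by
    refine lt_of_le_of_ne hXY fun e => hx0 ?_
    obtain ⟨m, rfl⟩ := X.mkQ_surjective x
    have : m ∈ Y := Submodule.subset_span rfl
    rw [← e] at this
    exact (Submodule.Quotient.mk_eq_zero X).2 this
  have := h Y hlt
  refine Submodule.fg_of_fg_map_of_fg_inf_ker (Submodule.factor hXY)
    (IsNoetherian.noetherian _) ?_
  have hk : LinearMap.ker (Submodule.factor hXY) = Submodule.span S {x} := by
    ext u
    obtain ⟨m, rfl⟩ := X.mkQ_surjective u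
    rw [LinearMap.mem_ker, Submodule.factor_mk, Submodule.mkQ_apply,
      Submodule.Quotient.mk_eq_zero]
    rfl
  rw [hk, inf_eq_right.2 ((Submodule.span_singleton_le_iff_mem _ _).2 hx)]
  exact Submodule.fg_span_singleton x

theorem pfj_main {S S' M ι : Type} [Ring S] [Ring S'] (f : S →+* S') (zs : Finset ι) (z : ι → S')
    (hz : ∀ i ∈ zs, ∀ s : S, z i * f s = f s * z i)
    (hspan : ∀ t : S', ∃ c : ι → S, t = ∑ i ∈ zs, f (c i) * z i)
    [AddCommGroup M] [Module S' M] [Module S M] (hcomp : ∀ (s : S) (m : M), s • m = f s • m)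
    [IsNoetherian S' M] : IsNoetherian S M := by
  classical
  let res : Submodule S' M → Submodule S M := fun N =>
    { carrier := N
      add_mem' := N.add_mem
      zero_mem' := N.zero_mem
      smul_mem' := fun s m hm => by
        rw [hcomp]
        exact N.smul_mem _ hm }
  have hall : ∀ (X : Submodule S M) (m : M), (∀ i ∈ zs, z i • m ∈ X) → ∀ t : S', t • m ∈ X := by
    intro X m hm t
    obtain ⟨c, hc⟩ := hspan t
    rw [hc, Finset.sum_smul]
    refine X.sum_mem fun i hi => ?_
    rw [mul_smul, ← hcomp]
    exact X.smul_mem _ (hm i hi)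
  let core : Submodule S M → Submodule S' M := fun X =>
    { carrier := {m | ∀ i ∈ zs, z i • m ∈ X}
      add_mem' := fun ha hb i hi => by
        rw [smul_add]
        exact X.add_mem (ha i hi) (hb i hi)
      zero_mem' := fun i _ => by
        rw [smul_zero]
        exact X.zero_mem
      smul_mem' := fun t m hm i _ => by
        rw [← mul_smul]
        exact hall X m hm _ }
  have hcore : ∀ (X : Submodule S M) (m : M), m ∈ core X → m ∈ X := fun X m hm => by
    simpa using hall X m hm 1
  have key : ∀ N : Submodule S' M, IsNoetherian S (M ⧸ res N) := by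
    intro N
    induction N using WellFoundedGT.induction with
    | ind N ih =>
      obtain ⟨X, hNX, hX⟩ := zorn_le_nonempty₀ {X : Submodule S M | core X ≤ N}
        (fun c hc hch y hy => by
          refine ⟨sSup c, fun m hm => ?_, fun x hx => le_sSup hx⟩
          have h1 : ∀ s : Finset ι, s ⊆ zs → ∃ X ∈ c, ∀ i ∈ s, z i • m ∈ X := by
            intro s
            induction s using Finset.induction_on with
            | empty => exact fun _ => ⟨y, hy, by simp⟩
            | insert a s _ ihs =>
              intro hs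
              obtain ⟨X, hXc, hX⟩ := ihs fun i hi => hs (Finset.mem_insert_of_mem hi)
              obtain ⟨X', hX'c, hX'⟩ := (Submodule.mem_sSup_of_directed ⟨y, hy⟩
                hch.directedOn).1 (hm a (hs (Finset.mem_insert_self _ _)))
              obtain ⟨W, hW, h1, h2⟩ := hch.directedOn X hXc X' hX'c
              refine ⟨W, hW, fun i hi => ?_⟩
              rcases Finset.mem_insert.1 hi with rfl | hi
              · exact h2 hX'
              · exact h1 (hX i hi)
          obtain ⟨X, hXc, hX⟩ := h1 zs (Finset.Subset.refl _)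
          exact hc hXc hX)
        (res N) (fun m hm => hcore _ m hm)
      have hq : IsNoetherian S (M ⧸ X) := by
        refine pfj_of_gt X fun Y hY => ?_
        have h1 : ¬ core Y ≤ N := fun h => hY.not_ge (hX.2 h hY.le)
        have h2 : N ≤ core Y := fun m hm i _ => hY.le (hNX (N.smul_mem _ hm))
        have := ih (core Y) (lt_of_le_not_ge h2 h1)
        have h3 : res (core Y) ≤ Y := fun m hm => hcore Y m hm
        exact isNoetherian_of_surjective (Submodule.factor h3)
          (LinearMap.range_eq_top.2 (Submodule.factor_surjective h3))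
      let mz : zs → (M →ₗ[S] M) := fun i =>
        { toFun := fun m => z i • m
          map_add' := fun a b => smul_add _ a b
          map_smul' := fun s m => by
            rw [RingHom.id_apply, hcomp, hcomp, ← mul_smul, ← mul_smul, hz i i.2] }
      let ψ : M →ₗ[S] (zs → M ⧸ X) := LinearMap.pi fun i => X.mkQ ∘ₗ mz i
      have hψ : ∀ m, ψ m = 0 ↔ m ∈ core X := fun m => by
        rw [funext_iff]
        exact ⟨fun h i hi => (Submodule.Quotient.mk_eq_zero X).1 (h ⟨i, hi⟩),
          fun h i => (Submodule.Quotient.mk_eq_zero X).2 (h i i.2)⟩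
      have h1 : res N ≤ LinearMap.ker ψ := fun m hm =>
        (hψ m).2 fun i _ => hNX (N.smul_mem _ hm)
      have h2 : LinearMap.ker ψ ≤ res N := fun m hm => hX.1 ((hψ m).1 hm)
      exact isNoetherian_of_ker_bot ((res N).liftQ ψ h1) (Submodule.ker_liftQ_eq_bot _ _ _ h2)
  have := key ⊥
  exact isNoetherian_of_ker_bot (res ⊥).mkQ (by
    rw [Submodule.ker_mkQ]
    rfl)

/-- Eakin-Nagata-Formanek-Jategaonkar.  Noetherian induction on `S'`-submodules `M₀`: assume
`M / M₁` is `S`-noetherian for all `M₁ > M₀`.  By Zorn take an `S`-submodule `X ≥ M₀` maximal among those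
that contain no `S'`-submodule strictly bigger than `M₀` (the `S'`-submodule generated by one element is
finitely generated over `S`).  Then `M / X` is `S`-noetherian, and `m ↦ (z • m + X) (z ∈ zs)` is an
`S`-linear map `M → (M / X) ^ zs` with kernel `M₀`. -/
theorem fj {S S' M : Type} [Ring S] [Ring S'] (f : S →+* S') (zs : Finset S')
    (hz : ∀ z ∈ zs, ∀ s : S, z * f s = f s * z)
    (hspan : ∀ t : S', ∃ c : S' → S, t = ∑ z ∈ zs, f (c z) * z)
    [AddCommGroup M] [Module S' M] [Module S M] (hcomp : ∀ (s : S) (m : M), s • m = f s • m)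
    [IsNoetherian S' M] : IsNoetherian S M := by
  exact pfj_main f zs id hz hspan hcomp

/-- the form used later -/
theorem Cov.CFin.isNoetherian {k H Z : Type} [Field k] [Ring H] [Algebra k H] [CommRing Z]
    [Algebra k Z] [Algebra.FiniteType k Z] {c : Cov k H Z} (hc : c.CFin)
    (M : Type) [AddCommGroup M] [Module c.T M] [Module H M]
    (hcomp : ∀ (h : H) (m : M), h • m = c.φ h • m) [Module.Finite c.T M] : IsNoetherian H M := by
  obtain ⟨s, hs⟩ := hc
  have h1 : IsNoetherianRing Z := Algebra.FiniteType.isNoetherianRing k Z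
  have h2 : IsNoetherianRing c.T := isNoetherian_of_tower Z (inferInstance : IsNoetherian Z c.T)
  refine pfj_main (c.φ : H →+* c.T) s (algebraMap Z c.T) (fun z _ h => Algebra.commutes z _)
    (fun t => ?_) hcomp
  obtain ⟨g, hg⟩ := hs t
  refine ⟨g, hg.trans (Finset.sum_congr rfl fun z _ => ?_)⟩
  rw [Algebra.smul_def, Algebra.commutes]
  rfl

end Pool.Agent.Lib.MP_ff61db_al
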