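import Pool.Agent.Lib.MP_ff61db_al.PBase

set_option autoImplicit false

namespace Pool.Agent.Lib.MP_ff61db_al

open Polynomial TensorProduct

section
variable {k B : Type} [Field k] [IsAlgClosed k] [AddCommGroup B] [Module k B]

theorem pgeo_point {C : Type} [CommRing C] [Algebra k C] [Algebra.FiniteType k C]
    (m : Ideal C) (hm : m.IsMaximal) : ∃ y : C →ₐ[k] k, RingHom.ker y = m := by
  letI := Ideal.Quotient.field m
  have : Module.Finite k (C ⧸ m) := finite_of_finite_type_of_isJacobsonRing k (C ⧸ m)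
  have hb : Function.Bijective (algebraMap k (C ⧸ m)) :=
    IsAlgClosed.algebraMap_bijective_of_isIntegral
  let e : k ≃ₐ[k] (C ⧸ m) := AlgEquiv.ofBijective (Algebra.ofId k (C ⧸ m)) hb
  refine ⟨(e.symm : (C ⧸ m) →ₐ[k] k).comp (Ideal.Quotient.mkₐ k m), ?_⟩
  ext c
  simp [RingHom.mem_ker, Ideal.Quotient.eq_zero_iff_mem]

theorem pgeo_rad {C : Type} [CommRing C] [Algebra k C] [Algebra.FiniteType k C]
    (ψ : C →ₐ[k] Module.End k B) (hfg : FGby (Set.range ψ))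
    (u : C) (hu : ∀ y : C →ₐ[k] k, Fib ψ y ≠ ⊤ → y u = 0) : u ∈ (RingHom.ker ψ).radical := by
  have : IsJacobsonRing C := isJacobsonRing_of_finiteType (A := k)
  rw [Ideal.radical_eq_jacobson, Ideal.jacobson, Submodule.mem_sInf]
  rintro m ⟨hm1, hm2⟩
  obtain ⟨y, rfl⟩ := pgeo_point (k := k) m hm2
  refine hu y fun htop => ?_
  letI : Module C B := Module.compHom B (ψ : C →+* Module.End k B)
  have hsm : ∀ (c : C) (b : B), c • b = ψ c b := fun _ _ => rfl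
  have hk : ∀ (N : Submodule C B) (r : k) (b : B), b ∈ N → r • b ∈ N := by
    intro N r b hb
    have := N.smul_mem (algebraMap k C r) hb
    rwa [hsm, AlgHom.commutes, Module.algebraMap_end_apply] at this
  obtain ⟨s, hs⟩ := hfg
  have hfg' : (⊤ : Submodule C B).FG := by
    refine ⟨s, eq_top_iff.2 fun b _ => ?_⟩
    have hb : b ∈ Submodule.span k {b | ∃ o ∈ Set.range ψ, ∃ b₀ ∈ s, b = o b₀} := by
      rw [hs]; trivial
    induction hb using Submodule.span_induction with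
    | mem v hv =>
      obtain ⟨_, ⟨c, rfl⟩, b₀, hb₀, rfl⟩ := hv
      exact Submodule.smul_mem _ c (Submodule.subset_span hb₀)
    | zero => simp
    | add v w _ _ hv hw => exact Submodule.add_mem _ (hv trivial) (hw trivial)
    | smul r v _ hv => exact hk _ r v (hv trivial)
  have hle : (⊤ : Submodule C B) ≤ RingHom.ker y • ⊤ := by
    intro b _
    have hb : b ∈ Fib ψ y := by rw [htop]; trivial
    induction hb using Submodule.span_induction with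
    | mem v hv =>
      obtain ⟨z, b₀, hz, rfl⟩ := hv
      exact Submodule.smul_mem_smul (r := z) hz Submodule.mem_top
    | zero => simp
    | add v w _ _ hv hw => exact Submodule.add_mem _ (hv trivial) (hw trivial)
    | smul r v _ hv => exact hk _ r v (hv trivial)
  obtain ⟨r, hr1, hr2⟩ :=
    Submodule.exists_sub_one_mem_and_smul_eq_zero_of_fg_of_le_smul _ _ hfg' hle
  have hr : r ∈ RingHom.ker ψ := by
    rw [RingHom.mem_ker]
    ext b
    exact hr2 b trivial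
  have h1 : y r = 0 := hm1 hr
  have h2 : y (r - 1) = 0 := hr1
  rw [map_sub, h1, map_one] at h2
  simp at h2

omit [IsAlgClosed k] in
theorem pgeo_fib_le {C Z : Type} [CommRing C] [Algebra k C] [CommRing Z] [Algebra k Z]
    (ψ : C →ₐ[k] Module.End k B) (f : Z →ₐ[k] C) (ψ' : Z →ₐ[k] Module.End k B)
    (h : ∀ z, ψ (f z) = ψ' z) (y : C →ₐ[k] k) : Fib ψ' (y.comp f) ≤ Fib ψ y := by
  refine Submodule.span_mono ?_
  rintro _ ⟨z, b, hz, rfl⟩
  exact ⟨f z, b, hz, by rw [h]⟩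

theorem pgeo_dvd (p q : k[X]) (hp : p.Monic) (h : ∀ μ, p.IsRoot μ → q.IsRoot μ) :
    p ∣ q ^ p.natDegree := by
  have hs := IsAlgClosed.splits p
  have h1 := hs.eq_prod_roots_of_monic hp
  have h2 : (p.roots.map fun a => X - C a).prod ∣ (p.roots.map fun _ => q).prod :=
    Multiset.prod_dvd_prod_of_dvd _ _ fun a ha =>
      dvd_iff_isRoot.2 (h a (isRoot_of_mem_roots ha))
  rw [← h1, Multiset.map_const', Multiset.prod_replicate, ← hs.natDegree_eq_card_roots] at h2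
  exact h2

/-- Nullstellensatz on the support of a module.  `C` acts faithfully on the finitely generated module
`B`.  For every point `y` of `C` one has `Fib ψ y ≠ ⊤` (Nakayama), so `u` vanishes at all points, that is
lies in all maximal ideals (`k` is algebraically closed, Zariski lemma), and `C` is a Jacobson ring. -/
theorem geo0 {C : Type} [CommRing C] [Algebra k C] [Algebra.FiniteType k C]
    (ψ : C →ₐ[k] Module.End k B) (hinj : Function.Injective ψ) (hfg : FGby (Set.range ψ))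
    (u : C) (hu : ∀ y : C →ₐ[k] k, Fib ψ y ≠ ⊤ → y u = 0) : IsNilpotent u := by
  obtain ⟨n, hn⟩ := pgeo_rad ψ hfg u hu
  exact ⟨n, hinj (by rw [map_zero]; exact hn)⟩

variable {Z₁ Z₂ : Type} [CommRing Z₁] [Algebra k Z₁] [Algebra.FiniteType k Z₁]
  [CommRing Z₂] [Algebra k Z₂] [Algebra.FiniteType k Z₂]

/-- Let `C` be the commutative affine subalgebra of `End k B` generated by both images.  For `p = χ i`
of degree `N` let `r = q ^ N %ₘ p` in `C[X]`.  At a point `y` of `C` with `Fib ≠ ⊤` the polynomial `p y`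
divides `(q y) ^ N`, so all coefficients of `r` vanish at `y`; by `geo0` they are nilpotent.  Modulo the
nilradical `p ∣ q ^ N`, so the coefficients of `p` are integral over `Z₂`
(`Polynomial.isIntegral_coeff_of_dvd`), also before reduction.  Hence `C` is integral and of finite
type over `Z₂`, so finite, and `B` is finite over `Z₂`. -/
theorem geo1 (ψ₁ : Z₁ →ₐ[k] Module.End k B) (ψ₂ : Z₂ →ₐ[k] Module.End k B)
    (hcomm : ∀ z₁ z₂, Commute (ψ₁ z₁) (ψ₂ z₂)) (hfg : FGby (Set.range ψ₁))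
    {ι : Type} (χ : ι → Z₁[X]) (hmonic : ∀ i, (χ i).Monic)
    (hint : ∀ z : Z₁, IsIntegral (Algebra.adjoin k {u : Z₁ | ∃ i j, u = (χ i).coeff j}) z)
    (hroot : ∀ i, ∃ q : Z₂[X], q.Monic ∧ ∀ (y₁ : Z₁ →ₐ[k] k) (y₂ : Z₂ →ₐ[k] k),
      Fib ψ₁ y₁ ⊔ Fib ψ₂ y₂ ≠ ⊤ → ∀ μ : k, ((χ i).map (y₁ : Z₁ →+* k)).IsRoot μ →
        (q.map (y₂ : Z₂ →+* k)).IsRoot μ) :
    FGby (Set.range ψ₂) := by
  classical
  let ψ : Z₂ ⊗[k] Z₁ →ₐ[k] Module.End k B :=
    Algebra.TensorProduct.lift ψ₂ ψ₁ fun a b => (hcomm b a).symm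
  have : Algebra.FiniteType k (Z₂ ⊗[k] Z₁) := Algebra.FiniteType.trans (S := Z₂) inferInstance
    inferInstance
  let f₁ : Z₁ →ₐ[k] Z₂ ⊗[k] Z₁ := Algebra.TensorProduct.includeRight
  let f₂ : Z₂ →ₐ[k] Z₂ ⊗[k] Z₁ := Algebra.TensorProduct.includeLeft
  have hf₁ : ∀ z, ψ (f₁ z) = ψ₁ z := fun z => by simp [ψ, f₁]
  have hf₂ : ∀ z, ψ (f₂ z) = ψ₂ z := fun z => by simp [ψ, f₂]
  have hf₂' : ∀ z, algebraMap Z₂ (Z₂ ⊗[k] Z₁) z = f₂ z := fun z => rfl
  obtain ⟨s, hs⟩ := hfg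
  have hfgψ : FGby (Set.range ψ) := by
    refine ⟨s, eq_top_iff.2 (hs ▸ Submodule.span_mono ?_)⟩
    rintro _ ⟨_, ⟨z, rfl⟩, b, hb, rfl⟩
    exact ⟨_, ⟨f₁ z, rfl⟩, b, hb, by rw [hf₁]⟩
  set I := (RingHom.ker ψ).radical with hI
  let g : Z₁ →ₐ[k] (Z₂ ⊗[k] Z₁) ⧸ I := (Ideal.Quotient.mkₐ k I).comp f₁
  have hco : ∀ i j, IsIntegral Z₂ (g ((χ i).coeff j)) := by
    intro i j
    obtain ⟨q, hq, hq'⟩ := hroot i
    have hp : ((χ i).map (f₁ : Z₁ →+* Z₂ ⊗[k] Z₁)).Monic := (hmonic i).map _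
    set p := (χ i).map (f₁ : Z₁ →+* Z₂ ⊗[k] Z₁) with hpdef
    set Q := (q ^ (χ i).natDegree).map (algebraMap Z₂ (Z₂ ⊗[k] Z₁)) with hQ
    have hr : ∀ l, (Q %ₘ p).coeff l ∈ I := by
      intro l
      refine pgeo_rad ψ hfgψ _ fun y hy => ?_
      have h1 : Fib ψ₁ (y.comp f₁) ⊔ Fib ψ₂ (y.comp f₂) ≠ ⊤ := fun h =>
        hy (eq_top_iff.2 (h ▸ sup_le (pgeo_fib_le ψ f₁ ψ₁ hf₁ y) (pgeo_fib_le ψ f₂ ψ₂ hf₂ y)))
      have h2 := pgeo_dvd _ _ ((hmonic i).map _) (hq' _ _ h1)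
      rw [(hmonic i).natDegree_map] at h2
      have h3 : (Q %ₘ p).map (y : Z₂ ⊗[k] Z₁ →+* k) = 0 := by
        rw [map_modByMonic _ hp, modByMonic_eq_zero_iff_dvd (hp.map _), hpdef, hQ,
          Polynomial.map_map, Polynomial.map_map, Polynomial.map_pow]
        exact h2
      have h4 := congrArg (fun r => r.coeff l) h3
      simpa using h4
    have hdvd : p.map (Ideal.Quotient.mk I) ∣
        (q ^ (χ i).natDegree).map (algebraMap Z₂ ((Z₂ ⊗[k] Z₁) ⧸ I)) := by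
      have h1 : (q ^ (χ i).natDegree).map (algebraMap Z₂ ((Z₂ ⊗[k] Z₁) ⧸ I)) =
          Q.map (Ideal.Quotient.mk I) := by
        rw [hQ, Polynomial.map_map]; rfl
      rw [h1, ← modByMonic_eq_zero_iff_dvd (hp.map _), ← map_modByMonic _ hp]
      ext l
      rw [coeff_map, coeff_zero, Ideal.Quotient.eq_zero_iff_mem]
      exact hr l
    have := isIntegral_coeff_of_dvd _ _ (hq.pow _) (hp.map _) hdvd j
    simpa [hpdef, g] using this
  have hg : ∀ z, IsIntegral Z₂ (g z) := by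
    intro z
    set A := Algebra.adjoin k {u : Z₁ | ∃ i j, u = (χ i).coeff j} with hA
    have hle : A ≤ ((integralClosure Z₂ ((Z₂ ⊗[k] Z₁) ⧸ I)).restrictScalars k).comap g := by
      refine Algebra.adjoin_le ?_
      rintro _ ⟨i, j, rfl⟩
      exact hco i j
    let g' : A →+* integralClosure Z₂ ((Z₂ ⊗[k] Z₁) ⧸ I) :=
      ((g : Z₁ →+* (Z₂ ⊗[k] Z₁) ⧸ I).comp (A.val : A →+* Z₁)).codRestrict
        (integralClosure Z₂ ((Z₂ ⊗[k] Z₁) ⧸ I)) fun a => hle a.2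
    have h1 : IsIntegral (integralClosure Z₂ ((Z₂ ⊗[k] Z₁) ⧸ I)) (g z) :=
      IsIntegral.map_of_comp_eq g' (g : Z₁ →+* (Z₂ ⊗[k] Z₁) ⧸ I) (by ext; rfl) (hint z)
    exact isIntegral_trans _ h1
  have hall : Algebra.IsIntegral Z₂ ((Z₂ ⊗[k] Z₁) ⧸ RingHom.ker ψ) := by
    have h1 : ∀ c : Z₂ ⊗[k] Z₁, IsIntegral Z₂ (Ideal.Quotient.mk I c) := by
      intro c
      induction c using TensorProduct.induction_on with
      | zero => simpa using isIntegral_zero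
      | add a b ha hb => rw [map_add]; exact ha.add hb
      | tmul a b =>
        have : Ideal.Quotient.mk I (a ⊗ₜ[k] b) = algebraMap Z₂ _ a * g b := by
          change _ = Ideal.Quotient.mk I (f₂ a) * Ideal.Quotient.mk I (f₁ b)
          rw [← map_mul]
          simp [f₁, f₂]
        rw [this]
        exact (isIntegral_algebraMap).mul (hg b)
    refine ⟨fun d => ?_⟩
    obtain ⟨c, rfl⟩ := Ideal.Quotient.mk_surjective d
    obtain ⟨r, hr, hr'⟩ := h1 c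
    have h2 : aeval c r ∈ I := by
      rw [← Ideal.Quotient.eq_zero_iff_mem, ← Ideal.Quotient.mkₐ_eq_mk Z₂, ← aeval_algHom_apply]
      exact hr'
    obtain ⟨n, hn⟩ := h2
    refine ⟨r ^ n, hr.pow n, ?_⟩
    rw [← aeval_def, ← Ideal.Quotient.mkₐ_eq_mk Z₂, aeval_algHom_apply, map_pow,
      Ideal.Quotient.mkₐ_eq_mk, Ideal.Quotient.eq_zero_iff_mem]
    exact hn
  have hfin : Module.Finite Z₂ ((Z₂ ⊗[k] Z₁) ⧸ RingHom.ker ψ) := Algebra.IsIntegral.finite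
  obtain ⟨t, ht⟩ := hfin.fg_top
  choose l hl using Ideal.Quotient.mk_surjective (I := RingHom.ker ψ)
  refine ⟨(t ×ˢ s).image fun e => ψ (l e.1) e.2, eq_top_iff.2 (hs ▸ Submodule.span_le.2 ?_)⟩
  rintro _ ⟨_, ⟨z, rfl⟩, b, hb, rfl⟩
  set S := Submodule.span k {b | ∃ o ∈ Set.range ψ₂,
    ∃ b₀ ∈ (t ×ˢ s).image fun e => ψ (l e.1) e.2, b = o b₀} with hS
  have hS₂ : ∀ a, ∀ v ∈ S, ψ₂ a v ∈ S := by
    intro a v hv
    induction hv using Submodule.span_induction with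
    | mem v hv =>
      obtain ⟨_, ⟨a', rfl⟩, b₀, hb₀, rfl⟩ := hv
      exact Submodule.subset_span ⟨_, ⟨a * a', rfl⟩, b₀, hb₀, by simp⟩
    | zero => simp
    | add v w _ _ hv hw => rw [map_add]; exact S.add_mem hv hw
    | smul r v _ hv => rw [map_smul]; exact S.smul_mem r hv
  have key : ∀ d ∈ Submodule.span Z₂ (t : Set ((Z₂ ⊗[k] Z₁) ⧸ RingHom.ker ψ)),
      ∀ c, Ideal.Quotient.mk _ c = d → ψ c b ∈ S := by
    have hwd : ∀ c c', Ideal.Quotient.mk (RingHom.ker ψ) c = Ideal.Quotient.mk _ c' →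
        ψ c = ψ c' := by
      intro c c' h
      rw [Ideal.Quotient.eq, RingHom.mem_ker, map_sub, sub_eq_zero] at h
      exact h
    intro d hd
    induction hd using Submodule.span_induction with
    | mem d hd =>
      intro c hc
      rw [hwd c (l d) (by rw [hc, hl])]
      exact Submodule.subset_span ⟨_, ⟨1, rfl⟩, _,
        Finset.mem_image.2 ⟨(d, b), Finset.mem_product.2 ⟨hd, hb⟩, rfl⟩, by simp⟩
    | zero =>
      intro c hc
      rw [hwd c 0 (by rw [hc, map_zero])]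
      simp
    | add d d' _ _ h1 h2 =>
      intro c hc
      rw [hwd c (l d + l d') (by rw [hc, map_add, hl, hl]), map_add, LinearMap.add_apply]
      exact S.add_mem (h1 _ (hl d)) (h2 _ (hl d'))
    | smul a d _ h1 =>
      intro c hc
      rw [hwd c (f₂ a * l d) (by rw [hc, map_mul, hl, Algebra.smul_def]; rfl), map_mul, hf₂,
        Module.End.mul_apply]
      exact hS₂ a _ (h1 _ (hl d))
  have := key (Ideal.Quotient.mk _ (f₁ z)) (by rw [ht]; trivial) (f₁ z) rfl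
  rwa [hf₁] at this

/-- Apply `geo0` to the commutative subalgebra `C` of `End k B` generated by both images and `u`.  At
a point `y` of `C` with `y u ≠ 0` one has `Fib = ⊤`, since `(y u) ^ s b ≡ u ^ s b ≡ 0`. -/
theorem geo2 (ψ₁ : Z₁ →ₐ[k] Module.End k B) (ψ₂ : Z₂ →ₐ[k] Module.End k B)
    (hcomm : ∀ z₁ z₂, Commute (ψ₁ z₁) (ψ₂ z₂))
    (hfg : FGby {o | ∃ z₁ z₂, o = ψ₁ z₁ * ψ₂ z₂}) (u : Module.End k B)
    (h₁ : ∀ z, Commute u (ψ₁ z)) (h₂ : ∀ z, Commute u (ψ₂ z))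
    (hu : ∀ (y₁ : Z₁ →ₐ[k] k) (y₂ : Z₂ →ₐ[k] k), ∃ s : ℕ, ∀ b : B,
      (u ^ s) b ∈ Fib ψ₁ y₁ ⊔ Fib ψ₂ y₂) : IsNilpotent u := by
  let ψ₀ : Z₁ ⊗[k] Z₂ →ₐ[k] Module.End k B := Algebra.TensorProduct.lift ψ₁ ψ₂ hcomm
  have hc : ∀ (c : Z₁ ⊗[k] Z₂) (p : k[X]), Commute (ψ₀ c) (aeval u p) := by
    intro c p
    have h0 : Commute (ψ₀ c) u := by
      induction c using TensorProduct.induction_on with
      | zero => simp
      | add a b ha hb => rw [map_add]; exact ha.add_left hb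
      | tmul a b =>
        simp only [ψ₀, Algebra.TensorProduct.lift_tmul]
        exact (h₁ a).symm.mul_left (h₂ b).symm
    induction p using Polynomial.induction_on' with
    | add p q hp hq => rw [map_add]; exact hp.add_right hq
    | monomial n a =>
      rw [aeval_monomial]
      exact (Algebra.commute_algebraMap_right _ _).mul_right (h0.pow_right n)
  let ψ : (Z₁ ⊗[k] Z₂) ⊗[k] k[X] →ₐ[k] Module.End k B :=
    Algebra.TensorProduct.lift ψ₀ (aeval u) hc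
  have : Algebra.FiniteType k (Z₁ ⊗[k] Z₂) := Algebra.FiniteType.trans (S := Z₁) inferInstance
    inferInstance
  have : Algebra.FiniteType k ((Z₁ ⊗[k] Z₂) ⊗[k] k[X]) :=
    Algebra.FiniteType.trans (S := Z₁ ⊗[k] Z₂) inferInstance inferInstance
  let f : Z₁ ⊗[k] Z₂ →ₐ[k] (Z₁ ⊗[k] Z₂) ⊗[k] k[X] := Algebra.TensorProduct.includeLeft
  let f₁ := f.comp (Algebra.TensorProduct.includeLeft : Z₁ →ₐ[k] Z₁ ⊗[k] Z₂)
  let f₂ := f.comp (Algebra.TensorProduct.includeRight : Z₂ →ₐ[k] Z₁ ⊗[k] Z₂)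
  have hf₁ : ∀ z, ψ (f₁ z) = ψ₁ z := fun z => by simp [ψ, ψ₀, f₁, f]
  have hf₂ : ∀ z, ψ (f₂ z) = ψ₂ z := fun z => by simp [ψ, ψ₀, f₂, f]
  let U : (Z₁ ⊗[k] Z₂) ⊗[k] k[X] := 1 ⊗ₜ X
  have hU : ψ U = u := by simp [ψ, U]
  obtain ⟨s, hs⟩ := hfg
  have hfgψ : FGby (Set.range ψ) := by
    refine ⟨s, eq_top_iff.2 (hs ▸ Submodule.span_mono ?_)⟩
    rintro _ ⟨_, ⟨z₁, z₂, rfl⟩, b, hb, rfl⟩
    exact ⟨_, ⟨f₁ z₁ * f₂ z₂, rfl⟩, b, hb, by rw [map_mul, hf₁, hf₂]⟩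
  have key := pgeo_rad ψ hfgψ U fun y hy => by
    by_contra hne
    refine hy (eq_top_iff.2 fun b _ => ?_)
    obtain ⟨n, hn⟩ := hu (y.comp f₁) (y.comp f₂)
    have h1 : (u ^ n) b ∈ Fib ψ y :=
      sup_le (pgeo_fib_le ψ f₁ ψ₁ hf₁ y) (pgeo_fib_le ψ f₂ ψ₂ hf₂ y) (hn b)
    have h2 : ψ (U ^ n - algebraMap k _ (y U ^ n)) b ∈ Fib ψ y :=
      Submodule.subset_span ⟨_, b, by
        rw [map_sub, map_pow, AlgHom.commutes, Algebra.algebraMap_self_apply, sub_self], rfl⟩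
    rw [map_sub, map_pow, hU, AlgHom.commutes, LinearMap.sub_apply,
      Module.algebraMap_end_apply] at h2
    have h3 := (Fib ψ y).sub_mem h1 h2
    rw [sub_sub_cancel] at h3
    exact ((Fib ψ y).smul_mem_iff (pow_ne_zero n hne)).1 h3
  obtain ⟨n, hn⟩ := key
  refine ⟨n, ?_⟩
  rw [RingHom.mem_ker, map_pow, hU] at hn
  exact hn

omit [IsAlgClosed k] [Algebra.FiniteType k Z₁] [Algebra.FiniteType k Z₂] in
/-- the fibres are finite-dimensional: modulo the fibre, `ψ₁ z₁ (ψ₂ z₂ b) ≡ y₁ z₁ • y₂ z₂ • b` -/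
theorem geo_fd (ψ₁ : Z₁ →ₐ[k] Module.End k B) (ψ₂ : Z₂ →ₐ[k] Module.End k B)
    (hfg : FGby {o | ∃ z₁ z₂, o = ψ₁ z₁ * ψ₂ z₂}) (y₁ : Z₁ →ₐ[k] k) (y₂ : Z₂ →ₐ[k] k) :
    FiniteDimensional k (B ⧸ (Fib ψ₁ y₁ ⊔ Fib ψ₂ y₂)) := by
  classical
  obtain ⟨s, hs⟩ := hfg
  set U := Fib ψ₁ y₁ ⊔ Fib ψ₂ y₂ with hU
  have h1 : ∀ {Z : Type} [CommRing Z] [Algebra k Z] (ψ : Z →ₐ[k] Module.End k B) (y : Z →ₐ[k] k),
      Fib ψ y ≤ U → ∀ z b, U.mkQ (ψ z b) = y z • U.mkQ b := by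
    intro Z _ _ ψ y hle z b
    rw [← map_smul, ← sub_eq_zero, ← map_sub, Submodule.mkQ_apply, Submodule.Quotient.mk_eq_zero]
    refine hle (Submodule.subset_span ⟨z - algebraMap k Z (y z), b, by simp, ?_⟩)
    rw [map_sub, AlgHom.commutes, LinearMap.sub_apply, Module.algebraMap_end_apply]
  refine ⟨⟨s.image U.mkQ, eq_top_iff.2 ?_⟩⟩
  rw [← Submodule.range_mkQ U, ← Submodule.map_top, ← hs, Submodule.map_span, Submodule.span_le]
  rintro _ ⟨_, ⟨_, ⟨z₁, z₂, rfl⟩, b, hb, rfl⟩, rfl⟩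
  rw [Module.End.mul_apply, h1 ψ₁ y₁ le_sup_left, h1 ψ₂ y₂ le_sup_right]
  refine Submodule.smul_mem _ _ (Submodule.smul_mem _ _ (Submodule.subset_span ?_))
  simp only [Finset.coe_image]
  exact ⟨b, hb, rfl⟩

end

end Pool.Agent.Lib.MP_ff61db_al
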