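import Pool.Agent.Lib.MP_ff61db_al.PF2
import Pool.Agent.Lib.MP_ff61db_al.PE0
import Pool.Agent.Lib.MP_ff61db_al.PExt
import Pool.Agent.Lib.MP_ff61db_al.PGeo
import Pool.Agent.Lib.MP_ff61db_al.PFJ

set_option autoImplicit false

namespace Pool.Agent.Lib.MP_ff61db_al

open Polynomial TensorProduct

theorem pf3_restrict {k A W : Type} [Field k] [Ring A] [Algebra k A] [AddCommGroup W] [Module k W]
    (L : A →ₐ[k] Module.End k W) (W' : Submodule k W) (h : ∀ a, ∀ w ∈ W', L a w ∈ W') :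
    ∃ L' : A →ₐ[k] Module.End k W', ∀ a w, (L' a w : W) = L a w := by
  refine ⟨⟨⟨⟨⟨fun a => (L a).restrict (h a), ?_⟩, ?_⟩, ?_, ?_⟩, ?_⟩, fun _ _ => rfl⟩
  · ext w
    simp
  · intro a b
    ext w
    simp
  · ext w
    simp
  · intro a b
    ext w
    simp
  · intro r
    ext w
    simp [Algebra.algebraMap_eq_smul_one]

theorem pf3_fgby {k B Z : Type} [Field k] [AddCommGroup B] [Module k B] (ψ : Z → Module.End k B)
    {n : ℕ} (v : Fin n → B) (h : ∀ b, ∃ c : Fin n → Z, b = ∑ i, ψ (c i) (v i)) :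
    FGby (Set.range ψ) := by
  classical
  refine ⟨Finset.univ.image v, eq_top_iff.2 fun b _ => ?_⟩
  obtain ⟨c, rfl⟩ := h b
  exact Submodule.sum_mem _ fun i _ => Submodule.subset_span
    ⟨_, ⟨c i, rfl⟩, v i, Finset.mem_image_of_mem v (Finset.mem_univ i), rfl⟩

section
variable {k H Z : Type} [Field k] [Ring H] [Algebra k H] [CommRing Z] [Algebra k Z]

theorem pf3_smul (c : Cov k H Z) (z : Z) (t : c.T) : z • t = c.ι z * t := Algebra.smul_def z t

theorem pf3_smul' (c : Cov k H Z) (z : Z) (t : c.T) : z • t = t * c.ι z :=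
  (Algebra.smul_def z t).trans (Algebra.commutes z t)

theorem pf3_fib {B : Type} [AddCommGroup B] [Module k B] (c : Cov k H Z)
    (ψ : c.T →ₐ[k] Module.End k B) (y : Z →ₐ[k] k) {x : c.T}
    (hx : x ∈ RingHom.ker y • (⊤ : Submodule Z c.T)) (w : B) : ψ x w ∈ Fib (ψ.comp c.ι) y := by
  refine Submodule.smul_induction_on hx (fun z hz t _ => ?_) (fun s t hs ht => ?_)
  · refine Submodule.subset_span ⟨z, ψ t w, hz, ?_⟩
    rw [pf3_smul, map_mul]
    rfl
  · rw [map_add]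
    exact Submodule.add_mem _ hs ht

/-- finiteness over `Z` gives a finite generating family of the `H`-span -/
theorem pf3_fin [Algebra.FiniteType k Z] {B I : Type} [AddCommGroup B] [Module k B]
    {c : Cov k H Z} (hc : c.CFin) (ψ : c.T →ₐ[k] Module.End k B)
    (hfg : FGby (Set.range (ψ.comp c.ι))) (G : I → B) :
    ∃ s : Finset I, ∀ i, ∃ f : I → H, ∑ u ∈ s, ψ (c.φ (f u)) (G u) = G i := by
  classical
  let _ : Module c.T B := Module.compHom B (ψ : c.T →+* Module.End k B)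
  let _ : Module H B := Module.compHom B (ψ.comp c.φ : H →+* Module.End k B)
  have hfin : Module.Finite c.T B := by
    obtain ⟨s, hs⟩ := hfg
    refine ⟨s, eq_top_iff.2 fun b _ => ?_⟩
    have hb : b ∈ Submodule.span k {b | ∃ o ∈ Set.range (ψ.comp c.ι), ∃ b₀ ∈ s, b = o b₀} := by
      rw [hs]; trivial
    induction hb using Submodule.span_induction with
    | mem x hx =>
      obtain ⟨_, ⟨z, rfl⟩, b₀, hb₀, rfl⟩ := hx
      exact Submodule.smul_mem _ (c.ι z) (Submodule.subset_span hb₀)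
    | zero => exact zero_mem _
    | add x y _ _ hx hy => exact add_mem (hx trivial) (hy trivial)
    | smul r x _ hx =>
      have e : r • x = algebraMap k c.T r • x := by
        change _ = ψ (algebraMap k c.T r) x
        rw [AlgHom.commutes]
        rfl
      rw [e]
      exact Submodule.smul_mem _ _ (hx trivial)
  have hN : IsNoetherian H B := hc.isNoetherian B (fun _ _ => rfl)
  obtain ⟨s', h1, h2⟩ := (Submodule.fg_span_iff_fg_span_finset_subset (Set.range G)).1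
    (IsNoetherian.noetherian (Submodule.span H (Set.range G)))
  rw [← Set.image_univ] at h1
  obtain ⟨s, -, rfl⟩ := Finset.subset_set_image_iff.1 h1
  refine ⟨s, fun i => ?_⟩
  have h3 : G i ∈ Submodule.span H (Set.range G) := Submodule.subset_span ⟨i, rfl⟩
  rw [h2, Finset.coe_image] at h3
  exact (Submodule.mem_span_image_finset_iff_exists_fun' H).1 h3

end

/-- the condition on roots -/
theorem pf3_root {k H B : Type} [Field k] [Ring H] [Algebra k H] [AddCommGroup B] [Module k B]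
    (τ : Tr k H) (Λ : Link2 k H) (τ₂ : Tr k H) (L : τ.c.T →ₐ[k] Module.End k B)
    (ψ : τ₂.c.T →ₐ[k] Module.End k B) (hL : ∀ h, L (τ.c.φ h) = ψ (τ₂.c.φ h)) (h : H) :
    ∃ q : τ₂.Z[X], q.Monic ∧ ∀ (y₁ : τ.Z →ₐ[k] k) (y₂ : τ₂.Z →ₐ[k] k),
      Fib (L.comp τ.c.ι) y₁ ⊔ Fib (ψ.comp τ₂.c.ι) y₂ ≠ ⊤ →
      ∀ μ : k, ((τ.χ h).map (y₁ : τ.Z →+* k)).IsRoot μ →
        (q.map (y₂ : τ₂.Z →+* k)).IsRoot μ := by
  obtain ⟨n, hn⟩ := τ.fibre_nil Λ
  obtain ⟨c', hc'⟩ := Λ.lat_iter n τ₂.Z τ₂.c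
  obtain ⟨q, hq, hq'⟩ := c'.exists_monic h
  refine ⟨q, hq, fun y₁ y₂ hF μ hμ => ?_⟩
  let S : Submodule τ.Z τ.c.T :=
    { carrier := {t | ∀ w, L t w ∈ Fib (L.comp τ.c.ι) y₁ ⊔ Fib (ψ.comp τ₂.c.ι) y₂}
      add_mem' := fun {s t} hs ht w => by
        rw [map_add]
        exact Submodule.add_mem _ (hs w) (ht w)
      zero_mem' := fun w => by
        rw [map_zero]
        exact Submodule.zero_mem _
      smul_mem' := fun z t ht w => by
        rw [pf3_smul', map_mul]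
        exact ht _ }
  have hS : Submodule.span τ.Z {t | ∃ u ∈ τ₂.c.fib (RingHom.ker y₂), ∃ t', t = τ.c.φ u * t'} ⊔
      RingHom.ker y₁ • (⊤ : Submodule τ.Z τ.c.T) ≤ S := by
    refine sup_le (Submodule.span_le.2 ?_) (fun t ht w => ?_)
    · rintro _ ⟨u, hu, t', rfl⟩ w
      rw [map_mul, hL]
      exact Submodule.mem_sup_right (pf3_fib τ₂.c ψ y₂ hu _)
    · exact Submodule.mem_sup_left (pf3_fib τ.c L y₁ ht w)
  obtain ⟨s, hs⟩ := hn y₁ (τ₂.c.fib (RingHom.ker y₂)) inferInstance (fun h1 => by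
    refine hF (eq_top_iff.2 fun w _ => ?_)
    have h2 := hS h1 w
    rwa [map_one] at h2) _ (hc' _ _ inferInstance le_rfl (hq' y₂))
  exact τ.isRoot_of_nil y₁ h _ hs hμ

/-- `T / P` is a finitely generated left `H`-module.  Let `W = T ⧸ P` (a prime ring), `ρ h` the left
multiplication by the class of `φ h`, `h₂` a lift of `τ₂.a`.  The class `α` of `φ h₂` is central
(`Cov.Span.central` for `τ.c.quot P`) and nonzero, so `ρ h₂` is injective.  `exists_ext` for `τ₂.c` gives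
`W'` and `ψ`; `W'` is stable under multiplication by `τ.Z` (action `ψ₁`, commuting with `ψ`), and under left
multiplication by `T = Z φ(H)`; it is finite over `τ.Z`.  Apply `geo1` to `ψ₁` and `ψ₂ = ψ ∘ τ₂.c.ι`
with `χ = τ.χ`: for `h`, take `n` from `Tr.fibre_nil`, `c'` from `Link2.lat_iter` for `τ₂.c`, and `q` from
`Cov.exists_monic c' h`.  At points `(y₁, y₂)` with proper fibre, `b = τ₂.c.fib (ker y₂)` satisfies the
hypothesis of `Tr.fibre_nil` (if `1 = ∑ φ(h i) t i + ∑ m j t' j`, multiply any `w ∈ W'` on the left by it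
to get `w ∈ Fib ψ₂ y₂ ⊔ Fib ψ₁ y₁`); finish with `Tr.isRoot_of_nil`.  So `W'` is finite over `τ₂.Z`, a
noetherian `H`-module by `Cov.CFin.isNoetherian`, and `w ↦ α w` embeds the `H`-module `W` in `W'`. -/
theorem Tr.quot_fg {k H : Type} [Field k] [IsAlgClosed k] [Ring H] [Algebra k H]
    (τ : Tr k H) (Λ : Link2 k H) (P : Ideal τ.c.T) (hP : PrimeI P) (τ₂ : Tr k H)
    (hker : RingHom.ker τ₂.c.φ = P.comap τ.c.φ) (hfin : τ₂.c.CFin) :
    ∃ s : Finset τ.c.T, ∀ t : τ.c.T, ∃ f : τ.c.T → H, t - ∑ u ∈ s, τ.c.φ (f u) * u ∈ P := by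
  have := hP.1
  have hnoe : IsNoetherianRing τ.Z := Algebra.FiniteType.isNoetherianRing k τ.Z
  let π : τ.c.T →ₐ[k] τ.c.T ⧸ P := Ideal.Quotient.mkₐ k P
  have hπ : ∀ t, π t = 0 ↔ t ∈ P := fun t => Ideal.Quotient.eq_zero_iff_mem
  let L : τ.c.T →ₐ[k] Module.End k (τ.c.T ⧸ P) := (Algebra.lmul k (τ.c.T ⧸ P)).comp π
  have hL : ∀ t w, L t w = π t * w := fun _ _ => rfl
  have hk : ∀ h : H, τ₂.c.φ h = 0 ↔ π (τ.c.φ h) = 0 := fun h => by
    rw [hπ, ← RingHom.mem_ker, hker, Ideal.mem_comap]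
  obtain ⟨h₂, hh₂⟩ := τ₂.ha 1
  rw [← Algebra.algebraMap_eq_smul_one] at hh₂
  have hα0 : π (τ.c.φ h₂) ≠ 0 := fun h0 =>
    τ₂.a0 (τ₂.inj (by rw [← hh₂, (hk h₂).2 h0, map_zero]))
  have hαc : ∀ s, π (τ.c.φ h₂) * s = s * π (τ.c.φ h₂) := by
    refine Cov.Span.central (c := τ.c.quot P) (Cov.quot_span τ.span P) (fun h => ?_)
    have h1 := (hk (h₂ * h - h * h₂)).1 (by
      rw [map_sub, map_mul, map_mul, hh₂, Algebra.commutes, sub_self])
    rw [map_sub, map_mul, map_mul, map_sub, map_mul, map_mul, sub_eq_zero] at h1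
    exact h1
  have hinj : ∀ w, π (τ.c.φ h₂) * w = 0 → w = 0 := fun w hw =>
    hP.primeR.eq_zero_of_central hα0 hαc hw
  obtain ⟨W', ψ, h1, h2, h3⟩ := exists_ext τ₂.c (L.comp τ.c.φ) τ₂.a τ₂.ha h₂ hh₂
    (fun h hh => LinearMap.ext fun w => by
      change π (τ.c.φ h) * w = 0
      rw [(hk h).1 hh, zero_mul])
    ((injective_iff_map_eq_zero _).2 hinj)
  have hc : ∀ (z : τ.Z) (h : H), Commute (L (τ.c.ι z)) ((L.comp τ.c.φ) h) := fun z h =>
    Commute.map (Algebra.commutes z (τ.c.φ h)) L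
  have hstab : ∀ t, ∀ w ∈ W', L t w ∈ W' := by
    intro t
    have ht : t ∈ Submodule.span τ.Z (Set.range τ.c.φ) := by rw [τ.span]; trivial
    induction ht using Submodule.span_induction with
    | mem x hx =>
      obtain ⟨h, rfl⟩ := hx
      intro w hw
      have h4 := h2 h ⟨w, hw⟩
      have h5 := (ψ (τ₂.c.φ h) ⟨w, hw⟩).2
      rw [h4] at h5
      exact h5
    | zero =>
      intro w _
      rw [map_zero]
      exact zero_mem _
    | add x y _ _ hx hy =>
      intro w hw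
      rw [map_add]
      exact add_mem (hx w hw) (hy w hw)
    | smul z x _ hx =>
      intro w hw
      rw [pf3_smul, map_mul]
      exact (h3 _ (hc z)).1 _ (hx w hw)
  obtain ⟨L', hL'⟩ := pf3_restrict L W' hstab
  have hLψ : ∀ h, L' (τ.c.φ h) = ψ (τ₂.c.φ h) := fun h =>
    LinearMap.ext fun w => Subtype.ext ((hL' _ w).trans (h2 h w).symm)
  have hfg₁ : FGby (Set.range (L'.comp τ.c.ι)) := by
    let S : Submodule τ.Z τ.c.T :=
      { carrier := {t | π t ∈ W'}
        add_mem' := fun {s t} hs ht => by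
          change π (s + t) ∈ W'
          rw [map_add]
          exact add_mem hs ht
        zero_mem' := by
          change π 0 ∈ W'
          rw [map_zero]
          exact zero_mem _
        smul_mem' := fun z t ht => by
          change π (z • t) ∈ W'
          rw [pf3_smul, map_mul]
          exact hstab _ _ ht }
    obtain ⟨n, v, hv⟩ := Submodule.fg_iff_exists_fin_generating_family.1
      (IsNoetherian.noetherian S)
    have hvS : ∀ i, π (v i) ∈ W' := fun i => by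
      have h4 : v i ∈ S := hv ▸ Submodule.subset_span ⟨i, rfl⟩
      exact h4
    refine pf3_fgby _ (fun i => (⟨π (v i), hvS i⟩ : W')) (fun w => ?_)
    obtain ⟨t, ht⟩ : ∃ t, π t = w := Ideal.Quotient.mk_surjective w.1
    have h4 : t ∈ S := by
      change π t ∈ W'
      rw [ht]
      exact w.2
    rw [← hv] at h4
    obtain ⟨c, rfl⟩ := (Submodule.mem_span_range_iff_exists_fun τ.Z).1 h4
    refine ⟨c, Subtype.ext ?_⟩
    rw [← ht, map_sum, AddSubmonoidClass.coe_finsetSum]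
    refine Finset.sum_congr rfl (fun i _ => ?_)
    rw [pf3_smul, map_mul]
    exact (hL' _ ⟨π (v i), hvS i⟩).symm
  have hfg₂ : FGby (Set.range (ψ.comp τ₂.c.ι)) := by
    refine geo1 (L'.comp τ.c.ι) (ψ.comp τ₂.c.ι) (fun z₁ z₂ => ?_) hfg₁ τ.χ τ.monic τ.int
      (pf3_root τ Λ τ₂ L' ψ hLψ)
    refine LinearMap.ext fun w => Subtype.ext ?_
    have h4 := (h3 _ (hc z₁)).2 (τ₂.c.ι z₂) w (hstab _ _ w.2)
    have h5 : (⟨L (τ.c.ι z₁) w, hstab _ _ w.2⟩ : W') = L' (τ.c.ι z₁) w :=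
      Subtype.ext (hL' _ w).symm
    rw [h5] at h4
    exact (hL' _ _).trans h4
  obtain ⟨s, hs⟩ := pf3_fin hfin ψ hfg₂ (fun t : τ.c.T => (⟨_, h1 (π t)⟩ : W'))
  refine ⟨s, fun t => ?_⟩
  obtain ⟨f, hf⟩ := hs t
  refine ⟨f, (hπ _).1 (hinj _ ?_)⟩
  have h4 := congrArg Subtype.val hf
  rw [AddSubmonoidClass.coe_finsetSum] at h4
  rw [map_sub, map_sum, mul_sub, Finset.mul_sum, sub_eq_zero]
  refine h4.symm.trans (Finset.sum_congr rfl (fun u _ => ?_))
  rw [h2, map_mul, ← mul_assoc, hαc, mul_assoc]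
  rfl

end Pool.Agent.Lib.MP_ff61db_al
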