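import Pool.Agent.Lib.MP_ff61db_al.PBase

set_option autoImplicit false

namespace Pool.Agent.Lib.MP_ff61db_al

open Polynomial TensorProduct

section
variable {k H : Type} [Field k] [Ring H] [Algebra k H] {g : ℕ}

/-- the span of the words of length at most `n` -/
def pgV (k : Type) [Field k] {H : Type} [Ring H] [Algebra k H] {g : ℕ} (x : Fin g → H) (n : ℕ) :
    Submodule k H :=
  Submodule.span k {u | ∃ w : List (Fin g), w.length ≤ n ∧ u = wd x w}

theorem pgV_fin (x : Fin g → H) (n : ℕ) : FiniteDimensional k (pgV k x n) := by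
  apply FiniteDimensional.span_of_finite
  refine ((List.finite_length_le (Fin g) n).image (wd x)).subset ?_
  rintro _ ⟨w, hw, rfl⟩
  exact ⟨w, hw, rfl⟩

theorem pgV_mono (x : Fin g → H) {m n : ℕ} (h : m ≤ n) : pgV k x m ≤ pgV k x n :=
  Submodule.span_mono fun _ ⟨w, hw, e⟩ => ⟨w, hw.trans h, e⟩

theorem pgV_one (x : Fin g → H) (n : ℕ) : (1 : H) ∈ pgV k x n :=
  Submodule.subset_span ⟨[], by simp, by simp⟩

theorem pgV_mul (x : Fin g → H) {m n : ℕ} {a b : H} (ha : a ∈ pgV k x m) (hb : b ∈ pgV k x n) :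
    a * b ∈ pgV k x (m + n) := by
  induction ha using Submodule.span_induction with
  | mem a ha =>
    obtain ⟨u, hu, rfl⟩ := ha
    induction hb using Submodule.span_induction with
    | mem b hb =>
      obtain ⟨w, hw, rfl⟩ := hb
      exact Submodule.subset_span ⟨u ++ w, by simp; omega, by simp⟩
    | zero => simp
    | add b b' _ _ h1 h2 => rw [mul_add]; exact Submodule.add_mem _ h1 h2
    | smul r b _ h1 => rw [mul_smul_comm]; exact Submodule.smul_mem _ _ h1
  | zero => simp
  | add a a' _ _ h1 h2 => rw [add_mul]; exact Submodule.add_mem _ h1 h2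
  | smul r a _ h1 => rw [smul_mul_assoc]; exact Submodule.smul_mem _ _ h1

theorem pgV_pow (x : Fin g → H) {m : ℕ} {a : H} (ha : a ∈ pgV k x m) (i : ℕ) :
    a ^ i ∈ pgV k x (m * i) := by
  induction i with
  | zero => simpa using pgV_one x 0
  | succ i ih => rw [pow_succ, Nat.mul_succ]; exact pgV_mul x ih ha

theorem pgV_exists {x : Fin g → H} (hx : Gen k x) (a : H) : ∃ n, a ∈ pgV k x n := by
  have ha : a ∈ Submodule.span k (Set.range (wd x)) := by rw [hx.span_wd]; trivial
  induction ha using Submodule.span_induction with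
  | mem a ha =>
    obtain ⟨w, rfl⟩ := ha
    exact ⟨w.length, Submodule.subset_span ⟨w, le_rfl, rfl⟩⟩
  | zero => exact ⟨0, Submodule.zero_mem _⟩
  | add a b _ _ h1 h2 =>
    obtain ⟨m, hm⟩ := h1
    obtain ⟨n, hn⟩ := h2
    exact ⟨m + n, Submodule.add_mem _ (pgV_mono x (by omega) hm) (pgV_mono x (by omega) hn)⟩
  | smul r a _ h1 =>
    obtain ⟨m, hm⟩ := h1
    exact ⟨m, Submodule.smul_mem _ _ hm⟩

theorem pg_inj {P P' : Ideal H} [P'.IsTwoSided] (hle : P ≤ P') {h : H} (hh : h ∈ P')
    (hreg : ∀ y : H, h * y ∈ P → y ∈ P) (N : ℕ) (w : Fin N → H)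
    (hw : ∀ i, w i ∈ P' → w i = 0) (hs : ∑ i : Fin N, h ^ i.val * w i ∈ P) : ∀ i, w i = 0 := by
  induction N with
  | zero => intro i; exact i.elim0
  | succ N ih =>
    have e : ∑ i : Fin (N + 1), h ^ i.val * w i =
        w 0 + h * ∑ i : Fin N, h ^ i.val * w i.succ := by
      rw [Fin.sum_univ_succ, Finset.mul_sum]
      simp only [Fin.val_zero, pow_zero, one_mul, Fin.val_succ, pow_succ', mul_assoc]
    rw [e] at hs
    have h0 : w 0 = 0 := by
      apply hw
      have h1 : h * ∑ i : Fin N, h ^ i.val * w i.succ ∈ P' := Ideal.mul_mem_right _ _ hh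
      have h2 := P'.sub_mem (hle hs) h1
      rwa [add_sub_cancel_right] at h2
    rw [h0, zero_add] at hs
    have h3 := ih (fun i => w i.succ) (fun i => hw i.succ) (hreg _ hs)
    intro i
    refine Fin.cases h0 h3 i

end

section
variable {k Z T : Type} [Field k] [CommRing Z] [Algebra k Z] [AddCommGroup T] [Module k T]
  [Module Z T] [IsScalarTower k Z T] {e m : ℕ}

/-- the span of the `(monomial with exponents at most d) • t l` -/
def pgM (k : Type) [Field k] {Z T : Type} [CommRing Z] [AddCommGroup T] [Module k T] [Module Z T]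
    {e m : ℕ} (z : Fin e → Z) (t : Fin m → T) (d : ℕ) : Submodule k T :=
  Submodule.span k (Set.range fun p : (Fin e → Fin (d + 1)) × Fin m =>
    (∏ i, z i ^ (p.1 i).val) • t p.2)

omit [Algebra k Z] [IsScalarTower k Z T] in
theorem pgM_finrank (z : Fin e → Z) (t : Fin m → T) (d : ℕ) :
    Module.finrank k (pgM k z t d) ≤ (d + 1) ^ e * m := by
  refine (finrank_range_le_card _).trans ?_
  simp

omit [Algebra k Z] [IsScalarTower k Z T] in
theorem pgM_fin (z : Fin e → Z) (t : Fin m → T) (d : ℕ) : FiniteDimensional k (pgM k z t d) :=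
  FiniteDimensional.span_of_finite _ (Set.finite_range _)

omit [Algebra k Z] [IsScalarTower k Z T] in
theorem pgM_mem (z : Fin e → Z) (t : Fin m → T) {d : ℕ} (a : Fin e → ℕ) (ha : ∀ i, a i ≤ d)
    (l : Fin m) : (∏ i, z i ^ a i) • t l ∈ pgM k z t d :=
  Submodule.subset_span ⟨(fun i => ⟨a i, Nat.lt_succ_of_le (ha i)⟩, l), rfl⟩

theorem pgM_smul (z : Fin e → Z) (t : Fin m → T) {d d' : ℕ} (a : Fin e → ℕ) (ha : ∀ i, a i ≤ d)
    {y : T} (hy : y ∈ pgM k z t d') : (∏ i, z i ^ a i) • y ∈ pgM k z t (d + d') := by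
  induction hy using Submodule.span_induction with
  | mem y hy =>
    obtain ⟨p, rfl⟩ := hy
    have : (∏ i, z i ^ a i) • (∏ i, z i ^ (p.1 i).val) • t p.2 =
        (∏ i, z i ^ (a i + (p.1 i).val)) • t p.2 := by
      rw [smul_smul, ← Finset.prod_mul_distrib]
      simp only [pow_add]
    simp only
    rw [this]
    refine pgM_mem z t _ (fun i => ?_) _
    have := ha i
    have := (p.1 i).isLt
    omega
  | zero => simp
  | add y y' _ _ h1 h2 => rw [smul_add]; exact Submodule.add_mem _ h1 h2
  | smul r y _ h1 => rw [smul_comm]; exact Submodule.smul_mem _ _ h1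

theorem pgM_mono (z : Fin e → Z) (t : Fin m → T) {d d' : ℕ} (h : d ≤ d') :
    pgM k z t d ≤ pgM k z t d' := by
  intro y hy
  obtain ⟨c, rfl⟩ := Nat.exists_eq_add_of_le' h
  simpa using pgM_smul z t (d := c) (fun _ => 0) (fun _ => Nat.zero_le _) hy

theorem pgM_exists (z : Fin e → Z) (t : Fin m → T) (hz : Algebra.adjoin k (Set.range z) = ⊤)
    (ht : Submodule.span Z (Set.range t) = ⊤) (y : T) : ∃ d, y ∈ pgM k z t d := by
  have hadd : ∀ y y' : T, (∃ d, y ∈ pgM k z t d) → (∃ d, y' ∈ pgM k z t d) →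
      ∃ d, y + y' ∈ pgM k z t d := by
    rintro y y' ⟨d, hd⟩ ⟨d', hd'⟩
    exact ⟨d + d', Submodule.add_mem _ (pgM_mono z t (by omega) hd) (pgM_mono z t (by omega) hd')⟩
  have hsm : ∀ r : Z, ∀ y : T, (∃ d, y ∈ pgM k z t d) → ∃ d, r • y ∈ pgM k z t d := by
    intro r
    have hr : r ∈ Algebra.adjoin k (Set.range z) := by rw [hz]; trivial
    induction hr using Algebra.adjoin_induction with
    | mem r hr =>
      obtain ⟨j, rfl⟩ := hr
      rintro y ⟨d, hd⟩
      refine ⟨1 + d, ?_⟩
      have h1 := pgM_smul z t (d := 1) (Pi.single j 1) (fun i => by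
        by_cases hi : i = j
        · subst hi; simp
        · simp [hi]) hd
      have h2 : ∏ i, z i ^ (Pi.single j 1 : Fin e → ℕ) i = z j := by
        rw [Finset.prod_eq_single j]
        · simp
        · intro b _ hb
          simp [hb]
        · simp
      rwa [h2] at h1
    | algebraMap c =>
      rintro y ⟨d, hd⟩
      exact ⟨d, by rw [algebraMap_smul]; exact Submodule.smul_mem _ _ hd⟩
    | add r r' _ _ h1 h2 =>
      intro y hy
      rw [add_smul]
      exact hadd _ _ (h1 y hy) (h2 y hy)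
    | mul r r' _ _ h1 h2 =>
      intro y hy
      rw [mul_smul]
      exact h1 _ (h2 y hy)
  have hy : y ∈ Submodule.span Z (Set.range t) := by rw [ht]; trivial
  induction hy using Submodule.span_induction with
  | mem y hy =>
    obtain ⟨l, rfl⟩ := hy
    exact ⟨0, by simpa using pgM_mem (k := k) z t (d := 0) (fun _ => 0) (fun _ => le_rfl) l⟩
  | zero => exact ⟨0, Submodule.zero_mem _⟩
  | add y y' _ _ h1 h2 => exact hadd _ _ h1 h2
  | smul r y _ h1 => exact hsm r y h1

end

section
variable {k H : Type} [Field k] [Ring H] [Algebra k H] {g : ℕ} {x : Fin g → H}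

/-- Let `z 1, .., z e` generate `Z` and `t 1, .., t m` generate `T` over `Z`.  Write `1` and the
`φ (x i) * t j` as combinations of the `t l` with coefficients of degree `≤ c` in the `z`; a word of
length `≤ n` lies in the span of the `(monomial of degree ≤ c (n + 1)) • t l`. -/
theorem Cov.exists_gr {Z : Type} [CommRing Z] [Algebra k Z] [Algebra.FiniteType k Z]
    (c : Cov k H Z) (x : Fin g → H) : ∃ e : ℕ, Gr k x (RingHom.ker c.φ) e := by
  obtain ⟨e, z, hz⟩ := exists_gen (k := k) (H := Z)
  obtain ⟨m, t, ht⟩ := Module.Finite.exists_fin (R := Z) (M := c.T)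
  have hex := pgM_exists (k := k) z t hz ht
  choose dg hdg using hex
  set D : ℕ := dg 1 + ∑ p : Fin g × Fin m, dg (c.φ (x p.1) * t p.2) with hD
  have h1 : (1 : c.T) ∈ pgM k z t D := pgM_mono z t (by omega) (hdg 1)
  have h2 : ∀ i l, c.φ (x i) * t l ∈ pgM k z t D := by
    intro i l
    refine pgM_mono z t ?_ (hdg _)
    have := Finset.single_le_sum (f := fun p : Fin g × Fin m => dg (c.φ (x p.1) * t p.2))
      (fun _ _ => Nat.zero_le _) (Finset.mem_univ (i, l))
    simp only at this
    omega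
  have h3 : ∀ i d y, y ∈ pgM k z t d → c.φ (x i) * y ∈ pgM k z t (d + D) := by
    intro i d y hy
    induction hy using Submodule.span_induction with
    | mem y hy =>
      obtain ⟨p, rfl⟩ := hy
      simp only
      rw [mul_smul_comm]
      exact pgM_smul z t _ (fun j => Nat.le_of_lt_succ (p.1 j).isLt) (h2 i p.2)
    | zero => simp
    | add y y' _ _ h1 h2 => rw [mul_add]; exact Submodule.add_mem _ h1 h2
    | smul r y _ h1 => rw [mul_smul_comm]; exact Submodule.smul_mem _ _ h1
  have h4 : ∀ w : List (Fin g), c.φ (wd x w) ∈ pgM k z t (D * (w.length + 1)) := by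
    intro w
    induction w with
    | nil => simpa using h1
    | cons i w ih =>
      rw [wd_cons, map_mul, List.length_cons, Nat.mul_succ D (w.length + 1)]
      exact h3 i _ _ ih
  refine ⟨e, (D + 1) ^ e * m, fun n => ?_⟩
  let ψ : (H ⧸ (RingHom.ker c.φ).restrictScalars k) →ₗ[k] c.T :=
    Submodule.liftQ _ c.φ.toLinearMap (fun y hy => hy)
  have hψ : Function.Injective ψ := by
    rw [← LinearMap.ker_eq_bot]
    exact Submodule.ker_liftQ_eq_bot _ _ _ (fun y hy => hy)
  have h5 : ((pgV k x n).map ((RingHom.ker c.φ).restrictScalars k).mkQ).map ψ ≤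
      pgM k z t (D * (n + 1)) := by
    rw [← Submodule.map_comp, pgV, Submodule.map_span_le]
    rintro _ ⟨w, hw, rfl⟩
    exact pgM_mono z t (Nat.mul_le_mul_left _ (by omega)) (h4 w)
  have := pgM_fin (k := k) z t (D * (n + 1))
  have h6 := Submodule.finrank_mono h5
  rw [← (Submodule.equivMapOfInjective ψ hψ _).finrank_eq] at h6
  refine h6.trans ((pgM_finrank z t _).trans ?_)
  have h7 : D * (n + 1) + 1 ≤ (D + 1) * (n + 1) := by nlinarith
  calc (D * (n + 1) + 1) ^ e * m ≤ ((D + 1) * (n + 1)) ^ e * m :=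
        Nat.mul_le_mul_right _ (Nat.pow_le_pow_left h7 _)
    _ = _ := by rw [mul_pow]; ring

/-- A regular element lowers the degree of growth.  Let `V n` be the span of the words of length
`≤ n`, `h ∈ V c`, and `W ≤ V n` a subspace mapped isomorphically onto the image of `V n` in `H / P'`.
Then `(w 0, .., w n) ↦ ∑ h ^ i * w i` is injective from `W ^ (n + 1)` to the image of `V ((c + 1) n)` in
`H / P`.  So `(n + 1) f' n ≤ C ((c + 1) n + 1) ^ e ≤ C (c + 1) ^ e (n + 1) ^ e`, and `f' n ≥ 1`. -/
theorem Gr.drop (hx : Gen k x) {P P' : Ideal H} [P'.IsTwoSided] (hle : P ≤ P') (hP' : P' ≠ ⊤)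
    {h : H} (hh : h ∈ P') (hreg : ∀ y : H, h * y ∈ P → y ∈ P) {e : ℕ} (he : Gr k x P e) :
    ∃ e' < e, Gr k x P' e' := by
  obtain ⟨c, hc⟩ := pgV_exists hx h
  obtain ⟨C, hC⟩ := he
  have key : ∀ n : ℕ, (n + 1) * Module.finrank k ((pgV k x n).map (P'.restrictScalars k).mkQ) ≤
      C * (c + 1) ^ e * (n + 1) ^ e := by
    intro n
    have := pgV_fin (k := k) x n
    have := pgV_fin (k := k) x (c * n + n)
    obtain ⟨s, hs⟩ := LinearMap.exists_rightInverse_of_surjective
      ((P'.restrictScalars k).mkQ.submoduleMap (pgV k x n))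
      (LinearMap.range_eq_top.2 (LinearMap.submoduleMap_surjective _ _))
    have hs' : ∀ a, (P'.restrictScalars k).mkQ (s a : H) = a := by
      intro a
      have := congrArg Subtype.val (LinearMap.congr_fun hs a)
      simpa using this
    let L0 : (Fin (n + 1) → (pgV k x n).map (P'.restrictScalars k).mkQ) →ₗ[k] H :=
      ∑ i : Fin (n + 1), (LinearMap.mulLeft k (h ^ i.val)) ∘ₗ (pgV k x n).subtype ∘ₗ s ∘ₗ
        LinearMap.proj i
    have hL0 : ∀ a, L0 a = ∑ i : Fin (n + 1), h ^ i.val * (s (a i) : H) := by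
      intro a
      simp [L0, LinearMap.sum_apply]
    have hmem : ∀ a, ((P.restrictScalars k).mkQ ∘ₗ L0) a ∈
        (pgV k x (c * n + n)).map (P.restrictScalars k).mkQ := by
      intro a
      refine ⟨L0 a, ?_, rfl⟩
      rw [hL0]
      refine Submodule.sum_mem _ fun i _ => ?_
      refine pgV_mono x ?_ (pgV_mul x (pgV_pow x hc i.val) (s (a i)).2)
      have := Nat.mul_le_mul_left c (Nat.le_of_lt_succ i.isLt)
      omega
    have hinj : Function.Injective (LinearMap.codRestrict _ _ hmem) := by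
      rw [injective_iff_map_eq_zero]
      intro a ha
      have h1 : L0 a ∈ P := by
        have h2 := congrArg Subtype.val ha
        simpa using h2
      rw [hL0] at h1
      have h3 : ∀ i, (s (a i) : H) ∈ P' → (s (a i) : H) = 0 := by
        intro i hi
        have h4 : (a i : H ⧸ P'.restrictScalars k) = 0 := by
          rw [← hs']
          simpa using hi
        have h5 : a i = 0 := Subtype.ext h4
        simp [h5]
      have h6 := pg_inj hle hh hreg (n + 1) (fun i => (s (a i) : H)) h3 h1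
      funext i
      apply Subtype.ext
      rw [← hs', h6 i]
      simp
    have h7 := LinearMap.finrank_le_finrank_of_injective hinj
    rw [Module.finrank_pi_fintype] at h7
    simp only [Finset.sum_const, Finset.card_univ, Fintype.card_fin, smul_eq_mul] at h7
    refine h7.trans ((hC (c * n + n)).trans ?_)
    have h8 : c * n + n + 1 ≤ (c + 1) * (n + 1) := by nlinarith
    calc C * (c * n + n + 1) ^ e ≤ C * ((c + 1) * (n + 1)) ^ e :=
          Nat.mul_le_mul_left _ (Nat.pow_le_pow_left h8 _)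
      _ = _ := by rw [mul_pow]; ring
  have pos : ∀ n : ℕ, 0 < Module.finrank k ((pgV k x n).map (P'.restrictScalars k).mkQ) := by
    intro n
    have := pgV_fin (k := k) x n
    rw [Module.finrank_pos_iff_exists_ne_zero]
    refine ⟨⟨_, 1, pgV_one x n, rfl⟩, fun h0 => hP' ?_⟩
    have h1 := congrArg Subtype.val h0
    rw [Ideal.eq_top_iff_one]
    simpa using h1
  cases e with
  | zero =>
    exfalso
    have h1 := key C
    have h2 := pos C
    simp only [pow_zero, mul_one] at h1
    nlinarith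
  | succ e =>
    refine ⟨e, Nat.lt_succ_self e, C * (c + 1) ^ (e + 1), fun n => ?_⟩
    have h1 := key n
    rw [pow_succ' (n + 1) e, mul_left_comm] at h1
    exact Nat.le_of_mul_le_mul_left h1 (Nat.succ_pos n)

/-- Induction over trace rings (strong induction on the degree of growth; a lift `h` of a nonzero
element of `Z` is regular modulo `ker φ` by `Tr.smul_eq_zero`). -/
theorem tr_induction (hx : Gen k x) (Q : Tr k H → Prop)
    (step : ∀ τ : Tr k H, (∀ τ' : Tr k H, RingHom.ker τ.c.φ ≤ RingHom.ker τ'.c.φ →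
      (∃ z : τ.Z, z ≠ 0 ∧ ∃ h ∈ RingHom.ker τ'.c.φ, τ.c.φ h = algebraMap τ.Z τ.c.T z) → Q τ') →
      Q τ) (τ : Tr k H) : Q τ := by
  have main : ∀ e : ℕ, ∀ τ : Tr k H, Gr k x (RingHom.ker τ.c.φ) e → Q τ := by
    intro e
    induction e using Nat.strong_induction_on with
    | _ e ih =>
      intro τ he
      refine step τ fun τ' hle ⟨z, hz, h, hh, hzh⟩ => ?_
      have hne : RingHom.ker τ'.c.φ ≠ ⊤ := by
        have := τ'.prime.1
        exact RingHom.ker_ne_top _
      have hreg : ∀ y : H, h * y ∈ RingHom.ker τ.c.φ → y ∈ RingHom.ker τ.c.φ := by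
        intro y hy
        rw [RingHom.mem_ker] at hy ⊢
        rw [map_mul, hzh, ← Algebra.smul_def] at hy
        exact τ.smul_eq_zero hz hy
      obtain ⟨e', he', hg⟩ := Gr.drop hx hle hne hh hreg he
      exact ih e' he' τ' hg
  obtain ⟨e, he⟩ := τ.c.exists_gr x
  exact main e τ he

end

end Pool.Agent.Lib.MP_ff61db_al
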