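import Pool.Agent.Lib.MP_ff61db_al.PF3
import Pool.Agent.Lib.MP_ff61db_al.PE3
import Pool.Agent.Lib.MP_ff61db_al.PG

set_option autoImplicit false

namespace Pool.Agent.Lib.MP_ff61db_al

open Polynomial TensorProduct

theorem pf4_closure {ι H T : Type} [AddCommMonoid H] [AddCommMonoid T] (F : ι → H → T)
    (h0 : ∀ i, F i 0 = 0) (hadd : ∀ i a b, F i (a + b) = F i a + F i b) (s : Finset ι) {w : T}
    (hw : w ∈ AddSubmonoid.closure {t | ∃ i ∈ s, ∃ h, t = F i h}) :
    ∃ f : ι → H, w = ∑ i ∈ s, F i (f i) := by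
  classical
  induction hw using AddSubmonoid.closure_induction with
  | mem w hw =>
    obtain ⟨i, hi, h, rfl⟩ := hw
    refine ⟨Pi.single i h, ?_⟩
    rw [Finset.sum_eq_single_of_mem i hi fun j _ hj => by rw [Pi.single_eq_of_ne hj, h0],
      Pi.single_eq_same]
  | zero => exact ⟨0, by simp [h0]⟩
  | add u v _ _ hu hv =>
    obtain ⟨f, rfl⟩ := hu
    obtain ⟨f', rfl⟩ := hv
    exact ⟨f + f', by simp [hadd, Finset.sum_add_distrib]⟩

/-- Filtration argument.  View `T` as a left `H`-module through `φ`.  Induction on the list (for all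
`J`): for `P :: Ps` let `J'` be the left ideal generated by the products along `Ps`; `T / J'` is finitely
generated over `H` by induction, and `J'` is generated by finitely many such products `v i` (`T` is a
noetherian `Z`-module); `P * v i ⊆ J`, so `∑ t i * v i` is, modulo `J`, in `∑ φ(H) * u * v i`. -/
theorem Cov.fg_of_kills {k H Z : Type} [Field k] [Ring H] [Algebra k H] [CommRing Z] [Algebra k Z]
    [Algebra.FiniteType k Z] (c : Cov k H Z) (Ps : List (Ideal c.T)) (J : Ideal c.T)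
    (hJ : Kills Ps J)
    (hPs : ∀ P ∈ Ps, ∃ s : Finset c.T, ∀ t : c.T, ∃ f : c.T → H,
      t - ∑ u ∈ s, c.φ (f u) * u ∈ P) :
    ∃ s : Finset c.T, ∀ t : c.T, ∃ f : c.T → H, t - ∑ u ∈ s, c.φ (f u) * u ∈ J := by
  classical
  have hZ : IsNoetherianRing Z := Algebra.FiniteType.isNoetherianRing k Z
  have hT : IsNoetherian c.T c.T := isNoetherian_of_tower Z inferInstance
  induction Ps generalizing J with
  | nil =>
    refine ⟨∅, fun t => ⟨0, ?_⟩⟩
    have h1 : (1 : c.T) ∈ J := by simpa using hJ [] List.Forall₂.nil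
    rw [(Ideal.eq_top_iff_one J).2 h1]
    trivial
  | cons P Ps ih =>
    let G : Set c.T := {v | ∃ l : List c.T, List.Forall₂ (fun x P => x ∈ P) l Ps ∧ v = l.prod}
    obtain ⟨s', hs'⟩ := ih (Ideal.span G) (fun l hl => Ideal.subset_span ⟨l, hl, rfl⟩)
      fun Q hQ => hPs Q (List.mem_cons_of_mem _ hQ)
    obtain ⟨s, hs⟩ := hPs P List.mem_cons_self
    obtain ⟨vs, hvs, hsp⟩ := (Submodule.fg_span_iff_fg_span_finset_subset (R := c.T) G).1
      (IsNoetherian.noetherian _)
    let S : Finset c.T := s' ∪ Finset.image₂ (· * ·) s vs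
    let W : AddSubmonoid c.T := AddSubmonoid.closure {t | ∃ u ∈ S, ∃ h, t = c.φ h * u}
    have key : ∀ j ∈ Submodule.span c.T (vs : Set c.T), ∀ t : c.T, ∃ w ∈ W, t * j - w ∈ J := by
      intro j hj
      induction hj using Submodule.span_induction with
      | mem v hv =>
        intro t
        obtain ⟨f, hf⟩ := hs t
        obtain ⟨l, hl, hvl⟩ := hvs hv
        refine ⟨(∑ u ∈ s, c.φ (f u) * u) * v, ?_, ?_⟩
        · rw [Finset.sum_mul]
          refine sum_mem fun u hu => AddSubmonoid.subset_closure ⟨u * v, ?_, f u, mul_assoc _ _ _⟩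
          exact Finset.mem_union_right _ (Finset.mem_image₂_of_mem hu hv)
        · rw [← sub_mul, hvl, ← List.prod_cons]
          exact hJ _ (List.Forall₂.cons hf hl)
      | zero => exact fun t => ⟨0, zero_mem _, by simp⟩
      | add u v _ _ hu hv =>
        intro t
        obtain ⟨w, hw, h1⟩ := hu t
        obtain ⟨w', hw', h2⟩ := hv t
        refine ⟨w + w', add_mem hw hw', ?_⟩
        have : t * (u + v) - (w + w') = (t * u - w) + (t * v - w') := by
          rw [mul_add]
          abel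
        rw [this]
        exact add_mem h1 h2
      | smul r v _ hv =>
        intro t
        rw [smul_eq_mul, ← mul_assoc]
        exact hv _
    refine ⟨S, fun t => ?_⟩
    obtain ⟨f, hf⟩ := hs' t
    obtain ⟨w, hw, h1⟩ := key _ (hsp.le hf) 1
    have h2 : (∑ u ∈ s', c.φ (f u) * u) + w ∈ W := add_mem (sum_mem fun u hu =>
      AddSubmonoid.subset_closure ⟨u, Finset.mem_union_left _ hu, f u, rfl⟩) hw
    obtain ⟨f', hf'⟩ := pf4_closure (fun (u : c.T) (h : H) => c.φ h * u) (fun u => by simp)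
      (fun u a b => by rw [map_add, add_mul]) S h2
    refine ⟨f', ?_⟩
    rw [← hf', ← sub_sub]
    rwa [one_mul] at h1

/-- Trace rings are finite over `H`.  `tr_induction`.  Let `J = a T`, take the primes `P` of `T` over `J`
from `exists_primes`; `exists_tr` and `isP_comap` give `τ₂` with kernel `P.comap φ`, which contains a lift
of `a`; so the induction hypothesis and `Tr.quot_fg` apply.  By `Cov.fg_of_kills` and `J ⊆ φ(H)`, `T` is a
finitely generated left `H`-module; write the generators as `Z`-combinations of elements of `φ(H)`. -/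
theorem Tr.cfin {k H : Type} [Field k] [IsAlgClosed k] [Ring H] [Algebra k H] {g d : ℕ}
    {x : Fin g → H} (hx : Gen k x) (hd : MPI k H d) (Λ : Link2 k H) (τ : Tr k H) : τ.c.CFin := by
  classical
  refine tr_induction hx (fun τ => τ.c.CFin) (fun τ ih => ?_) τ
  have hZ : IsNoetherianRing τ.Z := Algebra.FiniteType.isNoetherianRing k τ.Z
  let J : Ideal τ.c.T := Ideal.span {algebraMap τ.Z τ.c.T τ.a}
  have hJ : J.IsTwoSided := ⟨by
    intro u r hu
    obtain ⟨v, rfl⟩ := Ideal.mem_span_singleton'.1 hu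
    exact Ideal.mem_span_singleton'.2 ⟨v * r, by
      rw [mul_assoc, mul_assoc, Algebra.commutes]⟩⟩
  obtain ⟨Ps, hPs, hK⟩ := exists_primes (Z := τ.Z) J hJ
  obtain ⟨h₀, hh₀⟩ := τ.ha 1
  rw [← Algebra.algebraMap_eq_smul_one] at hh₀
  obtain ⟨s, hs⟩ := τ.c.fg_of_kills Ps J hK fun P hP => by
    obtain ⟨hP, hJP⟩ := hPs P hP
    obtain ⟨τ₂, hker⟩ := exists_tr hx hd (isP_comap τ.span hP)
    refine τ.quot_fg Λ P hP τ₂ hker (ih τ₂ ?_ ⟨τ.a, τ.a0, h₀, ?_, hh₀⟩)
    · intro h hh
      rw [hker, Ideal.mem_comap, RingHom.mem_ker.1 hh]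
      exact zero_mem _
    · rw [hker, Ideal.mem_comap, hh₀]
      exact hJP (Ideal.subset_span rfl)
  have hu : ∀ u : τ.c.T, ∃ e : H →₀ τ.Z, (e.sum fun i z => z • τ.c.φ i) = u := fun u =>
    Finsupp.mem_span_range_iff_exists_finsupp.1 (τ.span ▸ Submodule.mem_top)
  choose e he using hu
  let zs : Finset τ.Z := insert 1 (s.biUnion fun u => (e u).support.image (e u))
  refine ⟨zs, fun t => pf4_closure (fun (z : τ.Z) (h : H) => z • τ.c.φ h) (fun z => by simp)
    (fun z a b => by rw [map_add, smul_add]) zs ?_⟩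
  obtain ⟨f, hf⟩ := hs t
  obtain ⟨v, hv⟩ := Ideal.mem_span_singleton'.1 hf
  obtain ⟨h, hh⟩ := τ.ha v
  have ht : t = τ.c.φ h + ∑ u ∈ s, τ.c.φ (f u) * u := by
    rw [hh, Algebra.smul_def, Algebra.commutes, hv, sub_add_cancel]
  rw [ht]
  refine add_mem (AddSubmonoid.subset_closure ⟨1, Finset.mem_insert_self _ _, h, by simp⟩)
    (sum_mem fun u hu => ?_)
  have h1 : τ.c.φ (f u) * u = ∑ i ∈ (e u).support, e u i • τ.c.φ (f u * i) := by
    refine (congrArg (τ.c.φ (f u) * ·) (he u).symm).trans ?_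
    simp only [Finsupp.sum, Finset.mul_sum, mul_smul_comm, map_mul]
  rw [h1]
  exact sum_mem fun i hi => AddSubmonoid.subset_closure ⟨e u i, Finset.mem_insert_of_mem
    (Finset.mem_biUnion.2 ⟨u, hu, Finset.mem_image_of_mem _ hi⟩), _, rfl⟩

end Pool.Agent.Lib.MP_ff61db_al
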