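import Pool.Agent.Lib.MP_ff61db_al.PE0
import Pool.Agent.Lib.MP_ff61db_al.PE3
import Pool.Agent.Lib.MP_ff61db_al.PG

set_option autoImplicit false

namespace Pool.Agent.Lib.MP_ff61db_al

open Polynomial TensorProduct

/-- the part of an invariant subspace killed by a two-sided ideal is invariant -/
theorem pgp_inv {k H W : Type} [Field k] [Ring H] [Algebra k H] [AddCommGroup W] [Module k W]
    (ρ : H →ₐ[k] Module.End k W) (X : Submodule k W) (hinv : ∀ h : H, ∀ w ∈ X, ρ h w ∈ X)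
    (P : Ideal H) (hP : P.IsTwoSided) (u : H) (w : W) (hw : w ∈ X ⊓ annS ρ P) :
    ρ u w ∈ X ⊓ annS ρ P := by
  refine ⟨hinv u w hw.1, (mem_annS ρ P _).2 fun p hp => ?_⟩
  have := (mem_annS ρ P w).1 hw.2 (p * u) (Ideal.mul_mem_right u P hp)
  rwa [map_mul, Module.End.mul_apply] at this

/-- Good primes.  By `Kills.exists_annS` and `exists_tr` there is `τ` with `X ⊓ annS ρ (ker φ) ≠ ⊥`.
Prove by `tr_induction` on `τ` that `X ⊓ annS ρ (ker φ) ≠ ⊥` implies the conclusion.  If the regularity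
fails for `τ`, with `z`, `h`, `w ≠ 0`, then `X' = X ⊓ annS ρ (ker φ) ⊓ ker (ρ h)` is nonzero, invariant (`h` is
central modulo `ker φ`) and killed by `ker φ ⊔ span {h}`; `Tr.exists_isP_over` (with `b = a * z`) and
`Kills.exists_annS` give a prime `P' ∋ h` over `ker φ` with `X' ⊓ annS ρ P' ≠ ⊥`; apply the induction
hypothesis to a trace ring of `P'`. -/
theorem exists_good {k H W : Type} [Field k] [IsAlgClosed k] [Ring H] [Algebra k H]
    [AddCommGroup W] [Module k W] {g d : ℕ} {x : Fin g → H} (hx : Gen k x) (hd : MPI k H d)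
    (hS : Struct k H) (ρ : H →ₐ[k] Module.End k W) (X : Submodule k W) (hX : X ≠ ⊥)
    (hinv : ∀ h : H, ∀ w ∈ X, ρ h w ∈ X) :
    ∃ τ : Tr k H, X ⊓ annS ρ (RingHom.ker τ.c.φ) ≠ ⊥ ∧
      ∀ z : τ.Z, z ≠ 0 → ∀ h : H, τ.c.φ h = algebraMap τ.Z τ.c.T (τ.a * z) →
        ∀ w ∈ X ⊓ annS ρ (RingHom.ker τ.c.φ), ρ h w = 0 → w = 0 := by
  have key : ∀ τ : Tr k H, X ⊓ annS ρ (RingHom.ker τ.c.φ) ≠ ⊥ →
      ∃ τ : Tr k H, X ⊓ annS ρ (RingHom.ker τ.c.φ) ≠ ⊥ ∧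
        ∀ z : τ.Z, z ≠ 0 → ∀ h : H, τ.c.φ h = algebraMap τ.Z τ.c.T (τ.a * z) →
          ∀ w ∈ X ⊓ annS ρ (RingHom.ker τ.c.φ), ρ h w = 0 → w = 0 := by
    intro τ
    refine tr_induction hx (fun τ => X ⊓ annS ρ (RingHom.ker τ.c.φ) ≠ ⊥ →
      ∃ τ : Tr k H, X ⊓ annS ρ (RingHom.ker τ.c.φ) ≠ ⊥ ∧
        ∀ z : τ.Z, z ≠ 0 → ∀ h : H, τ.c.φ h = algebraMap τ.Z τ.c.T (τ.a * z) →
          ∀ w ∈ X ⊓ annS ρ (RingHom.ker τ.c.φ), ρ h w = 0 → w = 0) ?_ τ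
    intro τ ih hne
    by_cases hgood : ∀ z : τ.Z, z ≠ 0 → ∀ h : H, τ.c.φ h = algebraMap τ.Z τ.c.T (τ.a * z) →
        ∀ w ∈ X ⊓ annS ρ (RingHom.ker τ.c.φ), ρ h w = 0 → w = 0
    · exact ⟨τ, hne, hgood⟩
    push Not at hgood
    obtain ⟨z, hz, h, hh, w, hw, hw0, hwne⟩ := hgood
    have hker : (RingHom.ker τ.c.φ).IsTwoSided := inferInstance
    let X' : Submodule k W := X ⊓ annS ρ (RingHom.ker τ.c.φ) ⊓ LinearMap.ker (ρ h)
    have hX' : X' ≠ ⊥ := by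
      intro h0
      have : w ∈ X' := ⟨hw, hw0⟩
      rw [h0] at this
      exact hwne this
    have hinv' : ∀ u : H, ∀ v ∈ X', ρ u v ∈ X' := by
      intro u v hv
      refine ⟨pgp_inv ρ X hinv _ hker u v hv.1, ?_⟩
      have hc : h * u - u * h ∈ RingHom.ker τ.c.φ := by
        rw [RingHom.mem_ker, map_sub, map_mul, map_mul, hh, Algebra.commutes, sub_self]
      have h1 := (mem_annS ρ _ v).1 hv.1.2 _ hc
      have h2 : ρ h v = 0 := hv.2
      rw [map_sub, map_mul, map_mul, LinearMap.sub_apply, Module.End.mul_apply,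
        Module.End.mul_apply, h2, map_zero, sub_zero] at h1
      exact h1
    have hkill : ∀ u ∈ RingHom.ker τ.c.φ ⊔ Ideal.span {h}, ∀ v ∈ X', ρ u v = 0 := by
      intro u hu v hv
      obtain ⟨p, hp, q, hq, rfl⟩ := Submodule.mem_sup.1 hu
      obtain ⟨r, rfl⟩ := Submodule.mem_span_singleton.1 hq
      have h2 : ρ h v = 0 := hv.2
      rw [map_add, LinearMap.add_apply, (mem_annS ρ _ v).1 hv.1.2 p hp, smul_eq_mul, map_mul,
        Module.End.mul_apply, h2, map_zero, add_zero]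
    obtain ⟨Ps, hPs, hK⟩ := τ.exists_isP_over (τ.a * z) (fun t => by
      obtain ⟨u, hu⟩ := τ.ha (z • t)
      exact ⟨u, by rw [hu, mul_smul]⟩) h hh
    obtain ⟨P, hP, hPne⟩ := hK.exists_annS ρ (fun P hP => (hPs P hP).1.two) X' hX' hinv' hkill
    obtain ⟨τ', hτ'⟩ := exists_tr hx hd (hPs P hP).1
    refine ih τ' (hτ' ▸ (hPs P hP).2.1) ⟨τ.a * z, mul_ne_zero τ.a0 hz, h, hτ' ▸ (hPs P hP).2.2, hh⟩ ?_
    rw [hτ']
    intro h0
    refine hPne (le_bot_iff.1 ?_)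
    rw [← h0]
    exact inf_le_inf_right _ (inf_le_left.trans inf_le_left)
  obtain ⟨Ps, hPs, hK⟩ := hS
  obtain ⟨P, hP, hPne⟩ := hK.exists_annS ρ (fun P hP => (hPs P hP).two) X hX hinv (fun u hu v _ => by
    rw [Ideal.mem_bot] at hu
    rw [hu, map_zero, LinearMap.zero_apply])
  obtain ⟨τ, hτ⟩ := exists_tr hx hd (hPs P hP)
  exact key τ (hτ ▸ hPne)

end Pool.Agent.Lib.MP_ff61db_al
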