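import Pool.Agent.Lib.MP_ff61db_al.PFJ

set_option autoImplicit false

namespace Pool.Agent.Lib.MP_ff61db_al

open Polynomial TensorProduct

section
variable {k H : Type} [Field k] [Ring H] [Algebra k H]

/-- a convenient way to prove `CF` -/
theorem pi1_CF_of {Z T : Type} [CommRing Z] [Algebra k Z] [Algebra.FiniteType k Z] [Ring T]
    [Algebra k T] (ι : Z →ₐ[k] T) (hc : ∀ z t, ι z * t = t * ι z) (φ : H →ₐ[k] T)
    {I J : Type} [Fintype I] [Fintype J] (a : I → T)
    (ha : ∀ t, ∃ f : I → Z, t = ∑ i, ι (f i) * a i) (z : J → Z)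
    (hz : ∀ t, ∃ g : J → H, t = ∑ j, ι (z j) * φ (g j)) : CF k (RingHom.ker φ) := by
  classical
  let : Algebra Z T := (ι : Z →+* T).toAlgebra' hc
  have hs : ∀ (u : Z) (t : T), u • t = ι u * t := fun _ _ => rfl
  have : IsScalarTower k Z T := ⟨fun r u t => by
    rw [hs, hs, map_smul, smul_mul_assoc]⟩
  have : Module.Finite Z T := by
    refine ⟨⟨Finset.univ.image a, ?_⟩⟩
    rw [eq_top_iff]
    intro t _
    obtain ⟨f, rfl⟩ := ha t
    refine Submodule.sum_mem _ fun i _ => ?_
    rw [← hs]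
    exact Submodule.smul_mem _ _ (Submodule.subset_span (by simp))
  refine ⟨Z, inferInstance, inferInstance, inferInstance, { T := T, φ := φ }, ?_, rfl⟩
  refine ⟨Finset.univ.image z, fun t => ?_⟩
  obtain ⟨g, hg⟩ := hz t
  refine ⟨fun w => ∑ j ∈ Finset.univ.filter (fun j => z j = w), g j, ?_⟩
  change t = ∑ w ∈ Finset.univ.image z,
    ι w * φ (∑ j ∈ Finset.univ.filter (fun j => z j = w), g j)
  rw [hg, ← Finset.sum_fiberwise_of_maps_to (s := Finset.univ) (t := Finset.univ.image z) (g := z)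
    (fun j hj => Finset.mem_image_of_mem z hj)]
  refine Finset.sum_congr rfl fun w _ => ?_
  rw [map_sum, Finset.mul_sum]
  refine Finset.sum_congr rfl fun j hj => ?_
  rw [(Finset.mem_filter.1 hj).2]

theorem pi1_ι_mul {Z : Type} [CommRing Z] [Algebra k Z] (c : Cov k H Z) (u : Z) (t : c.T) :
    c.ι u * t = u • t := by
  rw [Algebra.smul_def]; rfl

theorem pi1_ι_comm {Z : Type} [CommRing Z] [Algebra k Z] (c : Cov k H Z) (u : Z) (t : c.T) :
    c.ι u * t = t * c.ι u := Algebra.commutes u t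

theorem pi1_gens {Z : Type} [CommRing Z] [Algebra k Z] (c : Cov k H Z) :
    ∃ (n : ℕ) (a : Fin n → c.T), ∀ t, ∃ f : Fin n → Z, t = ∑ i, c.ι (f i) * a i := by
  obtain ⟨n, a, ha⟩ := Module.Finite.exists_fin (R := Z) (M := c.T)
  refine ⟨n, a, fun t => ?_⟩
  have ht : t ∈ Submodule.span Z (Set.range a) := ha ▸ Submodule.mem_top
  obtain ⟨f, hf⟩ := (Submodule.mem_span_range_iff_exists_fun Z).1 ht
  exact ⟨f, by simp only [pi1_ι_mul, hf]⟩

theorem pi1_cgens {Z : Type} [CommRing Z] [Algebra k Z] {c : Cov k H Z} (hc : c.CFin) :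
    ∃ s : Finset Z, ∀ t, ∃ g : s → H, t = ∑ j : s, c.ι j * c.φ (g j) := by
  obtain ⟨s, hs⟩ := hc
  refine ⟨s, fun t => ?_⟩
  obtain ⟨f, hf⟩ := hs t
  refine ⟨fun j => f j, ?_⟩
  simp only [pi1_ι_mul]
  rw [hf]
  exact (Finset.sum_coe_sort s fun z => z • c.φ (f z)).symm

/-- `Z = k`, `T` the zero ring -/
theorem CF.top : CF k (⊤ : Ideal H) := by
  let φ : H →ₐ[k] PUnit :=
    { toFun := fun _ => PUnit.unit
      map_one' := rfl
      map_mul' := fun _ _ => rfl
      map_zero' := rfl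
      map_add' := fun _ _ => rfl
      commutes' := fun _ => rfl }
  have h := pi1_CF_of (Algebra.ofId k PUnit) (fun _ _ => rfl) φ (I := Fin 0) (J := Fin 0)
    (fun _ => PUnit.unit) (fun _ => ⟨fun _ => 0, rfl⟩) (fun _ => 0) (fun _ => ⟨fun _ => 0, rfl⟩)
  have e : RingHom.ker φ = ⊤ := by
    rw [eq_top_iff]
    intro x _
    exact RingHom.mem_ker.2 rfl
  rwa [e] at h

/-- `Z × Z'` and `T × T'`; generators `(z, 0)` and `(0, z')` -/
theorem CF.inf {N N' : Ideal H} (h : CF k N) (h' : CF k N') : CF k (N ⊓ N') := by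
  obtain ⟨Z, _, _, _, c, hc, rfl⟩ := h
  obtain ⟨Z', _, _, _, c', hc', rfl⟩ := h'
  obtain ⟨n, a, ha⟩ := pi1_gens c
  obtain ⟨n', a', ha'⟩ := pi1_gens c'
  obtain ⟨s, hs⟩ := pi1_cgens hc
  obtain ⟨s', hs'⟩ := pi1_cgens hc'
  have h := pi1_CF_of (c.ι.prodMap c'.ι)
    (fun z t => Prod.ext (pi1_ι_comm c z.1 t.1) (pi1_ι_comm c' z.2 t.2)) (c.φ.prod c'.φ)
    (I := Fin n ⊕ Fin n') (J := s ⊕ s')
    (Sum.elim (fun i => (a i, 0)) fun i => (0, a' i))
    (fun t => by
      obtain ⟨f, hf⟩ := ha t.1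
      obtain ⟨f', hf'⟩ := ha' t.2
      refine ⟨Sum.elim (fun i => (f i, 0)) fun i => (0, f' i), Prod.ext ?_ ?_⟩
      · rw [Prod.fst_sum, Fintype.sum_sum_type, hf]
        simp [AlgHom.prodMap]
      · rw [Prod.snd_sum, Fintype.sum_sum_type, hf']
        simp [AlgHom.prodMap])
    (Sum.elim (fun j => ((j : Z), 0)) fun j => (0, (j : Z')))
    (fun t => by
      obtain ⟨g, hg⟩ := hs t.1
      obtain ⟨g', hg'⟩ := hs' t.2
      refine ⟨Sum.elim g g', Prod.ext ?_ ?_⟩
      · rw [Prod.fst_sum, Fintype.sum_sum_type, hg]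
        simp [AlgHom.prodMap]
      · rw [Prod.snd_sum, Fintype.sum_sum_type, hg']
        simp [AlgHom.prodMap])
  have e : RingHom.ker (c.φ.prod c'.φ) = RingHom.ker c.φ ⊓ RingHom.ker c'.φ := by
    ext x
    simp only [RingHom.mem_ker, Ideal.mem_inf, AlgHom.prod_apply, Prod.ext_iff]
    rfl
  rwa [e] at h

theorem CF.two {N : Ideal H} (h : CF k N) : N.IsTwoSided := by
  obtain ⟨Z, _, _, _, c, _, rfl⟩ := h
  infer_instance

/-- `H ⧸ N` embeds in the noetherian `H`-module `T` (`Cov.CFin.isNoetherian`) -/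
theorem CF.isNoetherian {N : Ideal H} (h : CF k N) : IsNoetherian H (H ⧸ N) := by
  obtain ⟨Z, _, _, _, c, hc, rfl⟩ := h
  let : Module H c.T := Module.compHom c.T (c.φ : H →+* c.T)
  have hs : ∀ (h : H) (m : c.T), h • m = c.φ h • m := fun _ _ => rfl
  have : IsNoetherian H c.T := hc.isNoetherian c.T hs
  let f : H →ₗ[H] c.T :=
    { toFun := c.φ
      map_add' := map_add c.φ
      map_smul' := fun r x => by
        rw [smul_eq_mul, map_mul, RingHom.id_apply, hs, smul_eq_mul] }
  have hker : RingHom.ker c.φ = LinearMap.ker f := by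
    ext x
    rfl
  exact isNoetherian_of_injective (Submodule.liftQ (RingHom.ker c.φ) f hker.le)
    (LinearMap.ker_eq_bot.1 (Submodule.ker_liftQ_eq_bot _ _ _ hker.ge))

/-- `R ⊗ Rᵐᵒᵖ → T ⊗ Tᵐᵒᵖ` is injective (`k` is a field), the target is finite over the noetherian ring
`Z ⊗ Z` and generated over the source by the central elements `z ⊗ z'`; apply `fj`. -/
theorem CF.isNoetherianRing_env {N : Ideal H} [N.IsTwoSided] (h : CF k N) :
    IsNoetherianRing ((H ⧸ N) ⊗[k] (H ⧸ N)ᵐᵒᵖ) := by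
  obtain ⟨Z, _, _, _, c, hc, hN⟩ := h
  obtain ⟨n, a, ha⟩ := pi1_gens c
  obtain ⟨s, hs⟩ := pi1_cgens hc
  let ψ : (H ⧸ N) →ₐ[k] c.T :=
    Ideal.Quotient.liftₐ N c.φ fun x hx => RingHom.mem_ker.1 (hN ▸ hx)
  have hψ : ∀ x : H, ψ (Ideal.Quotient.mk N x) = c.φ x := fun _ => rfl
  have hψi : Function.Injective ψ := by
    rw [injective_iff_map_eq_zero]
    intro x hx
    obtain ⟨x, rfl⟩ := Ideal.Quotient.mk_surjective x
    rw [hψ] at hx
    exact Ideal.Quotient.eq_zero_iff_mem.2 (hN ▸ RingHom.mem_ker.2 hx)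
  let ψ' : (H ⧸ N)ᵐᵒᵖ →ₐ[k] c.Tᵐᵒᵖ := AlgHom.op ψ
  have hψ' : ∀ x, ψ' (MulOpposite.op x) = MulOpposite.op (ψ x) := fun _ => rfl
  have hψ'i : Function.Injective ψ' := by
    intro x y hxy
    apply MulOpposite.unop_injective
    apply hψi
    exact congrArg MulOpposite.unop hxy
  let ι' : Z →ₐ[k] c.Tᵐᵒᵖ := IsScalarTower.toAlgHom k Z c.Tᵐᵒᵖ
  have hι' : ∀ z, ι' z = MulOpposite.op (c.ι z) := fun _ => rfl
  have hι'm : ∀ z t, ι' z * MulOpposite.op t = MulOpposite.op (c.ι z * t) := by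
    intro z t
    rw [hι', ← MulOpposite.op_mul, pi1_ι_comm]
  have : Algebra.FiniteType k (Z ⊗[k] Z) :=
    Algebra.FiniteType.trans (S := Z) inferInstance inferInstance
  let Φ := Algebra.TensorProduct.map ψ ψ'
  let ι := Algebra.TensorProduct.map c.ι ι'
  have hΦi : Function.Injective Φ :=
    TensorProduct.map_injective_of_flat_flat ψ.toLinearMap ψ'.toLinearMap hψi hψ'i
  have h := pi1_CF_of ι
    (fun z t => by
      induction z using TensorProduct.induction_on with
      | zero => simp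
      | add x y hx hy => rw [map_add, add_mul, mul_add, hx, hy]
      | tmul x y =>
        induction t using TensorProduct.induction_on with
        | zero => simp
        | add u v hu hv => rw [mul_add, add_mul, hu, hv]
        | tmul u v =>
          rw [Algebra.TensorProduct.map_tmul, Algebra.TensorProduct.tmul_mul_tmul,
            Algebra.TensorProduct.tmul_mul_tmul, pi1_ι_comm]
          exact congrArg _ (Algebra.commutes y v))
    Φ (I := Fin n × Fin n) (J := s × s)
    (fun p => a p.1 ⊗ₜ[k] MulOpposite.op (a p.2))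
    (fun t => by
      induction t using TensorProduct.induction_on with
      | zero => exact ⟨fun _ => 0, by simp⟩
      | add u v hu hv =>
        obtain ⟨f, hf⟩ := hu
        obtain ⟨g, hg⟩ := hv
        refine ⟨fun i => f i + g i, ?_⟩
        rw [hf, hg, ← Finset.sum_add_distrib]
        exact Finset.sum_congr rfl fun i _ => by rw [map_add, add_mul]
      | tmul u v =>
        obtain ⟨f, hf⟩ := ha u
        obtain ⟨g, hg⟩ := ha v.unop
        refine ⟨fun p => f p.1 ⊗ₜ[k] g p.2, ?_⟩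
        have hv : v = ∑ j, ι' (g j) * MulOpposite.op (a j) := by
          simp only [hι'm]
          rw [← Finset.op_sum, ← hg, MulOpposite.op_unop]
        rw [hf, hv, Fintype.sum_prod_type, TensorProduct.sum_tmul]
        refine Finset.sum_congr rfl fun i _ => ?_
        rw [TensorProduct.tmul_sum]
        refine Finset.sum_congr rfl fun j _ => ?_
        rw [Algebra.TensorProduct.map_tmul, Algebra.TensorProduct.tmul_mul_tmul])
    (fun p => (p.1 : Z) ⊗ₜ[k] (p.2 : Z))
    (fun t => by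
      induction t using TensorProduct.induction_on with
      | zero => exact ⟨fun _ => 0, by simp⟩
      | add u v hu hv =>
        obtain ⟨f, hf⟩ := hu
        obtain ⟨g, hg⟩ := hv
        refine ⟨fun i => f i + g i, ?_⟩
        rw [hf, hg, ← Finset.sum_add_distrib]
        exact Finset.sum_congr rfl fun i _ => by rw [map_add, mul_add]
      | tmul u v =>
        obtain ⟨f, hf⟩ := hs u
        obtain ⟨g, hg⟩ := hs v.unop
        refine ⟨fun p => Ideal.Quotient.mk N (f p.1) ⊗ₜ[k]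
          MulOpposite.op (Ideal.Quotient.mk N (g p.2)), ?_⟩
        have hv : v = ∑ j : s, ι' j * MulOpposite.op (c.φ (g j)) := by
          simp only [hι'm]
          rw [← Finset.op_sum, ← hg, MulOpposite.op_unop]
        rw [hf, hv, Fintype.sum_prod_type, TensorProduct.sum_tmul]
        refine Finset.sum_congr rfl fun i _ => ?_
        rw [TensorProduct.tmul_sum]
        refine Finset.sum_congr rfl fun j _ => ?_
        rw [Algebra.TensorProduct.map_tmul, Algebra.TensorProduct.map_tmul,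
          Algebra.TensorProduct.tmul_mul_tmul, hψ', hψ, hψ])
  have e : RingHom.ker Φ = ⊥ := (RingHom.injective_iff_ker_eq_bot Φ).1 hΦi
  rw [e] at h
  have h2 := h.isNoetherian
  exact isNoetherianRing_iff.2
    (isNoetherian_of_linearEquiv (Submodule.quotEquivOfEqBot _ rfl))

end

end Pool.Agent.Lib.MP_ff61db_al
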