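import Pool.Agent.Lib.MP_ff61db_al.PBase

set_option autoImplicit false

namespace Pool.Agent.Lib.MP_ff61db_al

open Polynomial TensorProduct

section
variable {k H : Type} [Field k] [Ring H] [Algebra k H]

open MulOpposite

variable (k) in
/-- the universal derivation -/
noncomputable def pi2D (h : H) : H ⊗[k] Hᵐᵒᵖ := h ⊗ₜ[k] 1 - 1 ⊗ₜ[k] op h

theorem pi2D_add (a b : H) : pi2D k (a + b) = pi2D k a + pi2D k b := by
  simp only [pi2D, op_add, add_tmul, tmul_add]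
  abel

theorem pi2D_sub (a b : H) : pi2D k (a - b) = pi2D k a - pi2D k b := by
  simp only [pi2D, op_sub, sub_tmul, tmul_sub]
  abel

theorem pi2D_zero : pi2D k (0 : H) = 0 := by simp [pi2D]

theorem pi2D_tmul (a b h : H) :
    (a ⊗ₜ[k] op b) * pi2D k h = (a * h) ⊗ₜ[k] op b - a ⊗ₜ[k] op (h * b) := by
  simp only [pi2D, mul_sub, Algebra.TensorProduct.tmul_mul_tmul, mul_one, op_mul]

theorem pi2D_mul (a b : H) :
    pi2D k (a * b) = (a ⊗ₜ[k] op 1) * pi2D k b + (1 ⊗ₜ[k] op b) * pi2D k a := by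
  rw [pi2D_tmul, pi2D_tmul, pi2D]
  simp only [mul_one, one_mul, op_one]
  abel

theorem pi2D_mul3 (a j b : H) :
    (a ⊗ₜ[k] op b) * pi2D k j = pi2D k (a * j * b) -
      (((a * j) ⊗ₜ[k] op 1) * pi2D k b + (1 ⊗ₜ[k] op (j * b)) * pi2D k a) := by
  rw [pi2D_tmul, pi2D_tmul, pi2D_tmul, pi2D]
  simp only [mul_one, one_mul, op_one, mul_assoc]
  abel

theorem pi2D_gen {g : ℕ} {x : Fin g → H} (hx : Gen k x) (h : H) :
    ∃ ω : Fin g → H ⊗[k] Hᵐᵒᵖ, pi2D k h = ∑ i, ω i * pi2D k (x i) := by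
  have hh : h ∈ Algebra.adjoin k (Set.range x) := by
    rw [show Algebra.adjoin k (Set.range x) = ⊤ from hx]; trivial
  induction hh using Algebra.adjoin_induction with
  | mem y hy =>
    obtain ⟨i, rfl⟩ := hy
    refine ⟨Pi.single i 1, ?_⟩
    rw [Finset.sum_eq_single i (fun j _ hj => by rw [Pi.single_eq_of_ne hj, zero_mul])
      (fun hi => absurd (Finset.mem_univ i) hi), Pi.single_eq_same, one_mul]
  | algebraMap c =>
    refine ⟨0, ?_⟩
    simp only [Pi.zero_apply, zero_mul, Finset.sum_const_zero, pi2D,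
      Algebra.algebraMap_eq_smul_one, op_smul, op_one, smul_tmul, sub_self]
  | add a b _ _ ha hb =>
    obtain ⟨ω, h1⟩ := ha
    obtain ⟨ω', h2⟩ := hb
    refine ⟨ω + ω', ?_⟩
    simp only [pi2D_add, h1, h2, Pi.add_apply, add_mul, Finset.sum_add_distrib]
  | mul a b _ _ ha hb =>
    obtain ⟨ω, h1⟩ := ha
    obtain ⟨ω', h2⟩ := hb
    refine ⟨fun i => (a ⊗ₜ[k] op 1) * ω' i + (1 ⊗ₜ[k] op b) * ω i, ?_⟩
    rw [pi2D_mul, h1, h2]
    simp only [add_mul, Finset.sum_add_distrib, Finset.mul_sum, mul_assoc]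

variable (k) in
/-- the map between the enveloping algebras -/
noncomputable def pi2P (N : Ideal H) [N.IsTwoSided] :
    H ⊗[k] Hᵐᵒᵖ →ₐ[k] (H ⧸ N) ⊗[k] (H ⧸ N)ᵐᵒᵖ :=
  Algebra.TensorProduct.map (Ideal.Quotient.mkₐ k N) (AlgHom.op (Ideal.Quotient.mkₐ k N))

theorem pi2P_tmul (N : Ideal H) [N.IsTwoSided] (a b : H) :
    pi2P k N (a ⊗ₜ[k] op b) = Ideal.Quotient.mk N a ⊗ₜ[k] op (Ideal.Quotient.mk N b) := rfl

theorem pi2P_surj (N : Ideal H) [N.IsTwoSided] : Function.Surjective (pi2P k N) := by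
  intro s
  induction s using TensorProduct.induction_on with
  | zero => exact ⟨0, map_zero _⟩
  | tmul r r' =>
    obtain ⟨a, rfl⟩ := Ideal.Quotient.mk_surjective r
    obtain ⟨b, hb⟩ := Ideal.Quotient.mk_surjective r'.unop
    exact ⟨a ⊗ₜ[k] op b, by rw [pi2P_tmul, hb, op_unop]⟩
  | add s t hs ht =>
    obtain ⟨a, rfl⟩ := hs
    obtain ⟨b, rfl⟩ := ht
    exact ⟨a + b, map_add _ _ _⟩

/-- an element of `N` whose derivative lies in the kernel times the derivatives lies in `N * N` -/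
theorem pi2_inj (N : Ideal H) [N.IsTwoSided] {g : ℕ} (x : Fin g → H)
    (κ : Fin g → H ⊗[k] Hᵐᵒᵖ) (hκ : ∀ i, pi2P k N (κ i) = 0) {n : H} (hn : n ∈ N)
    (h : pi2D k n = ∑ i, κ i * pi2D k (x i)) : n ∈ N * N := by
  obtain ⟨s, hs⟩ := (Ideal.Quotient.mkₐ k N).toLinearMap.exists_rightInverse_of_surjective
    (LinearMap.range_eq_top.2 Ideal.Quotient.mk_surjective)
  have hs' : ∀ r, Ideal.Quotient.mk N (s r) = r := fun r => DFunLike.congr_fun hs r
  have hsN : ∀ a, s (Ideal.Quotient.mk N a) - a ∈ N := fun a =>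
    Ideal.Quotient.eq.1 (hs' _)
  let lam : H ⊗[k] Hᵐᵒᵖ →ₗ[k] H := LinearMap.mul' k H ∘ₗ
    TensorProduct.map (s ∘ₗ (Ideal.Quotient.mkₐ k N).toLinearMap)
      (opLinearEquiv k).symm.toLinearMap
  have hlam : ∀ a b : H, lam (a ⊗ₜ[k] op b) = s (Ideal.Quotient.mk N a) * b := fun _ _ => rfl
  let Q : (H ⧸ N) ⊗[k] (H ⧸ N)ᵐᵒᵖ →ₗ[k] H ⊗[k] Hᵐᵒᵖ := TensorProduct.map s
    ((opLinearEquiv k).toLinearMap ∘ₗ s ∘ₗ (opLinearEquiv k).symm.toLinearMap)
  have hQ : ∀ r r' : H ⧸ N, Q (r ⊗ₜ[k] op r') = s r ⊗ₜ[k] op (s r') := fun _ _ => rfl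
  have key : ∀ (y : H) (e : H ⊗[k] Hᵐᵒᵖ),
      lam (e * pi2D k y) - lam (Q (pi2P k N e) * pi2D k y) ∈ N * N := by
    intro y e
    induction e using TensorProduct.induction_on with
    | zero => simp
    | tmul a b' =>
      obtain ⟨b, rfl⟩ := op_surjective b'
      rw [pi2P_tmul, hQ, pi2D_tmul, pi2D_tmul, map_sub, map_sub, hlam, hlam, hlam, hlam,
        map_mul (Ideal.Quotient.mk N), map_mul (Ideal.Quotient.mk N), hs']
      have h1 : s (Ideal.Quotient.mk N a * Ideal.Quotient.mk N y) -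
          s (Ideal.Quotient.mk N a) * y ∈ N := by
        rw [← Ideal.Quotient.eq, hs', map_mul, hs']
      have h2 := Ideal.mul_mem_mul h1 (N.neg_mem (hsN b))
      have h3 : ∀ u v b b' : H, u * b - v * (y * b) - (u * b' - v * (y * b')) =
          (u - v * y) * -(b' - b) := fun u v b b' => by noncomm_ring
      rw [h3]
      exact h2
    | add e e' he he' =>
      simp only [map_add, add_mul]
      rw [add_sub_add_comm]
      exact Submodule.add_mem _ he he'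
  have h4 : lam (pi2D k n) ∈ N * N := by
    rw [h, map_sum]
    refine Submodule.sum_mem _ fun i _ => ?_
    have := key (x i) (κ i)
    rwa [hκ, map_zero, zero_mul, map_zero, sub_zero] at this
  rw [pi2D, ← op_one, map_sub, hlam, hlam, Ideal.Quotient.eq_zero_iff_mem.2 hn, map_zero, zero_mul,
    zero_sub] at h4
  have h5 := Submodule.add_mem _ h4 (Ideal.mul_mem_mul (hsN 1) hn)
  have h6 : ∀ u : H, -(u * n) + (u - 1) * n = -n := fun u => by noncomm_ring
  rw [h6] at h5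
  exact (Submodule.neg_mem_iff _).1 h5

/-- the submodule attached to an ideal -/
noncomputable def pi2U {g : ℕ} {x : Fin g → H} (hx : Gen k x) (N : Ideal H) [N.IsTwoSided]
    (J : Ideal H) (hJ : J.IsTwoSided) (hJN : J ≤ N) :
    Submodule ((H ⧸ N) ⊗[k] (H ⧸ N)ᵐᵒᵖ) (Fin g → (H ⧸ N) ⊗[k] (H ⧸ N)ᵐᵒᵖ) where
  carrier := {ω | ∃ j ∈ J, ∃ ω' : Fin g → H ⊗[k] Hᵐᵒᵖ, (∀ i, pi2P k N (ω' i) = ω i) ∧
    pi2D k j = ∑ i, ω' i * pi2D k (x i)}
  zero_mem' := ⟨0, J.zero_mem, 0, fun _ => map_zero _, by simp [pi2D_zero]⟩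
  add_mem' := by
    rintro _ _ ⟨j, hj, ω, h1, h2⟩ ⟨j', hj', ω', h1', h2'⟩
    refine ⟨j + j', J.add_mem hj hj', ω + ω', fun i => ?_, ?_⟩
    · rw [Pi.add_apply, map_add, h1, h1', Pi.add_apply]
    · simp only [pi2D_add, h2, h2', Pi.add_apply, add_mul, Finset.sum_add_distrib]
  smul_mem' := by
    rintro c ω₀ ⟨j, hj, ω, h1, h2⟩
    obtain ⟨e, rfl⟩ := pi2P_surj N c
    induction e using TensorProduct.induction_on with
    | zero =>
      refine ⟨0, J.zero_mem, 0, fun i => ?_, by simp [pi2D_zero]⟩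
      rw [Pi.zero_apply, map_zero, Pi.smul_apply, smul_eq_mul, zero_mul]
    | tmul a b' =>
      obtain ⟨b, rfl⟩ := op_surjective b'
      obtain ⟨α, hα⟩ := pi2D_gen hx a
      obtain ⟨β, hβ⟩ := pi2D_gen hx b
      refine ⟨a * j * b, J.mul_mem_right _ (J.mul_mem_left _ hj),
        fun i => (a ⊗ₜ[k] op b) * ω i +
          (((a * j) ⊗ₜ[k] op 1) * β i + (1 ⊗ₜ[k] op (j * b)) * α i), fun i => ?_, ?_⟩
      · rw [map_add, map_add, map_mul, map_mul, map_mul, h1, pi2P_tmul N (a * j),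
          pi2P_tmul N 1 (j * b), Ideal.Quotient.eq_zero_iff_mem.2 (hJN (J.mul_mem_left _ hj)),
          Ideal.Quotient.eq_zero_iff_mem.2 (hJN (J.mul_mem_right _ hj)), op_zero, zero_tmul,
          tmul_zero, zero_mul, zero_mul, add_zero, add_zero]
        rfl
      · rw [← eq_sub_iff_add_eq.1 (pi2D_mul3 (k := k) a j b), h2, hα, hβ]
        simp only [add_mul, Finset.sum_add_distrib, Finset.mul_sum, mul_assoc]
    | add e e' he he' =>
      obtain ⟨j₁, hj₁, ω₁, h3, h4⟩ := he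
      obtain ⟨j₂, hj₂, ω₂, h5, h6⟩ := he'
      refine ⟨j₁ + j₂, J.add_mem hj₁ hj₂, ω₁ + ω₂, fun i => ?_, ?_⟩
      · rw [Pi.add_apply, map_add, h3, h5, map_add, Pi.smul_apply, Pi.smul_apply, Pi.smul_apply,
          smul_eq_mul, smul_eq_mul, smul_eq_mul, add_mul]
      · simp only [pi2D_add, h4, h6, Pi.add_apply, add_mul, Finset.sum_add_distrib]

end

/-- Magnus-Lewin embedding.  Let `F = FreeAlgebra k (Fin g)`, `π : F → H` onto, `R = H ⧸ N`,
`S = R ⊗ Rᵐᵒᵖ`, `Ω = Fin g → S` (a noetherian left `S`-module, i.e. an `R`-bimodule).  Let `D : F → Ω` be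
the derivation with `D (x i) = Pi.single i 1` (for instance from the algebra map of `F` to
`TrivSqZeroExt`, or to upper triangular matrices, or by the monomial basis).  Choose a `k`-linear section
`σ : R → H` of the quotient map with `σ 1 = 1` (if `R` is trivial, `N * N = N = ⊤`), and let
`μ : Ω → H ⧸ (N * N)` be the linear map sending `r ⊗ op r'` in coordinate `i` to the class of
`σ r * (x i * σ r' - σ (mk (x i) * r'))`.  Then `μ (r • ω) = σ r * μ ω`, and by induction on words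
`μ (D f) = π f - σ (mk (π f))`.  So `μ (D f) = π f` for `π f ∈ N`.  The map `J ↦ D (π⁻¹ J)` sends two-sided
ideals `J ≤ N` to `S`-submodules of `Ω` and is strictly monotone on those containing `N * N`. -/
theorem acc2_of_env {k H : Type} [Field k] [Ring H] [Algebra k H] {g : ℕ} {x : Fin g → H}
    (hx : Gen k x) (N : Ideal H) [N.IsTwoSided]
    (h : IsNoetherianRing ((H ⧸ N) ⊗[k] (H ⧸ N)ᵐᵒᵖ)) : Acc2 N := by
  let f : {J : Ideal H // J.IsTwoSided ∧ N * N ≤ J ∧ J ≤ N} ↪o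
      Submodule ((H ⧸ N) ⊗[k] (H ⧸ N)ᵐᵒᵖ) (Fin g → (H ⧸ N) ⊗[k] (H ⧸ N)ᵐᵒᵖ) :=
    OrderEmbedding.ofMapLEIff (fun J => pi2U hx N J.1 J.2.1 J.2.2.2) (fun J J' => by
      constructor
      · intro hle j hj
        obtain ⟨ω, hω⟩ := pi2D_gen hx j
        obtain ⟨j', hj', ω', h1, h2⟩ := hle (show (fun i => pi2P k N (ω i)) ∈
          pi2U hx N J.1 J.2.1 J.2.2.2 from ⟨j, hj, ω, fun _ => rfl, hω⟩)
        have h3 : j - j' ∈ N * N := pi2_inj N x (fun i => ω i - ω' i)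
          (fun i => by rw [map_sub, h1, sub_self]) (N.sub_mem (J.2.2.2 hj) (J'.2.2.2 hj'))
          (by simp only [pi2D_sub, hω, h2, sub_mul, Finset.sum_sub_distrib])
        have h4 := J'.1.add_mem (J'.2.2.1 h3) hj'
        rwa [sub_add_cancel] at h4
      · rintro hle ω ⟨j, hj, h1⟩
        exact ⟨j, hle hj, h1⟩)
  exact f.wellFoundedGT

end Pool.Agent.Lib.MP_ff61db_al
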