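import Pool.Agent.Lib.MP_ff61db_al.PGP
import Pool.Agent.Lib.MP_ff61db_al.PExt
import Pool.Agent.Lib.MP_ff61db_al.PGeo

set_option autoImplicit false

namespace Pool.Agent.Lib.MP_ff61db_al

open Polynomial TensorProduct

section
variable {k H : Type} [Field k] [Ring H] [Algebra k H]

/-- right multiplication as an action of the opposite algebra -/
def pj1R {W : Type} [Ring W] [Algebra k W] (π : H →ₐ[k] W) : Hᵐᵒᵖ →ₐ[k] Module.End k W where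
  toFun h := LinearMap.mulRight k (π h.unop)
  map_one' := by ext w; simp
  map_mul' a b := by ext w; simp [mul_assoc]
  map_zero' := by ext w; simp
  map_add' a b := by ext w; simp [mul_add]
  commutes' c := by
    ext w
    simp [Algebra.algebraMap_eq_smul_one]

theorem pj1R_apply {W : Type} [Ring W] [Algebra k W] (π : H →ₐ[k] W) (h : Hᵐᵒᵖ) (w : W) :
    pj1R π h w = w * π h.unop := rfl

theorem pj1_ann_inv {B : Type} [AddCommGroup B] [Module k B] (ρ : H →ₐ[k] Module.End k B)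
    (P : Ideal H) [P.IsTwoSided] (h : H) {w : B} (hw : w ∈ annS ρ P) : ρ h w ∈ annS ρ P := by
  rw [mem_annS] at hw ⊢
  intro p hp
  rw [← Module.End.mul_apply, ← map_mul]
  exact hw _ (P.mul_mem_right _ hp)

theorem pj1_ann_comm {B : Type} [AddCommGroup B] [Module k B] (ρ : H →ₐ[k] Module.End k B)
    (P : Ideal H) (u : Module.End k B) (hu : ∀ h, Commute (ρ h) u) {w : B} (hw : w ∈ annS ρ P) :
    u w ∈ annS ρ P := by
  rw [mem_annS] at hw ⊢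
  intro p hp
  rw [← Module.End.mul_apply, (hu p).eq, Module.End.mul_apply, hw p hp, map_zero]

/-- `W = H ⧸ J₀` with left multiplication `ρ` of `H` and right multiplication `ρ'` of `Hᵐᵒᵖ`; `X` is the
image of `N`.  Apply `exists_good` to `(ρ, X)`, then to `(ρ', X ⊓ annS ρ (ker φ))` (`Gen.op`, `MPI.op`), then
`exists_ext₂` (lifts of `τ.a` exist by `τ.ha 1`; use `z = 1`). -/
theorem exists_bi [IsAlgClosed k] {g d : ℕ} {x : Fin g → H} (hx : Gen k x) (hd : MPI k H d)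
    (hS : Struct k H) (hS' : Struct k Hᵐᵒᵖ) (J₀ N : Ideal H) [J₀.IsTwoSided] [N.IsTwoSided]
    (hlt : J₀ < N) : Nonempty (Bi k H J₀ N) := by
  let π := Ideal.Quotient.mkₐ k J₀
  let ρ : H →ₐ[k] Module.End k (H ⧸ J₀) := (Algebra.lmul k (H ⧸ J₀)).comp π
  have hρ : ∀ h w, ρ h w = π h * w := fun _ _ => rfl
  have hcomm : ∀ h h', Commute (ρ h) (pj1R π h') := fun h h' => by
    refine LinearMap.ext fun w => ?_
    rw [Module.End.mul_apply, Module.End.mul_apply, hρ, pj1R_apply, pj1R_apply, hρ, mul_assoc]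
  let X : Submodule k (H ⧸ J₀) := (N.restrictScalars k).map π.toLinearMap
  have hX : X ≠ ⊥ := by
    obtain ⟨n, hn, hn'⟩ := SetLike.exists_of_lt hlt
    exact (Submodule.ne_bot_iff _).2 ⟨π n, ⟨n, hn, rfl⟩,
      fun h => hn' (Ideal.Quotient.eq_zero_iff_mem.1 h)⟩
  have hinv : ∀ h : H, ∀ w ∈ X, ρ h w ∈ X := by
    rintro h _ ⟨n, hn, rfl⟩
    exact ⟨h * n, N.mul_mem_left h hn, map_mul π h n⟩
  have hinv' : ∀ h : Hᵐᵒᵖ, ∀ w ∈ X, pj1R π h w ∈ X := by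
    rintro h _ ⟨n, hn, rfl⟩
    exact ⟨n * h.unop, N.mul_mem_right _ hn, map_mul π n h.unop⟩
  obtain ⟨τ, hX₁, hreg⟩ := exists_good hx hd hS ρ X hX hinv
  have hinv₁' : ∀ h : Hᵐᵒᵖ, ∀ w ∈ X ⊓ annS ρ (RingHom.ker τ.c.φ),
      pj1R π h w ∈ X ⊓ annS ρ (RingHom.ker τ.c.φ) := fun h w hw =>
    ⟨hinv' h w hw.1, pj1_ann_comm ρ _ _ (fun h' => hcomm h' h) hw.2⟩
  obtain ⟨τ', hX₂, hreg'⟩ := exists_good hx.op hd.op hS' (pj1R π) _ hX₁ hinv₁'
  obtain ⟨h₀, hh₀⟩ := τ.ha 1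
  obtain ⟨h₀', hh₀'⟩ := τ'.ha 1
  rw [← Algebra.algebraMap_eq_smul_one] at hh₀ hh₀'
  obtain ⟨Y, _, _, _, ψ, ψ', ι, hc, hi, hl, hr, hs⟩ := exists_ext₂ τ.c τ'.c ρ (pj1R π) hcomm _ hX₂
    (fun h w hw => ⟨⟨hinv h w hw.1.1, pj1_ann_inv ρ _ h hw.1.2⟩,
      pj1_ann_comm _ _ _ (fun h' => (hcomm h h').symm) hw.2⟩)
    (fun h w hw => ⟨hinv₁' h w hw.1, pj1_ann_inv _ _ h hw.2⟩)
    τ.a τ.ha h₀ hh₀ (fun h hh w hw => (mem_annS _ _ _).1 hw.1.2 h hh)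
    (fun w hw => hreg 1 one_ne_zero h₀ (by rw [mul_one, hh₀]) w hw.1)
    τ'.a τ'.ha h₀' hh₀' (fun h hh w hw => (mem_annS _ _ _).1 hw.2 h hh)
    (fun w hw => hreg' 1 one_ne_zero h₀' (by rw [mul_one, hh₀']) w hw)
  exact ⟨{
    τ := τ
    τ' := τ'
    Y := Y
    ψ := ψ
    ψ' := ψ'
    comm := hc
    ι := ι
    inj := hi
    left := hl
    right := fun h y => hr _ y
    sub := fun y => by
      obtain ⟨n, hn, e⟩ := (hs y).1.1
      exact ⟨n, hn, e.symm⟩ }⟩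

variable {J₀ N : Ideal H} [J₀.IsTwoSided]

/-- the two-sided ideal of `H` attached to a subspace `U` of `Y` stable under both actions of `H` -/
theorem Bi.exists_ideal (β : Bi k H J₀ N) (U : Submodule k β.Y)
    (hl : ∀ h, ∀ y ∈ U, β.ψ (β.τ.c.φ h) y ∈ U) (hr : ∀ h, ∀ y ∈ U, β.ψ' (β.τ'.c.φ h) y ∈ U)
    (hle : J₀ ≤ N) :
    ∃ J : Ideal H, J.IsTwoSided ∧ J₀ ≤ J ∧ J ≤ N ∧
      ∀ h : H, h ∈ J ↔ ∃ y ∈ U, β.ι y = Ideal.Quotient.mk J₀ h := by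
  let J : Ideal H :=
    { carrier := {h | ∃ y ∈ U, β.ι y = Ideal.Quotient.mk J₀ h}
      add_mem' := by
        rintro a b ⟨y, hy, e⟩ ⟨y', hy', e'⟩
        exact ⟨y + y', U.add_mem hy hy', by rw [map_add, map_add, e, e']⟩
      zero_mem' := ⟨0, U.zero_mem, by rw [map_zero, map_zero]⟩
      smul_mem' := by
        rintro r a ⟨y, hy, e⟩
        exact ⟨_, hl r y hy, by rw [β.left, e, smul_eq_mul, map_mul]⟩ }
  refine ⟨J, ⟨?_⟩, fun h hh => ?_, ?_, fun _ => Iff.rfl⟩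
  · rintro a r ⟨y, hy, e⟩
    exact ⟨_, hr (MulOpposite.op r) y hy, by rw [β.right, e, map_mul]⟩
  · exact ⟨0, U.zero_mem, by rw [map_zero, Ideal.Quotient.eq_zero_iff_mem.2 hh]⟩
  · rintro h ⟨y, -, e⟩
    obtain ⟨n, hn, e'⟩ := β.sub y
    have h1 := N.add_mem (hle (Ideal.Quotient.eq.1 (e.symm.trans e'))) hn
    rwa [sub_add_cancel] at h1

/-- the subspace generated by a finite set is stable under an operator normalising the family -/
theorem pj1_stable {B : Type} [AddCommGroup B] [Module k B] (O : Set (Module.End k B))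
    (s : Finset B) (u : Module.End k B) (hu : ∀ o ∈ O, u * o ∈ O) :
    ∀ y ∈ Submodule.span k {b | ∃ o ∈ O, ∃ b₀ ∈ s, b = o b₀},
      u y ∈ Submodule.span k {b | ∃ o ∈ O, ∃ b₀ ∈ s, b = o b₀} := by
  intro y hy
  induction hy using Submodule.span_induction with
  | mem y hy =>
    obtain ⟨o, ho, b₀, hb₀, rfl⟩ := hy
    exact Submodule.subset_span ⟨u * o, hu o ho, b₀, hb₀, rfl⟩
  | zero =>
    rw [map_zero]
    exact Submodule.zero_mem _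
  | add a b _ _ ha hb =>
    rw [map_add]
    exact Submodule.add_mem _ ha hb
  | smul c a _ ha =>
    rw [map_smul]
    exact Submodule.smul_mem _ _ ha

/-- `Y` is a finitely generated bimodule: among the sub-bimodules generated by finite subsets take
one whose ideal (`Bi.exists_ideal`) is maximal. -/
theorem Bi.fg_bimod (β : Bi k H J₀ N) (hacc : Acc2 N) (h1 : N * N ≤ J₀) (h2 : J₀ ≤ N) :
    FGby {o | ∃ h h', o = β.ψ (β.τ.c.φ h) * β.ψ' (β.τ'.c.φ h')} := by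
  classical
  have key := fun s : Finset β.Y => β.exists_ideal (Submodule.span k
    {b | ∃ o ∈ {o | ∃ h h', o = β.ψ (β.τ.c.φ h) * β.ψ' (β.τ'.c.φ h')}, ∃ b₀ ∈ s, b = o b₀})
    (fun h => pj1_stable _ s _ (by
      rintro _ ⟨h₁, h₁', rfl⟩
      exact ⟨h * h₁, h₁', by rw [map_mul, map_mul, mul_assoc]⟩))
    (fun h => pj1_stable _ s _ (by
      rintro _ ⟨h₁, h₁', rfl⟩
      exact ⟨h₁, h * h₁', by
        rw [map_mul, map_mul, ← mul_assoc, ← mul_assoc, (β.comm _ _).eq]⟩)) h2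
  choose J hJ hJ0 hJN hJU using key
  let F : Finset β.Y → {J : Ideal H // J.IsTwoSided ∧ N * N ≤ J ∧ J ≤ N} :=
    fun s => ⟨J s, hJ s, h1.trans (hJ0 s), hJN s⟩
  obtain ⟨_, ⟨s, rfl⟩, hmax⟩ := hacc.wf.has_min (Set.range F) ⟨_, ∅, rfl⟩
  refine ⟨s, eq_top_iff.2 fun y _ => ?_⟩
  have hle : F s ≤ F (insert y s) := by
    intro h hh
    obtain ⟨y', hy', e⟩ := (hJU s h).1 hh
    refine (hJU _ h).2 ⟨y', Submodule.span_mono ?_ hy', e⟩
    rintro _ ⟨o, ho, b₀, hb₀, rfl⟩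
    exact ⟨o, ho, b₀, Finset.mem_insert_of_mem hb₀, rfl⟩
  have heq : F s = F (insert y s) := eq_of_le_of_not_lt hle (hmax _ ⟨_, rfl⟩)
  obtain ⟨h, hh⟩ := Ideal.Quotient.mk_surjective (β.ι y)
  have h3 : h ∈ J (insert y s) := (hJU _ h).2 ⟨y, Submodule.subset_span
    ⟨1, ⟨1, 1, by simp⟩, y, Finset.mem_insert_self _ _, rfl⟩, hh.symm⟩
  rw [← show J s = J (insert y s) from congrArg Subtype.val heq] at h3
  obtain ⟨y', hy', e⟩ := (hJU s h).1 h3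
  rwa [← β.inj (e.trans hh)]

/-- `T` and `T'` are finite over `Z` and `Z'` -/
theorem Bi.fg_centre (β : Bi k H J₀ N)
    (h : FGby {o | ∃ h h', o = β.ψ (β.τ.c.φ h) * β.ψ' (β.τ'.c.φ h')}) :
    FGby {o | ∃ z z', o = (β.ψ.comp β.τ.c.ι) z * (β.ψ'.comp β.τ'.c.ι) z'} := by
  classical
  obtain ⟨s, hs⟩ := h
  obtain ⟨S, hS⟩ := Module.Finite.fg_top (R := β.τ.Z) (M := β.τ.c.T)
  obtain ⟨S', hS'⟩ := Module.Finite.fg_top (R := β.τ'.Z) (M := β.τ'.c.T)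
  refine ⟨(S ×ˢ S' ×ˢ s).image fun p => β.ψ p.1 (β.ψ' p.2.1 p.2.2), ?_⟩
  have hl := fun z : β.τ.Z => pj1_stable
    {o | ∃ z z', o = (β.ψ.comp β.τ.c.ι) z * (β.ψ'.comp β.τ'.c.ι) z'}
    ((S ×ˢ S' ×ˢ s).image fun p => β.ψ p.1 (β.ψ' p.2.1 p.2.2)) ((β.ψ.comp β.τ.c.ι) z) (by
      rintro _ ⟨z₁, z₁', rfl⟩
      exact ⟨z * z₁, z₁', by rw [map_mul, mul_assoc]⟩)
  have hr := fun z : β.τ'.Z => pj1_stable
    {o | ∃ z z', o = (β.ψ.comp β.τ.c.ι) z * (β.ψ'.comp β.τ'.c.ι) z'}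
    ((S ×ˢ S' ×ˢ s).image fun p => β.ψ p.1 (β.ψ' p.2.1 p.2.2)) ((β.ψ'.comp β.τ'.c.ι) z) (by
      rintro _ ⟨z₁, z₁', rfl⟩
      refine ⟨z₁, z * z₁', ?_⟩
      rw [map_mul, ← mul_assoc, ← mul_assoc]
      exact congrArg (· * _) (β.comm _ _).eq.symm)
  have hb : ∀ t ∈ S, ∀ t' ∈ S', ∀ b₀ ∈ s, β.ψ t (β.ψ' t' b₀) ∈ Submodule.span k
      {b | ∃ o ∈ {o | ∃ z z', o = (β.ψ.comp β.τ.c.ι) z * (β.ψ'.comp β.τ'.c.ι) z'},
        ∃ b₀ ∈ (S ×ˢ S' ×ˢ s).image fun p => β.ψ p.1 (β.ψ' p.2.1 p.2.2), b = o b₀} :=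
    fun t ht t' ht' b₀ hb₀ => Submodule.subset_span ⟨1, ⟨1, 1, by simp⟩, _,
      Finset.mem_image.2 ⟨(t, t', b₀), by simp [ht, ht', hb₀], rfl⟩, rfl⟩
  generalize Submodule.span k
      {b | ∃ o ∈ {o | ∃ z z', o = (β.ψ.comp β.τ.c.ι) z * (β.ψ'.comp β.τ'.c.ι) z'},
        ∃ b₀ ∈ (S ×ˢ S' ×ˢ s).image fun p => β.ψ p.1 (β.ψ' p.2.1 p.2.2), b = o b₀} = V
    at hl hr hb
  have hb2 : ∀ t ∈ S, ∀ b₀ ∈ s, ∀ t', β.ψ t (β.ψ' t' b₀) ∈ V := by
    intro t ht b₀ hb₀ t'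
    have ht' : t' ∈ Submodule.span β.τ'.Z (S' : Set β.τ'.c.T) := by rw [hS']; trivial
    induction ht' using Submodule.span_induction with
    | mem t' ht' => exact hb t ht t' ht' b₀ hb₀
    | zero => simp
    | add a b _ _ ha hb =>
      rw [map_add, LinearMap.add_apply, map_add]
      exact V.add_mem ha hb
    | smul z a _ ha =>
      rw [Algebra.smul_def, map_mul, Module.End.mul_apply, ← Module.End.mul_apply (β.ψ t),
        (β.comm _ _).eq, Module.End.mul_apply]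
      exact hr z _ ha
  have hb3 : ∀ b₀ ∈ s, ∀ t' t, β.ψ t (β.ψ' t' b₀) ∈ V := by
    intro b₀ hb₀ t' t
    have ht : t ∈ Submodule.span β.τ.Z (S : Set β.τ.c.T) := by rw [hS]; trivial
    induction ht using Submodule.span_induction with
    | mem t ht => exact hb2 t ht b₀ hb₀ t'
    | zero => simp
    | add a b _ _ ha hb =>
      rw [map_add, LinearMap.add_apply]
      exact V.add_mem ha hb
    | smul z a _ ha =>
      rw [Algebra.smul_def, map_mul, Module.End.mul_apply]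
      exact hl z _ ha
  rw [eq_top_iff, ← hs, Submodule.span_le]
  rintro _ ⟨_, ⟨h, h', rfl⟩, b₀, hb₀, rfl⟩
  exact hb3 b₀ hb₀ _ _

end

end Pool.Agent.Lib.MP_ff61db_al
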