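import Pool.Agent.Lib.MP_ff61db_al.PGP

set_option autoImplicit false

namespace Pool.Agent.Lib.MP_ff61db_al

open Polynomial TensorProduct

section
variable {k H : Type} [Field k] [Ring H] [Algebra k H]

theorem prf_surj {E : Type} [AddCommGroup E] [Module H E] [Module.Finite H E] (b : Ideal H)
    (h : ∀ u ∈ b, ∀ e : E, u • e = 0) :
    ∃ (n : ℕ) (L : (Fin n → H ⧸ b) →ₗ[H] E), Function.Surjective L := by
  obtain ⟨n, s, hs⟩ := Module.Finite.exists_fin (R := H) (M := E)
  let l : Fin n → (H ⧸ b) →ₗ[H] E := fun i =>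
    Submodule.liftQ b (LinearMap.toSpanSingleton H E (s i)) (fun u hu => h u hu _)
  refine ⟨n, ∑ i, l i ∘ₗ LinearMap.proj i, ?_⟩
  rw [← LinearMap.range_eq_top, eq_top_iff, ← hs, Submodule.span_le]
  rintro _ ⟨i, rfl⟩
  refine ⟨Pi.single i (Submodule.Quotient.mk 1), ?_⟩
  rw [LinearMap.sum_apply, Finset.sum_eq_single i]
  · rw [LinearMap.comp_apply, LinearMap.proj_apply, Pi.single_eq_same]
    exact one_smul H (s i)
  · intro j _ hj
    simp [Pi.single_eq_of_ne hj]
  · simp

theorem prf_fd_quot {V : Type} [AddCommGroup V] [Module k V] [FiniteDimensional k V]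
    (f : H →ₗ[k] V) (b : Ideal H) (h : ∀ u, f u = 0 → u ∈ b) : FiniteDimensional k (H ⧸ b) := by
  have h1 : FiniteDimensional k (H ⧸ LinearMap.ker f) :=
    LinearEquiv.finiteDimensional f.quotKerEquivRange.symm
  refine Module.Finite.of_surjective ((LinearMap.ker f).liftQ ((Submodule.mkQ b).restrictScalars k)
    (fun u hu => (Submodule.Quotient.mk_eq_zero b).2 (h u hu))) ?_
  intro y
  obtain ⟨u, rfl⟩ := Submodule.Quotient.mk_surjective b y
  exact ⟨Submodule.Quotient.mk u, rfl⟩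

theorem prf_fd_ann {E : Type} [AddCommGroup E] [Module k E] [Module H E] [IsScalarTower k H E]
    [FiniteDimensional k E] : FiniteDimensional k (H ⧸ Module.annihilator H E) :=
  prf_fd_quot (Algebra.lsmul k k E : H →ₐ[k] Module.End k E).toLinearMap _ fun _ hu =>
    Module.mem_annihilator.2 fun e => LinearMap.congr_fun hu e

/-- a finitely generated module killed by a cofinite ideal is finite-dimensional -/
theorem fd_of_cofinite {E : Type} [AddCommGroup E] [Module k E] [Module H E] [IsScalarTower k H E]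
    [Module.Finite H E] (b : Ideal H) (hb : FiniteDimensional k (H ⧸ b))
    (h : ∀ u ∈ b, ∀ e : E, u • e = 0) : FiniteDimensional k E := by
  obtain ⟨n, L, hL⟩ := prf_surj b h
  exact Module.Finite.of_surjective (L.restrictScalars k) hL

/-- Let `E₁` be killed by the two-sided ideal `J` with `H ⧸ J` noetherian, `P` two-sided and
`P E₁ ⊆ A` with `A` finite-dimensional.  Let `K = ann E₁ ≥ J`.  `(P + K) / K` is a finitely generated left
module killed by the cofinite ideal `ann A`, so it is finite-dimensional; the kernel `b` of the right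
action of `H` on it is a cofinite two-sided ideal with `P b ⊆ K`. -/
theorem exists_cofinite_mul {E : Type} [AddCommGroup E] [Module k E] [Module H E]
    [IsScalarTower k H E] (J : Ideal H) [J.IsTwoSided] [IsNoetherian H (H ⧸ J)]
    (E₁ A : Submodule H E) (hJ : ∀ u ∈ J, ∀ e ∈ E₁, u • e = 0)
    (hA : FiniteDimensional k (A.restrictScalars k)) (P : Ideal H) [P.IsTwoSided]
    (hP : ∀ u ∈ P, ∀ e ∈ E₁, u • e ∈ A) :
    ∃ b : Ideal H, b.IsTwoSided ∧ FiniteDimensional k (H ⧸ b) ∧
      ∀ u ∈ P, ∀ v ∈ b, ∀ e ∈ E₁, u • v • e = 0 := by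
  have hA' : FiniteDimensional k A := hA
  let Φ : H →ₗ[H] (E₁ →ₗ[k] E) := LinearMap.toSpanSingleton H _ (E₁.subtype.restrictScalars k)
  have hΦ : ∀ u (e : E₁), Φ u e = u • (e : E) := fun u e => rfl
  let M : Submodule H (E₁ →ₗ[k] E) := Submodule.map Φ P
  have hM : Module.Finite H M := by
    let Φ' : (H ⧸ J) →ₗ[H] (E₁ →ₗ[k] E) := Submodule.liftQ J Φ
      (fun u hu => LinearMap.ext fun e => hJ u hu e e.2)
    have e : M = Submodule.map Φ' (Submodule.map (Submodule.mkQ J) P) := by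
      rw [← Submodule.map_comp]
      rfl
    rw [Module.Finite.iff_fg, e]
    exact (IsNoetherian.noetherian _).map _
  have hfd : FiniteDimensional k M := by
    refine fd_of_cofinite (Module.annihilator H A) prf_fd_ann ?_
    rintro u hu ⟨_, w, hw, rfl⟩
    refine Subtype.ext (LinearMap.ext fun e => ?_)
    exact congrArg Subtype.val (Module.mem_annihilator.1 hu ⟨_, hP w hw e e.2⟩)
  let R : H →ₗ[k] M →ₗ[k] M := LinearMap.mk₂ k
    (fun v m => ⟨m.1 ∘ₗ (Algebra.lsmul k k E₁ v), by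
      obtain ⟨w, hw, e⟩ := m.2
      refine ⟨w * v, Ideal.mul_mem_right _ _ hw, ?_⟩
      rw [← e]
      exact LinearMap.ext fun e => mul_smul w v (e : E)⟩)
    (fun v v' m => Subtype.ext (by simp only [map_add, LinearMap.comp_add]; rfl))
    (fun c v m => Subtype.ext (by simp only [map_smul, LinearMap.comp_smul]; rfl))
    (fun v m m' => rfl) (fun c v m => rfl)
  let b : Ideal H :=
    { carrier := {v | ∀ u ∈ P, ∀ e ∈ E₁, u • v • e = 0}
      add_mem' := fun {v v'} hv hv' u hu e he => by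
        rw [add_smul, smul_add, hv u hu e he, hv' u hu e he, add_zero]
      zero_mem' := fun u _ e _ => by rw [zero_smul, smul_zero]
      smul_mem' := fun r v hv u hu e he => by
        rw [smul_eq_mul, mul_smul, ← mul_smul u r]
        exact hv _ (Ideal.mul_mem_right _ _ hu) e he }
  refine ⟨b, ⟨fun {v} r hv u hu e he => ?_⟩, prf_fd_quot (V := M →ₗ[k] M) R b fun v hv u hu e he => ?_,
    fun u hu v hv e he => hv u hu e he⟩
  · rw [mul_smul]
    exact hv u hu _ (E₁.smul_mem r he)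
  · exact LinearMap.congr_fun (congrArg Subtype.val
      (LinearMap.congr_fun hv ⟨Φ u, u, hu, rfl⟩)) ⟨e, he⟩

theorem prf_fd_comap {E : Type} [AddCommGroup E] [Module k E] [Module H E] [IsScalarTower k H E]
    (A B : Submodule H E) (hA : FiniteDimensional k (A.restrictScalars k))
    (hB : FiniteDimensional k ((B.map A.mkQ).restrictScalars k)) :
    FiniteDimensional k (B.restrictScalars k) := by
  rw [FiniteDimensional, Module.Finite.iff_fg]
  refine Submodule.fg_of_fg_map_of_fg_inf_ker (A.mkQ.restrictScalars k) ?_ ?_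
  · exact Module.Finite.iff_fg.1 hB
  · refine Module.Finite.iff_fg.1 (Submodule.finiteDimensional_of_le (S₂ := A.restrictScalars k) ?_)
    intro e he
    exact (Submodule.Quotient.mk_eq_zero A).1 he.2

/-- the vectors sent into `A` by the two-sided ideal `P` -/
def prf_col {E : Type} [AddCommGroup E] [Module H E] (P : Ideal H) [P.IsTwoSided]
    (A : Submodule H E) : Submodule H E where
  carrier := {e | ∀ u ∈ P, u • e ∈ A}
  add_mem' := fun {e e'} he he' u hu => by
    rw [smul_add]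
    exact A.add_mem (he u hu) (he' u hu)
  zero_mem' := fun u _ => by
    rw [smul_zero]
    exact A.zero_mem
  smul_mem' := fun r e he u hu => by
    rw [← mul_smul]
    exact he _ (Ideal.mul_mem_right _ _ hu)

theorem prf_lift (τ : Tr k H) (hT : ¬ FiniteDimensional k (H ⧸ RingHom.ker τ.c.φ)) {V : Type}
    [AddCommGroup V] [Module k V] [FiniteDimensional k V] (f : H →ₗ[k] V) :
    ∃ z : τ.Z, z ≠ 0 ∧ ∃ h : H, τ.c.φ h = algebraMap τ.Z τ.c.T (τ.a * z) ∧ f h = 0 := by
  by_contra hn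
  push Not at hn
  obtain ⟨g, hg⟩ := τ.c.φ.toLinearMap.rangeRestrict.exists_rightInverse_of_surjective
    (LinearMap.range_rangeRestrict _)
  let ψ : τ.Z →ₗ[k] LinearMap.range τ.c.φ.toLinearMap :=
    LinearMap.codRestrict _ (τ.c.ι.toLinearMap ∘ₗ LinearMap.mulLeft k τ.a) fun z => by
      obtain ⟨h, hh⟩ := τ.ha (algebraMap τ.Z τ.c.T z)
      refine ⟨h, hh.trans ?_⟩
      rw [Algebra.smul_def, ← map_mul]
      rfl
  have h1 : ∀ z, τ.c.φ (g (ψ z)) = algebraMap τ.Z τ.c.T (τ.a * z) := fun z =>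
    congrArg Subtype.val (LinearMap.congr_fun hg (ψ z))
  have h2 : FiniteDimensional k τ.Z := by
    refine FiniteDimensional.of_injective (f ∘ₗ g ∘ₗ ψ) ?_
    rw [injective_iff_map_eq_zero]
    intro z hz
    by_contra h0
    exact hn z h0 _ (h1 z) hz
  have h3 : FiniteDimensional k τ.c.T := Module.Finite.trans τ.Z τ.c.T
  exact hT (prf_fd_quot τ.c.φ.toLinearMap _ fun _ hu => hu)

/-- Essential extensions of finite-dimensional modules.  `E` is noetherian.  Enlarge `A` to a maximal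
finite-dimensional submodule and suppose `A ≠ ⊤`; `W = E / A` has no nonzero finite-dimensional submodule.
Take `τ` from `exists_good` for `W` (`ρ = Algebra.lsmul k k W`, `X = ⊤`), `P = ker φ`, `W₁ = annS ρ P`, `E₁`
its preimage, `b'` from `exists_cofinite_mul`, `E₂ = b' E₁`.  `P` kills `E₂`, and `E₂ ≰ A` (else `W₁` is
finite-dimensional by `fd_of_cofinite`).  There is `z ≠ 0` and a lift `h` of `a z` killing `A₂ = A ⊓ E₂`:
otherwise `Z` embeds linearly in `End A₂`, so `Z`, `T`, `H / P` and `W₁` are finite-dimensional.  `h` acts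
`H`-linearly on `E₂`; by `Module.End.eventually_disjoint_ker_pow_range_pow` the range of `h ^ n` meets `A`
trivially, so `h ^ n E₂ = 0`, against the regularity of `h` on `W₁`. -/
theorem fd_of_essential [IsAlgClosed k] {g d : ℕ} {x : Fin g → H} (hx : Gen k x) (hd : MPI k H d)
    (hS : Struct k H) (J : Ideal H) [J.IsTwoSided] [IsNoetherian H (H ⧸ J)]
    {E : Type} [AddCommGroup E] [Module k E] [Module H E] [IsScalarTower k H E] [Module.Finite H E]
    (hJ : ∀ u ∈ J, ∀ e : E, u • e = 0) (A : Submodule H E)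
    (hA : FiniteDimensional k (A.restrictScalars k))
    (hess : ∀ L : Submodule H E, L ⊓ A = ⊥ → L = ⊥) : FiniteDimensional k E := by
  have hN : IsNoetherian H E := by
    obtain ⟨n, L, hL⟩ := prf_surj J hJ
    exact isNoetherian_of_surjective L (LinearMap.range_eq_top.2 hL)
  obtain ⟨B, ⟨hB, hAB⟩, hmax⟩ := (wellFounded_gt (α := Submodule H E)).has_min
    {B | FiniteDimensional k (B.restrictScalars k) ∧ A ≤ B} ⟨A, hA, le_rfl⟩
  by_cases htop : B = ⊤
  · subst htop
    exact Module.Finite.of_surjective ((⊤ : Submodule H E).restrictScalars k).subtype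
      fun e => ⟨⟨e, trivial⟩, rfl⟩
  exfalso
  have hW : (⊤ : Submodule k (E ⧸ B)) ≠ ⊥ := by
    intro h0
    refine htop (eq_top_iff.2 fun e _ => (Submodule.Quotient.mk_eq_zero B).1 ?_)
    exact (Submodule.mem_bot k).1 (h0 ▸ Submodule.mem_top)
  obtain ⟨τ, h1, hreg⟩ := exists_good hx hd hS (Algebra.lsmul k k (E ⧸ B) : H →ₐ[k] _) ⊤ hW
    (fun _ _ _ => trivial)
  have hmem : ∀ e : E, (Submodule.Quotient.mk e : E ⧸ B) ∈
      ⊤ ⊓ annS (Algebra.lsmul k k (E ⧸ B) : H →ₐ[k] _) (RingHom.ker τ.c.φ) ↔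
      e ∈ prf_col (RingHom.ker τ.c.φ) B := by
    intro e
    rw [top_inf_eq, mem_annS]
    exact forall₂_congr fun u _ => Submodule.Quotient.mk_eq_zero B (x := u • e)
  have hle : B ≤ prf_col (RingHom.ker τ.c.φ) B := fun e he u _ => B.smul_mem u he
  have hC : ∀ b : Ideal H, FiniteDimensional k (H ⧸ b) →
      ¬ ∀ u ∈ b, ∀ e ∈ prf_col (RingHom.ker τ.c.φ) B, u • e ∈ B := by
    intro b hb hk
    have h2 : FiniteDimensional k ((prf_col (RingHom.ker τ.c.φ) B).map B.mkQ) := by
      refine fd_of_cofinite b hb ?_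
      rintro u hu ⟨_, e, he, rfl⟩
      exact Subtype.ext ((Submodule.Quotient.mk_eq_zero B (x := u • e)).2 (hk u hu e he))
    have h3 := prf_fd_comap B _ hB h2
    have h4 : B = prf_col (RingHom.ker τ.c.φ) B :=
      hle.eq_of_not_lt (hmax _ ⟨h3, hAB.trans hle⟩)
    refine h1 (eq_bot_iff.2 fun w hw => ?_)
    obtain ⟨e, rfl⟩ := Submodule.Quotient.mk_surjective B w
    rw [hmem, ← h4] at hw
    exact (Submodule.Quotient.mk_eq_zero B).2 hw
  obtain ⟨b, -, hb, hb'⟩ := exists_cofinite_mul J (prf_col (RingHom.ker τ.c.φ) B) B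
    (fun u hu e _ => hJ u hu e) hB (RingHom.ker τ.c.φ) (fun u hu e he => he u hu)
  let E₂ : Submodule H E := prf_col (RingHom.ker τ.c.φ) ⊥
  have hE₂ : ¬ E₂ ≤ B := fun h => hC b hb fun v hv e he => h fun u hu => hb' u hu v hv e he
  have hfd : FiniteDimensional k (B ⊓ E₂ : Submodule H E) :=
    Submodule.finiteDimensional_of_le (S₁ := (B ⊓ E₂).restrictScalars k)
      (S₂ := B.restrictScalars k) fun e he => he.1
  obtain ⟨z, hz, h, hh, hk⟩ := prf_lift τ (fun hf => hC _ hf fun u hu e he => he u hu)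
    (Algebra.lsmul k k (B ⊓ E₂ : Submodule H E) : H →ₐ[k] _).toLinearMap
  have hcen : ∀ r : H, h * r - r * h ∈ RingHom.ker τ.c.φ := fun r => by
    rw [RingHom.mem_ker, map_sub, map_mul, map_mul, hh, Algebra.commutes, sub_self]
  let η : Module.End H E₂ :=
    { toFun := fun e => h • e
      map_add' := fun e e' => smul_add h e e'
      map_smul' := fun r e => Subtype.ext (by
        have h5 : (h * r - r * h) • (e : E) = 0 := e.2 _ (hcen r)
        rw [sub_smul, mul_smul, mul_smul, sub_eq_zero] at h5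
        exact h5) }
  have hpow : ∀ n : ℕ, ∀ e : E₂, ((η ^ n) e : E) ∈ B → (e : E) ∈ B := by
    intro n
    induction n with
    | zero => exact fun e he => he
    | succ n ih =>
      intro e he
      rw [pow_succ, Module.End.mul_apply] at he
      have h5 : h • (e : E) ∈ B := ih _ he
      refine (Submodule.Quotient.mk_eq_zero B).1 (hreg z hz h hh _ ((hmem e).2 fun u hu => ?_) ?_)
      · rw [show u • (e : E) = 0 from e.2 u hu]
        exact B.zero_mem
      · exact (Submodule.Quotient.mk_eq_zero B (x := h • (e : E))).2 h5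
  obtain ⟨n, hn⟩ := Filter.eventually_atTop.1 η.eventually_disjoint_ker_pow_range_pow
  have hdis := hn (n + 1) (Nat.le_succ n)
  have hL := hess ((LinearMap.range (η ^ (n + 1))).map E₂.subtype) (eq_bot_iff.2 (by
    rintro _ ⟨⟨e, he, rfl⟩, heA⟩
    have h4 : h • (e : E) = 0 := congrArg Subtype.val
      (LinearMap.congr_fun hk (⟨e, hAB heA, e.2⟩ : (B ⊓ E₂ : Submodule H E)))
    have h5 : η e = 0 := Subtype.ext h4
    have h6 : e ∈ LinearMap.ker (η ^ (n + 1)) := by
      rw [LinearMap.mem_ker, pow_succ, Module.End.mul_apply, h5, map_zero]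
    rw [Submodule.disjoint_def.1 hdis e h6 he]
    exact Submodule.zero_mem _))
  refine hE₂ fun e he => hpow (n + 1) ⟨e, he⟩ ?_
  have h7 : ((η ^ (n + 1)) ⟨e, he⟩ : E) ∈ (LinearMap.range (η ^ (n + 1))).map E₂.subtype :=
    ⟨_, ⟨_, rfl⟩, rfl⟩
  rw [hL, Submodule.mem_bot] at h7
  rw [h7]
  exact B.zero_mem

/-- Residual finiteness.  Let `L ≥ J₂` be a left ideal maximal with `L ⊓ J₁ ≤ J₂`; `E = H ⧸ L` is an
essential extension of the image of `J₁`; take `J₃ = ann E`. -/
theorem exists_cofinite_inf [IsAlgClosed k] {g d : ℕ} {x : Fin g → H} (hx : Gen k x)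
    (hd : MPI k H d) (hS : Struct k H) (J₁ J₂ : Ideal H) [J₂.IsTwoSided] [IsNoetherian H (H ⧸ J₂)]
    (hfd : FiniteDimensional k ((J₁.restrictScalars k).map (J₂.restrictScalars k).mkQ)) :
    ∃ J₃ : Ideal H, J₃.IsTwoSided ∧ FiniteDimensional k (H ⧸ J₃) ∧ J₂ ≤ J₃ ∧ J₃ ⊓ J₁ ≤ J₂ := by
  let N₁ : Submodule H (H ⧸ J₂) := Submodule.map (Submodule.mkQ J₂) J₁
  obtain ⟨L, hL, hmax⟩ := (wellFounded_gt (α := Submodule H (H ⧸ J₂))).has_min
    {L | L ⊓ N₁ = ⊥} ⟨⊥, bot_inf_eq _⟩
  have hJ : ∀ u ∈ J₂, ∀ e : (H ⧸ J₂) ⧸ L, u • e = 0 := by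
    intro u hu e
    obtain ⟨e, rfl⟩ := Submodule.Quotient.mk_surjective L e
    obtain ⟨e, rfl⟩ := Submodule.Quotient.mk_surjective J₂ e
    rw [← Submodule.Quotient.mk_smul, ← Submodule.Quotient.mk_smul, smul_eq_mul,
      (Submodule.Quotient.mk_eq_zero J₂).2 (Ideal.mul_mem_right _ _ hu), Submodule.Quotient.mk_zero]
  have hA : FiniteDimensional k ((N₁.map L.mkQ).restrictScalars k) := by
    let π : (H ⧸ J₂.restrictScalars k) →ₗ[k] (H ⧸ J₂) ⧸ L := L.mkQ.restrictScalars k ∘ₗ
      (Submodule.Quotient.restrictScalarsEquiv k (J₂ : Submodule H H)).toLinearMap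
    refine Submodule.finiteDimensional_of_le
      (S₂ := ((J₁.restrictScalars k).map (J₂.restrictScalars k).mkQ).map π) ?_
    rintro _ ⟨_, ⟨u, hu, rfl⟩, rfl⟩
    exact ⟨_, ⟨u, hu, rfl⟩, rfl⟩
  have hE : FiniteDimensional k ((H ⧸ J₂) ⧸ L) := by
    refine fd_of_essential hx hd hS J₂ hJ _ hA fun M hM => ?_
    have h1 : L ≤ M.comap L.mkQ := fun e he => by
      rw [Submodule.mem_comap, Submodule.mkQ_apply, (Submodule.Quotient.mk_eq_zero L).2 he]
      exact M.zero_mem
    have h2 : M.comap L.mkQ ⊓ N₁ = ⊥ := by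
      refine eq_bot_iff.2 fun e he => hL ▸ ⟨(Submodule.Quotient.mk_eq_zero L).1 ?_, he.2⟩
      exact (Submodule.mem_bot H).1 (hM ▸ ⟨he.1, e, he.2, rfl⟩)
    have h3 := h1.eq_of_not_lt (hmax _ h2)
    refine eq_bot_iff.2 fun w hw => ?_
    obtain ⟨e, rfl⟩ := Submodule.Quotient.mk_surjective L w
    exact (Submodule.Quotient.mk_eq_zero L).2 (h3 ▸ hw)
  refine ⟨Module.annihilator H ((H ⧸ J₂) ⧸ L), inferInstance, prf_fd_ann,
    fun u hu => Module.mem_annihilator.2 (hJ u hu), fun u hu => ?_⟩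
  have h1 := Module.mem_annihilator.1 hu.1 (Submodule.Quotient.mk (Submodule.Quotient.mk 1))
  rw [← Submodule.Quotient.mk_smul, ← Submodule.Quotient.mk_smul, smul_eq_mul, mul_one,
    Submodule.Quotient.mk_eq_zero] at h1
  have h2 : (Submodule.Quotient.mk u : H ⧸ J₂) ∈ L ⊓ N₁ := ⟨h1, u, hu.2, rfl⟩
  rw [hL, Submodule.mem_bot] at h2
  exact (Submodule.Quotient.mk_eq_zero J₂).1 h2

end

end Pool.Agent.Lib.MP_ff61db_al
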