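import Pool.Agent.Lib.MP_ff61db_al.PJ1
import Pool.Agent.Lib.MP_ff61db_al.PRF

set_option autoImplicit false

namespace Pool.Agent.Lib.MP_ff61db_al

open Polynomial TensorProduct

section
variable {k H : Type} [Field k] [Ring H] [Algebra k H]

/-- `N / J` is a finitely generated module over the noetherian quotient `H ⧸ N` -/
theorem isNoetherian_quot_of_lfg {J N : Ideal H} [N.IsTwoSided] [IsNoetherian H (H ⧸ N)]
    (h1 : N * N ≤ J) (h2 : J ≤ N) (h : LFG J N) : IsNoetherian H (H ⧸ J) := by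
  classical
  obtain ⟨s, hs, hle⟩ := h
  have hk : ∀ u : s, N ≤ LinearMap.ker (J.mkQ ∘ₗ LinearMap.toSpanSingleton H H (u : H)) := by
    intro u a ha
    simp only [LinearMap.mem_ker, LinearMap.comp_apply, LinearMap.toSpanSingleton_apply,
      Submodule.mkQ_apply, Submodule.Quotient.mk_eq_zero, smul_eq_mul]
    exact h1 (Ideal.mul_mem_mul ha (hs u.2))
  let f : (s → H ⧸ N) →ₗ[H] H ⧸ J :=
    ∑ u : s, N.liftQ (J.mkQ ∘ₗ LinearMap.toSpanSingleton H H (u : H)) (hk u) ∘ₗ LinearMap.proj u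
  have hf : ∀ c : s → H, f (fun u => N.mkQ (c u)) = J.mkQ (∑ u : s, c u * (u : H)) := by
    intro c
    rw [map_sum]
    simp only [f, LinearMap.sum_apply]
    exact Finset.sum_congr rfl fun u _ => rfl
  let q : (H ⧸ J) →ₗ[H] H ⧸ N := Submodule.factor h2
  have hq : ∀ a : H, q (J.mkQ a) = N.mkQ a := fun a => rfl
  refine isNoetherian_of_range_eq_ker f q (le_antisymm ?_ ?_)
  · rintro _ ⟨c, rfl⟩
    choose c' hc' using fun u => N.mkQ_surjective (c u)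
    have e : c = fun u => N.mkQ (c' u) := funext fun u => (hc' u).symm
    rw [LinearMap.mem_ker, e, hf, hq, Submodule.mkQ_apply, Submodule.Quotient.mk_eq_zero]
    exact N.sum_mem fun u _ => N.mul_mem_left _ (hs u.2)
  · intro a ha
    obtain ⟨a, rfl⟩ := J.mkQ_surjective a
    rw [LinearMap.mem_ker, hq, Submodule.mkQ_apply, Submodule.Quotient.mk_eq_zero] at ha
    obtain ⟨j, hj, w, hw, rfl⟩ := Submodule.mem_sup.1 (hle ha)
    obtain ⟨c, -, rfl⟩ := Submodule.mem_span_finset.1 hw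
    refine ⟨fun u => N.mkQ (c u), ?_⟩
    rw [hf (fun u => c u), map_add, Finset.sum_coe_sort s (fun u => c u * u)]
    have : J.mkQ j = 0 := (Submodule.Quotient.mk_eq_zero J).2 hj
    rw [this, zero_add]
    rfl

theorem pj2_fib_stable {B Z : Type} [AddCommGroup B] [Module k B] [CommRing Z] [Algebra k Z]
    (ψ : Z →ₐ[k] Module.End k B) (y : Z →ₐ[k] k) (o : Module.End k B)
    (ho : ∀ z, Commute o (ψ z)) : ∀ v ∈ Fib ψ y, o v ∈ Fib ψ y := by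
  intro v hv
  have : Fib ψ y ≤ (Fib ψ y).comap o := by
    refine Submodule.span_le.2 ?_
    rintro _ ⟨z, b₀, hz, rfl⟩
    refine Submodule.subset_span ⟨z, o b₀, hz, ?_⟩
    exact LinearMap.congr_fun (ho z).eq b₀
  exact this hv

theorem pj2_sup_stable {B : Type} [AddCommGroup B] [Module k B] {U₁ U₂ : Submodule k B}
    (o : Module.End k B) (h₁ : ∀ v ∈ U₁, o v ∈ U₁) (h₂ : ∀ v ∈ U₂, o v ∈ U₂) :
    ∀ v ∈ U₁ ⊔ U₂, o v ∈ U₁ ⊔ U₂ := by
  intro v hv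
  obtain ⟨a, ha, b, hb, rfl⟩ := Submodule.mem_sup.1 hv
  rw [map_add]
  exact Submodule.add_mem_sup (h₁ a ha) (h₂ b hb)

theorem pj2_comm {H' Z B : Type} [Ring H'] [Algebra k H'] [CommRing Z] [Algebra k Z]
    [AddCommGroup B] [Module k B] (c : Cov k H' Z) (ψ : c.T →ₐ[k] Module.End k B) (t : c.T)
    (z : Z) : Commute (ψ t) ((ψ.comp c.ι) z) :=
  (show Commute t (algebraMap Z c.T z) from (Algebra.commutes z t).symm).map ψ

/-- Nilpotence on the fibres.  Let `U = Fib ⊔ Fib` (stable under `T` and `T'`, of finite codimension by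
`geo_fd`), `J₁`, `J₂` the ideals of `⊤` and `U` (`Bi.exists_ideal`), `b = fib (ker y)`; then `b J₁ ≤ J₂`.
`U ≠ ⊥` since `Y` is infinite-dimensional, so `J₀ < J₂` and `H ⧸ J₂` is noetherian.  Take `J₃` from
`exists_cofinite_inf` and apply `ringR` to `J₁ ⊔ J₃` and `J₃`: `J₁ (Θ b) ^ s ≤ J₃ ⊓ J₁ ≤ J₂`. -/
theorem Bi.fibre_nil [IsAlgClosed k] {g d : ℕ} {x : Fin g → H} (hx : Gen k x) (hd : MPI k H d)
    (hS : Struct k H) (Λ : Link2 k H) {J₀ N : Ideal H} [J₀.IsTwoSided] [N.IsTwoSided]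
    [IsNoetherian H (H ⧸ N)] (β : Bi k H J₀ N) (h1 : N * N ≤ J₀) (h2 : J₀ ≤ N)
    (hmax : ∀ J : Ideal H, J.IsTwoSided → J₀ < J → J ≤ N → LFG J N)
    (hfg : FGby {o | ∃ z z', o = (β.ψ.comp β.τ.c.ι) z * (β.ψ'.comp β.τ'.c.ι) z'})
    (hinf : ¬ FiniteDimensional k β.Y) (y : β.τ.Z →ₐ[k] k) (y' : β.τ'.Z →ₐ[k] k) :
    ∃ s : ℕ, ∀ h ∈ (Λ.Θ (β.τ.c.fib (RingHom.ker y))) ^ s, ∀ v : β.Y,
      β.ψ' (β.τ'.c.φ (MulOpposite.op h)) v ∈
        Fib (β.ψ.comp β.τ.c.ι) y ⊔ Fib (β.ψ'.comp β.τ'.c.ι) y' := by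
  set U := Fib (β.ψ.comp β.τ.c.ι) y ⊔ Fib (β.ψ'.comp β.τ'.c.ι) y' with hU
  have hl : ∀ h, ∀ v ∈ U, β.ψ (β.τ.c.φ h) v ∈ U := fun h =>
    pj2_sup_stable _ (pj2_fib_stable _ _ _ fun z => pj2_comm _ _ _ z)
      (pj2_fib_stable _ _ _ fun z => β.comm _ _)
  have hr : ∀ h, ∀ v ∈ U, β.ψ' (β.τ'.c.φ h) v ∈ U := fun h =>
    pj2_sup_stable _ (pj2_fib_stable _ _ _ fun z => (β.comm _ _).symm)
      (pj2_fib_stable _ _ _ fun z => pj2_comm _ _ _ z)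
  obtain ⟨J₁, t₁, -, -, m₁⟩ := β.exists_ideal ⊤ (fun _ _ _ => trivial) (fun _ _ _ => trivial) h2
  obtain ⟨J₂, t₂, l₂, u₂, m₂⟩ := β.exists_ideal U hl hr h2
  have hfd : FiniteDimensional k (β.Y ⧸ U) := geo_fd _ _ hfg y y'
  have hb : ∀ r ∈ β.τ.c.fib (RingHom.ker y), ∀ a ∈ J₁, r * a ∈ J₂ := by
    intro r hr' a ha
    obtain ⟨v, -, hv⟩ := (m₁ a).1 ha
    refine (m₂ _).2 ⟨β.ψ (β.τ.c.φ r) v, ?_, by rw [β.left, hv, map_mul]⟩
    refine Submodule.mem_sup_left ?_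
    rw [Cov.mem_fib] at hr'
    refine Submodule.smul_induction_on (p := fun t => β.ψ t v ∈ Fib (β.ψ.comp β.τ.c.ι) y) hr'
      (fun z hz t _ => ?_) (fun t t' ht ht' => ?_)
    · refine Submodule.subset_span ⟨z, β.ψ t v, hz, ?_⟩
      rw [Algebra.smul_def, map_mul]
      rfl
    · rw [map_add, LinearMap.add_apply]
      exact Submodule.add_mem _ ht ht'
  have hne : U ≠ ⊥ := by
    intro h0
    refine hinf (LinearEquiv.finiteDimensional (U.quotEquivOfEqBot h0))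
  have hlt : J₀ < J₂ := by
    obtain ⟨v, hv, hv0⟩ := Submodule.exists_mem_ne_zero_of_ne_bot hne
    obtain ⟨n, -, hn⟩ := β.sub v
    refine lt_of_le_of_ne l₂ fun e => hv0 (β.inj ?_)
    rw [map_zero, hn, Ideal.Quotient.eq_zero_iff_mem, e]
    exact (m₂ n).2 ⟨v, hv, hn⟩
  have : IsNoetherian H (H ⧸ J₂) :=
    isNoetherian_quot_of_lfg (h1.trans l₂) u₂ (hmax J₂ t₂ hlt u₂)
  have hfd' : FiniteDimensional k ((J₁.restrictScalars k).map (J₂.restrictScalars k).mkQ) := by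
    let lam : (H ⧸ J₀) →ₗ[k] H ⧸ J₂.restrictScalars k :=
      (J₀.restrictScalars k).liftQ (J₂.restrictScalars k).mkQ (fun a ha => by
        rw [Submodule.ker_mkQ]; exact l₂ ha) ∘ₗ
      (Submodule.Quotient.restrictScalarsEquiv k J₀).symm.toLinearMap
    have hlam : ∀ a : H, lam (Ideal.Quotient.mk J₀ a) = (J₂.restrictScalars k).mkQ a :=
      fun a => rfl
    have hker : U ≤ LinearMap.ker (lam ∘ₗ β.ι) := by
      intro v hv
      obtain ⟨n, -, hn⟩ := β.sub v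
      rw [LinearMap.mem_ker, LinearMap.comp_apply, hn, hlam, Submodule.mkQ_apply,
        Submodule.Quotient.mk_eq_zero]
      exact (m₂ n).2 ⟨v, hv, hn⟩
    refine Submodule.finiteDimensional_of_le (S₂ := LinearMap.range (U.liftQ _ hker)) ?_
    rintro _ ⟨a, ha, rfl⟩
    obtain ⟨v, -, hv⟩ := (m₁ a).1 ha
    exact ⟨U.mkQ v, by rw [Submodule.mkQ_apply, Submodule.liftQ_apply, LinearMap.comp_apply, hv,
      hlam]⟩
  obtain ⟨J₃, t₃, f₃, l₃, i₃⟩ := exists_cofinite_inf hx hd hS J₁ J₂ hfd'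
  have t₁₃ : (J₁ ⊔ J₃).IsTwoSided := ⟨fun {a} r ha => by
    obtain ⟨a₁, h₁, a₃, h₃, rfl⟩ := Submodule.mem_sup.1 ha
    rw [add_mul]
    exact Submodule.add_mem_sup (J₁.mul_mem_right r h₁) (J₃.mul_mem_right r h₃)⟩
  obtain ⟨s, hs⟩ := Λ.ringR (β.τ.c.fib (RingHom.ker y)) (J₁ ⊔ J₃) J₃ inferInstance t₁₃ t₃
    le_sup_right f₃ (Ideal.mul_le.2 fun r hr' a ha => by
      obtain ⟨a₁, h₁, a₃, h₃, rfl⟩ := Submodule.mem_sup.1 ha
      rw [mul_add]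
      exact J₃.add_mem (l₃ (hb r hr' a₁ h₁)) (J₃.mul_mem_left r h₃))
  refine ⟨s, fun h hh v => ?_⟩
  obtain ⟨n, -, hn⟩ := β.sub v
  have hn₁ : n ∈ J₁ := (m₁ n).2 ⟨v, trivial, hn⟩
  have hm : n * h ∈ J₂ :=
    i₃ ⟨hs (Ideal.mul_mem_mul (Submodule.mem_sup_left hn₁) hh), J₁.mul_mem_right h hn₁⟩
  obtain ⟨u, hu, e⟩ := (m₂ _).1 hm
  have : β.ψ' (β.τ'.c.φ (MulOpposite.op h)) v = u := β.inj (by rw [β.right, e, hn, map_mul])
  rw [this]
  exact hu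

end

end Pool.Agent.Lib.MP_ff61db_al
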