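import Pool.Agent.Lib.MP_ff61db_al.PJ1
import Pool.Agent.Lib.MP_ff61db_al.PD2

set_option autoImplicit false

namespace Pool.Agent.Lib.MP_ff61db_al

open Polynomial TensorProduct

theorem pj3_fib_stable {k B Z : Type} [Field k] [AddCommGroup B] [Module k B] [CommRing Z]
    [Algebra k Z] (ψ : Z →ₐ[k] Module.End k B) (y : Z →ₐ[k] k) (o : Module.End k B)
    (ho : ∀ z, Commute o (ψ z)) : ∀ b ∈ Fib ψ y, o b ∈ Fib ψ y := by
  intro b hb
  refine Submodule.span_induction (p := fun b _ => o b ∈ Fib ψ y) ?_ ?_ ?_ ?_ hb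
  · rintro b ⟨z, b₀, hz, rfl⟩
    refine Submodule.subset_span ⟨z, o b₀, hz, ?_⟩
    have := congrArg (fun e : Module.End k B => e b₀) (ho z).eq
    simpa using this
  · simp
  · intro a b _ _ ha hb
    rw [map_add]
    exact Submodule.add_mem _ ha hb
  · intro c a _ ha
    rw [map_smul]
    exact Submodule.smul_mem _ _ ha

theorem pj3_sup_stable {k B : Type} [Field k] [AddCommGroup B] [Module k B]
    (F G : Submodule k B) (o : Module.End k B) (hF : ∀ b ∈ F, o b ∈ F) (hG : ∀ b ∈ G, o b ∈ G) :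
    ∀ b ∈ F ⊔ G, o b ∈ F ⊔ G := by
  intro b hb
  obtain ⟨a, ha, c, hc, rfl⟩ := Submodule.mem_sup.1 hb
  rw [map_add]
  exact Submodule.add_mem_sup (hF a ha) (hG c hc)

theorem pj3_pow_sub {k B : Type} [Field k] [AddCommGroup B] [Module k B]
    (F : Submodule k B) (u w : Module.End k B) (hw : ∀ b ∈ F, w b ∈ F)
    (huw : ∀ b, u b - w b ∈ F) (s : ℕ) : ∀ b, (u ^ s) b - (w ^ s) b ∈ F := by
  have hws : ∀ n : ℕ, ∀ b ∈ F, (w ^ n) b ∈ F := by
    intro n
    induction n with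
    | zero => intro b hb; simpa using hb
    | succ n ih =>
      intro b hb
      rw [pow_succ, Module.End.mul_apply]
      exact ih _ (hw b hb)
  induction s with
  | zero => intro b; simp
  | succ s ih =>
    intro b
    have e : (u ^ (s + 1)) b - (w ^ (s + 1)) b =
        ((u ^ s) (u b) - (w ^ s) (u b)) + (w ^ s) (u b - w b) := by
      rw [pow_succ, pow_succ, Module.End.mul_apply, Module.End.mul_apply, map_sub]
      abel
    rw [e]
    exact Submodule.add_mem _ (ih _) (hws s _ (huw b))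

theorem pj3_op_aeval {k H : Type} [Field k] [Ring H] [Algebra k H] (h : H) (p : k[X]) :
    MulOpposite.op (aeval h p) = aeval (MulOpposite.op h) p := by
  induction p using Polynomial.induction_on' with
  | add p q hp hq => simp only [map_add, MulOpposite.op_add, hp, hq]
  | monomial n a =>
    rw [aeval_monomial, aeval_monomial, ← Algebra.smul_def, ← Algebra.smul_def,
      MulOpposite.op_smul, MulOpposite.op_pow]

/-- the abstract form: `ψ₁` acts through a commutative ring, `A` is its centralizer -/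
theorem pj3_aeval {k B Z A : Type} [Field k] [AddCommGroup B] [Module k B] [CommRing Z]
    [Algebra k Z] [Ring A] [Algebra Z A] (ψ : Z →ₐ[k] Module.End k B) (v : A →+* Module.End k B)
    (hv : ∀ z, v (algebraMap Z A z) = ψ z) (a : A) (q : Z[X]) :
    (∀ o : Module.End k B, (∀ z, Commute (ψ z) o) → Commute (v a) o →
      Commute (v (aeval a q)) o) ∧
    ∀ (y : Z →ₐ[k] k) (b : B),
      v (aeval a q) b - aeval (v a) (q.map (y : Z →+* k)) b ∈ Fib ψ y := by
  induction q using Polynomial.induction_on' with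
  | add p q hp hq =>
    refine ⟨fun o h1 h2 => ?_, fun y b => ?_⟩
    · rw [map_add, map_add]
      exact (hp.1 o h1 h2).add_left (hq.1 o h1 h2)
    · have e : v (aeval a (p + q)) b - aeval (v a) ((p + q).map (y : Z →+* k)) b =
          (v (aeval a p) b - aeval (v a) (p.map (y : Z →+* k)) b) +
          (v (aeval a q) b - aeval (v a) (q.map (y : Z →+* k)) b) := by
        simp only [map_add, Polynomial.map_add, LinearMap.add_apply]
        abel
      rw [e]
      exact Submodule.add_mem _ (hp.2 y b) (hq.2 y b)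
  | monomial n c =>
    refine ⟨fun o h1 h2 => ?_, fun y b => ?_⟩
    · rw [aeval_monomial, map_mul, map_pow, hv]
      exact (h1 c).mul_left (h2.pow_left n)
    · rw [Polynomial.map_monomial, aeval_monomial, aeval_monomial, map_mul, map_pow, hv]
      refine Submodule.subset_span ⟨c - algebraMap k Z (y c), (v a ^ n) b, ?_, ?_⟩
      · simp
      · simp [Module.End.mul_apply, Module.algebraMap_end_apply]

/-- `Y` is a finitely generated left module.  Let `ψ₁ = ψ ∘ ι`, `ψ₂ = ψ' ∘ ι`, `r h = ψ' (φ' (op h))`.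
For `h : H` take `c'` from `Λ.lat` for `τ.c` and `q` from `Cov.exists_monic c' h`, and let
`u = ∑ ψ₁ (q.coeff i) * r h ^ i`.  Modulo the fibre at `(y, y')` (which is stable under all these
operators) `u` acts as `r (aeval h (q.map y))`, so `hnil` and `geo2` show that `u` is nilpotent: `r h` is
integral over `Z = τ.Z`.  Let `A` be the centralizer of `ψ₁(Z)` in `End k Y` as a `Z`-algebra (or
`Module.End Z Y`); `shirshov_map` for `Hᵐᵒᵖ → A` (`Gen.op`, `MPI.op`) shows that the `Z`-span of the `r h` is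
finitely generated.  With `hbi`, `Y` is finitely generated over `T`, and `T` is generated over `φ(H)` by
finitely many central elements. -/
theorem Bi.fg_left {k H : Type} [Field k] [IsAlgClosed k] [Ring H] [Algebra k H] {g d : ℕ}
    {x : Fin g → H} (hx : Gen k x) (hd : MPI k H d) (Λ : Link2 k H) {J₀ N : Ideal H}
    [J₀.IsTwoSided] (β : Bi k H J₀ N) (hfin : β.τ.c.CFin)
    (hbi : FGby {o | ∃ h h', o = β.ψ (β.τ.c.φ h) * β.ψ' (β.τ'.c.φ h')})
    (hnil : ∀ (y : β.τ.Z →ₐ[k] k) (y' : β.τ'.Z →ₐ[k] k),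
      ∃ s : ℕ, ∀ h ∈ (Λ.Θ (β.τ.c.fib (RingHom.ker y))) ^ s, ∀ v : β.Y,
        β.ψ' (β.τ'.c.φ (MulOpposite.op h)) v ∈
          Fib (β.ψ.comp β.τ.c.ι) y ⊔ Fib (β.ψ'.comp β.τ'.c.ι) y') :
    FGby {o | ∃ h, o = β.ψ (β.τ.c.φ h)} := by
  classical
  set ψ₁ := β.ψ.comp β.τ.c.ι with hψ₁
  set ψ₂ := β.ψ'.comp β.τ'.c.ι with hψ₂
  have hψ₁a : ∀ z, ψ₁ z = β.ψ (algebraMap β.τ.Z β.τ.c.T z) := fun z => rfl
  have hψ₂a : ∀ z, ψ₂ z = β.ψ' (algebraMap β.τ'.Z β.τ'.c.T z) := fun z => rfl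
  have c11 : ∀ z z', Commute (ψ₁ z) (ψ₁ z') := fun z z' => (Commute.all z z').map ψ₁
  have c12 : ∀ z t, Commute (ψ₁ z) (β.ψ' t) := fun z t => β.comm _ _
  have c22 : ∀ t z, Commute (β.ψ' t) (ψ₂ z) := fun t z => by
    rw [hψ₂a]
    exact (Commute.map (Algebra.commutes z t).symm β.ψ' :)
  let A : Subalgebra k (Module.End k β.Y) := Subalgebra.centralizer k (Set.range ψ₁)
  have memA : ∀ o : Module.End k β.Y, (∀ z, Commute (ψ₁ z) o) → o ∈ A := by
    intro o ho
    rw [Subalgebra.mem_centralizer_iff]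
    rintro _ ⟨z, rfl⟩
    exact (ho z).eq
  have ofA : ∀ (a : A) z, Commute (ψ₁ z) (a : Module.End k β.Y) := by
    intro a z
    exact (Subalgebra.mem_centralizer_iff k).1 a.2 _ ⟨z, rfl⟩
  let j : β.τ.Z →ₐ[k] A := ψ₁.codRestrict A (fun z => memA _ (fun z' => c11 z' z))
  let _ : Algebra β.τ.Z A := RingHom.toAlgebra' (j : β.τ.Z →+* A)
    (fun z a => Subtype.ext (ofA a z).eq)
  have halg : ∀ z, ((algebraMap β.τ.Z A z : A) : Module.End k β.Y) = ψ₁ z := fun z => rfl
  have _ : IsScalarTower k β.τ.Z A := IsScalarTower.of_algebraMap_eq (fun c => (j.commutes c).symm)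
  let f : Hᵐᵒᵖ →ₐ[k] A := (β.ψ'.comp β.τ'.c.φ).codRestrict A (fun h => memA _ (fun z => c12 z _))
  have hf : ∀ h, (f h : Module.End k β.Y) = β.ψ' (β.τ'.c.φ h) := fun h => rfl
  obtain ⟨c', hc'⟩ := Λ.lat β.τ.Z β.τ.c
  have hint : ∀ h' : Hᵐᵒᵖ, IsIntegral β.τ.Z (f h') := by
    intro h'
    obtain ⟨q, hq, hq2⟩ := c'.exists_monic (MulOpposite.unop h')
    obtain ⟨k1, k2⟩ := pj3_aeval ψ₁ (A.val : A →+* Module.End k β.Y) halg (f h') q
    have hn : IsNilpotent ((aeval (f h') q : A) : Module.End k β.Y) := by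
      refine geo2 ψ₁ ψ₂ (fun z z' => c12 z _) (β.fg_centre hbi) _ (fun z => (ofA _ z).symm)
        (fun z => k1 _ (fun z' => c12 z' _) (c22 _ z)) (fun y₁ y₂ => ?_)
      obtain ⟨s, hs⟩ := hnil y₁ y₂
      refine ⟨s, fun b => ?_⟩
      set h₀ := aeval (MulOpposite.unop h') (q.map (y₁ : β.τ.Z →+* k)) with hh₀
      have m0 : h₀ ∈ Λ.Θ (β.τ.c.fib (RingHom.ker y₁)) :=
        hc' _ _ inferInstance le_rfl (hq2 y₁)
      have m1 : h₀ ^ s ∈ (Λ.Θ (β.τ.c.fib (RingHom.ker y₁))) ^ s := by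
        have := list_prod_mem_pow (List.replicate s h₀)
          (fun u hu => by rw [List.eq_of_mem_replicate hu]; exact m0)
        simpa using this
      have m2 := hs _ m1 b
      rw [MulOpposite.op_pow, map_pow, map_pow] at m2
      have ew : β.ψ' (β.τ'.c.φ (MulOpposite.op h₀)) =
          aeval (β.ψ' (β.τ'.c.φ h')) (q.map (y₁ : β.τ.Z →+* k)) := by
        rw [hh₀, pj3_op_aeval, MulOpposite.op_unop, ← aeval_algHom_apply, ← aeval_algHom_apply]
      have m3 := pj3_pow_sub (Fib ψ₁ y₁ ⊔ Fib ψ₂ y₂) ((aeval (f h') q : A) : Module.End k β.Y)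
        (β.ψ' (β.τ'.c.φ (MulOpposite.op h₀)))
        (pj3_sup_stable _ _ _ (pj3_fib_stable ψ₁ y₁ _ (fun z => (c12 z _).symm))
          (pj3_fib_stable ψ₂ y₂ _ (fun z => c22 _ z)))
        (fun b => by rw [ew]; exact Submodule.mem_sup_left (k2 y₁ b)) s b
      have := Submodule.add_mem _ m3 m2
      simpa using this
    obtain ⟨n, hn⟩ := hn
    refine ⟨q ^ n, hq.pow n, ?_⟩
    rw [← aeval_def, map_pow]
    exact Subtype.ext hn
  obtain ⟨G, hG⟩ := shirshov_map (C := β.τ.Z) hx.op hd.op f (fun w _ => hint _)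
  obtain ⟨s, hs⟩ := hbi
  obtain ⟨sZ, hsZ⟩ := hfin
  refine ⟨(sZ ×ˢ G ×ˢ s).image (fun p => ψ₁ p.1 ((p.2.1 : Module.End k β.Y) p.2.2)), ?_⟩
  rw [eq_top_iff, ← hs, Submodule.span_le]
  rintro _ ⟨_, ⟨h, h', rfl⟩, b₀, hb₀, rfl⟩
  have hmem : f h' ∈ Submodule.span β.τ.Z (G : Set A) := by
    rw [hG]
    exact Submodule.subset_span ⟨h', rfl⟩
  rw [Module.End.mul_apply, ← hf]
  generalize β.τ.c.φ h = t
  revert t
  refine Submodule.span_induction (p := fun (a : A) _ => ∀ t : β.τ.c.T,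
    β.ψ t ((a : Module.End k β.Y) b₀) ∈ _) ?_ ?_ ?_ ?_ hmem
  · intro a ha t
    obtain ⟨e, rfl⟩ := hsZ t
    rw [map_sum, LinearMap.sum_apply]
    refine Submodule.sum_mem _ (fun z hz => ?_)
    refine Submodule.subset_span ⟨_, ⟨e z, rfl⟩, ψ₁ z ((a : Module.End k β.Y) b₀), ?_, ?_⟩
    · exact Finset.mem_image.2 ⟨(z, a, b₀), by simp [hz, hb₀, Finset.mem_coe.1 ha], rfl⟩
    · rw [Algebra.smul_def, Algebra.commutes, map_mul, Module.End.mul_apply, hψ₁a]
  · intro t
    simp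
  · intro a a' _ _ ha ha' t
    rw [Subalgebra.coe_add, LinearMap.add_apply, map_add]
    exact Submodule.add_mem _ (ha t) (ha' t)
  · intro z a _ ha t
    have := ha (t * algebraMap β.τ.Z β.τ.c.T z)
    rw [map_mul, Module.End.mul_apply, ← hψ₁a] at this
    rw [Algebra.smul_def, Subalgebra.coe_mul, halg, Module.End.mul_apply]
    exact this

end Pool.Agent.Lib.MP_ff61db_al
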