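import Pool.Agent.Lib.MP_ff61db_al.PJ2
import Pool.Agent.Lib.MP_ff61db_al.PJ3
import Pool.Agent.Lib.MP_ff61db_al.PF4
import Pool.Agent.Lib.MP_ff61db_al.PI1
import Pool.Agent.Lib.MP_ff61db_al.PI2

set_option autoImplicit false

namespace Pool.Agent.Lib.MP_ff61db_al

open Polynomial TensorProduct

section
variable {k H : Type} [Field k] [Ring H] [Algebra k H]

theorem pj4_trans {J₀ J₁ N : Ideal H} (h₁ : J₁ ≤ N) (h : LFG J₀ J₁) (h' : LFG J₁ N) :
    LFG J₀ N := by
  classical
  obtain ⟨s, hs, hle⟩ := h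
  obtain ⟨t, ht, hle'⟩ := h'
  refine ⟨s ∪ t, ?_, ?_⟩
  · rw [Finset.coe_union]
    exact Set.union_subset (hs.trans h₁) ht
  · refine hle'.trans (sup_le (hle.trans (sup_le le_sup_left ?_)) ?_)
    · exact le_sup_of_le_right (Ideal.span_mono (by simp))
    · exact le_sup_of_le_right (Ideal.span_mono (by simp))

theorem pj4_fd {J₀ N : Ideal H} [J₀.IsTwoSided] (β : Bi k H J₀ N) [FiniteDimensional k β.Y] :
    FGby {o | ∃ h, o = β.ψ (β.τ.c.φ h)} := by
  obtain ⟨s, hs⟩ := (Module.Finite.fg_top (R := k) (M := β.Y))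
  refine ⟨s, ?_⟩
  rw [eq_top_iff, ← hs]
  refine Submodule.span_mono ?_
  intro b hb
  exact ⟨β.ψ (β.τ.c.φ 1), ⟨1, rfl⟩, b, hb, by simp⟩

theorem pj4_of_fg {J₀ N J₁ : Ideal H} [J₀.IsTwoSided] (β : Bi k H J₀ N)
    (hJ : ∀ h : H, h ∈ J₁ ↔ ∃ y ∈ (⊤ : Submodule k β.Y), β.ι y = Ideal.Quotient.mk J₀ h)
    (hfg : FGby {o | ∃ h, o = β.ψ (β.τ.c.φ h)}) : LFG J₀ J₁ := by
  classical
  obtain ⟨s, hs⟩ := hfg
  choose n _ hn using β.sub
  refine ⟨s.image n, ?_, ?_⟩
  · intro u hu
    simp only [Finset.coe_image, Set.mem_image, Finset.mem_coe] at hu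
    obtain ⟨y, _, rfl⟩ := hu
    exact (hJ _).2 ⟨y, Submodule.mem_top, hn y⟩
  · have key : ∀ y ∈ Submodule.span k
        {b | ∃ o ∈ {o | ∃ h, o = β.ψ (β.τ.c.φ h)}, ∃ b₀ ∈ s, b = o b₀},
        ∃ u ∈ Ideal.span ((s.image n : Finset H) : Set H), β.ι y = Ideal.Quotient.mk J₀ u := by
      intro y hy
      induction hy using Submodule.span_induction with
      | mem b hb =>
        obtain ⟨o, ⟨h, rfl⟩, b₀, hb₀, rfl⟩ := hb
        refine ⟨h * n b₀, Ideal.mul_mem_left _ _ (Ideal.subset_span ?_), ?_⟩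
        · simp only [Finset.coe_image, Set.mem_image, Finset.mem_coe]
          exact ⟨b₀, hb₀, rfl⟩
        · rw [β.left, hn, map_mul]
      | zero => exact ⟨0, Ideal.zero_mem _, by simp⟩
      | add a b _ _ ha hb =>
        obtain ⟨u, hu, hau⟩ := ha
        obtain ⟨v, hv, hbv⟩ := hb
        exact ⟨u + v, Ideal.add_mem _ hu hv, by rw [map_add, hau, hbv, map_add]⟩
      | smul c a _ ha =>
        obtain ⟨u, hu, hau⟩ := ha
        refine ⟨algebraMap k H c * u, Ideal.mul_mem_left _ _ hu, ?_⟩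
        rw [map_smul, hau, ← Algebra.smul_def]
        rfl
    intro h hh
    obtain ⟨y, _, hy⟩ := (hJ h).1 hh
    obtain ⟨u, hu, hyu⟩ := key y (by rw [hs]; exact Submodule.mem_top)
    have hd : h - u ∈ J₀ := by
      rw [← Ideal.Quotient.eq, ← hy, hyu]
    have : h = (h - u) + u := by abel
    rw [this]
    exact Submodule.add_mem_sup hd hu

theorem pj4_ext {J K N : Ideal H} [IsNoetherian H (H ⧸ N)] [IsNoetherian H (H ⧸ K)]
    (hJK : J ≤ K) (hN : N * K ≤ J) (h : LFG J K) : IsNoetherian H (H ⧸ J) := by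
  classical
  obtain ⟨s, hs, hle⟩ := h
  let f : s → (H ⧸ N) →ₗ[H] (H ⧸ J) := fun u =>
    Submodule.mapQ N J (LinearMap.toSpanSingleton H H (u : H)) (by
      intro a ha
      simp only [Submodule.mem_comap, LinearMap.toSpanSingleton_apply, smul_eq_mul]
      exact hN (Ideal.mul_mem_mul ha (hs u.2)))
  have hf : ∀ (u : s) (a : H), f u (Submodule.Quotient.mk a) =
      Submodule.Quotient.mk (a * (u : H)) := fun u a => rfl
  let F : (s → H ⧸ N) →ₗ[H] (H ⧸ J) := ∑ u : s, (f u).comp (LinearMap.proj u)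
  have hF : ∀ v : s → H ⧸ N, F v = ∑ u : s, f u (v u) := by
    intro v
    simp [F, LinearMap.sum_apply]
  let G : (H ⧸ J) →ₗ[H] (H ⧸ K) := Submodule.mapQ J K LinearMap.id hJK
  have hG : ∀ a : H, G (Submodule.Quotient.mk a) = Submodule.Quotient.mk a := fun a => rfl
  refine isNoetherian_of_range_eq_ker F G (le_antisymm ?_ ?_)
  · rintro _ ⟨v, rfl⟩
    rw [hF]
    refine Submodule.sum_mem _ fun u _ => ?_
    obtain ⟨a, ha⟩ := Submodule.Quotient.mk_surjective N (v u)
    rw [← ha, hf, LinearMap.mem_ker, hG, Submodule.Quotient.mk_eq_zero]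
    exact Ideal.mul_mem_left _ _ (hs u.2)
  · intro w hw
    obtain ⟨a, rfl⟩ := Submodule.Quotient.mk_surjective J w
    rw [LinearMap.mem_ker, hG, Submodule.Quotient.mk_eq_zero] at hw
    have hsub : J ⊔ Ideal.span (s : Set H) ≤ (LinearMap.range F).comap J.mkQ := by
      refine sup_le ?_ (Ideal.span_le.2 ?_)
      · intro b hb
        have : J.mkQ b = 0 := (Submodule.Quotient.mk_eq_zero J).2 hb
        rw [Submodule.mem_comap, this]
        exact Submodule.zero_mem _
      · intro u hu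
        refine ⟨Pi.single ⟨u, hu⟩ (Submodule.Quotient.mk 1), ?_⟩
        rw [hF, Finset.sum_eq_single ⟨u, hu⟩]
        · rw [Pi.single_eq_same, hf, one_mul]
          rfl
        · intro v _ hv
          rw [Pi.single_eq_of_ne hv, map_zero]
        · intro hv
          exact absurd (Finset.mem_univ _) hv
    exact hsub (hle hw)

theorem pj4_pow {N : Ideal H} [N.IsTwoSided] (h : LFG (N * N) N) (i : ℕ) :
    LFG (N ^ (i + 1)) (N ^ i) := by
  classical
  obtain ⟨s, hs, hle⟩ := h
  induction i with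
  | zero =>
    refine ⟨{1}, ?_, ?_⟩
    · intro u _
      rw [Submodule.pow_zero, Ideal.one_eq_top]
      exact Submodule.mem_top
    · refine le_sup_of_le_right ?_
      rw [Finset.coe_singleton, Ideal.span_singleton_one]
      exact le_top
  | succ i ih =>
    obtain ⟨t, ht, hlt⟩ := ih
    refine ⟨Finset.image₂ (fun v u => v * u) t s, ?_, ?_⟩
    · intro w hw
      simp only [Finset.coe_image₂, Set.mem_image2, Finset.mem_coe] at hw
      obtain ⟨v, hv, u, hu, rfl⟩ := hw
      rw [Submodule.pow_succ]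
      exact Ideal.mul_mem_mul (ht hv) (hs hu)
    · set K : Ideal H := N ^ (i + 1 + 1) ⊔
        Ideal.span ((Finset.image₂ (fun v u => v * u) t s : Finset H) : Set H) with hK
      have hgen : ∀ u ∈ s, ∀ a ∈ N ^ i, a * u ∈ K := by
        intro u hu a ha
        have hsub : N ^ (i + 1) ⊔ Ideal.span (t : Set H) ≤
            Submodule.comap (LinearMap.toSpanSingleton H H u) K := by
          refine sup_le ?_ (Ideal.span_le.2 ?_)
          · intro b hb
            simp only [Submodule.mem_comap, LinearMap.toSpanSingleton_apply, smul_eq_mul]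
            refine Submodule.mem_sup_left ?_
            rw [Submodule.pow_succ]
            exact Ideal.mul_mem_mul hb (hs hu)
          · intro v hv
            simp only [SetLike.mem_coe, Submodule.mem_comap, LinearMap.toSpanSingleton_apply,
              smul_eq_mul]
            refine Submodule.mem_sup_right (Ideal.subset_span ?_)
            simp only [Finset.coe_image₂, Set.mem_image2, Finset.mem_coe]
            exact ⟨v, hv, u, hu, rfl⟩
        have := hsub (hlt ha)
        simpa only [Submodule.mem_comap, LinearMap.toSpanSingleton_apply, smul_eq_mul] using this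
      have hspan : ∀ n ∈ Ideal.span (s : Set H), ∀ a ∈ N ^ i, a * n ∈ K := by
        intro n hn
        induction hn using Submodule.span_induction with
        | mem u hu => exact hgen u hu
        | zero => intro a _; rw [mul_zero]; exact K.zero_mem
        | add m n _ _ hm hn => intro a ha; rw [mul_add]; exact K.add_mem (hm a ha) (hn a ha)
        | smul c n _ hn =>
          intro a ha
          rw [smul_eq_mul, ← mul_assoc]
          exact hn _ (Ideal.mul_mem_right c _ ha)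
      rw [Submodule.pow_succ]
      refine Ideal.mul_le.2 fun a ha n hn => ?_
      obtain ⟨m, hm, n', hn', rfl⟩ := Submodule.mem_sup.1 (hle hn)
      rw [mul_add]
      refine K.add_mem (Submodule.mem_sup_left ?_) (hspan n' hn' a ha)
      rw [Submodule.pow_succ, Submodule.pow_succ, mul_assoc]
      exact Ideal.mul_mem_mul ha hm

theorem pj4_cf [IsAlgClosed k] {g d : ℕ} {x : Fin g → H} (hx : Gen k x) (hd : MPI k H d)
    (Λ : Link2 k H) (Ps : List (Ideal H)) (hPs : ∀ P ∈ Ps, IsP k P) :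
    ∃ N : Ideal H, CF k N ∧ ∀ P ∈ Ps, N ≤ P := by
  induction Ps with
  | nil => exact ⟨⊤, CF.top, by simp⟩
  | cons P Ps ih =>
    obtain ⟨N, hN, hle⟩ := ih fun Q hQ => hPs Q (List.mem_cons_of_mem _ hQ)
    obtain ⟨τ, hτ⟩ := exists_tr hx hd (hPs P List.mem_cons_self)
    have hP : CF k P :=
      ⟨τ.Z, inferInstance, inferInstance, inferInstance, τ.c, Tr.cfin hx hd Λ τ, hτ⟩
    refine ⟨P ⊓ N, hP.inf hN, ?_⟩
    intro Q hQ
    rcases List.mem_cons.1 hQ with rfl | hQ
    · exact inf_le_left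
    · exact inf_le_right.trans (hle Q hQ)

/-- The inductive step.  If `J₀ < N` take `β` from `exists_bi`.  `Y` is finitely generated under the
operators `ψ (φ h)` (clear if `Y` is finite-dimensional, otherwise `Bi.fibre_nil` and `Bi.fg_left`).  So
`LFG J₀ J₁` for the ideal `J₁ > J₀` of `⊤`, and `LFG J₁ N` by `hmax`. -/
theorem lfg_step [IsAlgClosed k] {g d : ℕ} {x : Fin g → H} (hx : Gen k x) (hd : MPI k H d)
    (hS : Struct k H) (hS' : Struct k Hᵐᵒᵖ) (Λ : Link2 k H) {J₀ N : Ideal H} [J₀.IsTwoSided]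
    [N.IsTwoSided] [IsNoetherian H (H ⧸ N)] (hacc : Acc2 N) (h1 : N * N ≤ J₀) (h2 : J₀ ≤ N)
    (hmax : ∀ J : Ideal H, J.IsTwoSided → J₀ < J → J ≤ N → LFG J N) : LFG J₀ N := by
  rcases h2.eq_or_lt with rfl | hlt
  · exact ⟨∅, by simp, le_sup_left⟩
  obtain ⟨β⟩ := exists_bi hx hd hS hS' J₀ N hlt
  have hbi := β.fg_bimod hacc h1 h2
  have hfg : FGby {o | ∃ h, o = β.ψ (β.τ.c.φ h)} := by
    by_cases hinf : FiniteDimensional k β.Y
    · exact pj4_fd β
    · exact Bi.fg_left hx hd Λ β (Tr.cfin hx hd Λ β.τ) hbi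
        (Bi.fibre_nil hx hd hS Λ β h1 h2 hmax (β.fg_centre hbi) hinf)
  obtain ⟨J₁, hJ2, hJ0, hJN, hJ⟩ := β.exists_ideal ⊤ (fun _ _ _ => Submodule.mem_top)
    (fun _ _ _ => Submodule.mem_top) h2
  have hlt' : J₀ < J₁ := by
    obtain ⟨y, hy⟩ := exists_ne (0 : β.Y)
    obtain ⟨n, _, hn⟩ := β.sub y
    refine lt_of_le_of_ne hJ0 fun he => hy (β.inj ?_)
    have hn1 : n ∈ J₁ := (hJ n).2 ⟨y, Submodule.mem_top, hn⟩
    rw [← he] at hn1
    rw [hn, map_zero]
    exact Ideal.Quotient.eq_zero_iff_mem.2 hn1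
  exact pj4_trans hJN (pj4_of_fg β hJ hfg) (hmax J₁ hJ2 hlt' hJN)

/-- If `N = ∑ H u j + N * N` then `N ^ (i + 1) = ∑ N ^ i u j + N ^ (i + 2)`; by induction `H ⧸ N ^ i` is a
noetherian left module (`N ^ (i+1) / N ^ (i+2)` is a quotient of a finite sum of copies of
`N ^ i / N ^ (i + 1)`). -/
theorem isNoetherianRing_of_lfg {N : Ideal H} [N.IsTwoSided] [IsNoetherian H (H ⧸ N)]
    (h : LFG (N * N) N) {r : ℕ} (hr : N ^ r ≤ ⊥) : IsNoetherianRing H := by
  have key : ∀ i : ℕ, IsNoetherian H (H ⧸ N ^ i) := by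
    intro i
    induction i with
    | zero =>
      have : Subsingleton (H ⧸ N ^ 0) := by
        rw [Submodule.pow_zero, Ideal.one_eq_top]
        exact Submodule.Quotient.subsingleton_iff.2 rfl
      infer_instance
    | succ i ih =>
      refine pj4_ext (N := N) (K := N ^ i) ?_ ?_ (pj4_pow h i)
      · rw [Submodule.pow_succ]
        exact Ideal.mul_le_left
      · rw [Ideal.IsTwoSided.pow_succ]
  have := key r
  refine isNoetherian_of_injective (Submodule.mkQ (N ^ r)) ?_
  rw [← LinearMap.ker_eq_bot, Submodule.ker_mkQ]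
  exact le_bot_iff.1 hr

/-- `N` is the intersection of the primes of `hS`; `CF k N` by `exists_tr`, `Tr.cfin`, `CF.top`, `CF.inf`;
`LFG (N * N) N` by well-founded induction with `lfg_step`; `Kills.pow_le`. -/
theorem noeth_of_link2 [IsAlgClosed k] {g d : ℕ} {x : Fin g → H} (hx : Gen k x) (hd : MPI k H d)
    (hS : Struct k H) (hS' : Struct k Hᵐᵒᵖ) (Λ : Link2 k H) : IsNoetherianRing H := by
  obtain ⟨Ps, hPs, hK⟩ := id hS
  obtain ⟨N, hN, hle⟩ := pj4_cf hx hd Λ Ps hPs
  have := hN.two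
  have := hN.isNoetherian
  have hacc : Acc2 N := acc2_of_env hx N hN.isNoetherianRing_env
  have key : ∀ J : {J : Ideal H // J.IsTwoSided ∧ N * N ≤ J ∧ J ≤ N}, LFG J.1 N := by
    intro J
    have hwf : WellFoundedGT {J : Ideal H // J.IsTwoSided ∧ N * N ≤ J ∧ J ≤ N} := hacc
    induction J using WellFoundedGT.induction with
    | ind J ih =>
      have := J.2.1
      exact lfg_step hx hd hS hS' Λ hacc J.2.2.1 J.2.2.2 fun J' h2 hlt hle' =>
        ih ⟨J', h2, J.2.2.1.trans hlt.le, hle'⟩ hlt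
  exact isNoetherianRing_of_lfg (key ⟨N * N, inferInstance, le_rfl, Ideal.mul_le_right⟩)
    (hK.pow_le hle)

end

end Pool.Agent.Lib.MP_ff61db_al
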