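import Pool.Agent.Lib.MP_ff61db_al.PBase

set_option autoImplicit false

namespace Pool.Agent.Lib.MP_ff61db_al

open Polynomial TensorProduct

theorem pk0_sign {k : Type} [Field k] {e d : ℕ} (p : Fin e → Fin d) :
    ∑ T : Finset (Fin d), (if ∀ r, p r ∉ T then (-1 : k) ^ T.card else 0) =
      if Function.Surjective p then 1 else 0 := by
  classical
  have h1 := Finset.sum_powerset_neg_one_pow_card (x := (Finset.univ.image p)ᶜ)
  have h2 := congrArg (Int.cast : ℤ → k) h1
  rw [← Finset.sum_filter]
  have e1 : (Finset.univ.filter fun T : Finset (Fin d) => ∀ r, p r ∉ T) =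
      ((Finset.univ.image p)ᶜ).powerset := by
    ext T
    simp only [Finset.mem_filter, Finset.mem_univ, true_and, Finset.mem_powerset]
    constructor
    · intro h t ht
      simp only [Finset.mem_compl, Finset.mem_image, Finset.mem_univ, true_and, not_exists]
      rintro r rfl
      exact h r ht
    · intro h r hr
      have := h hr
      simp at this
  have e2 : (Finset.univ.image p)ᶜ = ∅ ↔ Function.Surjective p := by
    rw [Finset.compl_eq_empty_iff, Finset.eq_univ_iff_forall]
    simp [Function.Surjective]
  rw [e1]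
  push_cast at h2
  rw [h2]
  simp only [e2]

theorem pk0_fn {k H : Type} [Field k] [Ring H] [Algebra k H] {m e d : ℕ} (i : Fin d → Fin m)
    (a : Fin d → H) (u : Fin e → Fin m) :
    ∑ T : Finset (Fin d), (-1 : k) ^ T.card •
        (List.ofFn fun r => ∑ l, if l ∉ T ∧ i l = u r then a l else 0).prod =
      ∑ p : Fin e → Fin d, if Function.Surjective p ∧ ∀ r, i (p r) = u r then
        (List.ofFn fun r => a (p r)).prod else 0 := by
  classical
  have key : ∀ T : Finset (Fin d),
      (List.ofFn fun r => ∑ l, if l ∉ T ∧ i l = u r then a l else 0).prod =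
        ∑ p : Fin e → Fin d, if (∀ r, p r ∉ T) ∧ ∀ r, i (p r) = u r then
          (List.ofFn fun r => a (p r)).prod else 0 := by
    intro T
    rw [← MultilinearMap.mkPiAlgebraFin_apply (R := k), MultilinearMap.map_sum]
    refine Finset.sum_congr rfl (fun p _ => ?_)
    split_ifs with hp
    · rw [MultilinearMap.mkPiAlgebraFin_apply]
      congr 2
      funext r
      rw [if_pos ⟨hp.1 r, hp.2 r⟩]
    · have : ∃ r, ¬ (p r ∉ T ∧ i (p r) = u r) := by
        by_contra hc
        push Not at hc
        exact hp ⟨fun r => (hc r).1, fun r => (hc r).2⟩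
      obtain ⟨r, hr⟩ := this
      exact MultilinearMap.map_coord_zero _ r (if_neg hr)
  simp only [key, Finset.smul_sum]
  rw [Finset.sum_comm]
  refine Finset.sum_congr rfl (fun p _ => ?_)
  by_cases hp : ∀ r, i (p r) = u r
  · have e1 : ∀ T : Finset (Fin d), (-1 : k) ^ T.card •
        (if (∀ r, p r ∉ T) ∧ ∀ r, i (p r) = u r then (List.ofFn fun r => a (p r)).prod else 0) =
        (if ∀ r, p r ∉ T then (-1 : k) ^ T.card else 0) • (List.ofFn fun r => a (p r)).prod := by
      intro T
      by_cases hT : ∀ r, p r ∉ T
      · rw [if_pos ⟨hT, hp⟩, if_pos hT]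
      · rw [if_neg (fun hh => hT hh.1), if_neg hT, smul_zero, zero_smul]
    simp only [e1]
    rw [← Finset.sum_smul, pk0_sign]
    by_cases hs : Function.Surjective p
    · rw [if_pos hs, if_pos ⟨hs, hp⟩, one_smul]
    · rw [if_neg hs, if_neg (fun hh => hs hh.1), zero_smul]
  · rw [if_neg (fun hh => hp hh.2)]
    refine Finset.sum_eq_zero (fun T _ => ?_)
    rw [if_neg (fun hh => hp hh.2), smul_zero]

theorem pk0_list {k H : Type} [Field k] [Ring H] [Algebra k H] {m d : ℕ} (i : Fin d → Fin m)
    (a : Fin d → H) (u : List (Fin m)) (hu : u.length ≤ d) :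
    ∑ T : Finset (Fin d), (-1 : k) ^ T.card •
        wd (fun j => ∑ l, if l ∉ T ∧ i l = j then a l else 0) u =
      ∑ σ : Equiv.Perm (Fin d), if (List.ofFn fun r => i (σ r)) = u then
        (List.ofFn fun r => a (σ r)).prod else 0 := by
  classical
  obtain ⟨e, v, rfl⟩ : ∃ (e : ℕ) (v : Fin e → Fin m), u = List.ofFn v :=
    ⟨u.length, u.get, (List.ofFn_get u).symm⟩
  rw [List.length_ofFn] at hu
  have e0 : ∀ x : Fin m → H, wd x (List.ofFn v) = (List.ofFn fun r => x (v r)).prod := by
    intro x
    rw [wd, List.map_ofFn]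
    rfl
  simp only [e0]
  rw [pk0_fn]
  rcases hu.lt_or_eq with hlt | rfl
  · rw [Finset.sum_eq_zero, Finset.sum_eq_zero]
    · intro σ _
      rw [if_neg]
      intro hh
      have := congrArg List.length hh
      simp only [List.length_ofFn] at this
      omega
    · intro p _
      rw [if_neg]
      rintro ⟨hs, -⟩
      have := Fintype.card_le_of_surjective p hs
      simp only [Fintype.card_fin] at this
      omega
  · symm
    rw [← Finset.sum_filter, ← Finset.sum_filter]
    refine Finset.sum_bij (fun σ _ => (σ : Fin e → Fin e)) ?_ ?_ ?_ ?_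
    · intro σ hσ
      simp only [Finset.mem_filter, Finset.mem_univ, true_and, List.ofFn_inj] at hσ ⊢
      exact ⟨σ.surjective, fun r => congrFun hσ r⟩
    · intro σ _ σ' _ hh
      exact Equiv.ext (fun r => congrFun hh r)
    · intro p hp
      simp only [Finset.mem_filter, Finset.mem_univ, true_and] at hp
      refine ⟨Equiv.ofBijective p (Finite.surjective_iff_bijective.1 hp.1), ?_, rfl⟩
      simp only [Finset.mem_filter, Finset.mem_univ, true_and, List.ofFn_inj]
      exact funext hp.2
    · intro σ _
      rfl

theorem pk0_lift {k H : Type} [Field k] [Ring H] [Algebra k H] {m : ℕ} (a : Fin m → H)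
    (u : FreeMonoid (Fin m)) :
    FreeAlgebra.lift k a (FreeAlgebra.basisFreeMonoid k (Fin m) u) = wd a u.toList := by
  have e1 : FreeAlgebra.basisFreeMonoid k (Fin m) u = FreeMonoid.lift (FreeAlgebra.ι k) u := by
    simp [FreeAlgebra.basisFreeMonoid, FreeAlgebra.equivMonoidAlgebraFreeMonoid]
  rw [e1, FreeMonoid.lift_apply, map_list_prod, List.map_map, wd]
  congr 2
  funext j
  simp

/-- Multilinearization.  Use `FreeAlgebra.equivMonoidAlgebraFreeMonoid`: write `f` as a
combination of words; let `w = [i 0, ..., i (d-1)]` be a word of maximal length `d` in the support.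
For `S ⊆ Fin d` substitute `x j ↦ ∑ l ∈ S with i l = j, a l`; take the sum over `S` with signs
`(-1) ^ (d - S.card)`.  A word `u` of length `e ≤ d` contributes
`∑ over maps p : Fin e → Fin d with i (p r) = u r`, of `∏ a (p r)` times
`∑ S ⊇ range p, (-1) ^ (d - S.card)`, which is `1` if `p` is onto and `0` otherwise; so only `e = d`
and bijective `p` survive.  The coefficient of `σ` is the coefficient in `f` of the word
`[i (σ 0), ..., i (σ (d-1))]`; for `σ = 1` it is nonzero; divide by it.
(Any other proof is fine, for instance the difference operator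
`f (.., u + v, ..) - f (.., u, ..) - f (.., v, ..)`.) -/
theorem mpi_of_pi {k H : Type} [Field k] [Ring H] [Algebra k H] {m : ℕ}
    (f : FreeAlgebra k (Fin m)) (hf : f ≠ 0) (h : ∀ a : Fin m → H, FreeAlgebra.lift k a f = 0) :
    ∃ d : ℕ, MPI k H d := by
  classical
  set b := FreeAlgebra.basisFreeMonoid k (Fin m) with hb
  set cf := b.repr f with hcf
  have hne : cf.support.Nonempty := by
    rw [Finsupp.support_nonempty_iff]
    intro h0
    exact hf (b.repr.map_eq_zero_iff.1 h0)
  obtain ⟨w, hw, hmax⟩ := Finset.exists_max_image cf.support (fun u => u.toList.length) hne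
  have hw0 : cf w ≠ 0 := Finsupp.mem_support_iff.1 hw
  have hev : ∀ x : Fin m → H, ∑ u ∈ cf.support, cf u • wd x u.toList = 0 := by
    intro x
    have h1 := h x
    rw [← b.linearCombination_repr f, ← hcf, Finsupp.linearCombination_apply, Finsupp.sum,
      map_sum] at h1
    simpa only [map_smul, hb, pk0_lift] using h1
  set d := w.toList.length with hd
  set i : Fin d → Fin m := w.toList.get with hi
  refine ⟨d, fun σ => (cf w)⁻¹ * cf (FreeMonoid.ofList (List.ofFn fun r => i (σ r))), ?_,
    fun a => ?_⟩
  · have : (List.ofFn fun r => i ((1 : Equiv.Perm (Fin d)) r)) = w.toList := List.ofFn_get _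
    simp only [this, FreeMonoid.ofList_toList]
    exact inv_mul_cancel₀ hw0
  · simp only [mul_smul]
    rw [← Finset.smul_sum]
    have h1 : ∑ T : Finset (Fin d), (-1 : k) ^ T.card • ∑ u ∈ cf.support, cf u •
        wd (fun j => ∑ l, if l ∉ T ∧ i l = j then a l else 0) u.toList = 0 := by
      simp only [hev, smul_zero, Finset.sum_const_zero]
    simp only [Finset.smul_sum] at h1
    rw [Finset.sum_comm] at h1
    have h2 : ∀ u ∈ cf.support, ∑ T : Finset (Fin d), (-1 : k) ^ T.card • cf u •
        wd (fun j => ∑ l, if l ∉ T ∧ i l = j then a l else 0) u.toList =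
        ∑ σ : Equiv.Perm (Fin d), if FreeMonoid.ofList (List.ofFn fun r => i (σ r)) = u then
          cf u • (List.ofFn fun r => a (σ r)).prod else 0 := by
      intro u hu
      simp only [smul_comm _ (cf u)]
      rw [← Finset.smul_sum, pk0_list i a _ (hmax u hu), Finset.smul_sum]
      refine Finset.sum_congr rfl (fun σ _ => ?_)
      by_cases hσ : (List.ofFn fun r => i (σ r)) = u.toList
      · rw [if_pos hσ, if_pos (by rw [hσ, FreeMonoid.ofList_toList])]
      · rw [if_neg hσ, if_neg, smul_zero]
        intro hh
        exact hσ (by rw [← hh, FreeMonoid.toList_ofList])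
    rw [Finset.sum_congr rfl h2, Finset.sum_comm] at h1
    have h3 : ∀ σ : Equiv.Perm (Fin d), (∑ u ∈ cf.support,
        if FreeMonoid.ofList (List.ofFn fun r => i (σ r)) = u then
          cf u • (List.ofFn fun r => a (σ r)).prod else 0) =
        cf (FreeMonoid.ofList (List.ofFn fun r => i (σ r))) •
          (List.ofFn fun r => a (σ r)).prod := by
      intro σ
      rw [Finset.sum_ite_eq]
      split_ifs with hs
      · rfl
      · rw [Finsupp.notMem_support_iff.1 hs, zero_smul]
    simp only [h3] at h1
    rw [h1, smul_zero]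

end Pool.Agent.Lib.MP_ff61db_al
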