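import Pool.Agent.Lib.MP_ff61db_al.PBase

set_option autoImplicit false

namespace Pool.Agent.Lib.MP_ff61db_al

open Polynomial TensorProduct

/-- `σ` has no decreasing subsequence of length `d` -/
def GoodP (d : ℕ) {n : ℕ} (σ : Equiv.Perm (Fin n)) : Prop :=
  ¬ ∃ s : Fin d → Fin n, StrictMono s ∧ StrictAnti (fun i => σ (s i))

/-- a decreasing subsequence of length `l + 1` ends at `i` -/
def pk1P {n : ℕ} (σ : Equiv.Perm (Fin n)) (i : Fin n) (l : ℕ) : Prop :=
  ∃ s : ℕ → Fin n, (∀ a b, a < b → b ≤ l → s a < s b ∧ σ (s b) < σ (s a)) ∧ s l = i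

lemma pk1_zero {n : ℕ} (σ : Equiv.Perm (Fin n)) (i : Fin n) : pk1P σ i 0 :=
  ⟨fun _ => i, fun _ _ h1 h2 => absurd (h1.trans_le h2) (Nat.not_lt_zero _), rfl⟩

lemma pk1_lt {d n : ℕ} {σ : Equiv.Perm (Fin n)} (h : GoodP d σ) {i : Fin n} {l : ℕ}
    (hl : pk1P σ i l) : l < d := by
  by_contra hd
  obtain ⟨s, hs, -⟩ := hl
  exact h ⟨fun a => s a, fun a b hab => (hs a b hab (by omega)).1,
    fun a b hab => (hs a b hab (by omega)).2⟩

lemma pk1_succ {n : ℕ} {σ : Equiv.Perm (Fin n)} {i j : Fin n} {l : ℕ} (hl : pk1P σ i l)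
    (hij : i < j) (hσ : σ j < σ i) : pk1P σ j (l + 1) := by
  obtain ⟨s, hs, hi⟩ := hl
  refine ⟨fun a => if a ≤ l then s a else j, fun a b hab hb => ?_, by simp⟩
  have ha : a ≤ l := by omega
  by_cases hbl : b ≤ l
  · simpa only [if_pos ha, if_pos hbl] using hs a b hab hbl
  · simp only [if_pos ha, if_neg hbl]
    rcases ha.eq_or_lt with rfl | ha
    · rw [hi]; exact ⟨hij, hσ⟩
    · have := hs a l ha le_rfl
      rw [hi] at this
      exact ⟨this.1.trans hij, hσ.trans this.2⟩

lemma pk1_col {d n : ℕ} {σ : Equiv.Perm (Fin n)} (h : GoodP d σ) :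
    ∃ c : Fin n → Fin d, ∀ i j, i < j → c i = c j → σ i < σ j := by
  classical
  have hP : ∀ i, pk1P σ i (Nat.findGreatest (pk1P σ i) d) := fun i =>
    Nat.findGreatest_spec (Nat.zero_le d) (pk1_zero σ i)
  refine ⟨fun i => ⟨Nat.findGreatest (pk1P σ i) d, pk1_lt h (hP i)⟩, fun i j hij hc => ?_⟩
  have hc' : Nat.findGreatest (pk1P σ i) d = Nat.findGreatest (pk1P σ j) d := congrArg Fin.val hc
  rcases lt_trichotomy (σ i) (σ j) with h1 | h1 | h1
  · exact h1
  · exact absurd (σ.injective h1) hij.ne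
  · have := Nat.le_findGreatest (pk1_lt h (hP i)) (pk1_succ (hP i) hij h1)
    omega

lemma pk1_eq_one {d n : ℕ} (ρ : Equiv.Perm (Fin n)) (c : Fin n → Fin d) (hc : ∀ i, c (ρ i) = c i)
    (hm : ∀ i j, i < j → c i = c j → ρ i < ρ j) (i : Fin n) : ρ i = i := by
  induction i using WellFoundedLT.induction with
  | ind i ih =>
    rcases lt_trichotomy (ρ i) i with h | h | h
    · exact ρ.injective (ih _ h)
    · exact h
    · obtain ⟨j, hj⟩ := ρ.surjective i
      rcases lt_trichotomy j i with h1 | h1 | h1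
      · rw [ih j h1] at hj
        exact absurd hj h1.ne
      · rw [h1] at hj
        exact hj
      · have := hm i j h1 (by rw [← hc j, hj])
        rw [hj] at this
        exact absurd h this.not_gt

/-- Counting permutations without long decreasing subsequences.  Colour the position `i` by the
length `col i ∈ {1, .., d - 1}` of the longest decreasing subsequence ending at `i`.  Positions of the
same colour carry increasing values, so `σ` is determined by the pair of colourings `col` and
`col ∘ σ⁻¹` (on each colour class `σ` is the unique order isomorphism between the class of `col`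
and the class of `col ∘ σ⁻¹`).  Hence there are at most `d ^ n * d ^ n` such `σ`. -/
theorem card_goodP (d n : ℕ) :
    Nat.card {σ : Equiv.Perm (Fin n) // GoodP d σ} ≤ d ^ (2 * n) := by
  choose c hc using fun σ : {σ : Equiv.Perm (Fin n) // GoodP d σ} => pk1_col σ.2
  have hinj : Function.Injective fun σ : {σ : Equiv.Perm (Fin n) // GoodP d σ} =>
      ((c σ, fun v => c σ (σ.1.symm v)) : (Fin n → Fin d) × (Fin n → Fin d)) := by
    intro σ τ h
    have h1 : c σ = c τ := congrArg Prod.fst h
    have h2 : ∀ v, c σ (σ.1.symm v) = c τ (τ.1.symm v) := congrFun (congrArg Prod.snd h)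
    have h3 : ∀ i, c τ (τ.1.symm (σ.1 i)) = c τ i := fun i => by
      rw [← h2, Equiv.symm_apply_apply, h1]
    have key := pk1_eq_one (σ.1.trans τ.1.symm) (c τ) h3 fun i j hij hcij => by
      have h4 : σ.1 i < σ.1 j := hc σ i j hij (by rw [h1]; exact hcij)
      show τ.1.symm (σ.1 i) < τ.1.symm (σ.1 j)
      rcases lt_trichotomy (τ.1.symm (σ.1 i)) (τ.1.symm (σ.1 j)) with h5 | h5 | h5
      · exact h5
      · exact absurd (τ.1.symm.injective h5) h4.ne
      · have := hc τ _ _ h5 (by rw [h3, h3, hcij])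
        rw [Equiv.apply_symm_apply, Equiv.apply_symm_apply] at this
        exact absurd h4 this.not_gt
    refine Subtype.ext (Equiv.ext fun i => ?_)
    have h6 : τ.1.symm (σ.1 i) = i := key i
    exact (Equiv.symm_apply_eq _).1 h6
  have := Nat.card_le_card_of_injective _ hinj
  simpa [Nat.card_prod, Nat.card_fun, two_mul, pow_add] using this

end Pool.Agent.Lib.MP_ff61db_al
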