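import Pool.Agent.Lib.MP_ff61db_al.PK1

set_option autoImplicit false

namespace Pool.Agent.Lib.MP_ff61db_al

open Polynomial TensorProduct

/-- the multilinear monomial function attached to `σ` -/
def mono (H : Type) [Ring H] {n : ℕ} (σ : Equiv.Perm (Fin n)) : (Fin n → H) → H :=
  fun a => (List.ofFn fun i => a (σ i)).prod

/-- cutting a list along a subsequence -/
theorem pk2_cut {α : Type} {d : ℕ} (hd : Fin d → α) (l : List α) (h : (List.ofFn hd).Sublist l) :
    ∃ (l₀ : List α) (tl : Fin d → List α), l = l₀ ++ (List.ofFn fun i => hd i :: tl i).flatten := by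
  induction d generalizing l with
  | zero => exact ⟨l, fun i => i.elim0, by simp⟩
  | succ d ih =>
    rw [List.ofFn_succ, List.cons_sublist_iff] at h
    obtain ⟨r₁, r₂, rfl, ha, hs⟩ := h
    obtain ⟨u, v, rfl⟩ := List.append_of_mem ha
    obtain ⟨l₀, tl, rfl⟩ := ih _ _ hs
    refine ⟨u, Fin.cons (v ++ l₀) tl, ?_⟩
    rw [List.ofFn_succ]
    simp

theorem pk2_lt {α : Type} [LinearOrder α] {d : ℕ} (f g : Fin d → List α) (i : Fin d)
    (hj : ∀ j < i, f j = g j) {a b : α} {u v : List α} (hf : f i = a :: u) (hg : g i = b :: v)
    (hab : a < b) : (List.ofFn f).flatten < (List.ofFn g).flatten := by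
  induction d with
  | zero => exact i.elim0
  | succ d ih =>
    rw [List.ofFn_succ, List.ofFn_succ, List.flatten_cons, List.flatten_cons]
    revert hj hf hg
    refine Fin.cases ?_ (fun i => ?_) i
    · intro _ hf hg
      rw [hf, hg]
      exact List.Lex.rel hab
    · intro hj hf hg
      rw [hj 0 (Fin.succ_pos i)]
      exact List.append_left_lt
        (ih (fun j => f j.succ) (fun j => g j.succ) i
          (fun j h => hj j.succ (Fin.succ_lt_succ_iff.2 h)) hf hg)

theorem pk2_first {d : ℕ} (τ : Equiv.Perm (Fin d)) (h : τ ≠ 1) :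
    ∃ i, i < τ i ∧ ∀ j < i, τ j = j := by
  classical
  have h1 : (Finset.univ.filter fun i => τ i ≠ i).Nonempty := by
    by_contra h2
    apply h
    ext i
    by_contra h3
    exact h2 ⟨i, by simpa [Fin.ext_iff] using h3⟩
  obtain ⟨i, hi, hmin⟩ := Finset.exists_min_image _ id h1
  have h2 : ∀ j < i, τ j = j := by
    intro j hj
    by_contra h3
    exact absurd (hmin j (by simpa using h3)) (not_le.2 hj)
  refine ⟨i, ?_, h2⟩
  have h3 : τ i ≠ i := by simpa using hi
  rcases lt_or_gt_of_ne h3 with h4 | h4
  · exact absurd (τ.injective (h2 _ h4)) h3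
  · exact h4

theorem pk2_perm {n : ℕ} (l : List (Fin n)) (h : l.Perm (List.finRange n)) :
    ∃ σ : Equiv.Perm (Fin n), List.ofFn σ = l := by
  have hl : l.length = n := by simpa using h.length_eq
  let f : Fin n → Fin n := fun i => l[i.val]'(by omega)
  have hf : List.ofFn f = l := List.ext_getElem (by simp [hl]) (by simp [f])
  have hinj : Function.Injective f := by
    rw [← List.nodup_ofFn, hf]
    exact h.nodup_iff.2 (List.nodup_finRange n)
  exact ⟨Equiv.ofBijective f hinj.bijective_of_finite, hf⟩

/-- Regev.  Induction on the list `List.ofFn σ` in the lexicographic order (it is convenient to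
work with lists `l` that are permutations of `List.finRange n`, and the functions
`a ↦ (l.map a).prod`).  If `σ` is not good, cut the list at the positions `s 0 < .. < s (d-1)` of a
decreasing subsequence: `l = l₀ ++ b 0 ++ .. ++ b (d-1)` where `b i` starts with `σ (s i)`.  The
identity applied to the products over the blocks `b i` writes the monomial as a combination of the
monomials of `l₀ ++ b (τ 0) ++ .. ++ b (τ (d-1))`, `τ ≠ 1`, and these lists are lexicographically
smaller (at the first `i` with `τ i ≠ i` one has `τ i > i`, so the head is smaller). -/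
theorem mono_mem_span_good {k H : Type} [Field k] [Ring H] [Algebra k H] {d : ℕ}
    (h : MPI k H d) {n : ℕ} (σ : Equiv.Perm (Fin n)) :
    mono H σ ∈ Submodule.span k {f | ∃ τ : Equiv.Perm (Fin n), GoodP d τ ∧ f = mono H τ} := by
  have main : ∀ l ∈ {l : List (Fin n) | l.Perm (List.finRange n)},
      (fun a : Fin n → H => (l.map a).prod) ∈
        Submodule.span k {f | ∃ τ : Equiv.Perm (Fin n), GoodP d τ ∧ f = mono H τ} := by
    intro l hl
    have hfin : {l : List (Fin n) | l.Perm (List.finRange n)}.Finite :=
      (List.finite_length_eq (Fin n) n).subset fun l hl => by simpa using hl.length_eq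
    refine (hfin.wellFoundedOn (r := (· < ·))).induction hl
      (P := fun l => (fun a : Fin n → H => (l.map a).prod) ∈
        Submodule.span k {f | ∃ τ : Equiv.Perm (Fin n), GoodP d τ ∧ f = mono H τ}) ?_
    clear hl l
    intro l hl ih
    obtain ⟨σ, rfl⟩ := pk2_perm l hl
    by_cases hg : GoodP d σ
    · refine Submodule.subset_span ⟨σ, hg, ?_⟩
      funext a
      simp only [mono, List.map_ofFn]
      rfl
    · obtain ⟨s, hs, hanti⟩ := not_not.1 hg
      have hsub : (List.ofFn fun i => σ (s i)).Sublist (List.ofFn σ) := by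
        have h1 : (List.ofFn s).Sublist (List.finRange n) := by
          refine List.sublist_of_subperm_of_sortedLE ?_ ?_ ?_
          · exact (List.nodup_ofFn.2 hs.injective).subperm fun i _ => List.mem_finRange i
          · exact (List.sortedLT_ofFn_iff.2 hs).sortedLE
          · exact (List.pairwise_lt_finRange n).sortedLT.sortedLE
        have h2 := h1.map σ
        rw [List.map_ofFn, ← List.ofFn_eq_map] at h2
        exact h2
      obtain ⟨l₀, tl, hcut⟩ := pk2_cut _ _ hsub
      obtain ⟨c, hc1, hc⟩ := h
      let L : Equiv.Perm (Fin d) → List (Fin n) := fun τ =>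
        l₀ ++ (List.ofFn fun i => σ (s (τ i)) :: tl (τ i)).flatten
      have hL1 : List.ofFn σ = L 1 := hcut
      have hperm : ∀ τ, (L τ).Perm (List.finRange n) := by
        intro τ
        refine List.Perm.trans ?_ hl
        rw [hcut]
        exact List.Perm.append_left _
          (Equiv.Perm.ofFn_comp_perm τ fun i => σ (s i) :: tl i).flatten
      have hlt : ∀ τ, τ ≠ 1 → L τ < List.ofFn σ := by
        intro τ hτ
        obtain ⟨i, hi, hj⟩ := pk2_first τ hτ
        rw [hcut]
        exact List.append_left_lt
          (pk2_lt _ _ i (fun j h => by simp only [hj j h]) rfl rfl (hanti hi))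
      have hsum : ∑ τ, c τ • (fun a : Fin n → H => ((L τ).map a).prod) = 0 := by
        funext a
        have h1 := congrArg ((l₀.map a).prod * ·) (hc fun i => ((σ (s i) :: tl i).map a).prod)
        simp only [mul_zero, Finset.mul_sum, mul_smul_comm] at h1
        rw [Finset.sum_apply, Pi.zero_apply, ← h1]
        refine Finset.sum_congr rfl fun τ _ => ?_
        simp only [Pi.smul_apply, L, List.map_append, List.prod_append, List.map_flatten,
          List.prod_flatten, List.map_ofFn]
        rfl
      rw [← Finset.add_sum_erase _ _ (Finset.mem_univ 1), hc1, one_smul,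
        add_eq_zero_iff_eq_neg] at hsum
      rw [hL1, hsum]
      refine Submodule.neg_mem _ (Submodule.sum_mem _ fun τ hτ => Submodule.smul_mem _ _ ?_)
      exact ih _ (hperm τ) (hlt τ (Finset.ne_of_mem_erase hτ))
  have h1 := main (List.ofFn σ) (by
    have := Equiv.Perm.ofFn_comp_perm σ id
    rw [List.ofFn_id] at this
    exact this)
  have h2 : (fun a : Fin n → H => ((List.ofFn σ).map a).prod) = mono H σ := by
    funext a
    simp only [mono, List.map_ofFn]
    rfl
  rwa [h2] at h1

/-- consequence of `mono_mem_span_good` and `card_goodP` -/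
theorem regev {k H : Type} [Field k] [Ring H] [Algebra k H] {d : ℕ} (h : MPI k H d) (n : ℕ) :
    Module.finrank k (Submodule.span k (Set.range (mono H (n := n)))) ≤ d ^ (2 * n) := by
  classical
  have h1 : Submodule.span k (Set.range (mono H (n := n))) =
      Submodule.span k (Set.range fun τ : {σ : Equiv.Perm (Fin n) // GoodP d σ} => mono H τ.1) := by
    apply le_antisymm
    · rw [Submodule.span_le]
      rintro _ ⟨σ, rfl⟩
      refine Submodule.span_mono ?_ (mono_mem_span_good h σ)
      rintro _ ⟨τ, hτ, rfl⟩
      exact ⟨⟨τ, hτ⟩, rfl⟩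
    · refine Submodule.span_mono ?_
      rintro _ ⟨τ, rfl⟩
      exact ⟨τ.1, rfl⟩
  rw [h1]
  refine (finrank_range_le_card _).trans ?_
  rw [← Nat.card_eq_fintype_card]
  exact card_goodP d n

end Pool.Agent.Lib.MP_ff61db_al
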