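import Pool.Agent.Lib.MP_ff61db_al.PK2

set_option autoImplicit false

namespace Pool.Agent.Lib.MP_ff61db_al

open Polynomial TensorProduct

/-- sparse identity -/
def Sparse (k H : Type) [Field k] [Ring H] [Algebra k H] (r : ℕ) : Prop :=
  ∃ α : Equiv.Perm (Fin r) → k, α 1 = 1 ∧
    ∀ (π : Equiv.Perm (Fin r)) (a : Fin r → H) (y : Fin (r + 1) → H),
      ∑ σ : Equiv.Perm (Fin r), α σ • gm y (fun i => a (σ (π i))) = 0

theorem pk3_equiv (H : Type) [Ring H] (r : ℕ) :
    ∃ (n : ℕ) (E : Fin n ≃ Fin r ⊕ Fin (r + 1)), n = 2 * r + 1 ∧ ∀ c : Fin r ⊕ Fin (r + 1) → H,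
      (List.ofFn fun i => c (E i)).prod = gm (fun i => c (Sum.inr i)) (fun i => c (Sum.inl i)) := by
  let l : List (Fin r ⊕ Fin (r + 1)) :=
    Sum.inr 0 :: (List.ofFn fun i : Fin r => [Sum.inl i, Sum.inr i.succ]).flatten
  have hl : l.length = 2 * r + 1 := by
    simp [l, List.length_flatten, List.map_ofFn, Function.comp_def, mul_comm]
  have hm : ∀ x, x ∈ l := by
    rintro (i | i)
    · exact List.mem_cons_of_mem _ (List.mem_flatten.2 ⟨_, List.mem_ofFn.2 ⟨i, rfl⟩, by simp⟩)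
    · refine Fin.cases List.mem_cons_self (fun j => ?_) i
      exact List.mem_cons_of_mem _ (List.mem_flatten.2 ⟨_, List.mem_ofFn.2 ⟨j, rfl⟩, by simp⟩)
  have hb : Function.Bijective l.get := by
    rw [Fintype.bijective_iff_surjective_and_card]
    refine ⟨fun x => List.mem_iff_get.1 (hm x), ?_⟩
    simp only [Fintype.card_fin, Fintype.card_sum, hl]
    omega
  refine ⟨l.length, Equiv.ofBijective _ hb, hl, fun c => ?_⟩
  have e : (List.ofFn fun i => c (Equiv.ofBijective _ hb i)) = l.map c := by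
    conv_rhs => rw [← List.ofFn_get l, List.map_ofFn]
    rfl
  rw [e]
  simp [l, gm, List.map_flatten, List.prod_flatten, List.map_ofFn, Function.comp_def]

theorem pk3_dep {k M ι : Type} [Field k] [AddCommGroup M] [Module k M] [FiniteDimensional k M]
    [Fintype ι] (U : ι → Module.End k M) {D : ℕ} (hD : Module.finrank k M ≤ D)
    (hι : D * D < Fintype.card ι) :
    ∃ g : ι → k, (∀ m, ∑ i, g i • U i m = 0) ∧ ∃ i, g i ≠ 0 := by
  have hU : ¬ LinearIndependent k U := by
    intro hU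
    have h1 := hU.fintype_card_le_finrank
    rw [Module.finrank_linearMap] at h1
    exact Nat.lt_irrefl _ (hι.trans_le (h1.trans (Nat.mul_le_mul hD hD)))
  obtain ⟨g, hg, h⟩ := Fintype.not_linearIndependent_iff.1 hU
  refine ⟨g, fun m => ?_, h⟩
  simpa using LinearMap.congr_fun hg m

theorem pk3_num (c : ℕ) (hc : 0 < c) :
    ∃ r : ℕ, ∀ n, n = 2 * r + 1 → c ^ (2 * n) * c ^ (2 * n) < r.factorial := by
  obtain ⟨r, hr, hr1⟩ := ((Nat.eventually_pow_lt_factorial_sub (c ^ 12) 0).and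
    (Filter.eventually_ge_atTop 1)).exists
  refine ⟨r, fun n hn => lt_of_le_of_lt ?_ hr⟩
  rw [← pow_add, ← pow_mul]
  exact Nat.pow_le_pow_right hc (by omega)

/-- Let `M` be the span of the functions `m π : (a, y) ↦ gm y (a ∘ π)` on
`(Fin r → H) × (Fin (r+1) → H)`.  Under a bijection with `Fin (2 r + 1) → H` each `m π` is a
multilinear monomial `mono H σ`, so `dim M ≤ D = d ^ (2 (2 r + 1))` by `regev`.  For `σ` let
`U σ ∈ End M` be `f ↦ ((a, y) ↦ f (a ∘ σ, y))`; it sends `m π` to `m (σ * π)`.  For `r` large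
`D ^ 2 < r !` (`Nat.factorial` beats exponentials, e.g. `FloorSemiring.tendsto_pow_div_factorial_atTop`
or `Nat.eventually_pow_lt_factorial_sub`), so the `U σ` are linearly dependent:
`∑ α σ • U σ = 0` with `α σ₀ ≠ 0`.  Replace `a` by `a ∘ σ₀⁻¹` and divide to get `α 1 = 1`. -/
theorem exists_sparse {k H : Type} [Field k] [Ring H] [Algebra k H] {d : ℕ} (h : MPI k H d) :
    ∃ r : ℕ, Sparse k H r := by
  classical
  obtain ⟨r, hr⟩ := pk3_num (d + 1) (Nat.succ_pos d)
  obtain ⟨n, E, hn, hE⟩ := pk3_equiv H r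
  let τ : Equiv.Perm (Fin r) → Equiv.Perm (Fin n) := fun π =>
    E.trans ((Equiv.sumCongr π (Equiv.refl _)).trans E.symm)
  let M : Submodule k ((Fin n → H) → H) := Submodule.span k (Set.range (mono H (n := n)))
  have hfin : FiniteDimensional k M := FiniteDimensional.span_of_finite k (Set.finite_range _)
  let T : Equiv.Perm (Fin n) → ((Fin n → H) → H) →ₗ[k] ((Fin n → H) → H) := fun ρ =>
    LinearMap.funLeft k H (fun b : Fin n → H => fun i => b (ρ i))
  have hT : ∀ ρ, ∀ f ∈ M, T ρ f ∈ M := by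
    intro ρ
    change M ≤ M.comap (T ρ)
    refine Submodule.span_le.2 ?_
    rintro _ ⟨ρ', rfl⟩
    exact Submodule.subset_span ⟨ρ * ρ', funext fun _ => rfl⟩
  let U : Equiv.Perm (Fin r) → Module.End k M := fun σ => (T (τ σ)).restrict (hT (τ σ))
  have h2 : Module.finrank k M ≤ (d + 1) ^ (2 * n) :=
    (regev h n).trans (Nat.pow_le_pow_left (Nat.le_succ d) _)
  obtain ⟨g, hg, σ₀, hσ⟩ := pk3_dep U h2 (by
    rw [Fintype.card_perm, Fintype.card_fin]
    exact hr n hn)
  have key : ∀ (π : Equiv.Perm (Fin r)) (a : Fin r → H) (y : Fin (r + 1) → H),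
      ∑ σ : Equiv.Perm (Fin r), g σ • gm y (fun i => a (σ (π i))) = 0 := by
    intro π a y
    have hm : mono H (τ π) ∈ M := Submodule.subset_span (Set.mem_range_self (τ π))
    have e' := congrArg M.subtype (hg ⟨mono H (τ π), hm⟩)
    rw [map_sum, map_zero] at e'
    have e := congrFun e' (fun i => Sum.elim a y (E i))
    rw [Finset.sum_apply] at e
    refine Eq.trans (Finset.sum_congr rfl fun σ _ => ?_) e
    rw [map_smul, Pi.smul_apply]
    refine congrArg (g σ • ·) ?_
    have e1 := hE (fun x => Sum.elim a y (Equiv.sumCongr σ (Equiv.refl _)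
      (Equiv.sumCongr π (Equiv.refl _) x)))
    refine Eq.trans e1.symm ?_
    change _ = (List.ofFn fun i => Sum.elim a y (E (τ σ (τ π i)))).prod
    simp only [τ, Equiv.trans_apply, Equiv.apply_symm_apply]
  refine ⟨r, fun σ => (g σ₀)⁻¹ * g (σ₀ * σ), by simp [hσ], fun π a y => ?_⟩
  have e := key π (fun i => a (σ₀.symm i)) y
  rw [← Equiv.sum_comp (Equiv.mulLeft σ₀)] at e
  simp only [Equiv.coe_mulLeft, Equiv.Perm.mul_apply, Equiv.symm_apply_apply] at e
  simp only [mul_smul, ← Finset.smul_sum, e, smul_zero]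

end Pool.Agent.Lib.MP_ff61db_al
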