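import Pool.Agent.Lib.MP_ff61db_al.PK3

set_option autoImplicit false

namespace Pool.Agent.Lib.MP_ff61db_al

open Polynomial TensorProduct

theorem pk4_gm_succ {A : Type} [Monoid A] {n : ℕ} (y : Fin (n + 2) → A) (a : Fin (n + 1) → A) :
    gm y a = y 0 * a 0 * gm (fun i => y i.succ) (fun i => a i.succ) := by
  simp only [gm, List.ofFn_succ, List.prod_cons, mul_assoc]

theorem pk4_gm_mul {A : Type} [Monoid A] {n : ℕ} (c : A) (y : Fin (n + 1) → A) (a : Fin n → A) :
    gm (Fin.cons (c * y 0) (fun i => y i.succ) : Fin (n + 1) → A) a = c * gm y a := by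
  simp only [gm, Fin.cons_zero, Fin.cons_succ, mul_assoc]

/-- normal form of a product of constants and variables -/
theorem pk4_nf {A ι : Type} [Monoid A] [DecidableEq ι] (n : ℕ) :
    ∀ (t : Fin n → Option ι) (c : Fin n → A) (y : Fin (n + 1) → A),
      ∃ (m : ℕ) (f : Fin m → ι) (y' : Fin (m + 1) → A),
        (∀ i', ∑ i, (if f i = i' then 1 else 0 : ℕ) = ∑ l, if t l = some i' then 1 else 0) ∧
        ∀ u : ι → A, gm y (fun l => (t l).elim 1 u * c l) = gm y' (fun i => u (f i)) := by
  induction n with
  | zero =>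
    intro t c y
    exact ⟨0, Fin.elim0, y, fun i' => by simp, fun u => by simp [gm]⟩
  | succ n ih =>
    intro t c y
    obtain ⟨m, f, y', h1, h2⟩ := ih (fun l => t l.succ) (fun l => c l.succ) (fun l => y l.succ)
    rcases ht : t 0 with _ | v
    · refine ⟨m, f, Fin.cons (y 0 * c 0 * y' 0) (fun i => y' i.succ), fun i' => ?_, fun u => ?_⟩
      · rw [Fin.sum_univ_succ, h1, ht]; simp
      · rw [pk4_gm_succ, pk4_gm_mul, h2, ht]; simp
    · refine ⟨m + 1, Fin.cons v f,
        Fin.cons (y 0) (Fin.cons (c 0 * y' 0) (fun i => y' i.succ) : Fin (m + 1) → A),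
        fun i' => ?_, fun u => ?_⟩
      · rw [Fin.sum_univ_succ, Fin.sum_univ_succ, ht]
        simp only [Fin.cons_zero, Fin.cons_succ, h1, Option.some.injEq]
      · rw [pk4_gm_succ, pk4_gm_succ, h2, ht]
        simp only [Fin.cons_zero, Fin.cons_succ, Option.elim_some]
        rw [pk4_gm_mul]
        simp only [mul_assoc]

theorem pk4_nf_perm {A : Type} [Monoid A] {n r : ℕ} (t : Fin n → Option (Fin r))
    (ht : ∀ i, ∃ l, ∀ l', t l' = some i ↔ l' = l) (c : Fin n → A) (y : Fin (n + 1) → A) :
    ∃ (π : Equiv.Perm (Fin r)) (y' : Fin (r + 1) → A),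
      ∀ u : Fin r → A, gm y (fun l => (t l).elim 1 u * c l) = gm y' (fun i => u (π i)) := by
  obtain ⟨m, f, y', h1, h2⟩ := pk4_nf n t c y
  have hone : ∀ i', (Finset.univ.filter fun i => f i = i').card = 1 := by
    intro i'
    obtain ⟨l, hl⟩ := ht i'
    rw [Finset.card_filter, h1]
    simp [hl]
  have hbij : Function.Bijective f := by
    constructor
    · intro a b hab
      exact Finset.card_le_one.1 (hone (f b)).le a (by simp [hab]) b (by simp)
    · intro i'
      obtain ⟨a, ha⟩ := Finset.card_pos.1 (by rw [hone i']; exact one_pos)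
      exact ⟨a, by simpa using ha⟩
  obtain rfl : m = r := by simpa using Fintype.card_of_bijective hbij
  exact ⟨Equiv.ofBijective f hbij, y', h2⟩

/-- the Capelli polynomial as an alternating map -/
theorem pk4_alt (k : Type) {H : Type} [Field k] [Ring H] [Algebra k H] {n : ℕ}
    (y : Fin (n + 1) → H) : ∃ F : H [⋀^Fin n]→ₗ[k] H, ∀ a, F a = cap n a y := by
  refine ⟨MultilinearMap.alternatization ((LinearMap.mulLeft k (y 0)).compMultilinearMap
    ((MultilinearMap.mkPiAlgebraFin k n H).compLinearMap
      fun i => LinearMap.mulRight k (y i.succ))), fun a => ?_⟩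
  rw [MultilinearMap.alternatization_apply]
  refine Finset.sum_congr rfl fun σ _ => ?_
  rw [Units.smul_def]
  simp [gm]

theorem pk4_sum_off {n r : ℕ} (j : Fin r → Fin n) (hj : Function.Injective j) (f g : Fin n → ℕ)
    (h : ∀ l, (¬ ∃ i, j i = l) → f l = g l) :
    ∑ l, f l + ∑ i, g (j i) = ∑ l, g l + ∑ i, f (j i) := by
  classical
  have e : ∀ φ : Fin n → ℕ, ∑ l, φ l =
      ∑ i, φ (j i) + ∑ l ∈ (Finset.univ.map ⟨j, hj⟩)ᶜ, φ l := by
    intro φ
    rw [← Finset.sum_add_sum_compl (Finset.univ.map ⟨j, hj⟩) φ, Finset.sum_map]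
    rfl
  have e2 : ∑ l ∈ (Finset.univ.map ⟨j, hj⟩)ᶜ, f l = ∑ l ∈ (Finset.univ.map ⟨j, hj⟩)ᶜ, g l :=
    Finset.sum_congr rfl fun l hl => h l (by simpa using hl)
  rw [e f, e g, e2]
  ring

theorem pk4_rearr {r : ℕ} (b : Fin r → ℕ) (hb : StrictAnti b) (τ : Equiv.Perm (Fin r))
    (hτ : τ ≠ 1) :
    ∑ i : Fin r, ((i : ℕ) + b i) ^ 2 < ∑ i : Fin r, ((τ i : ℕ) + b i) ^ 2 := by
  have hav : Antivary (fun i : Fin r => (i : ℕ)) b := fun i i' h =>
    Fin.le_iff_val_le_val.1 (hb.lt_iff_gt.1 h).le
  have h1 := (hav.sum_mul_lt_sum_comp_perm_mul_iff (σ := τ)).2 (fun hv => hτ (by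
    rw [← Equiv.Perm.monotone_iff]
    intro i i' hii
    rcases hii.eq_or_lt with rfl | hlt
    · exact le_rfl
    · exact Fin.le_iff_val_le_val.2 (hv (hb hlt))))
  have h2 : ∑ i, ((τ i : ℕ)) ^ 2 = ∑ i : Fin r, (i : ℕ) ^ 2 :=
    Equiv.sum_comp τ (fun i : Fin r => (i : ℕ) ^ 2)
  simp only [add_sq, mul_assoc, Finset.sum_add_distrib, ← Finset.mul_sum, h2]
  omega

/-- the exchange step -/
theorem pk4_step {k H : Type} [Field k] [Ring H] [Algebra k H] {g : ℕ} (x : Fin g → H) {r n : ℕ}
    (h : Sparse k H r) (y : Fin (n + 1) → H) (v : Fin n → List (Fin g)) (j : Fin r → Fin n)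
    (hj : Function.Injective j) (hlen : ∀ i, r ≤ (v (j i)).length)
    (hanti : Antitone fun i => (v (j i)).length)
    (ih : ∀ v' : Fin n → List (Fin g), ∑ l, (v' l).length = ∑ l, (v l).length →
      ∑ l, (v l).length ^ 2 < ∑ l, (v' l).length ^ 2 → cap n (fun l => wd x (v' l)) y = 0) :
    cap n (fun l => wd x (v l)) y = 0 := by
  classical
  obtain ⟨α, hα1, hα⟩ := h
  set t : Fin n → Option (Fin r) := Function.extend j (fun i => some i) (fun _ => none) with ht
  have t1 : ∀ i, t (j i) = some i := fun i => hj.extend_apply _ _ i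
  have t2 : ∀ l, (¬ ∃ i, j i = l) → t l = none := fun l hl => Function.extend_apply' _ _ l hl
  have t3 : ∀ l i, t l = some i ↔ l = j i := by
    intro l i
    constructor
    · intro hl
      by_cases he : ∃ i', j i' = l
      · obtain ⟨i', rfl⟩ := he
        rw [t1] at hl
        rw [Option.some.inj hl]
      · rw [t2 l he] at hl
        exact absurd hl (by simp)
    · rintro rfl
      exact t1 i
  set U : Fin r → List (Fin g) := fun i => (v (j i)).take i with hU
  set c : Fin n → List (Fin g) := fun l => (v l).drop ((t l).elim 0 fun i => (i : ℕ)) with hc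
  set w : Equiv.Perm (Fin r) → Fin n → List (Fin g) :=
    fun τ l => (t l).elim [] (fun i => U (τ i)) ++ c l with hw
  have w1 : ∀ τ i, w τ (j i) = U (τ i) ++ (v (j i)).drop i := by
    intro τ i; simp only [hw, hc, t1, Option.elim_some]
  have w2 : ∀ τ l, (¬ ∃ i, j i = l) → w τ l = v l := by
    intro τ l hl; simp [hw, hc, t2 l hl]
  have wone : w 1 = v := by
    funext l
    by_cases he : ∃ i, j i = l
    · obtain ⟨i, rfl⟩ := he
      rw [w1]; simp [hU]
    · exact w2 1 l he
  have hUlen : ∀ i, (U i).length = i := fun i => by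
    have := hlen i
    have := i.2
    simp only [hU, List.length_take]; omega
  set b : Fin r → ℕ := fun i => (v (j i)).length - i with hb
  have wlen : ∀ τ i, (w τ (j i)).length = τ i + b i := by
    intro τ i; rw [w1, List.length_append, hUlen, List.length_drop]
  have vlen : ∀ i, (v (j i)).length = i + b i := by
    intro i
    have := hlen i
    have := i.2
    simp only [hb]; omega
  have hbs : StrictAnti b := by
    intro i i' hii
    have h1 := hanti hii.le
    have h2 := hlen i'
    have h3 := i'.2
    have h4 : (i : ℕ) < i' := hii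
    simp only [hb] at h1 ⊢
    omega
  have hzero : ∀ τ, τ ≠ 1 → cap n (fun l => wd x (w τ l)) y = 0 := by
    intro τ hτ
    refine ih (w τ) ?_ ?_
    · have e := pk4_sum_off j hj (fun l => (w τ l).length) (fun l => (v l).length)
        fun l hl => by rw [w2 τ l hl]
      simp only [wlen, vlen, Finset.sum_add_distrib] at e
      have h2 : ∑ i, (τ i : ℕ) = ∑ i : Fin r, (i : ℕ) :=
        Equiv.sum_comp τ (fun i : Fin r => (i : ℕ))
      omega
    · have e := pk4_sum_off j hj (fun l => (w τ l).length ^ 2) (fun l => (v l).length ^ 2)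
        fun l hl => by rw [w2 τ l hl]
      simp only [wlen, vlen] at e
      have := pk4_rearr b hbs τ hτ
      omega
  have hsum : ∑ τ, α τ • cap n (fun l => wd x (w τ l)) y = 0 := by
    simp only [cap, Finset.smul_sum]
    rw [Finset.sum_comm]
    refine Finset.sum_eq_zero fun σ _ => ?_
    obtain ⟨π, y', hy'⟩ := pk4_nf_perm (fun l => t (σ l))
      (fun i => ⟨σ.symm (j i), fun l' => by rw [t3, Equiv.eq_symm_apply]⟩)
      (fun l => wd x (c (σ l))) y
    have e : ∀ τ : Equiv.Perm (Fin r), gm y (fun l => wd x (w τ (σ l))) =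
        gm y' (fun i => wd x (U (τ (π i)))) := by
      intro τ
      rw [← hy' (fun i => wd x (U (τ i)))]
      congr 1
      funext l
      simp only [hw, wd_append]
      cases t (σ l) <;> simp
    simp only [e]
    simp only [smul_comm (α _) ((Equiv.Perm.sign σ : ℤˣ) : ℤ)]
    rw [← Finset.smul_sum, hα π (fun i => wd x (U i)) y', smul_zero]
  rw [Finset.sum_eq_single 1 (fun τ _ hτ => by rw [hzero τ hτ, smul_zero]) (by simp), hα1,
    one_smul, wone] at hsum
  exact hsum

/-- Kemer: a sparse identity forces a Capelli identity on an affine algebra.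
Let `n = (number of words of length < r) + r`.  `cap n a y` is multilinear and alternating in `a`, so
by `Gen.span_wd` it suffices to show `F v := cap n (wd x ∘ v) y = 0` for all tuples of words `v`.
Fix the total length `L = ∑ (v i).length` and use downward induction on `∑ (v i).length ^ 2 ≤ L ^ 2`.
If two words are equal, `F v = 0`.  Otherwise there are `r` different slots `j 0, .., j (r-1)` with
words of length `≥ r`; order them with weakly decreasing lengths.  Write `v (j i) = u i ++ w i` with
`(u i).length = i`.  For `τ` let `v τ` be `v` with `v (j i)` replaced by `u (τ i) ++ w i`.  Each term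
`gm y (wd x ∘ v τ ∘ σ)` of `F (v τ)` has the form `gm y' (wd x ∘ u ∘ τ ∘ π)` with `y', π` depending
only on `σ` (normal form lemma: a product of a list of constants and variables in which each
variable occurs once is a `gm`), so `∑ τ, α τ • F (v τ) = 0`.  For `τ ≠ 1` the total length is the
same and the sum of squares is strictly larger: `b i = (w i).length` is strictly decreasing, `i` is
strictly increasing, rearrangement inequality (`Antivary.sum_mul_lt_sum_mul_comp_perm_iff` or
similar).  So `F v = 0`. -/
theorem exists_capelli {k H : Type} [Field k] [Ring H] [Algebra k H] {g : ℕ} {x : Fin g → H}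
    (hx : Gen k x) {r : ℕ} (h : Sparse k H r) :
    ∃ n : ℕ, ∀ (a : Fin n → H) (y : Fin (n + 1) → H), cap n a y = 0 := by
  classical
  set W := (List.finite_length_lt (Fin g) r).toFinset with hW
  refine ⟨W.card + r, fun a y => ?_⟩
  obtain ⟨F, hF⟩ := pk4_alt k y
  have key : ∀ (d : ℕ) (v : Fin (W.card + r) → List (Fin g)),
      (∑ l, (v l).length) ^ 2 ≤ ∑ l, (v l).length ^ 2 + d →
      cap (W.card + r) (fun l => wd x (v l)) y = 0 := by
    intro d
    induction d using Nat.strong_induction_on with
    | _ d ih =>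
      intro v hv
      by_cases hinj : Function.Injective v
      · have hS : r ≤ (Finset.univ.filter fun l => r ≤ (v l).length).card := by
          have h1 : (Finset.univ.filter fun l => ¬ r ≤ (v l).length).card ≤ W.card :=
            Finset.card_le_card_of_injOn v (fun l hl => by simpa [hW] using hl) hinj.injOn
          have h2 := Finset.card_filter_add_card_filter_not
            (s := (Finset.univ : Finset (Fin (W.card + r)))) (fun l => r ≤ (v l).length)
          rw [Finset.card_univ, Fintype.card_fin] at h2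
          omega
        set e := (Finset.univ.filter fun l => r ≤ (v l).length).orderEmbOfCardLe hS with he
        set f : Fin r → ℕᵒᵈ := fun i => OrderDual.toDual (v (e i)).length with hf
        refine pk4_step x h y v (fun i => e (Tuple.sort f i))
          (e.injective.comp (Tuple.sort f).injective) (fun i => ?_)
          (fun i i' hii => Tuple.monotone_sort f hii) (fun v' h1 h2 => ?_)
        · have := Finset.orderEmbOfCardLe_mem _ hS (Tuple.sort f i)
          simpa using this
        · have h3 : ∑ l, (v' l).length ^ 2 ≤ (∑ l, (v' l).length) ^ 2 :=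
            Finset.sum_sq_le_sq_sum_of_nonneg (fun _ _ => Nat.zero_le _)
          rw [h1] at h3
          exact ih (d - 1) (by omega) v' (by rw [h1]; omega)
      · simp only [Function.Injective, not_forall] at hinj
        obtain ⟨l, l', h1, h2⟩ := hinj
        rw [← hF]
        exact F.map_eq_zero_of_eq _ (by rw [h1]) h2
  have hp : Function.Surjective (Finsupp.linearCombination k (wd x)) := by
    rw [← LinearMap.range_eq_top, Finsupp.range_linearCombination]
    exact hx.span_wd
  have h0 : F.toMultilinearMap.compLinearMap (fun _ => Finsupp.linearCombination k (wd x)) = 0 := by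
    refine Module.Basis.ext_multilinear (fun _ => Finsupp.basisSingleOne) fun v => ?_
    have := key _ v (Nat.le_add_left _ _)
    rw [← hF] at this
    simpa using this
  choose a' ha' using fun l => hp (a l)
  have := congrArg (fun m => m a') h0
  rw [← hF]
  simpa [ha'] using this

end Pool.Agent.Lib.MP_ff61db_al
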