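import Pool.Agent.Lib.MP_ff61db_al.PBase

set_option autoImplicit false

namespace Pool.Agent.Lib.MP_ff61db_al

open Polynomial TensorProduct

section
variable {A : Type} [Ring A]

theorem pk5_gm_succ {n : ℕ} (y : Fin (n + 2) → A) (a : Fin (n + 1) → A) :
    gm y a = y 0 * a 0 * gm (fun i => y i.succ) (fun i => a i.succ) := by
  simp only [gm, List.ofFn_succ, List.prod_cons, mul_assoc]

theorem pk5_gm_alt {n : ℕ} (y : Fin (n + 1) → A) (a : Fin n → A) :
    gm y a = (List.ofFn fun i => y i.castSucc * a i).prod * y (Fin.last n) := by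
  induction n with
  | zero => simp [gm]
  | succ n ih =>
    rw [pk5_gm_succ, ih, List.ofFn_succ, List.prod_cons]
    simp only [mul_assoc, Fin.castSucc_zero, Fin.castSucc_succ, Fin.succ_last]

theorem pk5_mul_gm {n : ℕ} (u : A) (y : Fin (n + 1) → A) (a : Fin n → A) :
    u * gm y a = gm (Function.update y 0 (u * y 0)) a := by
  simp only [gm, Function.update_self, Function.update_of_ne (Fin.succ_ne_zero _), mul_assoc]

theorem mul_cap (n : ℕ) (u : A) (a : Fin n → A) (y : Fin (n + 1) → A) :
    u * cap n a y = cap n a (Function.update y 0 (u * y 0)) := by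
  simp only [cap, Finset.mul_sum, mul_smul_comm, pk5_mul_gm]

theorem cap_mul (n : ℕ) (u : A) (a : Fin n → A) (y : Fin (n + 1) → A) :
    cap n a y * u = cap n a (Function.update y (Fin.last n) (y (Fin.last n) * u)) := by
  simp only [cap, Finset.sum_mul, smul_mul_assoc, pk5_gm_alt, Function.update_self,
    Function.update_of_ne (Fin.castSucc_ne_last _), mul_assoc]

/-- moving the factors `h` from the variables `a` to the variables `y`: reindex `S` by `σ` -/
theorem sum_cap_ins (n j : ℕ) (h : A) (a : Fin n → A) (y : Fin (n + 1) → A) :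
    ∑ S ∈ Finset.powersetCard j (Finset.univ : Finset (Fin n)), cap n (ins S h a) y =
      ∑ S ∈ Finset.powersetCard j (Finset.univ : Finset (Fin n)),
        cap n a (fun i => if i ∈ S.map Fin.castSuccEmb then y i * h else y i) := by
  simp only [cap]
  rw [Finset.sum_comm, Finset.sum_comm (s := Finset.powersetCard j _)]
  refine Finset.sum_congr rfl fun σ _ => ?_
  refine Finset.sum_nbij' (fun S => S.map σ.symm.toEmbedding) (fun S => S.map σ.toEmbedding)
    (fun S hS => ?_) (fun S hS => ?_) (fun S _ => ?_) (fun S _ => ?_) (fun S _ => ?_)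
  · simpa using hS
  · simpa using hS
  · simp [Finset.map_map]
  · simp [Finset.map_map]
  · rw [pk5_gm_alt, pk5_gm_alt, if_neg (by simp)]
    congr 3
    refine congrArg List.ofFn (funext fun i => ?_)
    have e : (i.castSucc ∈ (S.map σ.symm.toEmbedding).map Fin.castSuccEmb) ↔ σ i ∈ S := by
      rw [← Fin.castSuccEmb_apply, Finset.mem_map', Finset.mem_map_equiv, Equiv.symm_symm]
    simp only [ins, e]
    split_ifs
    · rw [mul_assoc]
    · rfl

/-- exchange relation: expand `cap (n+1) (Fin.cons z a) (1, Y * y 0, y 1, ..)` along the variable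
in the first position (`Equiv.Perm.decomposeFin`) -/
theorem cap_exchange {n : ℕ}
    (hc : ∀ (a : Fin (n + 1) → A) (y : Fin (n + 2) → A), cap (n + 1) a y = 0)
    (z Y : A) (a : Fin n → A) (y : Fin (n + 1) → A) :
    z * Y * cap n a y = ∑ l : Fin n, a l * Y * cap n (Function.update a l z) y := by
  have e := hc (Fin.cons z a) (Fin.cons 1 (Function.update y 0 (Y * y 0)))
  rw [cap, Finset.univ_perm_fin_succ, Finset.sum_map, Fintype.sum_prod_type,
    Fin.sum_univ_succ] at e
  simp only [Equiv.coe_toEmbedding, Equiv.Perm.decomposeFin.symm_sign, pk5_gm_succ,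
    Equiv.Perm.decomposeFin_symm_apply_zero, Equiv.Perm.decomposeFin_symm_apply_succ,
    Fin.cons_zero, Fin.cons_succ, one_mul, ← pk5_mul_gm, if_true, Equiv.swap_self,
    Equiv.refl_apply, Fin.succ_ne_zero, if_false] at e
  have e1 : ∀ l k : Fin n, (Fin.cons z a : Fin (n + 1) → A) (Equiv.swap 0 l.succ k.succ) =
      Function.update a l z k := by
    intro l k
    by_cases hk : k = l
    · subst hk
      simp
    · rw [Equiv.swap_apply_of_ne_of_ne (Fin.succ_ne_zero _) (by simpa using hk),
        Function.update_of_ne hk, Fin.cons_succ]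
  simp only [e1, neg_mul, one_mul, Units.val_neg, neg_smul, Finset.sum_neg_distrib] at e
  simp only [cap, Finset.mul_sum, mul_smul_comm, mul_assoc]
  exact add_neg_eq_zero.1 e

/-- Cayley-Hamilton identity modulo the Capelli identity.  Put `f a = Y * cap n a y` and
`δ j a = ∑ S of size j, f (ins S h a)`.  By `sum_cap_ins` and `cap_exchange`,
`z * δ j a = ∑ l, a l * δ j (update a l z)`.  Splitting the subsets `S` according to `l ∈ S`,
`δ j (update a l z) = X j l z + X (j-1) l (h * z)` with
`X j l z = ∑ S of size j with l ∉ S, f (update (ins S h a) l z)`, `X n l z = 0`, and no second term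
for `j = 0`.  Put `z = h ^ (n - j)`; the alternating sum telescopes. -/
theorem cap_ch {n : ℕ}
    (hc : ∀ (a : Fin (n + 1) → A) (y : Fin (n + 2) → A), cap (n + 1) a y = 0)
    (h Y : A) (a : Fin n → A) (y : Fin (n + 1) → A) :
    ∑ j ∈ Finset.range (n + 1), (-1 : ℤ) ^ j • (h ^ (n - j) * Y *
      ∑ S ∈ Finset.powersetCard j (Finset.univ : Finset (Fin n)), cap n (ins S h a) y) = 0 := by
  classical
  let δ : ℕ → (Fin n → A) → A := fun j b =>
    ∑ S ∈ Finset.powersetCard j (Finset.univ : Finset (Fin n)), cap n (ins S h b) y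
  let X : ℕ → Fin n → A → A := fun j l z =>
    ∑ S ∈ Finset.powersetCard j (Finset.univ.erase l), cap n (Function.update (ins S h a) l z) y
  have hex : ∀ (j : ℕ) (z : A), z * Y * δ j a = ∑ l, a l * Y * δ j (Function.update a l z) := by
    intro j z
    simp only [δ, sum_cap_ins, Finset.mul_sum]
    rw [Finset.sum_comm]
    exact Finset.sum_congr rfl fun S _ => cap_exchange hc z Y a _
  have hi0 : ∀ (l : Fin n) (z : A) (S : Finset (Fin n)), l ∉ S →
      ins S h (Function.update a l z) = Function.update (ins S h a) l z := by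
    intro l z S hl
    funext k
    by_cases hk : k = l
    · subst hk
      simp [ins, hl]
    · simp [ins, Function.update_of_ne hk]
  have hi1 : ∀ (l : Fin n) (z : A) (S : Finset (Fin n)),
      ins (insert l S) h (Function.update a l z) = Function.update (ins S h a) l (h * z) := by
    intro l z S
    funext k
    by_cases hk : k = l
    · subst hk
      simp [ins]
    · simp [ins, hk]
  have hnm : ∀ (j : ℕ) (l : Fin n), ∀ S ∈ Finset.powersetCard j (Finset.univ.erase l), l ∉ S :=
    fun j l S hS hl => Finset.notMem_erase l _ ((Finset.mem_powersetCard.1 hS).1 hl)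
  have h0 : ∀ (l : Fin n) (z : A), δ 0 (Function.update a l z) = X 0 l z := by
    intro l z
    simp only [δ, X, Finset.powersetCard_zero, Finset.sum_singleton]
    rw [hi0 l z ∅ (Finset.notMem_empty l)]
  have h1 : ∀ (j : ℕ) (l : Fin n) (z : A),
      δ (j + 1) (Function.update a l z) = X (j + 1) l z + X j l (h * z) := by
    intro j l z
    simp only [δ, X]
    conv_lhs => rw [← Finset.insert_erase (Finset.mem_univ l)]
    rw [Finset.powersetCard_succ_insert (Finset.notMem_erase l _), Finset.sum_union,
      Finset.sum_image]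
    · congr 1
      · exact Finset.sum_congr rfl fun S hS => by rw [hi0 l z S (hnm _ l S hS)]
      · exact Finset.sum_congr rfl fun S _ => by rw [hi1]
    · intro S hS S' hS' e
      rw [← Finset.erase_insert (hnm _ l S hS), e, Finset.erase_insert (hnm _ l S' hS')]
    · rw [Finset.disjoint_left]
      intro S hS hS'
      obtain ⟨S', -, rfl⟩ := Finset.mem_image.1 hS'
      exact hnm _ l _ hS (Finset.mem_insert_self l S')
  have key : ∀ m ≤ n, ∑ j ∈ Finset.range (m + 1), (-1 : ℤ) ^ j • (h ^ (n - j) * Y * δ j a) =
      (-1 : ℤ) ^ m • ∑ l, a l * Y * X m l (h ^ (n - m)) := by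
    intro m hm
    induction m with
    | zero => simp only [zero_add, Finset.sum_range_one, hex, h0]
    | succ m ih =>
      have e : h * h ^ (n - (m + 1)) = h ^ (n - m) := by
        rw [← pow_succ']
        congr 1
        omega
      rw [Finset.sum_range_succ, ih (by omega), hex]
      simp only [h1, e, mul_add, Finset.sum_add_distrib, smul_add, pow_succ, mul_neg, mul_one,
        neg_smul]
      abel
  refine (key n le_rfl).trans ?_
  rw [Finset.sum_eq_zero, smul_zero]
  intro l _
  have e : Finset.powersetCard n (Finset.univ.erase l) = ∅ := by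
    rw [Finset.powersetCard_eq_empty, Finset.card_erase_of_mem (Finset.mem_univ l),
      Finset.card_univ, Fintype.card_fin]
    have := l.pos
    omega
  simp only [X, e, Finset.sum_empty, mul_zero]

end

end Pool.Agent.Lib.MP_ff61db_al
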