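import Pool.Agent.Lib.MP_ff61db_al.PK5
import Pool.Agent.Lib.MP_ff61db_al.PD2

set_option autoImplicit false

namespace Pool.Agent.Lib.MP_ff61db_al

open Polynomial TensorProduct

/-- commuting operators give a map from a polynomial ring -/
theorem pk6_poly {k E ι : Type} [Field k] [Ring E] [Algebra k E] (δ : ι → E)
    (hδ : ∀ i j, Commute (δ i) (δ j)) :
    ∃ α : MvPolynomial ι k →ₐ[k] E, (∀ i, α (MvPolynomial.X i) = δ i) ∧
      ∀ e : E, (∀ i, Commute (δ i) e) → ∀ z, Commute (α z) e := by
  have hcomm : IsMulCommutative (Algebra.adjoin k (Set.range δ)) :=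
    Algebra.isMulCommutative_adjoin k (by
      rintro _ ⟨i, rfl⟩ _ ⟨j, rfl⟩
      exact hδ i j)
  let _ : CommRing (Algebra.adjoin k (Set.range δ)) :=
    { (inferInstance : Ring (Algebra.adjoin k (Set.range δ))) with
      mul_comm := fun a b => hcomm.is_comm.comm a b }
  let β : MvPolynomial ι k →ₐ[k] Algebra.adjoin k (Set.range δ) :=
    MvPolynomial.aeval fun i => ⟨δ i, Algebra.subset_adjoin ⟨i, rfl⟩⟩
  refine ⟨(Algebra.adjoin k (Set.range δ)).val.comp β, fun i => ?_, fun e he z => ?_⟩
  · simp [β]
  · refine (Algebra.commute_of_mem_adjoin_of_forall_mem_commute (β z).2 ?_).symm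
    rintro _ ⟨i, rfl⟩
    exact (he i).symm

/-- the ideal of the elements that kill the submodule generated by `X` -/
def pk6_K {k A F : Type} [Field k] [Ring A] [Algebra k A] [AddCommGroup F] [Module k F]
    (π : A →ₐ[k] Module.End k F) (X : Set F) : Ideal A where
  carrier := {t | ∀ t' : A, ∀ f ∈ X, π (t * t') f = 0}
  add_mem' := by
    intro a b ha hb t' f hf
    rw [add_mul, map_add, LinearMap.add_apply, ha t' f hf, hb t' f hf, add_zero]
  zero_mem' := by
    intro t' f hf
    simp
  smul_mem' := by
    intro r a ha t' f hf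
    rw [smul_eq_mul, mul_assoc, map_mul, Module.End.mul_apply, ha t' f hf, map_zero]

instance pk6_K_two {k A F : Type} [Field k] [Ring A] [Algebra k A] [AddCommGroup F] [Module k F]
    (π : A →ₐ[k] Module.End k F) (X : Set F) : (pk6_K π X).IsTwoSided where
  mul_mem_of_left := by
    intro a r ha t' f hf
    rw [mul_assoc]
    exact ha (r * t') f hf

theorem pk6_abs {k H Z F : Type} [Field k] [Ring H] [Algebra k H] [CommRing Z] [Algebra k Z]
    [AddCommGroup F] [Module k F] {g d : ℕ} {x : Fin g → H} (hx : Gen k x) (hd : MPI k H d)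
    (α : Z →ₐ[k] Module.End k F) (L : H →ₐ[k] Module.End k F)
    (hcomm : ∀ z h, Commute (α z) (L h)) (X : Set F)
    (hint : ∀ w : List (Fin g), w.length ≤ d → ∃ (n : ℕ) (c : Fin n → Z), ∀ u : H, ∀ f ∈ X,
      L (wd x w ^ n * u) f + ∑ j : Fin n, α (c j) (L (wd x w ^ (n - (j + 1)) * u) f) = 0) :
    ∃ c : Cov k H Z, c.Span ∧ ∀ h : H, c.φ h = 0 → ∀ f ∈ X, L h f = 0 := by
  let π : Z ⊗[k] H →ₐ[k] Module.End k F := Algebra.TensorProduct.lift α L hcomm
  have hπ : ∀ z h, π (z ⊗ₜ h) = α z * L h := fun z h => rfl
  let K := pk6_K π X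
  let φ : H →ₐ[k] (Z ⊗[k] H) ⧸ K :=
    (Ideal.Quotient.mkₐ k K).comp Algebra.TensorProduct.includeRight
  have hφ : ∀ (z : Z) (h : H), z • φ h = Ideal.Quotient.mkₐ Z K (z ⊗ₜ h) := by
    intro z h
    have h1 : φ h = Ideal.Quotient.mkₐ Z K (1 ⊗ₜ h) := rfl
    rw [h1, ← map_smul, TensorProduct.smul_tmul', smul_eq_mul, mul_one]
  have hspan : Submodule.span Z (Set.range φ) = ⊤ := by
    rw [eq_top_iff]
    rintro t -
    obtain ⟨t, rfl⟩ := Ideal.Quotient.mkₐ_surjective Z K t
    induction t using TensorProduct.induction_on with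
    | zero => simp
    | tmul z h =>
      rw [← hφ]
      exact Submodule.smul_mem _ _ (Submodule.subset_span ⟨h, rfl⟩)
    | add s t hs ht =>
      rw [map_add]
      exact Submodule.add_mem _ hs ht
  have hfg : (Submodule.span Z (Set.range φ)).FG := by
    refine shirshov_map hx hd φ fun w hw => ?_
    obtain ⟨n, c, hc⟩ := hint w hw
    refine ⟨Polynomial.X ^ n + ∑ j : Fin n, C (c j) * Polynomial.X ^ (n - (j + 1)),
      monic_X_pow_add ?_, ?_⟩
    · refine (degree_sum_le _ _).trans_lt ?_
      rw [Finset.sup_lt_iff (WithBot.bot_lt_coe _)]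
      intro j _
      refine (degree_C_mul_X_pow_le _ _).trans_lt ?_
      have := j.2
      exact_mod_cast (by omega : n - (j + 1) < n)
    · rw [← aeval_def]
      simp only [map_add, map_pow, aeval_X, map_sum, map_mul, aeval_C, ← Algebra.smul_def]
      have h1 : φ (wd x w) ^ n + ∑ j : Fin n, c j • φ (wd x w) ^ (n - (j + 1)) =
          Ideal.Quotient.mkₐ Z K ((1 : Z) ⊗ₜ (wd x w ^ n) +
            ∑ j : Fin n, c j ⊗ₜ (wd x w ^ (n - (j + 1)))) := by
        simp only [map_add, map_sum, ← hφ, one_smul, map_pow]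
      rw [h1, Ideal.Quotient.mkₐ_eq_mk, Ideal.Quotient.eq_zero_iff_mem]
      intro t' f hf
      induction t' using TensorProduct.induction_on with
      | zero => simp
      | add s t hs ht => rw [mul_add, map_add, LinearMap.add_apply, hs, ht, add_zero]
      | tmul z u =>
        have h2 := congrArg (α z) (hc u f hf)
        rw [map_zero] at h2
        rw [← h2]
        simp only [add_mul, Finset.sum_mul, Algebra.TensorProduct.tmul_mul_tmul, map_add, map_sum,
          hπ, one_mul, LinearMap.add_apply, LinearMap.sum_apply, Module.End.mul_apply]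
        congr 1
        refine Finset.sum_congr rfl fun j _ => ?_
        rw [mul_comm (c j) z, map_mul α, Module.End.mul_apply]
  have hfin : Module.Finite Z ((Z ⊗[k] H) ⧸ K) := ⟨hspan ▸ hfg⟩
  refine ⟨{ T := (Z ⊗[k] H) ⧸ K, φ := φ }, hspan, fun h hh f hf => ?_⟩
  have h1 : Ideal.Quotient.mk K ((1 : Z) ⊗ₜ[k] h) = 0 := hh
  rw [Ideal.Quotient.eq_zero_iff_mem] at h1
  have h2 := h1 1 f hf
  rwa [mul_one, hπ, map_one, one_mul] at h2

theorem pk6_split {A H : Type} [Monoid H] {s : ℕ} (G : Fin s → A → H) (a : Fin s → A) (i : Fin s) :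
    ∃ Y Y' : H, ∀ b : A,
      (List.ofFn fun l => G l (Function.update a i b l)).prod = Y * G i b * Y' := by
  refine ⟨((List.ofFn fun l => G l (a l)).take i).prod,
    ((List.ofFn fun l => G l (a l)).drop (i + 1)).prod, fun b => ?_⟩
  have h1 : (List.ofFn fun l => G l (Function.update a i b l)) =
      (List.ofFn fun l => G l (a l)).set i (G i b) := by
    refine List.ext_getElem (by simp) fun l h1 h2 => ?_
    rw [List.getElem_set]
    simp only [List.getElem_ofFn]
    split_ifs with h
    · subst h
      simp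
    · rw [Function.update_of_ne]
      intro h'
      exact h (by rw [← h'])
  rw [h1, List.prod_set, if_pos (by simp)]

theorem pk6_span {k H : Type} [Field k] [Ring H] [Algebra k H] (V : Set H) (s : ℕ) :
    ∀ h : H, (∀ l : List H, l.length = s → (∀ u ∈ l, u ∈ V) → h * l.prod = 0) →
      ∀ l : List H, l.length = s → (∀ u ∈ l, u ∈ Submodule.span k V) → h * l.prod = 0 := by
  induction s with
  | zero =>
    intro h hh l hl _
    rw [List.length_eq_zero_iff] at hl
    subst hl
    exact hh [] rfl (by simp)
  | succ s ih =>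
    intro h hh l hl hV
    obtain _ | ⟨u, l⟩ := l
    · simp at hl
    have hl' : l.length = s := by simpa using hl
    have hu : u ∈ Submodule.span k V := hV u (by simp)
    have hV' : ∀ v ∈ l, v ∈ Submodule.span k V := fun v hv => hV v (by simp [hv])
    rw [List.prod_cons, ← mul_assoc]
    clear hl hV
    induction hu using Submodule.span_induction with
    | mem u hu =>
      refine ih (h * u) (fun l' hl'' hV'' => ?_) l hl' hV'
      have := hh (u :: l') (by simp [hl'']) (by
        intro v hv
        rcases List.mem_cons.1 hv with rfl | hv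
        · exact hu
        · exact hV'' v hv)
      rwa [List.prod_cons, ← mul_assoc] at this
    | zero => simp
    | add u v _ _ hu hv => rw [mul_add, add_mul, hu, hv, add_zero]
    | smul c u _ hu => rw [mul_smul_comm, smul_mul_assoc, hu, smul_zero]

/-- the substitution in the slot `i` -/
def pk6_sub {H : Type} [Ring H] {s n : ℕ} (h : Fin s → H) (i : Fin s) (S : Finset (Fin n))
    (a : Fin s → Fin n → H) : Fin s → Fin n → H :=
  Function.update a i (ins S (h i) (a i))

theorem pk6_sub_comm {H : Type} [Ring H] {s n : ℕ} (h : Fin s → H) (i i' : Fin s)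
    (S S' : Finset (Fin n)) (a : Fin s → Fin n → H) :
    pk6_sub h i S (pk6_sub h i' S' a) = pk6_sub h i' S' (pk6_sub h i S a) := by
  unfold pk6_sub
  by_cases hi : i = i'
  · subst hi
    simp only [Function.update_self, Function.update_idem]
    congr 1
    funext l
    simp only [ins]
    split_ifs <;> rfl
  · rw [Function.update_of_ne hi, Function.update_of_ne (Ne.symm hi), Function.update_comm hi]

/-- the operators `δ i j` -/
noncomputable def pk6_delta (k : Type) {H : Type} [Field k] [Ring H] [Algebra k H] {s : ℕ} (n : ℕ)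
    (h : Fin s → H) (i : Fin s) (j : ℕ) : Module.End k ((Fin s → Fin n → H) → H) :=
  ∑ S ∈ Finset.powersetCard j (Finset.univ : Finset (Fin n)),
    LinearMap.funLeft k H (pk6_sub h i S)

theorem pk6_delta_apply (k : Type) {H : Type} [Field k] [Ring H] [Algebra k H] {s : ℕ} (n : ℕ)
    (h : Fin s → H) (i : Fin s) (j : ℕ) (f : (Fin s → Fin n → H) → H) (a : Fin s → Fin n → H) :
    pk6_delta k n h i j f a =
      ∑ S ∈ Finset.powersetCard j (Finset.univ : Finset (Fin n)), f (pk6_sub h i S a) := by
  simp [pk6_delta, LinearMap.sum_apply, Finset.sum_apply, LinearMap.funLeft_apply]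

theorem pk6_delta_comm (k : Type) {H : Type} [Field k] [Ring H] [Algebra k H] {s : ℕ} (n : ℕ)
    (h : Fin s → H) (i i' : Fin s) (j j' : ℕ) :
    Commute (pk6_delta k n h i j) (pk6_delta k n h i' j') := by
  refine Commute.sum_left _ _ _ fun S _ => Commute.sum_right _ _ _ fun S' _ => ?_
  refine LinearMap.ext fun f => funext fun a => ?_
  simp only [Module.End.mul_apply, LinearMap.funLeft_apply]
  rw [pk6_sub_comm]

/-- Razmyslov-Zubrilin step, with one alternating set of variables per short word.
Enumerate the words of length `≤ d` as `W : Fin (s + 1) → List (Fin g)` (onto).  Let `M` be the `k`-span,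
inside the functions `(Fin (s+1) → Fin n → H) → H`, of the functions
`a ↦ (List.ofFn fun i => cap n (a i) (y i)).prod`.  `M` is stable under left multiplication by `H`
(`mul_cap`), giving `ρ : H →ₐ[k] End k M`, and under the operators
`δ i j : f ↦ (a ↦ ∑ S of size j, f (update a i (ins S (wd x (W i)) (a i))))` (`sum_cap_ins`).
On the whole function space the `δ i j` commute with each other (different `i`: different slots;
the same `i`: `ins S h` and `ins S' h` commute) and with left multiplications; `δ i 0 = 1`.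
Let `Z` be the (commutative, affine) subalgebra of `End k M` generated by the `δ i j`, `j ≤ n`, and let
`T` be the subalgebra generated by `Z` and `ρ(H)` (or: the `Z`-span of `ρ(H)` inside the centralizer
of `Z`).  By `cap_ch`, `∑ j, (-1) ^ j • δ i j * ρ (wd x (W i)) ^ (n - j) = 0`, so the short words are
integral over `Z`, and `shirshov_map` shows that `T` is finite over `Z`.  If `ρ h = 0` then `h` kills
all products of `s + 1` Capelli values, hence all products of `s + 1` elements of their span. -/
theorem cov_of_capelli {k H : Type} [Field k] [Ring H] [Algebra k H] {g d : ℕ} {x : Fin g → H}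
    (hx : Gen k x) (hd : MPI k H d) {n : ℕ}
    (hc : ∀ (a : Fin (n + 1) → H) (y : Fin (n + 2) → H), cap (n + 1) a y = 0) :
    ∃ (Z : Type) (_ : CommRing Z) (_ : Algebra k Z) (_ : Algebra.FiniteType k Z) (c : Cov k H Z),
      c.Span ∧ ∃ s : ℕ, ∀ h : H, c.φ h = 0 → ∀ l : List H, l.length = s →
        (∀ u ∈ l, u ∈ Submodule.span k {v | ∃ a y, v = cap n a y}) → h * l.prod = 0 := by
  have : Finite {w : List (Fin g) // w.length ≤ d} := List.finite_length_le (Fin g) d
  obtain ⟨s, ⟨e⟩⟩ := Finite.exists_equiv_fin {w : List (Fin g) // w.length ≤ d}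
  let h : Fin s → H := fun i => wd x (e.symm i).1
  obtain ⟨α, hα, hα'⟩ := pk6_poly (k := k)
    (fun p : Fin s × Fin n => pk6_delta k n h p.1 (p.2 + 1))
    (fun p q => pk6_delta_comm k n h _ _ _ _)
  let L : H →ₐ[k] Module.End k ((Fin s → Fin n → H) → H) := Algebra.lsmul k k _
  have hL : ∀ u f a, L u f a = u * f a := fun u f a => rfl
  have hcomm : ∀ z u, Commute (α z) (L u) := by
    intro z u
    refine hα' _ (fun p => ?_) z
    refine LinearMap.ext fun f => funext fun a => ?_
    simp only [Module.End.mul_apply, pk6_delta_apply, hL, Finset.mul_sum]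
  obtain ⟨c, hsp, hker⟩ := pk6_abs hx hd α L hcomm
    (Set.range fun (y : Fin s → Fin (n + 1) → H) (a : Fin s → Fin n → H) =>
      (List.ofFn fun l => cap n (a l) (y l)).prod) (by
    intro w hw
    refine ⟨n, fun j => (-1 : ℤ) ^ (j + 1 : ℕ) • MvPolynomial.X (e ⟨w, hw⟩, j), ?_⟩
    rintro u _ ⟨y, rfl⟩
    funext a
    have hh : h (e ⟨w, hw⟩) = wd x w := by simp [h]
    generalize e ⟨w, hw⟩ = i at hh
    obtain ⟨Y, Y', hY⟩ := pk6_split (fun l b => cap n b (y l)) a i
    have h1 := congrArg (· * Y') (cap_ch hc (wd x w) (u * Y) (a i) (y i))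
    simp only [zero_mul] at h1
    rw [Finset.sum_range_succ', Finset.sum_range, add_comm, add_mul, Finset.sum_mul] at h1
    rw [Pi.zero_apply, ← h1, Pi.add_apply, Finset.sum_apply]
    congr 1
    · have h2 := hY (a i)
      rw [Function.update_eq_self] at h2
      have h3 : ins (∅ : Finset (Fin n)) (wd x w) (a i) = a i := by
        funext l
        simp [ins]
      rw [hL]
      beta_reduce
      rw [h2, Finset.powersetCard_zero, Finset.sum_singleton, h3]
      simp only [pow_zero, one_smul, Nat.sub_zero, mul_assoc]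
    · refine Finset.sum_congr rfl fun j _ => ?_
      rw [map_zsmul, hα, LinearMap.smul_apply, Pi.smul_apply, pk6_delta_apply, smul_mul_assoc]
      congr 1
      rw [Finset.mul_sum, Finset.sum_mul]
      refine Finset.sum_congr rfl fun S _ => ?_
      rw [hL]
      simp only [pk6_sub]
      rw [hY, hh]
      simp only [mul_assoc])
  refine ⟨MvPolynomial (Fin s × Fin n) k, inferInstance, inferInstance, inferInstance, c, hsp, s,
    fun u hu => pk6_span _ s u fun l hl hV => ?_⟩
  subst hl
  choose a y hay using fun i : Fin l.length => hV (l.get i) (List.get_mem l i)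
  have h1 := congrFun (hker u hu _ ⟨y, rfl⟩) a
  rw [hL] at h1
  simp only [← hay, List.ofFn_get] at h1
  exact h1

end Pool.Agent.Lib.MP_ff61db_al
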