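import Pool.Agent.Lib.MP_ff61db_al.PK4
import Pool.Agent.Lib.MP_ff61db_al.PK6
import Pool.Agent.Lib.MP_ff61db_al.PE0

set_option autoImplicit false

namespace Pool.Agent.Lib.MP_ff61db_al

open Polynomial TensorProduct

theorem pk7_split {α β : Type} {R : α → β → Prop} (Ps Qs : List β) :
    ∀ l : List α, List.Forall₂ R l (Ps ++ Qs) →
      ∃ l₁ l₂, l = l₁ ++ l₂ ∧ List.Forall₂ R l₁ Ps ∧ List.Forall₂ R l₂ Qs := by
  induction Ps with
  | nil => exact fun l h => ⟨[], l, rfl, List.Forall₂.nil, h⟩
  | cons P Ps ih =>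
    intro l h
    rw [List.cons_append, List.forall₂_cons_right_iff] at h
    obtain ⟨u, l', hu, h', rfl⟩ := h
    obtain ⟨l₁, l₂, rfl, h₁, h₂⟩ := ih l' h'
    exact ⟨u :: l₁, l₂, rfl, List.Forall₂.cons hu h₁, h₂⟩

theorem pk7_rep {A : Type} [Ring A] {Ps : List (Ideal A)} {J : Ideal A} (h : Kills Ps J) (s : ℕ) :
    ∀ l : List A, List.Forall₂ (fun x P => x ∈ P) l (List.replicate s Ps).flatten →
      ∃ l' : List A, l'.length = s ∧ (∀ u ∈ l', u ∈ J) ∧ l.prod = l'.prod := by
  induction s with
  | zero =>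
    intro l hl
    rw [List.replicate_zero, List.flatten_nil, List.forall₂_nil_right_iff] at hl
    exact ⟨[], rfl, by simp, by rw [hl]⟩
  | succ s ih =>
    intro l hl
    rw [List.replicate_succ, List.flatten_cons] at hl
    obtain ⟨l₁, l₂, rfl, h₁, h₂⟩ := pk7_split _ _ l hl
    obtain ⟨l', e1, e2, e3⟩ := ih l₂ h₂
    refine ⟨l₁.prod :: l', by rw [List.length_cons, e1], fun u hu => ?_, ?_⟩
    · rcases List.mem_cons.1 hu with rfl | hu
      · exact h l₁ h₁
      · exact e2 u hu
    · rw [List.prod_append, List.prod_cons, e3]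

theorem pk7_map_cap {A B : Type} [Ring A] [Ring B] (f : A →+* B) (n : ℕ) (a : Fin n → A)
    (y : Fin (n + 1) → A) : f (cap n a y) = cap n (fun i => f (a i)) (fun i => f (y i)) := by
  simp only [cap, gm, map_sum, map_zsmul, map_mul, map_list_prod, List.map_ofFn]
  refine Finset.sum_congr rfl fun σ _ => ?_
  congr 3
  refine congrArg List.ofFn (funext fun i => ?_)
  simp

/-- the ideal spanned by the Capelli values -/
def pk7J (k : Type) [Field k] (H : Type) [Ring H] [Algebra k H] (n : ℕ) : Ideal H where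
  carrier := {u | u ∈ Submodule.span k {v : H | ∃ a y, v = cap n a y}}
  add_mem' := fun ha hb => (Submodule.span k {v : H | ∃ a y, v = cap n a y}).add_mem ha hb
  zero_mem' := (Submodule.span k {v : H | ∃ a y, v = cap n a y}).zero_mem
  smul_mem' := by
    intro r v hv
    change r * v ∈ Submodule.span k {v : H | ∃ a y, v = cap n a y}
    induction hv using Submodule.span_induction with
    | mem v hv =>
      obtain ⟨a, y, rfl⟩ := hv
      exact Submodule.subset_span ⟨a, _, mul_cap n r a y⟩
    | zero => rw [mul_zero]; exact Submodule.zero_mem _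
    | add u v _ _ hu hv => rw [mul_add]; exact Submodule.add_mem _ hu hv
    | smul c v _ hv => rw [mul_smul_comm]; exact Submodule.smul_mem _ _ hv

instance pk7J_two (k : Type) [Field k] (H : Type) [Ring H] [Algebra k H] (n : ℕ) :
    (pk7J k H n).IsTwoSided where
  mul_mem_of_left := by
    intro v r hv
    change v * r ∈ Submodule.span k {v : H | ∃ a y, v = cap n a y}
    change v ∈ Submodule.span k {v : H | ∃ a y, v = cap n a y} at hv
    induction hv using Submodule.span_induction with
    | mem v hv =>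
      obtain ⟨a, y, rfl⟩ := hv
      exact Submodule.subset_span ⟨a, _, cap_mul n r a y⟩
    | zero => rw [zero_mul]; exact Submodule.zero_mem _
    | add u v _ _ hu hv => rw [add_mul]; exact Submodule.add_mem _ hu hv
    | smul c v _ hv => rw [smul_mul_assoc]; exact Submodule.smul_mem _ _ hv

/-- Induction on `n` for all affine algebras with the identity `MPI k H d`.  For `n = 0` the Capelli
identity says `y 0 = 0`, so `H` is trivial and the empty list works.  For `n + 1` let `J` be the
two-sided ideal whose underlying set is the span of the values `cap n a y` (`mul_cap`, `cap_mul`).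
`H ⧸ J` satisfies `cap n = 0`; pull its list back (`IsP.comap`, `Kills.comap`) to get `Ps` with
`Kills Ps J`.  `cov_of_capelli` and `Cov.exists_isP` give `Qs` with `Kills Qs (ker φ)`; then
`Qs ++ (Ps ++ .. ++ Ps)` (`s` copies) kills `H`. -/
theorem struct_of_capelli {k : Type} [Field k] {g d : ℕ} (n : ℕ) :
    ∀ (H : Type) [Ring H] [Algebra k H] (x : Fin g → H), Gen k x → MPI k H d →
      (∀ (a : Fin n → H) (y : Fin (n + 1) → H), cap n a y = 0) → Struct k H := by
  induction n with
  | zero =>
    intro H _ _ x _ _ hc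
    refine ⟨[], by simp, fun l _ => ?_⟩
    have e := hc Fin.elim0 (fun _ => l.prod)
    simpa [cap, gm] using e
  | succ n ih =>
    intro H _ _ x hx hd hc
    have hs : Function.Surjective (Ideal.Quotient.mkₐ k (pk7J k H n)) :=
      Ideal.Quotient.mkₐ_surjective k _
    obtain ⟨Ps, hPs, hK⟩ := ih (H ⧸ pk7J k H n) _ (hx.map _ hs) (hd.map _ hs) (by
      intro a y
      choose a' ha using fun i => Ideal.Quotient.mk_surjective (a i)
      choose y' hy using fun i => Ideal.Quotient.mk_surjective (y i)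
      rw [← funext ha, ← funext hy, ← pk7_map_cap, Ideal.Quotient.eq_zero_iff_mem]
      exact Submodule.subset_span (R := k) (s := {v : H | ∃ a y, v = cap n a y}) ⟨a', y', rfl⟩)
    have hK' : Kills (Ps.map (Ideal.comap (Ideal.Quotient.mkₐ k (pk7J k H n)))) (pk7J k H n) :=
      (hK.comap (Ideal.Quotient.mkₐ k (pk7J k H n))).mono fun u hu =>
        Ideal.Quotient.eq_zero_iff_mem.1 hu
    obtain ⟨Z, _, _, _, c, hsp, s, hc'⟩ := cov_of_capelli hx hd hc
    obtain ⟨Qs, hQs, hQ⟩ := Cov.exists_isP hsp
    refine ⟨Qs ++ (List.replicate s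
      (Ps.map (Ideal.comap (Ideal.Quotient.mkₐ k (pk7J k H n))))).flatten, fun P hP => ?_,
      fun l hl => ?_⟩
    · rcases List.mem_append.1 hP with hP | hP
      · exact hQs P hP
      · obtain ⟨L, hL, hP⟩ := List.mem_flatten.1 hP
        rw [List.eq_of_mem_replicate hL] at hP
        obtain ⟨P', hP', rfl⟩ := List.mem_map.1 hP
        exact (hPs P' hP').comap _ hs
    · obtain ⟨l₁, l₂, rfl, h₁, h₂⟩ := pk7_split _ _ l hl
      obtain ⟨l', e1, e2, e3⟩ := pk7_rep hK' s l₂ h₂
      rw [List.prod_append, e3, Ideal.mem_bot]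
      exact hc' _ (hQ l₁ h₁) l' e1 e2

/-- Braun-Kemer-Razmyslov -/
theorem struct_of_mpi {k H : Type} [Field k] [Ring H] [Algebra k H] {g d : ℕ} {x : Fin g → H}
    (hx : Gen k x) (hd : MPI k H d) : Struct k H := by
  obtain ⟨r, hr⟩ := exists_sparse hd
  obtain ⟨n, hn⟩ := exists_capelli hx hr
  exact struct_of_capelli n H x hx hd hn

end Pool.Agent.Lib.MP_ff61db_al
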