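import Pool.Agent.Lib.MP_ff61db_al.PJ4
import Pool.Agent.Lib.MP_ff61db_al.PA4
import Pool.Agent.Lib.MP_ff61db_al.PA5
import Pool.Agent.Lib.MP_ff61db_al.PK7
import Pool.Agent.Lib.MP_ff61db_al.PK0

set_option autoImplicit false

namespace Pool.Agent.Lib.MP_ff61db_al

open Polynomial TensorProduct

theorem noeth_left {k H : Type} [Field k] [IsAlgClosed k] [Ring H] [HopfAlgebra k H] {g d : ℕ}
    {x : Fin g → H} (hx : Gen k x) (hd : MPI k H d) : IsNoetherianRing H := by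
  obtain ⟨Λ⟩ := link_of_hopf hd
  have hΛ' : Nonempty (Link k Hᵐᵒᵖ) := by
    obtain ⟨inst, hinst⟩ := exists_hopf_op k H
    have h0 : @MPI k Hᵐᵒᵖ _ _ inst.toAlgebra d := by rw [hinst]; exact hd.op
    have h1 : Nonempty (@Link k Hᵐᵒᵖ _ _ inst.toAlgebra) := @link_of_hopf k Hᵐᵒᵖ _ _ _ inst d h0
    rw [hinst] at h1
    exact h1
  obtain ⟨Λ'⟩ := hΛ'
  obtain ⟨Λ₂⟩ := link2_of_links Λ Λ'
  exact noeth_of_link2 hx hd (struct_of_mpi hx hd) (struct_of_mpi hx.op hd.op) Λ₂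

theorem noeth_of_pi (k : Type) [Field k] [IsAlgClosed k] (H : Type) [Ring H] [HopfAlgebra k H]
    (hft : Algebra.FiniteType k H)
    (hPI : ∃ (m : ℕ) (f : FreeAlgebra k (Fin m)), f ≠ 0 ∧
      ∀ a : Fin m → H, FreeAlgebra.lift k a f = 0) :
    IsNoetherianRing H ∧ IsNoetherianRing Hᵐᵒᵖ := by
  obtain ⟨m, f, hf, h⟩ := hPI
  obtain ⟨d, hd⟩ := mpi_of_pi f hf h
  obtain ⟨g, x, hx⟩ := exists_gen (k := k) (H := H)
  refine ⟨noeth_left hx hd, ?_⟩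
  obtain ⟨inst, hinst⟩ := exists_hopf_op k H
  have h0 : @MPI k Hᵐᵒᵖ _ _ inst.toAlgebra d := by rw [hinst]; exact hd.op
  have h1 : @Gen k _ Hᵐᵒᵖ _ inst.toAlgebra g (fun i => MulOpposite.op (x i)) := by
    rw [hinst]; exact hx.op
  exact @noeth_left k Hᵐᵒᵖ _ _ _ inst g d _ h1 h0

end Pool.Agent.Lib.MP_ff61db_al
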