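import Pool.Agent.Lib.MP_ff61db_al.Grob

/-! Elements that are primitive up to lower terms of a filtration: squarefree products of
independent ones are linearly independent. -/

namespace Pool.Agent.Lib.MP_ff61db_al

open Submodule TensorProduct

variable {k A : Type} [Field k] [Ring A] [Algebra k A]

/-- The filtration of the tensor square. -/
def FF (F : ℤ → Submodule k A) (d : ℤ) : Submodule k (A ⊗[k] A) :=
  span k {t | ∃ a b x y, a + b ≤ d ∧ x ∈ F a ∧ y ∈ F b ∧ t = x ⊗ₜ[k] y}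

structure Fil (Δ : A →ₐ[k] A ⊗[k] A) (ε : A →ₐ[k] k) (F : ℤ → Submodule k A) : Prop where
  mono : Monotone F
  mul : ∀ {a b x y}, x ∈ F a → y ∈ F b → x * y ∈ F (a + b)
  one : (1 : A) ∈ F 0
  eps : ∀ x ∈ F (-1), ε x = 0
  cop : ∀ {d x}, x ∈ F d → Δ x ∈ FF F d

structure Prim (Δ : A →ₐ[k] A ⊗[k] A) (ε : A →ₐ[k] k) (F : ℤ → Submodule k A) (d : ℤ) (u : A) :
    Prop where
  mem : u ∈ F d
  eps : ε u = 0
  cop : Δ u - (u ⊗ₜ 1 + 1 ⊗ₜ u) ∈ FF F (d - 1)

variable {Δ : A →ₐ[k] A ⊗[k] A} {ε : A →ₐ[k] k} {F : ℤ → Submodule k A}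

theorem FF_mono {d d' : ℤ} (h : d ≤ d') : FF F d ≤ FF F d' :=
  span_mono fun _ ⟨a, b, x, y, h1, h2⟩ => ⟨a, b, x, y, h1.trans h, h2⟩

theorem tmul_mem_FF {a b d : ℤ} {x y : A} (hx : x ∈ F a) (hy : y ∈ F b) (h : a + b ≤ d) :
    x ⊗ₜ[k] y ∈ FF F d := subset_span ⟨a, b, x, y, h, hx, hy, rfl⟩

theorem FF_mul (hm : ∀ {a b x y}, x ∈ F a → y ∈ F b → x * y ∈ F (a + b)) {d d' : ℤ}
    {s t : A ⊗[k] A} (hs : s ∈ FF F d) (ht : t ∈ FF F d') : s * t ∈ FF F (d + d') := by
  induction hs using span_induction with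
  | zero => simp
  | add u v _ _ hu hv => rw [add_mul]; exact add_mem hu hv
  | smul c u _ hu => rw [smul_mul_assoc]; exact smul_mem _ _ hu
  | mem u hu =>
    obtain ⟨a, b, x, y, h1, h2, h3, rfl⟩ := hu
    induction ht using span_induction with
    | zero => simp
    | add u v _ _ hu hv => rw [mul_add]; exact add_mem hu hv
    | smul c u _ hu => rw [mul_smul_comm]; exact smul_mem _ _ hu
    | mem u hu =>
      obtain ⟨a', b', x', y', h1', h2', h3', rfl⟩ := hu
      rw [Algebra.TensorProduct.tmul_mul_tmul]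
      exact tmul_mem_FF (hm h2 h2') (hm h3 h3') (by omega)

theorem Prim.sym (h : (1 : A) ∈ F 0) {d : ℤ} {u : A} (hu : u ∈ F d) :
    (u ⊗ₜ 1 + 1 ⊗ₜ u : A ⊗[k] A) ∈ FF F d :=
  add_mem (tmul_mem_FF hu h (by omega)) (tmul_mem_FF h hu (by omega))

theorem Prim.lie (h : Fil Δ ε F) {d d' : ℤ} {u v : A} (hu : Prim Δ ε F d u)
    (hv : Prim Δ ε F d' v) : Prim Δ ε F (d + d') (u * v - v * u) := by
  refine ⟨sub_mem (h.mul hu.mem hv.mem) (add_comm d d' ▸ h.mul hv.mem hu.mem), by
    simp [hu.eps], ?_⟩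
  have h1 := FF_mul h.mul hu.cop (h.cop hv.mem)
  have h2 := FF_mul h.mul (Prim.sym h.one hu.mem) hv.cop
  have h3 := FF_mul h.mul hv.cop (h.cop hu.mem)
  have h4 := FF_mul h.mul (Prim.sym h.one hv.mem) hu.cop
  have h5 := sub_mem (add_mem (FF_mono (d' := d + d' - 1) (by omega) h1)
    (FF_mono (by omega) h2)) (add_mem (FF_mono (by omega) h3) (FF_mono (by omega) h4))
  refine (congrArg (· ∈ FF F (d + d' - 1)) ?_).mp h5
  simp only [map_sub, map_mul, sub_mul, mul_sub, add_mul, mul_add,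
    Algebra.TensorProduct.tmul_mul_tmul, one_mul, mul_one, sub_tmul, tmul_sub]
  abel

/-- The pairing of two functionals with a tensor. -/
noncomputable def pair (φ ψ : A →ₗ[k] k) : A ⊗[k] A →ₗ[k] k :=
  (LinearMap.mul' k k).comp (TensorProduct.map φ ψ)

@[simp] theorem pair_tmul (φ ψ : A →ₗ[k] k) (x y : A) : pair φ ψ (x ⊗ₜ y) = φ x * ψ y := by
  simp [pair]

theorem pair_FF (hF : Monotone F) {φ ψ : A →ₗ[k] k} {a b : ℤ} (h1 : ∀ x ∈ F (a - 1), φ x = 0)
    (h2 : ∀ x ∈ F (b - 1), ψ x = 0) {t : A ⊗[k] A} (ht : t ∈ FF F (a + b - 1)) :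
    pair φ ψ t = 0 := by
  induction ht using span_induction with
  | zero => simp
  | add u v _ _ hu hv => rw [map_add, hu, hv, add_zero]
  | smul c u _ hu => rw [map_smul, hu, smul_zero]
  | mem u hu =>
    obtain ⟨a', b', x, y, m1, m2, m3, rfl⟩ := hu
    rw [pair_tmul]
    by_cases e : a' ≤ a - 1
    · rw [h1 x (hF e m2), zero_mul]
    · rw [h2 y (hF (by omega) m3), mul_zero]

/-- The ordered product of the `u i`, `i ∈ T`. -/
def ordP (u : ℕ → A) (T : Finset ℕ) : A := ((T.sort (· ≥ ·)).map u).prod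

@[simp] theorem ordP_empty (u : ℕ → A) : ordP u ∅ = 1 := by simp [ordP]

@[simp] theorem ordP_singleton (u : ℕ → A) (i : ℕ) : ordP u {i} = u i := by simp [ordP]

theorem ordP_insert (u : ℕ → A) {i : ℕ} {T : Finset ℕ} (h : ∀ j ∈ T, j < i) :
    ordP u (insert i T) = u i * ordP u T := by
  rw [ordP, Finset.sort_insert _ (fun j hj => (h j hj).le) fun e => (h i e).false]
  rfl

section Indep

variable {u : ℕ → A} {d : ℕ → ℤ}

theorem ordP_mem {G : ℤ → Submodule k A} (h1 : (1 : A) ∈ G 0)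
    (hm : ∀ {a b x y}, x ∈ G a → y ∈ G b → x * y ∈ G (a + b)) (hu : ∀ i, u i ∈ G (d i))
    (T : Finset ℕ) : ordP u T ∈ G (∑ i ∈ T, d i) := by
  induction T using Finset.induction_on_max with
  | empty => simpa using h1
  | insert i T hi ih =>
    rw [ordP_insert u hi, Finset.sum_insert fun e => (hi i e).false]
    exact hm (hu i) ih

theorem ordP_cop (h : Fil Δ ε F) (hu : ∀ i, Prim Δ ε F (d i) (u i)) (T : Finset ℕ) :
    Δ (ordP u T) - ∑ S ∈ T.powerset, ordP u S ⊗ₜ ordP u (T \ S) ∈ FF F (∑ i ∈ T, d i - 1) := by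
  have hmem := ordP_mem h.one h.mul fun i => (hu i).mem
  induction T using Finset.induction_on_max with
  | empty => simp [Algebra.TensorProduct.one_def]
  | insert i T hi ih =>
    have hi' : i ∉ T := fun e => (hi i e).false
    have h1 := FF_mul h.mul (hu i).cop (h.cop (hmem T))
    have h2 := FF_mul h.mul (Prim.sym h.one (hu i).mem) ih
    have h3 := add_mem (FF_mono (d' := d i + ∑ i ∈ T, d i - 1) (by omega) h1)
      (FF_mono (by omega) h2)
    rw [Finset.sum_insert hi', ordP_insert u hi, Finset.sum_powerset_insert hi']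
    refine (congrArg (· ∈ FF F (d i + ∑ i ∈ T, d i - 1)) ?_).mp h3
    rw [map_mul, sub_mul, mul_sub, sub_add_sub_cancel, add_mul, Finset.mul_sum, Finset.mul_sum,
      add_comm]
    congr 2
    · refine Finset.sum_congr rfl fun S hS => ?_
      have hS' := Finset.mem_powerset.1 hS
      rw [Algebra.TensorProduct.tmul_mul_tmul, one_mul,
        Finset.insert_sdiff_of_notMem _ fun e => hi' (hS' e),
        ordP_insert u fun j hj => hi j (Finset.sdiff_subset hj)]
    · refine Finset.sum_congr rfl fun S hS => ?_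
      have hS' := Finset.mem_powerset.1 hS
      rw [Algebra.TensorProduct.tmul_mul_tmul, one_mul, ordP_insert u fun j hj => hi j (hS' hj),
        Finset.insert_sdiff_insert, Finset.sdiff_insert_of_notMem hi']

theorem exists_fun (h : Fil Δ ε F) (hu : ∀ i, Prim Δ ε F (d i) (u i))
    (hi : ∀ i, u i ∉ span k {a | ∃ j < i, d j = d i ∧ a = u j} ⊔ F (d i - 1)) (i : ℕ) :
    ∃ φ : A →ₗ[k] k, φ (u i) = 1 ∧ φ 1 = 0 ∧ (∀ x ∈ F (d i - 1), φ x = 0) ∧
      ∀ j < i, d j = d i → φ (u j) = 0 := by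
  obtain ⟨f, h1, h2⟩ := Submodule.exists_dual_map_eq_bot_of_notMem (hi i) inferInstance
  have h3 : ∀ x ∈ span k {a | ∃ j < i, d j = d i ∧ a = u j} ⊔ F (d i - 1), f x = 0 :=
    fun x hx => (mem_bot k).1 (h2 ▸ mem_map_of_mem hx)
  refine ⟨(f (u i))⁻¹ • (f - f 1 • ε.toLinearMap), ?_, ?_, fun x hx => ?_, fun j hj e => ?_⟩
  · simp [(hu i).eps, h1]
  · simp
  · have h4 := h3 x (mem_sup_right hx)
    by_cases e : d i ≤ 0
    · simp [h4, h.eps x (h.mono (by omega) hx)]
    · simp [h4, h3 1 (mem_sup_right (h.mono (by omega) h.one))]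
  · simp [(hu j).eps, h3 (u j) (mem_sup_left (subset_span ⟨j, hj, e, rfl⟩))]

theorem exists_Fun (h : Fil Δ ε F) (hu : ∀ i, Prim Δ ε F (d i) (u i))
    (hi : ∀ i, u i ∉ span k {a | ∃ j < i, d j = d i ∧ a = u j} ⊔ F (d i - 1)) (T : Finset ℕ) :
    ∃ Φ : A →ₗ[k] k, Φ (ordP u T) = 1 ∧ (∀ x ∈ F (∑ i ∈ T, d i - 1), Φ x = 0) ∧
      ∀ T' : Finset ℕ, ∑ i ∈ T', d i ≤ ∑ i ∈ T, d i →
        (T'.card < T.card ∨ (T'.card = T.card ∧ ∑ i ∈ T', 2 ^ i < ∑ i ∈ T, 2 ^ i)) →
        Φ (ordP u T') = 0 := by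
  have hmem := ordP_mem h.one h.mul fun i => (hu i).mem
  induction T using Finset.induction_on_max with
  | empty => exact ⟨ε.toLinearMap, by simp, fun x hx => h.eps x (by simpa using hx), by simp⟩
  | insert i T hT ih =>
    have hi' : i ∉ T := fun e => (hT i e).false
    obtain ⟨Φ, p1, p2, p3⟩ := ih
    obtain ⟨φ, q1, q2, q3, q4⟩ := exists_fun h hu hi i
    rw [Finset.sum_insert hi', Finset.sum_insert hi', Finset.card_insert_of_notMem hi']
    have ev : ∀ T' : Finset ℕ, ∑ i ∈ T', d i ≤ d i + ∑ i ∈ T, d i →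
        pair φ Φ (Δ (ordP u T')) = ∑ S ∈ T'.powerset, φ (ordP u S) * Φ (ordP u (T' \ S)) := by
      intro T' hd
      have := pair_FF h.mono q3 p2 (FF_mono (by omega) (ordP_cop h hu T'))
      rw [map_sub, sub_eq_zero, map_sum] at this
      simpa using this
    have term : ∀ T' : Finset ℕ, ∑ i ∈ T', d i ≤ d i + ∑ i ∈ T, d i → ∀ S ⊆ T',
        ((T' \ S).card < T.card ∨ S = ∅ ∨ ∃ j < i, S = {j}) →
        φ (ordP u S) * Φ (ordP u (T' \ S)) = 0 := by
      intro T' hd S hS hc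
      have hsum := Finset.sum_sdiff hS (f := d)
      by_cases e : ∑ i ∈ S, d i < d i
      · rw [q3 _ (h.mono (by omega) (hmem S)), zero_mul]
      rcases hc with hc | rfl | ⟨j, hj, rfl⟩
      · rw [p3 _ (by omega) (Or.inl hc), mul_zero]
      · simp [q2]
      · rw [Finset.sum_singleton] at hsum e
        by_cases e' : d j = d i
        · rw [ordP_singleton, q4 j hj e', zero_mul]
        · rw [p2 _ (h.mono (by omega) (hmem _)), mul_zero]
    have top : ∀ T' : Finset ℕ, ∑ i ∈ T', d i ≤ d i + ∑ i ∈ T, d i → T'.card = T.card + 1 →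
        (∀ j ∈ T', j ≤ i) →
        pair φ Φ (Δ (ordP u T')) = if i ∈ T' then Φ (ordP u (T'.erase i)) else 0 := by
      intro T' hd hc hle
      have oth : ∀ S ∈ T'.powerset, S ≠ {i} → φ (ordP u S) * Φ (ordP u (T' \ S)) = 0 := by
        intro S hS hne
        have hS' := Finset.mem_powerset.1 hS
        refine term T' hd S hS' ?_
        have := Finset.card_sdiff_add_card_eq_card hS'
        by_cases e0 : S.card = 0
        · exact Or.inr (Or.inl (Finset.card_eq_zero.1 e0))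
        by_cases e1 : S.card = 1
        · obtain ⟨j, rfl⟩ := Finset.card_eq_one.1 e1
          exact Or.inr (Or.inr ⟨j, lt_of_le_of_ne (hle j (hS' (Finset.mem_singleton_self j)))
            fun e => hne (by rw [e]), rfl⟩)
        · exact Or.inl (by omega)
      rw [ev T' hd]
      split_ifs with e
      · rw [Finset.sum_eq_single_of_mem {i} (by simpa using e) oth, ordP_singleton, q1, one_mul,
          Finset.sdiff_singleton_eq_erase]
      · exact Finset.sum_eq_zero fun S hS => oth S hS fun e' =>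
          e (Finset.mem_powerset.1 hS (e' ▸ Finset.mem_singleton_self i))
    refine ⟨(pair φ Φ).comp Δ.toLinearMap, ?_, fun x hx => pair_FF h.mono q3 p2 (h.cop hx),
      fun T' hd hc => ?_⟩
    · have := top (insert i T) (by rw [Finset.sum_insert hi'])
        (Finset.card_insert_of_notMem hi') fun j hj => by
          rcases Finset.mem_insert.1 hj with rfl | hj
          · exact le_rfl
          · exact (hT j hj).le
      rw [if_pos (Finset.mem_insert_self i T), Finset.erase_insert hi', p1] at this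
      exact this
    · change pair φ Φ (Δ (ordP u T')) = 0
      rcases hc with hc | ⟨hc, hw⟩
      · rw [ev T' hd]
        refine Finset.sum_eq_zero fun S hS => ?_
        have hS' := Finset.mem_powerset.1 hS
        refine term T' hd S hS' ?_
        have := Finset.card_sdiff_add_card_eq_card hS'
        by_cases e0 : S.card = 0
        · exact Or.inr (Or.inl (Finset.card_eq_zero.1 e0))
        · exact Or.inl (by omega)
      · have hlt : ∑ j ∈ T, 2 ^ j < 2 ^ i := Nat.geomSum_lt le_rfl hT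
        rw [top T' hd hc fun j hj => ?_]
        · split_ifs with e
          · have m1 := Finset.add_sum_erase T' d e
            have m2 := Finset.add_sum_erase T' (fun j => 2 ^ j) e
            have m3 := Finset.card_erase_add_one e
            exact p3 _ (by omega) (Or.inr ⟨by omega, by omega⟩)
          · rfl
        · have m1 : 2 ^ j ≤ ∑ j ∈ T', 2 ^ j :=
            Finset.single_le_sum (f := fun j => 2 ^ j) (fun _ _ => Nat.zero_le _) hj
          have m2 : 2 ^ j < 2 ^ (i + 1) := by omega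
          have := (Nat.pow_lt_pow_iff_right (by omega)).1 m2
          omega

theorem ordP_indep (h : Fil Δ ε F) (hu : ∀ i, Prim Δ ε F (d i) (u i))
    (hi : ∀ i, u i ∉ span k {a | ∃ j < i, d j = d i ∧ a = u j} ⊔ F (d i - 1)) :
    LinearIndependent k (ordP u) := by
  classical
  have hmem := ordP_mem h.one h.mul fun i => (hu i).mem
  rw [linearIndependent_iff']
  intro s g hg
  by_contra hne
  push Not at hne
  obtain ⟨T, hT, hmax⟩ := Finset.exists_max_image (s.filter fun T => g T ≠ 0)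
    (fun T => (toLex (∑ i ∈ T, d i, toLex (T.card, ∑ i ∈ T, 2 ^ i)) : ℤ ×ₗ ℕ ×ₗ ℕ))
    (by obtain ⟨T, h1, h2⟩ := hne; exact ⟨T, Finset.mem_filter.2 ⟨h1, h2⟩⟩)
  obtain ⟨Φ, p1, p2, p3⟩ := exists_Fun h hu hi T
  have h1 := congrArg Φ hg
  rw [map_sum, map_zero, Finset.sum_eq_single_of_mem T (Finset.mem_filter.1 hT).1, map_smul, p1,
    smul_eq_mul, mul_one] at h1
  · exact (Finset.mem_filter.1 hT).2 h1
  intro T' hT' hne'
  by_cases e : g T' = 0
  · simp [e]
  have h2 := hmax T' (Finset.mem_filter.2 ⟨hT', e⟩)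
  simp only [Prod.Lex.toLex_le_toLex] at h2
  rw [map_smul]
  rcases h2 with h2 | ⟨h2, h3 | ⟨h3, h4⟩⟩
  · rw [p2 _ (h.mono (by omega) (hmem _)), smul_zero]
  · rw [p3 _ h2.le (Or.inl h3), smul_zero]
  · rw [p3 _ h2.le (Or.inr ⟨h3, lt_of_le_of_ne h4 fun e' =>
      hne' (Finset.geomSum_injective le_rfl e')⟩), smul_zero]

end Indep

end Pool.Agent.Lib.MP_ff61db_al
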