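import Pool.Agent.Lib.MP_ff61db_al.Letters

/-! Bialgebras whose coradical has nilpotent augmentation part. -/

namespace Pool.Agent.Lib.MP_ff61db_al

open Submodule TensorProduct

variable {k H : Type} [Field k] [Ring H] [Bialgebra k H]

theorem cl_one : Cl (span k {(1 : H)}) := by
  refine IsSubcoalgebra.cl fun x hx => ?_
  obtain ⟨c, rfl⟩ := mem_span_singleton.1 hx
  exact ⟨c • (⟨1, mem_span_singleton_self _⟩ ⊗ₜ ⟨1, mem_span_singleton_self _⟩), by
    simp [Algebra.TensorProduct.one_def]⟩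

theorem one_mem_coradical : (1 : H) ∈ coradical k H := by
  have h0 : (1 : H) ≠ 0 := fun e => by
    simpa using congrArg (Bialgebra.counitAlgHom k H) e
  obtain ⟨x, ⟨h1, h2⟩, h3⟩ := (Submodule.ne_bot_iff _).1
    (coradical_meets (cl_one (k := k) (H := H)) (fg_span_singleton _) (by simpa using h0))
  obtain ⟨c, rfl⟩ := mem_span_singleton.1 h1
  have hc : c ≠ 0 := fun e => h3 (by simp [e])
  simpa [hc] using (coradical k H).smul_mem c⁻¹ h2

theorem noeth_of_surj {R S : Type} [Ring R] [Ring S] (f : R →+* S) (hf : Function.Surjective f)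
    (h : IsNoetherianRing R ∧ IsNoetherianRing Rᵐᵒᵖ) :
    IsNoetherianRing S ∧ IsNoetherianRing Sᵐᵒᵖ := by
  obtain ⟨h1, h2⟩ := h
  refine ⟨isNoetherianRing_of_surjective R S f hf,
    isNoetherianRing_of_surjective Rᵐᵒᵖ Sᵐᵒᵖ (RingHom.op f) fun y => ?_⟩
  obtain ⟨x, hx⟩ := hf y.unop
  exact ⟨MulOpposite.op x, by simp [hx]⟩

theorem stage1 {V : Submodule k H} (hV : Growth V) (hgen : Algebra.adjoin k (V : Set H) = ⊤)
    {N : ℕ}
    (hN : (coradical k H ⊓ LinearMap.ker (Coalgebra.counit (R := k) (A := H))) ^ N = ⊥) :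
    IsNoetherianRing H ∧ IsNoetherianRing Hᵐᵒᵖ := by
  obtain ⟨C, c1, c2, c3, -⟩ := exists_fd V hV.fg
  have : Module.Finite k C := Module.Finite.iff_fg.2 c1
  obtain ⟨n, hn⟩ := Uw_top coradical_cl c2 c1 fun D h1 h2 h3 => coradical_meets h1
    (Module.Finite.iff_fg.1 (Submodule.finiteDimensional_of_le h2)) h3
  obtain ⟨B, b1, -, b2⟩ := noeth_of_conil hV hgen coradical_cl one_mem_coradical hN
    (S := Empty) (fun s => s.elim) (fun s => s.elim) (fun s => s.elim) (fun s => s.elim)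
    V hV.fg (c3.trans hn)
  refine noeth_of_surj B.val.toRingHom (fun y => ?_) b2
  exact ⟨⟨y, (Algebra.adjoin_le b1 : Algebra.adjoin k (V : Set H) ≤ B)
    (hgen ▸ Algebra.mem_top)⟩, rfl⟩

end Pool.Agent.Lib.MP_ff61db_al
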